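import Pool.Agent.Work.MP_659252_gt.QR.Bas

/-!
# Variation of constants for `c'' = -c + r`.  Size: S-M.

PROOF.  For fixed `s` the function `g σ = cos (s - σ) • c σ + sin (s - σ) • c' σ` has derivative `sin (s - σ) • r σ`:
`sin (s-σ) c + cos (s-σ) c' - cos (s-σ) c' + sin (s-σ) (-c + r)`.  `g s = c s`, `g 0 = cos s c 0 + sin s c' 0 = gc (c 0) (c' 0) s`
(`intervalIntegral.integral_eq_sub_of_hasDerivAt`).  Similarly `-sin (s - σ) • c σ + cos (s - σ) • c' σ` has derivative `cos (s - σ) • r σ`.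
`voc_bound`: `|sin|, |cos| ≤ 1`, `‖∫‖ ≤ M * s ≤ 7 M` (`intervalIntegral.norm_integral_le_of_norm_le_const`).
-/

namespace Pool.Agent.Work.MP_659252_gt.QR

open scoped ContDiff Topology
open Pool.Agent.Work.MP_659252_gt.Z (V Ten val Tan InT IsZoll IsMetric IsGeodesic)

variable {d : ℕ}

private theorem dcos (s σ : ℝ) : HasDerivAt (fun σ : ℝ => Real.cos (s - σ)) (Real.sin (s - σ)) σ := by
  have h := ((hasDerivAt_id σ).const_sub s).cos
  refine h.congr_deriv ?_
  simp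

private theorem dsin (s σ : ℝ) : HasDerivAt (fun σ : ℝ => Real.sin (s - σ)) (-Real.cos (s - σ)) σ := by
  have h := ((hasDerivAt_id σ).const_sub s).sin
  refine h.congr_deriv ?_
  simp

theorem voc (c c' r : ℝ → V d) (h1 : ∀ s, HasDerivAt c (c' s) s) (h2 : ∀ s, HasDerivAt c' (-c s + r s) s)
    (hr : Continuous r) (s : ℝ) :
    c s = gc (c 0) (c' 0) s + ∫ σ in (0 : ℝ)..s, Real.sin (s - σ) • r σ ∧
      c' s = gd (c 0) (c' 0) s + ∫ σ in (0 : ℝ)..s, Real.cos (s - σ) • r σ := by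
  have hs : Continuous fun σ : ℝ => Real.sin (s - σ) • r σ :=
    (Real.continuous_sin.comp (continuous_const.sub continuous_id)).smul hr
  have hc : Continuous fun σ : ℝ => Real.cos (s - σ) • r σ :=
    (Real.continuous_cos.comp (continuous_const.sub continuous_id)).smul hr
  constructor
  · have h3 : ∀ σ : ℝ, HasDerivAt (fun σ : ℝ => Real.cos (s - σ) • c σ + Real.sin (s - σ) • c' σ)
        (Real.sin (s - σ) • r σ) σ := by
      intro σ
      have h4 := ((dcos s σ).smul (h1 σ)).add ((dsin s σ).smul (h2 σ))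
      refine h4.congr_deriv ?_
      rw [smul_add, smul_neg, neg_smul]
      abel
    have h5 := intervalIntegral.integral_eq_sub_of_hasDerivAt (a := 0) (b := s) (fun σ _ => h3 σ)
      (hs.intervalIntegrable _ _)
    rw [h5, gc]
    simp
  · have h3 : ∀ σ : ℝ, HasDerivAt (fun σ : ℝ => Real.cos (s - σ) • c' σ - Real.sin (s - σ) • c σ)
        (Real.cos (s - σ) • r σ) σ := by
      intro σ
      have h4 := ((dcos s σ).smul (h2 σ)).sub ((dsin s σ).smul (h1 σ))
      refine h4.congr_deriv ?_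
      rw [smul_add, smul_neg, neg_smul]
      abel
    have h5 := intervalIntegral.integral_eq_sub_of_hasDerivAt (a := 0) (b := s) (fun σ _ => h3 σ)
      (hc.intervalIntegrable _ _)
    rw [h5, gd]
    simp

theorem voc_bound (c c' r : ℝ → V d) (h1 : ∀ s, HasDerivAt c (c' s) s) (h2 : ∀ s, HasDerivAt c' (-c s + r s) s)
    (hr : Continuous r) (M : ℝ) (hM : ∀ σ ∈ Set.Icc (0 : ℝ) 7, ‖r σ‖ ≤ M) (s : ℝ) (hs : s ∈ Set.Icc (0 : ℝ) 7) :
    ‖c s - gc (c 0) (c' 0) s‖ ≤ 7 * M ∧ ‖c' s - gd (c 0) (c' 0) s‖ ≤ 7 * M := by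
  have hM0 : 0 ≤ M := le_trans (norm_nonneg _) (hM 0 ⟨le_rfl, by norm_num⟩)
  obtain ⟨e1, e2⟩ := voc c c' r h1 h2 hr s
  have key : ∀ f : ℝ → ℝ, (∀ σ, |f σ| ≤ 1) → ‖∫ σ in (0 : ℝ)..s, f (s - σ) • r σ‖ ≤ 7 * M := by
    intro f hf
    have h3 : ‖∫ σ in (0 : ℝ)..s, f (s - σ) • r σ‖ ≤ M * |s - 0| := by
      apply intervalIntegral.norm_integral_le_of_norm_le_const
      intro σ hσ
      rw [Set.uIoc_of_le hs.1] at hσ
      rw [norm_smul, Real.norm_eq_abs]
      calc |f (s - σ)| * ‖r σ‖ ≤ 1 * M :=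
            mul_le_mul (hf _) (hM σ ⟨hσ.1.le, hσ.2.trans hs.2⟩) (norm_nonneg _) zero_le_one
        _ = M := one_mul M
    rw [sub_zero, abs_of_nonneg hs.1] at h3
    have h4 : M * s ≤ M * 7 := mul_le_mul_of_nonneg_left hs.2 hM0
    linarith
  constructor
  · have e3 : c s - gc (c 0) (c' 0) s = ∫ σ in (0 : ℝ)..s, Real.sin (s - σ) • r σ := by
      rw [sub_eq_iff_eq_add']
      exact e1
    rw [e3]
    exact key Real.sin Real.abs_sin_le_one
  · have e3 : c' s - gd (c 0) (c' 0) s = ∫ σ in (0 : ℝ)..s, Real.cos (s - σ) • r σ := by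
      rw [sub_eq_iff_eq_add']
      exact e2
    rw [e3]
    exact key Real.cos Real.abs_cos_le_one

end Pool.Agent.Work.MP_659252_gt.QR
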