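import Pool.Agent.Work.MP_659252_gt.QR.Bas
import Pool.Agent.Work.MP_659252_gt.QR.A.VoC

/-!
# Geodesics are close to great circles, differences of geodesics are close to differences of great circles.  Size: M.

Take `C, t₁` from `Est` (hypothesis), all `s` in `[0, 7]`.
PROOF.  `InK (c s) (deriv c s)` for a `Sol`: `c ⬝ c = 1`, `‖deriv c s‖ ≤ 2` by `vb`.  `deriv c` has derivative `-c + r`, `r s = RR (G t) (c s) (deriv c s)`,
`‖r‖ ≤ C |t|` (`rb`); `r` is continuous (it is `deriv (deriv c) + c`).  `voc_bound`: first two claims with `7 C`.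
For two solutions let `D = c₂ - c₁`: `D'' = -D + ρ`, `ρ = r₂ - r₁`, `‖ρ s‖ ≤ C |t| (‖D s‖ + ‖D' s‖)` (`rl`).  Let `S` be the maximum of
`‖D s‖ + ‖D' s‖` on `[0, 7]` (compactness).  By `voc_bound` with `M = C |t| S` and `‖gc a b s‖ ≤ ‖a‖ + ‖b‖`, `‖gd a b s‖ ≤ ‖a‖ + ‖b‖`:
`S ≤ 2 δ + 14 C |t| S`, `δ = ‖D 0‖ + ‖D' 0‖`, so `S ≤ 4 δ` if `28 C |t| ≤ 1`.  Then the difference estimates hold with `28 C`.
Take `C₂ = 28 C + 4`, `t₂ = min t₁ (1/(28 C))`.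
-/

namespace Pool.Agent.Work.MP_659252_gt.QR

open scoped ContDiff Topology
open Pool.Agent.Work.MP_659252_gt.Z (V Ten val Tan InT IsZoll IsMetric IsGeodesic)

variable {d : ℕ}

private theorem norm_gc_le (a b : V d) (s : ℝ) : ‖gc a b s‖ ≤ ‖a‖ + ‖b‖ := by
  unfold gc
  refine (norm_add_le _ _).trans ?_
  rw [norm_smul, norm_smul, Real.norm_eq_abs, Real.norm_eq_abs]
  have h1 := mul_le_mul_of_nonneg_right (Real.abs_cos_le_one s) (norm_nonneg a)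
  have h2 := mul_le_mul_of_nonneg_right (Real.abs_sin_le_one s) (norm_nonneg b)
  linarith

private theorem norm_gd_le (a b : V d) (s : ℝ) : ‖gd a b s‖ ≤ ‖a‖ + ‖b‖ := by
  unfold gd
  refine (norm_sub_le _ _).trans ?_
  rw [norm_smul, norm_smul, Real.norm_eq_abs, Real.norm_eq_abs]
  have h1 := mul_le_mul_of_nonneg_right (Real.abs_cos_le_one s) (norm_nonneg b)
  have h2 := mul_le_mul_of_nonneg_right (Real.abs_sin_le_one s) (norm_nonneg a)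
  linarith

private theorem sol_ink {G : ℝ → Ten d} {C t₁ : ℝ} (H : Est G C t₁) {t : ℝ} (ht : |t| ≤ t₁) {c : ℝ → V d}
    (hc : Sol (G t) c) (s : ℝ) : InK (c s) (deriv c s) := by
  have h1 := hc.sph s
  refine ⟨by rw [h1]; norm_num, by rw [h1]; norm_num, ?_⟩
  have h2 := H.vb t ht (c s) (deriv c s) h1 (hc.spd s)
  linarith

private theorem sol_hd {G : Ten d} {c : ℝ → V d} (hc : Sol G c) (s : ℝ) : HasDerivAt c (deriv c s) s :=
  ((hc.smooth.differentiable (by simp)) s).hasDerivAt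

private theorem sol_cont {G : Ten d} {c : ℝ → V d} (hc : Sol G c) :
    Continuous fun s => RR G (c s) (deriv c s) := by
  have h1 : (fun s => RR G (c s) (deriv c s)) = fun s => deriv (deriv c) s + c s := by
    funext s
    rw [(hc.ode s).deriv]
    abel
  rw [h1]
  have h2 : ContDiff ℝ ∞ (deriv c) := by
    have h3 : ContDiff ℝ (∞ + 1) c := hc.smooth
    exact ((contDiff_succ_iff_deriv (n := ∞)).1 h3).2.2
  have h3 : ContDiff ℝ ∞ (deriv (deriv c)) := by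
    have h4 : ContDiff ℝ (∞ + 1) (deriv c) := h2
    exact ((contDiff_succ_iff_deriv (n := ∞)).1 h4).2.2
  exact h3.continuous.add hc.smooth.continuous

theorem cls (G : ℝ → Ten d) (C t₁ : ℝ) (H : Est G C t₁) :
    ∃ C₂ > 0, ∃ t₂ > 0, t₂ ≤ t₁ ∧ ∀ t, |t| ≤ t₂ →
      (∀ c, Sol (G t) c → ∀ s ∈ Set.Icc (0 : ℝ) 7, ‖c s - gc (c 0) (deriv c 0) s‖ ≤ C₂ * |t| ∧
        ‖deriv c s - gd (c 0) (deriv c 0) s‖ ≤ C₂ * |t|) ∧
      ∀ c₁ c₂, Sol (G t) c₁ → Sol (G t) c₂ → ∀ s ∈ Set.Icc (0 : ℝ) 7,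
        ‖(c₂ s - c₁ s) - gc (c₂ 0 - c₁ 0) (deriv c₂ 0 - deriv c₁ 0) s‖
          ≤ C₂ * |t| * (‖c₂ 0 - c₁ 0‖ + ‖deriv c₂ 0 - deriv c₁ 0‖) ∧
        ‖(deriv c₂ s - deriv c₁ s) - gd (c₂ 0 - c₁ 0) (deriv c₂ 0 - deriv c₁ 0) s‖
          ≤ C₂ * |t| * (‖c₂ 0 - c₁ 0‖ + ‖deriv c₂ 0 - deriv c₁ 0‖) ∧
        ‖c₂ s - c₁ s‖ ≤ C₂ * (‖c₂ 0 - c₁ 0‖ + ‖deriv c₂ 0 - deriv c₁ 0‖) ∧
        ‖deriv c₂ s - deriv c₁ s‖ ≤ C₂ * (‖c₂ 0 - c₁ 0‖ + ‖deriv c₂ 0 - deriv c₁ 0‖) := by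
  have hC := H.Cpos
  refine ⟨28 * C + 4, by positivity, min t₁ (1 / (28 * C)), lt_min H.tpos (by positivity), min_le_left _ _,
    fun t ht => ?_⟩
  have ht1 : |t| ≤ t₁ := ht.trans (min_le_left _ _)
  have ht2 : 28 * C * |t| ≤ 1 := by
    have h1 := ht.trans (min_le_right _ _)
    rw [le_div_iff₀ (by positivity)] at h1
    linarith
  have ht0 := abs_nonneg t
  have hCt : 0 ≤ C * |t| := by positivity
  refine ⟨fun c hc s hs => ?_, fun c₁ c₂ hc₁ hc₂ s hs => ?_⟩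
  · have h1 := voc_bound c (deriv c) (fun s => RR (G t) (c s) (deriv c s)) (sol_hd hc) hc.ode (sol_cont hc)
      (C * |t|) (fun σ _ => H.rb t ht1 _ _ (sol_ink H ht1 hc σ)) s hs
    constructor
    · exact h1.1.trans (by linarith)
    · exact h1.2.trans (by linarith)
  · obtain ⟨D, hD⟩ : ∃ D : ℝ → V d, D = fun s => c₂ s - c₁ s := ⟨_, rfl⟩
    obtain ⟨D', hD'⟩ : ∃ D' : ℝ → V d, D' = fun s => deriv c₂ s - deriv c₁ s := ⟨_, rfl⟩
    obtain ⟨ρ, hρ⟩ : ∃ ρ : ℝ → V d, ρ = fun s => RR (G t) (c₂ s) (deriv c₂ s) - RR (G t) (c₁ s) (deriv c₁ s) :=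
      ⟨_, rfl⟩
    have hd1 : ∀ s, HasDerivAt D (D' s) s := fun s => by
      rw [hD, hD']
      exact (sol_hd hc₂ s).sub (sol_hd hc₁ s)
    have hd2 : ∀ s, HasDerivAt D' (-D s + ρ s) s := fun s => by
      rw [hD, hD', hρ]
      refine ((hc₂.ode s).sub (hc₁.ode s)).congr_deriv ?_
      beta_reduce
      module
    have hcont : Continuous ρ := by
      rw [hρ]
      exact (sol_cont hc₂).sub (sol_cont hc₁)
    have hb : ∀ s, ‖ρ s‖ ≤ C * |t| * (‖D s‖ + ‖D' s‖) := fun s => by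
      rw [hD, hD', hρ]
      exact H.rl t ht1 _ _ _ _ (sol_ink H ht1 hc₁ s) (sol_ink H ht1 hc₂ s)
    have hcD : Continuous D := continuous_iff_continuousAt.2 fun s => (hd1 s).continuousAt
    have hcD' : Continuous D' := continuous_iff_continuousAt.2 fun s => (hd2 s).continuousAt
    obtain ⟨s₀, hs₀, hmax⟩ := (isCompact_Icc (a := (0 : ℝ)) (b := 7)).exists_isMaxOn
      ⟨0, by constructor <;> norm_num⟩ (hcD.norm.add hcD'.norm).continuousOn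
    have hmax' : ∀ σ ∈ Set.Icc (0 : ℝ) 7, ‖D σ‖ + ‖D' σ‖ ≤ ‖D s₀‖ + ‖D' s₀‖ := fun σ hσ => hmax hσ
    obtain ⟨S, hS⟩ : ∃ S : ℝ, S = ‖D s₀‖ + ‖D' s₀‖ := ⟨_, rfl⟩
    have hS0 : 0 ≤ S := by rw [hS]; positivity
    have hM : ∀ σ ∈ Set.Icc (0 : ℝ) 7, ‖ρ σ‖ ≤ C * |t| * S := fun σ hσ =>
      (hb σ).trans (mul_le_mul_of_nonneg_left (by rw [hS]; exact hmax' σ hσ) hCt)
    obtain ⟨δ, hδ⟩ : ∃ δ : ℝ, δ = ‖D 0‖ + ‖D' 0‖ := ⟨_, rfl⟩
    have hδ0 : 0 ≤ δ := by rw [hδ]; positivity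
    have hS4 : S ≤ 4 * δ := by
      have h1 := voc_bound D D' ρ hd1 hd2 hcont _ hM s₀ hs₀
      have h2 := norm_gc_le (D 0) (D' 0) s₀
      have h3 := norm_gd_le (D 0) (D' 0) s₀
      have h4 : ‖D s₀‖ ≤ ‖D s₀ - gc (D 0) (D' 0) s₀‖ + ‖gc (D 0) (D' 0) s₀‖ := by
        have := norm_add_le (D s₀ - gc (D 0) (D' 0) s₀) (gc (D 0) (D' 0) s₀)
        rwa [sub_add_cancel] at this
      have h5 : ‖D' s₀‖ ≤ ‖D' s₀ - gd (D 0) (D' 0) s₀‖ + ‖gd (D 0) (D' 0) s₀‖ := by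
        have := norm_add_le (D' s₀ - gd (D 0) (D' 0) s₀) (gd (D 0) (D' 0) s₀)
        rwa [sub_add_cancel] at this
      have h6 : 14 * (C * |t| * S) ≤ S / 2 := by
        have := mul_le_mul_of_nonneg_right ht2 hS0
        nlinarith
      have h7 : S ≤ 2 * δ + 14 * (C * |t| * S) := by
        rw [← hδ] at h2 h3
        linarith [h1.1, h1.2, hS, h4, h5]
      linarith
    have hfin := voc_bound D D' ρ hd1 hd2 hcont _ hM s hs
    have h8 : 7 * (C * |t| * S) ≤ (28 * C + 4) * |t| * δ := by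
      have h9 : C * |t| * S ≤ C * |t| * (4 * δ) := mul_le_mul_of_nonneg_left hS4 hCt
      have h10 : 0 ≤ |t| * δ := by positivity
      nlinarith
    have h11 : S ≤ (28 * C + 4) * δ := by
      have : 0 ≤ C * δ := by positivity
      nlinarith
    have h12 := hmax' s hs
    have hDs : D s = c₂ s - c₁ s := by rw [hD]
    have hDs' : D' s = deriv c₂ s - deriv c₁ s := by rw [hD']
    have hD0 : D 0 = c₂ 0 - c₁ 0 := by rw [hD]
    have hD0' : D' 0 = deriv c₂ 0 - deriv c₁ 0 := by rw [hD']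
    rw [← hDs, ← hDs', ← hD0, ← hD0', ← hδ]
    rw [← hS] at h12
    refine ⟨hfin.1.trans h8, hfin.2.trans h8, ?_, ?_⟩
    · have := norm_nonneg (D' s)
      linarith
    · have := norm_nonneg (D s)
      linarith

end Pool.Agent.Work.MP_659252_gt.QR
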