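import Pool.Agent.Work.MP_659252_gt.QR.Bas

/-!
# Derivatives of `bil (G (c s)) (a s) (b s)` and the identities of the Euler-Lagrange expression.  Size: M.

PROOF.  `hasDerivAt_bil`, `hasDerivAt_mul`: product rule, `fderiv` of `y ↦ G y i j` is linear, so the derivative of
`s ↦ G (c s) i j` is `dT G (c s) c' i j`.
`dT_add`, `dT_smul`: linearity of `fderiv` in the direction.  `dT_symm`: `G y i j = G y j i` for `y` near `x` (`y ≠ 0`).
`dT_self`: `G ((1 + r) x) = G x` for `r > -1`, differentiate at `r = 0` (`y ↦ G y i j` is differentiable at `x`).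
`dT_rad`: differentiate `bil (G x) x w = x ⬝ w` in `x` along `v`: `bil (dT G x v) x w + bil (G x) v w = v ⬝ w`.
`Eul_dot`: `Eul G x v ⬝ w = (1/2) ∑_i w_i bil (dT G x (ee i)) v v - ∑_i w_i (dT G x v v)_i = (1/2) bil (dT G x w) v v - bil (dT G x v) w v`
(linearity: `w = ∑ w_i ee i`), no hypothesis needed except differentiability is not needed either (fderiv is linear anyway).
`Eul_self`: `w = x`: first term `0` (`dT_self`), second `-bil (dT G x v) x v = -(v ⬝ v - bil (G x) v v)`.
`Eul_vel`: `w = v`.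
-/

namespace Pool.Agent.Work.MP_659252_gt.QR

open scoped ContDiff Topology
open Pool.Agent.Work.MP_659252_gt.Z (V Ten val Tan InT IsZoll IsMetric IsGeodesic)

variable {d : ℕ}

theorem hasDerivAt_bil (G : Ten d) (c a b : ℝ → V d) (c' a' b' : V d) (s : ℝ)
    (hG : ∀ i j, DifferentiableAt ℝ (fun y => G y i j) (c s)) (hc : HasDerivAt c c' s) (ha : HasDerivAt a a' s)
    (hb : HasDerivAt b b' s) :
    HasDerivAt (fun u => bil (G (c u)) (a u) (b u))
      (bil (dT G (c s) c') (a s) (b s) + bil (G (c s)) a' (b s) + bil (G (c s)) (a s) b') s := by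
  have h1 : ∀ i j, HasDerivAt (fun u => G (c u) i j) (dT G (c s) c' i j) s := fun i j =>
    (hG i j).hasFDerivAt.comp_hasDerivAt s hc
  have h2 : ∀ i, HasDerivAt (fun u => a u i) (a' i) s := fun i => hasDerivAt_pi.1 ha i
  have h3 : ∀ i, HasDerivAt (fun u => b u i) (b' i) s := fun i => hasDerivAt_pi.1 hb i
  have h4 : HasDerivAt (fun u => ∑ i, ∑ j, G (c u) i j * (a u i * b u j))
      (∑ i, ∑ j, (dT G (c s) c' i j * (a s i * b s j) + G (c s) i j * (a' i * b s j + a s i * b' j))) s :=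
    HasDerivAt.fun_sum fun i _ => HasDerivAt.fun_sum fun j _ => (h1 i j).mul ((h2 i).mul (h3 j))
  refine h4.congr_deriv ?_
  simp only [bil, ← Finset.sum_add_distrib]
  exact Finset.sum_congr rfl fun i _ => Finset.sum_congr rfl fun j _ => by ring

theorem hasDerivAt_mul (G : Ten d) (c a : ℝ → V d) (c' a' : V d) (s : ℝ)
    (hG : ∀ i j, DifferentiableAt ℝ (fun y => G y i j) (c s)) (hc : HasDerivAt c c' s) (ha : HasDerivAt a a' s) :
    HasDerivAt (fun u => mul (G (c u)) (a u)) (mul (dT G (c s) c') (a s) + mul (G (c s)) a') s := by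
  have h1 : ∀ i j, HasDerivAt (fun u => G (c u) i j) (dT G (c s) c' i j) s := fun i j =>
    (hG i j).hasFDerivAt.comp_hasDerivAt s hc
  have h2 : ∀ i, HasDerivAt (fun u => a u i) (a' i) s := fun i => hasDerivAt_pi.1 ha i
  refine hasDerivAt_pi.2 fun i => ?_
  have h4 : HasDerivAt (fun u => ∑ j, G (c u) i j * a u j)
      (∑ j, (dT G (c s) c' i j * a s j + G (c s) i j * a' j)) s :=
    HasDerivAt.fun_sum fun j _ => (h1 i j).mul (h2 j)
  refine h4.congr_deriv ?_
  simp only [mul, Pi.add_apply, ← Finset.sum_add_distrib]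

theorem dT_add (G : Ten d) (x u v : V d) : dT G x (u + v) = fun i j => dT G x u i j + dT G x v i j := by
  funext i j
  simp only [dT, map_add]

theorem dT_smul (G : Ten d) (x : V d) (c : ℝ) (v : V d) : dT G x (c • v) = fun i j => c * dT G x v i j := by
  funext i j
  simp only [dT, map_smul, smul_eq_mul]

theorem diff_of_smooth (G : Ten d) (C : Set (V d)) (hC : IsOpen C) (hG : ContDiffOn ℝ ∞ G C) (x : V d) (hx : x ∈ C)
    (i j : Fin (d + 1)) : DifferentiableAt ℝ (fun y => G y i j) x := by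
  have h1 : DifferentiableAt ℝ G x :=
    (hG.contDiffAt (hC.mem_nhds hx)).differentiableAt (by simp)
  exact differentiableAt_pi.1 (differentiableAt_pi.1 h1 i) j

theorem dT_symm (G : Ten d) (hs : ∀ x, x ≠ 0 → ∀ i j, G x i j = G x j i) (x : V d) (hx : x ≠ 0) (v : V d)
    (i j : Fin (d + 1)) : dT G x v i j = dT G x v j i := by
  have h1 : (fun y => G y i j) =ᶠ[𝓝 x] fun y => G y j i := by
    filter_upwards [isOpen_ne.mem_nhds hx] with y hy
    exact hs y hy i j
  simp only [dT]
  rw [h1.fderiv_eq]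

theorem dT_self (G : Ten d) (C : Set (V d)) (hC : IsOpen C) (hG : ContDiffOn ℝ ∞ G C)
    (hh : ∀ (c : ℝ) (x : V d), 0 < c → G (c • x) = G x) (x : V d) (hx : x ∈ C) : dT G x x = fun _ _ => 0 := by
  funext i j
  have h1 : HasDerivAt (fun r : ℝ => x + r • x) x 0 := by
    have := ((hasDerivAt_id (0 : ℝ)).smul_const x).const_add x
    simpa using this
  have h0 : x + (0 : ℝ) • x = x := by rw [zero_smul, add_zero]
  have h2 : DifferentiableAt ℝ (fun y => G y i j) (x + (0 : ℝ) • x) := by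
    rw [h0]
    exact diff_of_smooth G C hC hG x hx i j
  have h2' : HasFDerivAt (fun y => G y i j) (fderiv ℝ (fun y => G y i j) (x + (0 : ℝ) • x))
      ((fun r : ℝ => x + r • x) 0) := h2.hasFDerivAt
  have h3 : HasDerivAt (fun r : ℝ => G (x + r • x) i j) (fderiv ℝ (fun y => G y i j) (x + (0 : ℝ) • x) x) 0 :=
    HasFDerivAt.comp_hasDerivAt (f := fun r : ℝ => x + r • x) (0 : ℝ) h2' h1
  rw [h0] at h3
  have h4 : (fun r : ℝ => G (x + r • x) i j) =ᶠ[𝓝 0] fun _ => G x i j := by
    filter_upwards [Ioi_mem_nhds (show (-1 : ℝ) < 0 by norm_num)] with r hr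
    have h5 : x + r • x = (1 + r) • x := by rw [add_smul, one_smul]
    rw [h5, hh (1 + r) x (by have : -1 < r := hr; linarith)]
  have h5 := h4.hasDerivAt_iff.1 h3
  exact h5.unique (hasDerivAt_const 0 (G x i j))

theorem dT_rad (G : Ten d) (hG : Met G) (x : V d) (hx : x ≠ 0) (v w : V d) :
    bil (dT G x v) x w = v ⬝ᵥ w - bil (G x) v w := by
  have h1 : HasDerivAt (fun r : ℝ => x + r • v) v 0 := by
    have := ((hasDerivAt_id (0 : ℝ)).smul_const v).const_add x
    simpa using this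
  have h0 : x + (0 : ℝ) • v = x := by rw [zero_smul, add_zero]
  have hd : ∀ i j, DifferentiableAt ℝ (fun y => G y i j) (x + (0 : ℝ) • v) := by
    rw [h0]
    exact fun i j => diff_of_smooth G {0}ᶜ isOpen_compl_singleton hG.smooth x hx i j
  have h2 := hasDerivAt_bil G (fun r : ℝ => x + r • v) (fun r : ℝ => x + r • v) (fun _ => w) v v 0 0 hd h1 h1
    (hasDerivAt_const 0 w)
  have h3 : HasDerivAt (fun r : ℝ => (x + r • v) ⬝ᵥ w) (v ⬝ᵥ w) 0 := by
    have h4 : HasDerivAt (fun r : ℝ => x ⬝ᵥ w + r * (v ⬝ᵥ w)) (v ⬝ᵥ w) 0 := by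
      have := ((hasDerivAt_id (0 : ℝ)).mul_const (v ⬝ᵥ w)).const_add (x ⬝ᵥ w)
      simpa using this
    refine h4.congr_of_eventuallyEq (Filter.Eventually.of_forall fun r => ?_)
    simp only [add_dotProduct, smul_dotProduct, smul_eq_mul]
  have h5 : (fun r : ℝ => bil (G (x + r • v)) (x + r • v) w) =ᶠ[𝓝 0] fun r => (x + r • v) ⬝ᵥ w := by
    have h6 : ∀ᶠ r : ℝ in 𝓝 0, x + r • v ≠ 0 := by
      refine h1.continuousAt.eventually_ne ?_
      rw [h0]
      exact hx
    filter_upwards [h6] with r hr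
    exact hG.rad _ hr w
  have h6 := (h5.hasDerivAt_iff.1 h2).unique h3
  have h7 : bil (G x) x 0 = 0 := by simp [bil]
  simp only [zero_smul, add_zero] at h6
  rw [h7] at h6
  linarith

private theorem dT_sum (G : Ten d) (x w : V d) :
    dT G x w = fun i j => ∑ k, w k * dT G x (ee k) i j := by
  funext i j
  have hw : w = ∑ k, w k • (ee k : V d) := by
    funext l
    simp [ee, Finset.sum_apply, Pi.single_apply]
  simp only [dT]
  conv_lhs => rw [hw]
  rw [map_sum]
  simp only [map_smul, smul_eq_mul]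

theorem Eul_dot (G : Ten d) (x v w : V d) :
    Eul G x v ⬝ᵥ w = (1 / 2) * bil (dT G x w) v v - bil (dT G x v) w v := by
  have h1 : bil (dT G x w) v v = ∑ k, w k * bil (dT G x (ee k)) v v := by
    rw [dT_sum G x w]
    simp only [bil, Finset.mul_sum, Finset.sum_mul]
    rw [Finset.sum_congr rfl fun i _ => Finset.sum_comm, Finset.sum_comm]
    exact Finset.sum_congr rfl fun k _ => Finset.sum_congr rfl fun i _ =>
      Finset.sum_congr rfl fun j _ => by ring
  rw [h1, bil_eq_dot]
  simp only [Eul, dotProduct, Finset.mul_sum, ← Finset.sum_sub_distrib]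
  exact Finset.sum_congr rfl fun k _ => by ring

theorem Eul_self (G : Ten d) (hG : Met G) (x : V d) (hx : x ≠ 0) (v : V d) :
    Eul G x v ⬝ᵥ x = -(v ⬝ᵥ v - bil (G x) v v) := by
  rw [Eul_dot, dT_rad G hG x hx v v, dT_self G {0}ᶜ isOpen_compl_singleton hG.smooth hG.hom x hx]
  simp [bil]

theorem Eul_vel (G : Ten d) (x v : V d) : Eul G x v ⬝ᵥ v = -(1 / 2) * bil (dT G x v) v v := by
  rw [Eul_dot]
  ring

end Pool.Agent.Work.MP_659252_gt.QR
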