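import Mathlib

/-!
# Smooth functions of `(t, z)` vanishing at `t = 0` are `O(t)`, with Lipschitz constant `O(t)`.  Size: M.

PROOF.  Let `K ⊆ U` be compact.  There is `r > 0` with `K' = Metric.cthickening r K ⊆ U` compact (`IsCompact.exists_cthickening_subset_open`;
`Metric.isCompact_cthickening` / proper space).  Let `t₀ = ε/2`.  On the compact set `[-t₀, t₀] × K'` the continuous functions
`∂_t Φ (t, z) = fderiv Φ (t, z) (1, 0)` and the derivative `∂_t (fderiv Φ (t, z))` (a second derivative) are bounded by `C₁`.  So `‖Φ (t, z)‖ ≤ C₁ |t|`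
(`Φ (0, z) = 0`, mean value inequality `Convex.norm_image_sub_le_of_norm_deriv_le` in `t`) for `z ∈ K'`, and
`‖fderiv Φ (t, z) (0, w)‖ ≤ C₁ |t| ‖w‖` (at `t = 0`: `z ↦ Φ (0, z)` is `0` on the open set `U`, so its derivative is `0`).
If `‖z - z'‖ ≤ r` the segment `[z, z']` is in `K'` (points at distance `≤ r` from `z ∈ K`), so
`‖Φ (t, z) - Φ (t, z')‖ ≤ C₁ |t| ‖z - z'‖` (`Convex.norm_image_sub_le_of_norm_fderiv_le` on the segment).
If `‖z - z'‖ > r`: `‖Φ (t, z) - Φ (t, z')‖ ≤ 2 C₁ |t| ≤ (2 C₁/r) |t| ‖z - z'‖`.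
-/

namespace Pool.Agent.Work.MP_659252_gt.QR

open scoped ContDiff Topology

private theorem bd_on {E G : Type} [NormedAddCommGroup E] [NormedAddCommGroup G] {O : Set E} {f : E → G}
    (hf : ContinuousOn f O) {Q : Set E} (hQ : IsCompact Q) (hQO : Q ⊆ O) :
    ∃ C : ℝ, 0 ≤ C ∧ ∀ p ∈ Q, ‖f p‖ ≤ C := by
  obtain ⟨C, hC⟩ := hQ.exists_bound_of_continuousOn (hf.mono hQO)
  exact ⟨max C 0, le_max_right _ _, fun p hp => (hC p hp).trans (le_max_left _ _)⟩

theorem lip0 {E F : Type} [NormedAddCommGroup E] [NormedSpace ℝ E] [FiniteDimensional ℝ E]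
    [NormedAddCommGroup F] [NormedSpace ℝ F] (Φ : ℝ × E → F) (ε : ℝ) (hε : 0 < ε) (U : Set E) (hU : IsOpen U)
    (hΦ : ContDiffOn ℝ ∞ Φ (Set.Ioo (-ε) ε ×ˢ U)) (h0 : ∀ z ∈ U, Φ (0, z) = 0) (K : Set E) (hK : IsCompact K)
    (hKU : K ⊆ U) :
    ∃ C > 0, ∃ t₀ > 0, t₀ < ε ∧ ∀ t, |t| ≤ t₀ → (∀ z ∈ K, ‖Φ (t, z)‖ ≤ C * |t|) ∧
      ∀ z ∈ K, ∀ z' ∈ K, ‖Φ (t, z') - Φ (t, z)‖ ≤ C * |t| * ‖z' - z‖ := by
  have : ProperSpace E := FiniteDimensional.proper ℝ E
  obtain ⟨r, hr, hrU⟩ := hK.exists_cthickening_subset_open hU hKU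
  have hK' : IsCompact (Metric.cthickening r K) := hK.cthickening
  have hO : IsOpen (Set.Ioo (-ε) ε ×ˢ U) := isOpen_Ioo.prod hU
  have hQ : IsCompact (Set.Icc (-(ε / 2)) (ε / 2) ×ˢ Metric.cthickening r K) := isCompact_Icc.prod hK'
  have hQO : Set.Icc (-(ε / 2)) (ε / 2) ×ˢ Metric.cthickening r K ⊆ Set.Ioo (-ε) ε ×ˢ U := by
    rintro ⟨t, z⟩ ⟨ht, hz⟩
    exact ⟨⟨by linarith [ht.1], by linarith [ht.2]⟩, hrU hz⟩
  have hd1 : ContDiffOn ℝ ∞ (fderiv ℝ Φ) (Set.Ioo (-ε) ε ×ˢ U) :=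
    hΦ.fderiv_of_isOpen hO (by simp)
  have hd2 : ContDiffOn ℝ ∞ (fderiv ℝ (fderiv ℝ Φ)) (Set.Ioo (-ε) ε ×ˢ U) :=
    hd1.fderiv_of_isOpen hO (by simp)
  obtain ⟨C1, hC1, hb1⟩ := bd_on hd1.continuousOn hQ hQO
  obtain ⟨C2, hC2, hb2⟩ := bd_on hd2.continuousOn hQ hQO
  have hfd : ∀ p ∈ Set.Ioo (-ε) ε ×ˢ U, HasFDerivAt Φ (fderiv ℝ Φ p) p := fun p hp =>
    ((hΦ.contDiffAt (hO.mem_nhds hp)).differentiableAt (by simp)).hasFDerivAt
  have hfd2 : ∀ p ∈ Set.Ioo (-ε) ε ×ˢ U, HasFDerivAt (fderiv ℝ Φ) (fderiv ℝ (fderiv ℝ Φ) p) p :=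
    fun p hp => ((hd1.contDiffAt (hO.mem_nhds hp)).differentiableAt (by simp)).hasFDerivAt
  have hcurve : ∀ (z : E) (t : ℝ), HasDerivAt (fun t : ℝ => ((t, z) : ℝ × E)) (1, 0) t := fun z t =>
    (hasDerivAt_id t).prodMk (hasDerivAt_const t z)
  have hn10 : ‖((1, 0) : ℝ × E)‖ = 1 := by simp
  have hmem0 : (0 : ℝ) ∈ Set.Icc (-(ε / 2)) (ε / 2) := ⟨by linarith, by linarith⟩
  have hfirst : ∀ t, |t| ≤ ε / 2 → ∀ z ∈ Metric.cthickening r K, ‖Φ (t, z)‖ ≤ C1 * |t| := by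
    intro t ht z hz
    have h := Convex.norm_image_sub_le_of_norm_hasDerivWithin_le (f := fun t => Φ (t, z))
      (f' := fun t => fderiv ℝ Φ (t, z) (1, 0)) (C := C1) (s := Set.Icc (-(ε / 2)) (ε / 2)) (x := 0)
      (y := t) (fun x hx => ((hfd (x, z) (hQO ⟨hx, hz⟩)).comp_hasDerivAt x
        (hcurve z x)).hasDerivWithinAt)
      (fun x hx => by
        refine (ContinuousLinearMap.le_opNorm _ _).trans ?_
        rw [hn10, mul_one]
        exact hb1 _ ⟨hx, hz⟩) (convex_Icc _ _) hmem0 (abs_le.1 ht)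
    rwa [h0 z (hrU hz), sub_zero, sub_zero, Real.norm_eq_abs] at h
  have hzero : ∀ z ∈ Metric.cthickening r K, ∀ w : E, fderiv ℝ Φ (0, z) (0, w) = 0 := by
    intro z hz w
    have h1 : HasFDerivAt (fun y : E => Φ (0, y)) ((fderiv ℝ Φ (0, z)).comp
        (ContinuousLinearMap.inr ℝ ℝ E)) z :=
      (hfd (0, z) (hQO ⟨hmem0, hz⟩)).comp z (hasFDerivAt_prodMk_right (0 : ℝ) z)
    have h2 : HasFDerivAt (fun y : E => Φ (0, y)) (0 : E →L[ℝ] F) z := by
      refine (hasFDerivAt_const (0 : F) z).congr_of_eventuallyEq ?_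
      filter_upwards [hU.mem_nhds (hrU hz)] with y hy
      exact h0 y hy
    have h3 := h1.unique h2
    have h4 := congrArg (fun L : E →L[ℝ] F => L w) h3
    simpa using h4
  have hsecond : ∀ t, |t| ≤ ε / 2 → ∀ z ∈ Metric.cthickening r K, ∀ w : E,
      ‖fderiv ℝ Φ (t, z) (0, w)‖ ≤ C2 * |t| * ‖w‖ := by
    intro t ht z hz w
    have h := Convex.norm_image_sub_le_of_norm_hasDerivWithin_le (f := fun t => fderiv ℝ Φ (t, z))
      (f' := fun t => fderiv ℝ (fderiv ℝ Φ) (t, z) (1, 0)) (C := C2)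
      (s := Set.Icc (-(ε / 2)) (ε / 2)) (x := 0)
      (y := t) (fun x hx => ((hfd2 (x, z) (hQO ⟨hx, hz⟩)).comp_hasDerivAt x
        (hcurve z x)).hasDerivWithinAt)
      (fun x hx => by
        refine (ContinuousLinearMap.le_opNorm _ _).trans ?_
        rw [hn10, mul_one]
        exact hb2 _ ⟨hx, hz⟩) (convex_Icc _ _) hmem0 (abs_le.1 ht)
    rw [sub_zero, Real.norm_eq_abs] at h
    have h5 : fderiv ℝ Φ (t, z) (0, w) = (fderiv ℝ Φ (t, z) - fderiv ℝ Φ (0, z)) (0, w) := by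
      rw [ContinuousLinearMap.sub_apply, hzero z hz w, sub_zero]
    rw [h5]
    refine (ContinuousLinearMap.le_opNorm _ _).trans ?_
    have h6 : ‖((0, w) : ℝ × E)‖ = ‖w‖ := by simp [Prod.norm_def]
    rw [h6]
    exact mul_le_mul_of_nonneg_right h (norm_nonneg _)
  refine ⟨C1 + C2 + 2 * C1 / r + 1, by positivity, ε / 2, by linarith, by linarith, ?_⟩
  intro t ht
  have ht0 := abs_nonneg t
  refine ⟨fun z hz => ?_, fun z hz z' hz' => ?_⟩
  · refine (hfirst t ht z (Metric.self_subset_cthickening K hz)).trans ?_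
    apply mul_le_mul_of_nonneg_right _ ht0
    have : 0 ≤ 2 * C1 / r := by positivity
    linarith
  · rcases le_total ‖z' - z‖ r with hle | hle
    · have hsub : Metric.closedBall z r ⊆ Metric.cthickening r K :=
        Metric.closedBall_subset_cthickening hz r
      have htI : t ∈ Set.Icc (-(ε / 2)) (ε / 2) := abs_le.1 ht
      have h := Convex.norm_image_sub_le_of_norm_hasFDerivWithin_le (𝕜 := ℝ) (f := fun y => Φ (t, y))
        (f' := fun y => (fderiv ℝ Φ (t, y)).comp (ContinuousLinearMap.inr ℝ ℝ E))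
        (C := C2 * |t|) (s := Metric.closedBall z r) (x := z) (y := z')
        (fun y hy => ((hfd (t, y) (hQO ⟨htI, hsub hy⟩)).comp y
          (hasFDerivAt_prodMk_right t y)).hasFDerivWithinAt)
        (fun y hy => by
          refine ContinuousLinearMap.opNorm_le_bound _ (by positivity) fun w => ?_
          have := hsecond t ht y (hsub hy) w
          simpa using this)
        (convex_closedBall z r) (Metric.mem_closedBall_self hr.le)
        (by rwa [Metric.mem_closedBall, dist_eq_norm])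
      refine h.trans ?_
      apply mul_le_mul_of_nonneg_right _ (norm_nonneg _)
      apply mul_le_mul_of_nonneg_right _ ht0
      have : 0 ≤ 2 * C1 / r := by positivity
      linarith
    · have h1 := hfirst t ht z (Metric.self_subset_cthickening K hz)
      have h2 := hfirst t ht z' (Metric.self_subset_cthickening K hz')
      have h3 : ‖Φ (t, z') - Φ (t, z)‖ ≤ 2 * C1 * |t| := by
        refine (norm_sub_le _ _).trans ?_
        linarith
      refine h3.trans ?_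
      have h4 : 2 * C1 * |t| ≤ 2 * C1 / r * |t| * ‖z' - z‖ := by
        have h5 : 2 * C1 * |t| = 2 * C1 / r * |t| * r := by
          field_simp
        rw [h5]
        exact mul_le_mul_of_nonneg_left hle (by positivity)
      refine h4.trans ?_
      apply mul_le_mul_of_nonneg_right _ (norm_nonneg _)
      apply mul_le_mul_of_nonneg_right _ ht0
      linarith

end Pool.Agent.Work.MP_659252_gt.QR
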