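import Pool.Agent.Work.MP_659252_gt.QR.A.RRa
import Pool.Agent.Work.MP_659252_gt.QR.A.EulA
import Pool.Agent.Work.MP_659252_gt.QR.A.Lip

/-!
# Uniform estimates near the round metric.  Size: M-L (may be shared).

PROOF.  The set `K₀ = {(x, v) | InK x v}` is compact and contained in `{x ≠ 0} × univ` (`1/4 ≤ x ⬝ x`; bounded: `‖x‖² ≤ x ⬝ x ≤ 4`).
Apply `lip0` to the following functions of `(t, z)`, smooth on `(-ε, ε) × ({0}ᶜ × univ)`, zero at `t = 0`, and take the largest constant and the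
smallest `t₀`:
* `RR (G t) x v` (`RR_smooth`, `RR_round`): `rb`, `rl` (`‖(x', v') - (x, v)‖ = max ≤ sum`).
* `mul (G t x) v - v` (at `t = 0` it is `0` by `rnd`): `mb`, `ml`.
* `db`: `dT (G t) x (ee k) i j` for all `k, i, j` on the compact set `1/4 ≤ x ⬝ x ≤ 4` (zero at `t = 0`); then
  `dT (G t) x u = ∑ u_k dT (G t) x (ee k)` and `abs_bil_le`.
* `vb`: on `x ⬝ x = 1`: by `lip0` for `(t, (x, v)) ↦ bil (G t x) v v - v ⬝ v` on the compact set `x ⬝ x = 1, v ⬝ v = 1`: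
  `|bil (G t x) v v - v ⬝ v| ≤ C |t|` there, so by homogeneity `≤ C |t| (v ⬝ v)` for all `v`; for `C |t| ≤ 1/2`: `v ⬝ v ≤ 2 bil = 2`, `‖v‖² ≤ v ⬝ v`.
* `tl`: `L (t, x, v) = Lag (G t) x v` is smooth; its second derivative in `(x, v)` is bounded by `C₂` on `|t| ≤ t₀`, `(x, v) ∈ K'` (a compact
  thickening `K' = cthickening r K₀ ⊆ {x ≠ 0} × univ` as in `lip0`).  `DLag` is its derivative in `(x, v)` (`hasDerivAt_bil`, symmetry of `G`).  If
  `‖(x', v') - (x, v)‖ ≤ r`: Taylor with the bound of the second derivative on the segment.  Otherwise all three terms are bounded (by constants on the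
  compact sets, `x' - x` and `v' - v` are bounded) and `1 ≤ (‖x' - x‖ + ‖v' - v‖)² / r²`.
-/

namespace Pool.Agent.Work.MP_659252_gt.QR

open scoped ContDiff Topology
open Pool.Agent.Work.MP_659252_gt.Z (V Ten val Tan InT IsZoll IsMetric IsGeodesic)

variable {d : ℕ}

private theorem norm_zero_mk {E : Type} [NormedAddCommGroup E] (w : E) : ‖((0 : ℝ), w)‖ = ‖w‖ := by
  rw [Prod.norm_def]
  simp

private theorem norm_comp_inr {E F : Type} [NormedAddCommGroup E] [NormedSpace ℝ E]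
    [NormedAddCommGroup F] [NormedSpace ℝ F] (L : ℝ × E →L[ℝ] F) :
    ‖L.comp (ContinuousLinearMap.inr ℝ ℝ E)‖ ≤ ‖L‖ := by
  refine ContinuousLinearMap.opNorm_le_bound _ (norm_nonneg L) fun w => ?_
  have h := L.le_opNorm ((0 : ℝ), w)
  rw [norm_zero_mk] at h
  exact h

private theorem hasFDerivAt_slice {E F : Type} [NormedAddCommGroup E] [NormedSpace ℝ E]
    [NormedAddCommGroup F] [NormedSpace ℝ F] {Ψ : ℝ × E → F} {t : ℝ} {z : E}
    (h : DifferentiableAt ℝ Ψ (t, z)) :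
    HasFDerivAt (fun y => Ψ (t, y)) ((fderiv ℝ Ψ (t, z)).comp (ContinuousLinearMap.inr ℝ ℝ E)) z :=
  h.hasFDerivAt.comp z (hasFDerivAt_prodMk_right t z)

private theorem bdd_of_cont {X F : Type} [TopologicalSpace X] [NormedAddCommGroup F] {f : X → F} {S : Set X}
    (hS : IsCompact S) (hf : ContinuousOn f S) : ∃ C, ∀ x ∈ S, ‖f x‖ ≤ C :=
  hS.exists_bound_of_continuousOn hf

private theorem taylor2 {E : Type} [NormedAddCommGroup E] [NormedSpace ℝ E] [FiniteDimensional ℝ E]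
    (Φ : ℝ × E → ℝ) (ε t₀ : ℝ) (ht₀ : t₀ < ε) (U : Set E) (hU : IsOpen U)
    (hΦ : ContDiffOn ℝ ∞ Φ (Set.Ioo (-ε) ε ×ˢ U)) (K : Set E) (hK : IsCompact K) (hKU : K ⊆ U) :
    ∃ C > 0, ∀ t, |t| ≤ t₀ → ∀ z ∈ K, ∀ z' ∈ K,
      |Φ (t, z') - Φ (t, z) - fderiv ℝ Φ (t, z) (0, z' - z)| ≤ C * ‖z' - z‖ ^ 2 := by
  haveI : ProperSpace E := FiniteDimensional.proper ℝ E
  obtain ⟨r, hr, hrU⟩ := hK.exists_cthickening_subset_open hU hKU
  have hO : IsOpen (Set.Ioo (-ε) ε ×ˢ U) := isOpen_Ioo.prod hU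
  have hcc : IsCompact (Set.Icc (-t₀) t₀ ×ˢ Metric.cthickening r K) := isCompact_Icc.prod hK.cthickening
  have hsub : Set.Icc (-t₀) t₀ ×ˢ Metric.cthickening r K ⊆ Set.Ioo (-ε) ε ×ˢ U := by
    rintro ⟨t, z⟩ ⟨h1, h2⟩
    exact ⟨⟨by linarith [h1.1], by linarith [h1.2]⟩, hrU h2⟩
  have hf1 : ContDiffOn ℝ ∞ (fderiv ℝ Φ) (Set.Ioo (-ε) ε ×ˢ U) := hΦ.fderiv_of_isOpen hO (by simp)
  have hf2 : ContDiffOn ℝ ∞ (fderiv ℝ (fderiv ℝ Φ)) (Set.Ioo (-ε) ε ×ˢ U) :=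
    hf1.fderiv_of_isOpen hO (by simp)
  obtain ⟨C₀, hC₀⟩ := hcc.exists_bound_of_continuousOn (hΦ.continuousOn.mono hsub)
  obtain ⟨C₁, hC₁⟩ := hcc.exists_bound_of_continuousOn (hf1.continuousOn.mono hsub)
  obtain ⟨C₂, hC₂⟩ := bdd_of_cont hcc (hf2.continuousOn.mono hsub)
  refine ⟨|C₂| + 2 * |C₀| / r ^ 2 + |C₁| / r + 1, by positivity, fun t ht z hz z' hz' => ?_⟩
  have htI : t ∈ Set.Icc (-t₀) t₀ := ⟨(abs_le.1 ht).1, (abs_le.1 ht).2⟩
  have hself := Metric.self_subset_cthickening (δ := r) K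
  obtain ⟨D, hD⟩ : ∃ D : ℝ, D = ‖z' - z‖ := ⟨_, rfl⟩
  have hD0 : 0 ≤ D := by rw [hD]; exact norm_nonneg _
  rw [← hD]
  rcases le_or_gt D r with hle | hgt
  · -- near
    have hball : ∀ y ∈ Metric.closedBall z D, (t, y) ∈ Set.Icc (-t₀) t₀ ×ˢ Metric.cthickening r K := by
      intro y hy
      exact ⟨htI, Metric.closedBall_subset_cthickening hz r (Metric.closedBall_subset_closedBall hle hy)⟩
    have hzD : z ∈ Metric.closedBall z D := Metric.mem_closedBall_self hD0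
    have hz'D : z' ∈ Metric.closedBall z D := by
      rw [Metric.mem_closedBall, dist_eq_norm, hD]
    have hdiff : ∀ y ∈ Metric.closedBall z D, DifferentiableAt ℝ Φ (t, y) := fun y hy =>
      (hΦ.contDiffAt (hO.mem_nhds (hsub (hball y hy)))).differentiableAt (by simp)
    have hdiff2 : ∀ y ∈ Metric.closedBall z D, DifferentiableAt ℝ (fderiv ℝ Φ) (t, y) := fun y hy =>
      (hf1.contDiffAt (hO.mem_nhds (hsub (hball y hy)))).differentiableAt (by simp)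
    have hA : ∀ y ∈ Metric.closedBall z D, ‖fderiv ℝ Φ (t, y) - fderiv ℝ Φ (t, z)‖ ≤ |C₂| * D := by
      intro y hy
      have h1 := (convex_closedBall z D).norm_image_sub_le_of_norm_hasFDerivWithin_le (𝕜 := ℝ)
        (f := fun y => fderiv ℝ Φ (t, y)) (C := |C₂|)
        (fun x hx => (hasFDerivAt_slice (hdiff2 x hx)).hasFDerivWithinAt)
        (fun x hx => (norm_comp_inr _).trans ((hC₂ _ (hball x hx)).trans (le_abs_self _))) hzD hy
      refine h1.trans (mul_le_mul_of_nonneg_left ?_ (abs_nonneg _))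
      rw [← dist_eq_norm]
      exact hy
    have hB := (convex_closedBall z D).norm_image_sub_le_of_norm_hasFDerivWithin_le' (𝕜 := ℝ)
        (f := fun y => Φ (t, y)) (C := |C₂| * D)
        (φ := (fderiv ℝ Φ (t, z)).comp (ContinuousLinearMap.inr ℝ ℝ E))
        (fun x hx => (hasFDerivAt_slice (hdiff x hx)).hasFDerivWithinAt)
        (fun x hx => by
          rw [← ContinuousLinearMap.sub_comp]
          exact (norm_comp_inr _).trans (hA x hx)) hzD hz'D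
    rw [← hD] at hB
    have h3 : |Φ (t, z') - Φ (t, z) - fderiv ℝ Φ (t, z) (0, z' - z)| ≤ |C₂| * D * D := hB
    refine h3.trans ?_
    have h4 : 0 ≤ (2 * |C₀| / r ^ 2 + |C₁| / r + 1) * D ^ 2 := by positivity
    nlinarith
  · -- far
    have h1 := hC₀ (t, z) ⟨htI, hself hz⟩
    have h2 := hC₀ (t, z') ⟨htI, hself hz'⟩
    have h3 := hC₁ (t, z) ⟨htI, hself hz⟩
    have h4 : |fderiv ℝ Φ (t, z) (0, z' - z)| ≤ |C₁| * D := by
      have h5 := (fderiv ℝ Φ (t, z)).le_opNorm ((0 : ℝ), z' - z)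
      rw [norm_zero_mk, ← hD] at h5
      exact h5.trans (mul_le_mul_of_nonneg_right (h3.trans (le_abs_self _)) hD0)
    rw [Real.norm_eq_abs] at h1 h2
    have h5 : |Φ (t, z') - Φ (t, z) - fderiv ℝ Φ (t, z) (0, z' - z)| ≤
        |Φ (t, z')| + |Φ (t, z)| + |fderiv ℝ Φ (t, z) (0, z' - z)| :=
      (abs_sub _ _).trans (add_le_add_left (abs_sub _ _) _)
    have h6 := le_abs_self C₀
    have h7 : 2 * |C₀| ≤ 2 * |C₀| / r ^ 2 * D ^ 2 := by
      have h8 : r ^ 2 ≤ D ^ 2 := by nlinarith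
      rw [div_mul_eq_mul_div, le_div_iff₀ (by positivity)]
      exact mul_le_mul_of_nonneg_left h8 (by positivity)
    have h9 : |C₁| * D ≤ |C₁| / r * D ^ 2 := by
      rw [div_mul_eq_mul_div, le_div_iff₀ hr]
      have h10 : 0 ≤ |C₁| * D := by positivity
      nlinarith
    have h11 : 0 ≤ (|C₂| + 1) * D ^ 2 := by positivity
    nlinarith

private theorem ent {G : ℝ → Ten d} {ε : ℝ} (N : Nice ε G) (i j : Fin (d + 1)) :
    ContDiffOn ℝ ∞ (fun p : ℝ × V d => G p.1 p.2 i j) (Set.Ioo (-ε) ε ×ˢ {0}ᶜ) :=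
  contDiffOn_pi.1 (contDiffOn_pi.1 N.smooth i) j

private theorem hO (ε : ℝ) : IsOpen (Set.Ioo (-ε) ε ×ˢ ({0}ᶜ : Set (V d))) :=
  isOpen_Ioo.prod isOpen_compl_singleton

private theorem dT_eq {G : ℝ → Ten d} {ε : ℝ} (N : Nice ε G) {t : ℝ} (ht : t ∈ Set.Ioo (-ε) ε) {x : V d}
    (hx : x ≠ 0) (u : V d) (i j : Fin (d + 1)) :
    dT (G t) x u i j = fderiv ℝ (fun p : ℝ × V d => G p.1 p.2 i j) (t, x) (0, u) := by
  have hd : DifferentiableAt ℝ (fun p : ℝ × V d => G p.1 p.2 i j) (t, x) :=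
    ((ent N i j).contDiffAt ((hO ε).mem_nhds (Set.mk_mem_prod ht (Set.mem_compl_singleton_iff.2 hx)))).differentiableAt (by simp)
  have h2 := (hasFDerivAt_slice hd).fderiv
  unfold dT
  exact congrArg (fun L : V d →L[ℝ] ℝ => L u) h2

private theorem diffG {G : ℝ → Ten d} {ε : ℝ} (N : Nice ε G) {t : ℝ} (ht : t ∈ Set.Ioo (-ε) ε) {x : V d}
    (hx : x ≠ 0) (i j : Fin (d + 1)) : DifferentiableAt ℝ (fun y => G t y i j) x := by
  have hd : DifferentiableAt ℝ (fun p : ℝ × V d => G p.1 p.2 i j) (t, x) :=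
    ((ent N i j).contDiffAt ((hO ε).mem_nhds (Set.mk_mem_prod ht (Set.mem_compl_singleton_iff.2 hx)))).differentiableAt (by simp)
  exact (hasFDerivAt_slice hd).differentiableAt

private theorem G0 {G : ℝ → Ten d} {ε : ℝ} (N : Nice ε G) {x : V d} (hx : x ≠ 0) (i j : Fin (d + 1)) :
    G 0 x i j = ee i ⬝ᵥ ee j := by
  rw [← N.rnd x hx]
  simp [bil, ee, Pi.single_apply]

private theorem dT0 {G : ℝ → Ten d} {ε : ℝ} (N : Nice ε G) {x : V d} (hx : x ≠ 0) (u : V d)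
    (i j : Fin (d + 1)) : dT (G 0) x u i j = 0 := by
  have h1 : (fun y => G 0 y i j) =ᶠ[𝓝 x] fun _ => ee i ⬝ᵥ (ee j : V d) := by
    filter_upwards [isOpen_compl_singleton.mem_nhds hx] with y hy
    exact G0 N hy i j
  unfold dT
  rw [h1.fderiv_eq]
  simp

private theorem mul0 {G : ℝ → Ten d} {ε : ℝ} (N : Nice ε G) {x : V d} (hx : x ≠ 0) (v : V d) :
    mul (G 0 x) v = v := by
  funext i
  have h1 := N.rnd x hx (ee i) v
  rw [bil_eq_dot, dotProduct_comm, dot_ee, dotProduct_comm, dot_ee] at h1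
  exact h1

private theorem norm_le_two {x : V d} (hx : x ⬝ᵥ x ≤ 4) : ‖x‖ ≤ 2 := by
  have h1 := norm_sq_le_dot x
  have h2 := norm_nonneg x
  nlinarith

private theorem cont_dot : Continuous fun x : V d => x ⬝ᵥ x := by
  unfold dotProduct
  fun_prop

private theorem compact3 : IsCompact {x : V d | 1 / 4 ≤ x ⬝ᵥ x ∧ x ⬝ᵥ x ≤ 4} := by
  have h1 : IsClosed {x : V d | 1 / 4 ≤ x ⬝ᵥ x ∧ x ⬝ᵥ x ≤ 4} :=
    (isClosed_le continuous_const cont_dot).inter (isClosed_le cont_dot continuous_const)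
  refine (isCompact_closedBall (0 : V d) 2).of_isClosed_subset h1 fun x hx => ?_
  rw [mem_closedBall_zero_iff]
  exact norm_le_two hx.2

private theorem compact0 : IsCompact {p : V d × V d | InK p.1 p.2} := by
  have h1 : {p : V d × V d | InK p.1 p.2} =
      {x : V d | 1 / 4 ≤ x ⬝ᵥ x ∧ x ⬝ᵥ x ≤ 4} ×ˢ Metric.closedBall (0 : V d) 3 := by
    ext ⟨x, v⟩
    simp [InK, and_assoc]
  rw [h1]
  exact compact3.prod (isCompact_closedBall _ _)

private theorem ne_of_le {x : V d} (hx : 1 / 4 ≤ x ⬝ᵥ x) : x ≠ 0 := by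
  rintro rfl
  rw [dotProduct_zero] at hx
  norm_num at hx

private theorem norm_pair_le (a b : V d) : ‖((a, b) : V d × V d)‖ ≤ ‖a‖ + ‖b‖ := by
  rw [Prod.norm_def]
  exact max_le_add_of_nonneg (norm_nonneg _) (norm_nonneg _)

private theorem lag_smooth {G : ℝ → Ten d} {ε : ℝ} (N : Nice ε G) :
    ContDiffOn ℝ ∞ (fun p : ℝ × (V d × V d) => Lag (G p.1) p.2.1 p.2.2)
      (Set.Ioo (-ε) ε ×ˢ ({0}ᶜ ×ˢ Set.univ)) := by
  have hm : ContDiff ℝ ∞ (fun p : ℝ × (V d × V d) => ((p.1, p.2.1) : ℝ × V d)) :=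
    contDiff_fst.prodMk (contDiff_fst.comp contDiff_snd)
  have hG : ∀ i j, ContDiffOn ℝ ∞ (fun p : ℝ × (V d × V d) => G p.1 p.2.1 i j)
      (Set.Ioo (-ε) ε ×ˢ ({0}ᶜ ×ˢ Set.univ)) := fun i j =>
    (ent N i j).comp hm.contDiffOn fun p hp => ⟨hp.1, hp.2.1⟩
  have hv : ∀ i, ContDiffOn ℝ ∞ (fun p : ℝ × (V d × V d) => p.2.2 i)
      (Set.Ioo (-ε) ε ×ˢ ({0}ᶜ ×ˢ Set.univ)) := fun i => by
    have : ContDiff ℝ ∞ (fun p : ℝ × (V d × V d) => p.2.2 i) := by fun_prop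
    exact this.contDiffOn
  have hx : ContDiffOn ℝ ∞ (fun p : ℝ × (V d × V d) => p.2.1 ⬝ᵥ p.2.1)
      (Set.Ioo (-ε) ε ×ˢ ({0}ᶜ ×ˢ Set.univ)) := by
    have : ContDiff ℝ ∞ (fun p : ℝ × (V d × V d) => p.2.1 ⬝ᵥ p.2.1) := by
      unfold dotProduct
      fun_prop
    exact this.contDiffOn
  unfold Lag
  refine (contDiffOn_const.mul ?_).sub (contDiffOn_const.mul hx)
  unfold bil
  exact ContDiffOn.sum fun k _ => ContDiffOn.sum fun l _ => (hG k l).mul ((hv k).mul (hv l))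

private theorem lag_fderiv {G : ℝ → Ten d} {ε : ℝ} (N : Nice ε G) {t : ℝ} (ht : t ∈ Set.Ioo (-ε) ε)
    {x : V d} (hx : x ≠ 0) (v a b : V d) :
    fderiv ℝ (fun p : ℝ × (V d × V d) => Lag (G p.1) p.2.1 p.2.2) (t, (x, v)) (0, (a, b)) =
      DLag (G t) x v a b := by
  have hO' : IsOpen (Set.Ioo (-ε) ε ×ˢ (({0}ᶜ : Set (V d)) ×ˢ (Set.univ : Set (V d)))) :=
    isOpen_Ioo.prod (isOpen_compl_singleton.prod isOpen_univ)
  have hd : DifferentiableAt ℝ (fun p : ℝ × (V d × V d) => Lag (G p.1) p.2.1 p.2.2) (t, (x, v)) :=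
    ((lag_smooth N).contDiffAt (hO'.mem_nhds (Set.mk_mem_prod ht
      (Set.mk_mem_prod (Set.mem_compl_singleton_iff.2 hx) (Set.mem_univ _))))).differentiableAt (by simp)
  have hc : HasDerivAt (fun s : ℝ => x + s • a) a 0 := by
    have h1 := ((hasDerivAt_id (0 : ℝ)).smul_const a).const_add x
    simpa using h1
  have hv : HasDerivAt (fun s : ℝ => v + s • b) b 0 := by
    have h1 := ((hasDerivAt_id (0 : ℝ)).smul_const b).const_add v
    simpa using h1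
  have hcv : HasDerivAt (fun s : ℝ => ((t, (x + s • a, v + s • b)) : ℝ × (V d × V d))) (0, (a, b)) 0 :=
    (hasDerivAt_const (0 : ℝ) t).prodMk (hc.prodMk hv)
  have h0 : ((t, (x + (0 : ℝ) • a, v + (0 : ℝ) • b)) : ℝ × (V d × V d)) = (t, (x, v)) := by simp
  have hd' : HasFDerivAt (fun p : ℝ × (V d × V d) => Lag (G p.1) p.2.1 p.2.2)
      (fderiv ℝ (fun p : ℝ × (V d × V d) => Lag (G p.1) p.2.1 p.2.2) (t, (x, v)))
      ((t, (x + (0 : ℝ) • a, v + (0 : ℝ) • b)) : ℝ × (V d × V d)) := by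
    rw [h0]
    exact hd.hasFDerivAt
  have h1 := hd'.comp_hasDerivAt (0 : ℝ) hcv
  have hx0 : x + (0 : ℝ) • a = x := by simp
  have hv0 : v + (0 : ℝ) • b = v := by simp
  have h2 := hasDerivAt_bil (G t) (fun s : ℝ => x + s • a) (fun s : ℝ => v + s • b)
    (fun s : ℝ => v + s • b) a b b 0 (fun i j => by
      show DifferentiableAt ℝ (fun y => G t y i j) (x + (0 : ℝ) • a)
      rw [hx0]
      exact diffG N ht hx i j) hc hv hv
  beta_reduce at h2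
  rw [hx0, hv0] at h2
  have h3 : HasDerivAt (fun s : ℝ => (x + s • a) ⬝ᵥ (x + s • a)) (a ⬝ᵥ x + x ⬝ᵥ a) 0 := by
    have h4 : (fun s : ℝ => (x + s • a) ⬝ᵥ (x + s • a)) =
        fun s : ℝ => x ⬝ᵥ x + s * (a ⬝ᵥ x + x ⬝ᵥ a) + s ^ 2 * (a ⬝ᵥ a) := by
      funext s
      rw [add_dotProduct, dotProduct_add, dotProduct_add, smul_dotProduct, smul_dotProduct, dotProduct_smul,
        dotProduct_smul]
      simp only [smul_eq_mul]
      ring
    rw [h4]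
    have h5 := (((hasDerivAt_id (0 : ℝ)).mul_const (a ⬝ᵥ x + x ⬝ᵥ a)).const_add (x ⬝ᵥ x)).add
      (((hasDerivAt_id (0 : ℝ)).pow 2).mul_const (a ⬝ᵥ a))
    refine h5.congr_deriv ?_
    simp
  have h6 := (h2.const_mul (1 / 2 : ℝ)).sub (h3.const_mul (1 / 2 : ℝ))
  have h7 := h1.unique h6
  rw [h7]
  unfold DLag
  have hs : ∀ i j, G t x i j = G t x j i := (N.met t ht).symm x hx
  rw [bil_comm hs b v, bil_comm hs v b, bil_eq_dot (G t x) b v, dotProduct_comm b, dotProduct_comm a x]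
  ring

theorem est (ε : ℝ) (G : ℝ → Ten d) (N : Nice ε G) : ∃ C t₁ : ℝ, t₁ < ε ∧ Est G C t₁ := by
  have hε := N.pos
  have hUo : IsOpen (({0}ᶜ : Set (V d)) ×ˢ (Set.univ : Set (V d))) := isOpen_compl_singleton.prod isOpen_univ
  have hsub0 : {p : V d × V d | InK p.1 p.2} ⊆ ({0}ᶜ : Set (V d)) ×ˢ (Set.univ : Set (V d)) := fun p hp =>
    ⟨ne_of_le hp.1, Set.mem_univ _⟩
  -- the right side of the geodesic equation
  obtain ⟨C₁, hC₁, τ₁, hτ₁, hτ₁ε, H₁⟩ := lip0 (fun p : ℝ × (V d × V d) => RR (G p.1) p.2.1 p.2.2) ε hε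
    ({0}ᶜ ×ˢ Set.univ) hUo (RR_smooth ε G N) (fun z hz => RR_round ε G N z.1 hz.1 z.2)
    {p : V d × V d | InK p.1 p.2} compact0 hsub0
  -- the momentum
  have hmul : ContDiffOn ℝ ∞ (fun p : ℝ × (V d × V d) => mul (G p.1 p.2.1) p.2.2 - p.2.2)
      (Set.Ioo (-ε) ε ×ˢ ({0}ᶜ ×ˢ Set.univ)) := by
    have hm : ContDiff ℝ ∞ (fun p : ℝ × (V d × V d) => ((p.1, p.2.1) : ℝ × V d)) :=
      contDiff_fst.prodMk (contDiff_fst.comp contDiff_snd)
    have hG : ∀ i j, ContDiffOn ℝ ∞ (fun p : ℝ × (V d × V d) => G p.1 p.2.1 i j)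
        (Set.Ioo (-ε) ε ×ˢ ({0}ᶜ ×ˢ Set.univ)) := fun i j =>
      (ent N i j).comp hm.contDiffOn fun p hp => ⟨hp.1, hp.2.1⟩
    have hv : ∀ i, ContDiffOn ℝ ∞ (fun p : ℝ × (V d × V d) => p.2.2 i)
        (Set.Ioo (-ε) ε ×ˢ ({0}ᶜ ×ˢ Set.univ)) := fun i => by
      have : ContDiff ℝ ∞ (fun p : ℝ × (V d × V d) => p.2.2 i) := by fun_prop
      exact this.contDiffOn
    rw [contDiffOn_pi]
    intro i
    show ContDiffOn ℝ ∞ (fun p : ℝ × (V d × V d) => (∑ j, G p.1 p.2.1 i j * p.2.2 j) - p.2.2 i) _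
    exact (ContDiffOn.sum fun j _ => (hG i j).mul (hv j)).sub (hv i)
  obtain ⟨C₂, hC₂, τ₂, hτ₂, hτ₂ε, H₂⟩ := lip0 (fun p : ℝ × (V d × V d) => mul (G p.1 p.2.1) p.2.2 - p.2.2)
    ε hε ({0}ᶜ ×ˢ Set.univ) hUo hmul (fun z hz => by
      show mul (G 0 z.1) z.2 - z.2 = 0
      rw [mul0 N hz.1, sub_self])
    {p : V d × V d | InK p.1 p.2} compact0 hsub0
  -- the derivative of the metric
  have hdT : ContDiffOn ℝ ∞ (fun (p : ℝ × V d) (k i j : Fin (d + 1)) => dT (G p.1) p.2 (ee k) i j)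
      (Set.Ioo (-ε) ε ×ˢ {0}ᶜ) := by
    rw [contDiffOn_pi]
    intro k
    rw [contDiffOn_pi]
    intro i
    rw [contDiffOn_pi]
    intro j
    have h1 : ContDiffOn ℝ ∞ (fderiv ℝ (fun p : ℝ × V d => G p.1 p.2 i j)) (Set.Ioo (-ε) ε ×ˢ {0}ᶜ) :=
      (ent N i j).fderiv_of_isOpen (hO ε) (by simp)
    have h2 : ContDiffOn ℝ ∞ (fun p : ℝ × V d => fderiv ℝ (fun p : ℝ × V d => G p.1 p.2 i j) p (0, ee k))
        (Set.Ioo (-ε) ε ×ˢ {0}ᶜ) := h1.clm_apply contDiffOn_const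
    refine h2.congr fun p hp => ?_
    exact dT_eq N hp.1 hp.2 (ee k) i j
  obtain ⟨C₃, hC₃, τ₃, hτ₃, hτ₃ε, H₃⟩ := lip0
    (fun (p : ℝ × V d) (k i j : Fin (d + 1)) => dT (G p.1) p.2 (ee k) i j) ε hε {0}ᶜ isOpen_compl_singleton
    hdT (fun z hz => by
      funext k i j
      exact dT0 N hz (ee k) i j)
    {x : V d | 1 / 4 ≤ x ⬝ᵥ x ∧ x ⬝ᵥ x ≤ 4} compact3 (fun x hx => ne_of_le hx.1)
  obtain ⟨t₁, ht₁⟩ : ∃ t₁ : ℝ, t₁ = min (min τ₁ τ₂) (min τ₃ (1 / (2 * ((d : ℝ) + 1) * C₂))) := ⟨_, rfl⟩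
  have hd0 : (0 : ℝ) < (d : ℝ) + 1 := by positivity
  have ht₁0 : 0 < t₁ := by
    rw [ht₁]
    exact lt_min (lt_min hτ₁ hτ₂) (lt_min hτ₃ (by positivity))
  have h11 : t₁ ≤ τ₁ := by rw [ht₁]; exact (min_le_left _ _).trans (min_le_left _ _)
  have h12 : t₁ ≤ τ₂ := by rw [ht₁]; exact (min_le_left _ _).trans (min_le_right _ _)
  have h13 : t₁ ≤ τ₃ := by rw [ht₁]; exact (min_le_right _ _).trans (min_le_left _ _)
  have h14 : t₁ ≤ 1 / (2 * ((d : ℝ) + 1) * C₂) := by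
    rw [ht₁]; exact (min_le_right _ _).trans (min_le_right _ _)
  have ht₁ε : t₁ < ε := lt_of_le_of_lt h11 hτ₁ε
  obtain ⟨C₄, hC₄, H₄⟩ := taylor2 (fun p : ℝ × (V d × V d) => Lag (G p.1) p.2.1 p.2.2) ε t₁ ht₁ε
    ({0}ᶜ ×ˢ Set.univ) hUo (lag_smooth N) {p : V d × V d | InK p.1 p.2} compact0 hsub0
  obtain ⟨C, hCdef⟩ : ∃ C : ℝ, C = C₁ + C₂ + ((d : ℝ) + 1) ^ 3 * C₃ + C₄ := ⟨_, rfl⟩
  have hC3 : 0 ≤ ((d : ℝ) + 1) ^ 3 * C₃ := by positivity
  have hc1 : C₁ ≤ C := by rw [hCdef]; linarith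
  have hc2 : C₂ ≤ C := by rw [hCdef]; linarith
  have hc3 : ((d : ℝ) + 1) ^ 3 * C₃ ≤ C := by rw [hCdef]; linarith
  have hc4 : C₄ ≤ C := by rw [hCdef]; linarith
  have hCpos : 0 < C := lt_of_lt_of_le hC₁ hc1
  refine ⟨C, t₁, ht₁ε, ?_⟩
  constructor
  · exact hCpos
  · exact ht₁0
  · -- vb
    intro t ht x v hx hv
    have hx0 : x ≠ 0 := ne_zero_of_dot hx
    have hat := abs_nonneg t
    have hsm : ((d : ℝ) + 1) * (C₂ * |t|) ≤ 1 / 2 := by
      have h1 := ht.trans h14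
      rw [le_div_iff₀ (by positivity)] at h1
      linarith
    by_cases hv0 : ‖v‖ = 0
    · rw [hv0]; norm_num
    have hvpos : 0 < ‖v‖ := lt_of_le_of_ne (norm_nonneg v) (Ne.symm hv0)
    have hw : ‖(‖v‖⁻¹ • v)‖ = 1 := by
      rw [norm_smul, norm_inv, norm_norm, inv_mul_cancel₀ hv0]
    have h1 := (H₂ t (ht.trans h12)).1 (x, ‖v‖⁻¹ • v)
      ⟨by rw [hx]; norm_num, by rw [hx]; norm_num, by show ‖(‖v‖⁻¹ • v)‖ ≤ 3; rw [hw]; norm_num⟩
    have h2 : mul (G t x) (‖v‖⁻¹ • v) - ‖v‖⁻¹ • v = ‖v‖⁻¹ • (mul (G t x) v - v) := by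
      rw [mul_smul, smul_sub]
    have h3 : ‖mul (G t x) v - v‖ ≤ C₂ * |t| * ‖v‖ := by
      have h4 : ‖mul (G t x) (‖v‖⁻¹ • v) - ‖v‖⁻¹ • v‖ ≤ C₂ * |t| := h1
      rw [h2, norm_smul, norm_inv, norm_norm, inv_mul_le_iff₀ hvpos] at h4
      linarith
    have h4 : bil (G t x) v v = v ⬝ᵥ v + v ⬝ᵥ (mul (G t x) v - v) := by
      rw [bil_eq_dot, dotProduct_sub]
      ring
    have h5 := abs_dot_le v (mul (G t x) v - v)
    have h6 := norm_sq_le_dot v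
    have h7 := (abs_le.1 h5).1
    rw [hv] at h4
    have h8 : ((d : ℝ) + 1) * (‖v‖ * ‖mul (G t x) v - v‖) ≤ 1 / 2 * ‖v‖ ^ 2 := by
      have h9 : ‖v‖ * ‖mul (G t x) v - v‖ ≤ ‖v‖ * (C₂ * |t| * ‖v‖) := mul_le_mul_of_nonneg_left h3 hvpos.le
      have h10 := mul_le_mul_of_nonneg_left h9 hd0.le
      have h11 := mul_le_mul_of_nonneg_right hsm (sq_nonneg ‖v‖)
      nlinarith
    nlinarith
  · -- rb
    intro t ht x v hK
    have h1 : ‖RR (G t) x v‖ ≤ C₁ * |t| := (H₁ t (ht.trans h11)).1 (x, v) hK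
    exact h1.trans (mul_le_mul_of_nonneg_right hc1 (abs_nonneg t))
  · -- rl
    intro t ht x v x' v' hK hK'
    have h1 : ‖RR (G t) x' v' - RR (G t) x v‖ ≤ C₁ * |t| * ‖((x', v') - (x, v) : V d × V d)‖ :=
      (H₁ t (ht.trans h11)).2 (x, v) hK (x', v') hK'
    have h2 : ‖((x', v') - (x, v) : V d × V d)‖ ≤ ‖x' - x‖ + ‖v' - v‖ := norm_pair_le _ _
    have h3 : C₁ * |t| ≤ C * |t| := mul_le_mul_of_nonneg_right hc1 (abs_nonneg t)
    refine h1.trans (mul_le_mul h3 h2 (norm_nonneg _) (by positivity))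
  · -- mb
    intro t ht x v hK
    have h1 : ‖mul (G t x) v - v‖ ≤ C₂ * |t| := (H₂ t (ht.trans h12)).1 (x, v) hK
    exact h1.trans (mul_le_mul_of_nonneg_right hc2 (abs_nonneg t))
  · -- ml
    intro t ht x v x' v' hK hK'
    have h1 : ‖(mul (G t x') v' - v') - (mul (G t x) v - v)‖ ≤ C₂ * |t| * ‖((x', v') - (x, v) : V d × V d)‖ :=
      (H₂ t (ht.trans h12)).2 (x, v) hK (x', v') hK'
    have h2 : ‖((x', v') - (x, v) : V d × V d)‖ ≤ ‖x' - x‖ + ‖v' - v‖ := norm_pair_le _ _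
    have h3 : C₂ * |t| ≤ C * |t| := mul_le_mul_of_nonneg_right hc2 (abs_nonneg t)
    refine h1.trans (mul_le_mul h3 h2 (norm_nonneg _) (by positivity))
  · -- db
    intro t ht x hx1 hx2 u v w
    have h1 := (H₃ t (ht.trans h13)).1 x ⟨hx1, hx2⟩
    have h2 : ∀ k i j, |dT (G t) x (ee k) i j| ≤ C₃ * |t| := by
      intro k i j
      have h3 := norm_le_pi_norm (fun (k i j : Fin (d + 1)) => dT (G t) x (ee k) i j) k
      have h4 := norm_le_pi_norm (fun (i j : Fin (d + 1)) => dT (G t) x (ee k) i j) i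
      have h5 := norm_le_pi_norm (fun (j : Fin (d + 1)) => dT (G t) x (ee k) i j) j
      rw [← Real.norm_eq_abs]
      exact h5.trans (h4.trans (h3.trans h1))
    have hu : u = ∑ k, u k • (ee k : V d) := by
      funext l
      simp [ee, Finset.sum_apply, Pi.single_apply]
    have h3 : ∀ i j, |dT (G t) x u i j| ≤ ((d : ℝ) + 1) * (‖u‖ * (C₃ * |t|)) := by
      intro i j
      have h4 : dT (G t) x u i j = ∑ k, u k * dT (G t) x (ee k) i j := by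
        unfold dT
        conv_lhs => rw [hu]
        rw [map_sum]
        refine Finset.sum_congr rfl fun k _ => ?_
        rw [map_smul, smul_eq_mul]
      rw [h4]
      refine (Finset.abs_sum_le_sum_abs _ _).trans ?_
      have h5 : ∀ k ∈ (Finset.univ : Finset (Fin (d + 1))),
          |u k * dT (G t) x (ee k) i j| ≤ ‖u‖ * (C₃ * |t|) := fun k _ => by
        rw [abs_mul]
        exact mul_le_mul (norm_le_pi_norm u k) (h2 k i j) (abs_nonneg _) (norm_nonneg _)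
      refine (Finset.sum_le_sum h5).trans ?_
      simp
    refine (abs_bil_le _ v w).trans ?_
    have h6 : ∑ i, ∑ j, |dT (G t) x u i j| ≤
        ((d : ℝ) + 1) * (((d : ℝ) + 1) * (((d : ℝ) + 1) * (‖u‖ * (C₃ * |t|)))) := by
      refine (Finset.sum_le_sum fun i _ => Finset.sum_le_sum fun j _ => h3 i j).trans ?_
      simp
    have h7 : 0 ≤ ‖v‖ * ‖w‖ := by positivity
    refine (mul_le_mul_of_nonneg_right h6 h7).trans ?_
    have h8 : ((d : ℝ) + 1) * (((d : ℝ) + 1) * (((d : ℝ) + 1) * (‖u‖ * (C₃ * |t|)))) * (‖v‖ * ‖w‖) =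
        (((d : ℝ) + 1) ^ 3 * C₃) * (|t| * (‖u‖ * (‖v‖ * ‖w‖))) := by ring
    have h9 : C * |t| * (‖u‖ * (‖v‖ * ‖w‖)) = C * (|t| * (‖u‖ * (‖v‖ * ‖w‖))) := by ring
    rw [h8, h9]
    exact mul_le_mul_of_nonneg_right hc3 (by positivity)
  · -- tl
    intro t ht x v x' v' hK hK'
    have htI : t ∈ Set.Ioo (-ε) ε := ⟨by linarith [(abs_le.1 ht).1], by linarith [(abs_le.1 ht).2]⟩
    have h1 := H₄ t ht (x, v) hK (x', v') hK'
    have h2 : ((x', v') - (x, v) : V d × V d) = (x' - x, v' - v) := rfl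
    rw [h2, lag_fderiv N htI (ne_of_le hK.1)] at h1
    refine h1.trans ?_
    have h3 := norm_pair_le (x' - x) (v' - v)
    have h4 : ‖((x' - x, v' - v) : V d × V d)‖ ^ 2 ≤ (‖x' - x‖ + ‖v' - v‖) ^ 2 :=
      pow_le_pow_left₀ (norm_nonneg _) h3 2
    exact mul_le_mul hc4 h4 (sq_nonneg _) hCpos.le

end Pool.Agent.Work.MP_659252_gt.QR
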