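import Pool.Agent.Work.MP_659252_gt.QR.A.RRt
import Pool.Agent.Work.MP_659252_gt.QR.A.Est
import Pool.Agent.Work.MP_659252_gt.QR.A.Cls
import Pool.Agent.Work.MP_659252_gt.QR.A.VoC

/-!
# `c = gc + t Y + O(t²)` on `[0, 7]`.  Size: M.

PROOF.  `ξ = c - gc X W - t Y` satisfies `ξ'' = -ξ + r`, `r s = RR (G t) (c s) (c' s) - t Eul h (gc s) (gd s)` (`hY`, `Sol.ode`, `hasDerivAt_gd`).
`r = [RR (G t) (c, c') - t Eul h (c, c')] + t [Eul h (c, c') - Eul h (gc, gd)]`.  First bracket: `≤ C t²` (`RRt`; `InK` by `vb`).  By `cls` and the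
initial conditions `‖c s - gc X W s‖ ≤ C |t|`, `‖c' s - gd X W s‖ ≤ C |t|` (`gc` is linear in the initial data).  `lip0` for `Φ (t, (x, v)) = t • Eul h x v`
(smooth, `0` at `t = 0`; compact set `InK`) gives `‖t (Eul h (c, c') - Eul h (gc, gd))‖ ≤ C |t| (C |t|)`.  So `‖r‖ ≤ C t²` on `[0, 7]`, `r` continuous, and
`voc_bound` with `‖ξ 0‖, ‖ξ' 0‖ ≤ C₀ t²` gives the claim (`‖gc a b s‖ ≤ ‖a‖ + ‖b‖`).
-/

namespace Pool.Agent.Work.MP_659252_gt.QR

open scoped ContDiff Topology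
open Pool.Agent.Work.MP_659252_gt.Z (V Ten val Tan InT IsZoll IsMetric IsGeodesic)

variable {d : ℕ}

private theorem apx_smooth (h : Ten d) (hh : Fld h) :
    ContDiffOn ℝ ∞ (fun p : V d × V d => Eul h p.1 p.2) ({0}ᶜ ×ˢ Set.univ) := by
  have hfd : ∀ i j, ContDiffOn ℝ ∞ (fun p : V d × V d => fderiv ℝ (fun y => h y i j) p.1)
      ({0}ᶜ ×ˢ Set.univ) := by
    intro i j
    have h1 : ContDiffOn ℝ ∞ (fun y => h y i j) ({0}ᶜ : Set (V d)) :=
      contDiffOn_pi.1 (contDiffOn_pi.1 hh.smooth i) j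
    have h2 : ContDiffOn ℝ ∞ (fderiv ℝ (fun y => h y i j)) ({0}ᶜ : Set (V d)) :=
      h1.fderiv_of_isOpen isOpen_compl_singleton (by simp)
    exact h2.comp contDiffOn_fst (fun p hp => hp.1)
  have hap : ∀ i j, ∀ u : V d × V d → V d, ContDiff ℝ ∞ u →
      ContDiffOn ℝ ∞ (fun p : V d × V d => dT h p.1 (u p) i j) ({0}ᶜ ×ˢ Set.univ) := by
    intro i j u hu
    exact (hfd i j).clm_apply hu.contDiffOn
  have hv : ∀ i, ContDiffOn ℝ ∞ (fun p : V d × V d => p.2 i) ({0}ᶜ ×ˢ Set.univ) := fun i =>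
    ((contDiff_pi.1 contDiff_snd) i).contDiffOn
  refine contDiffOn_pi.2 fun i => ?_
  refine ContDiffOn.sub ?_ ?_
  · refine contDiffOn_const.mul ?_
    refine ContDiffOn.sum fun k _ => ContDiffOn.sum fun j _ => ?_
    exact (hap k j _ contDiff_const).mul ((hv k).mul (hv j))
  · refine ContDiffOn.sum fun j _ => ?_
    exact (hap i j _ contDiff_snd).mul (hv j)

private theorem apx_compact : IsCompact {z : V d × V d | InK z.1 z.2} := by
  have h1 : {z : V d × V d | InK z.1 z.2} ⊆ Metric.closedBall (0 : V d) 2 ×ˢ Metric.closedBall (0 : V d) 3 := by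
    rintro ⟨x, v⟩ ⟨-, h2, h3⟩
    refine ⟨?_, ?_⟩
    · rw [mem_closedBall_zero_iff]
      have := norm_sq_le_dot x
      nlinarith [norm_nonneg x]
    · rw [mem_closedBall_zero_iff]
      exact h3
  have hc : Continuous fun z : V d × V d => z.1 ⬝ᵥ z.1 := by
    unfold dotProduct
    fun_prop
  have h2 : IsClosed {z : V d × V d | InK z.1 z.2} := by
    have e1 : {z : V d × V d | InK z.1 z.2} =
        {z | 1 / 4 ≤ z.1 ⬝ᵥ z.1} ∩ ({z | z.1 ⬝ᵥ z.1 ≤ 4} ∩ {z | ‖z.2‖ ≤ 3}) := rfl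
    rw [e1]
    exact (isClosed_le continuous_const hc).inter ((isClosed_le hc continuous_const).inter
      (isClosed_le continuous_snd.norm continuous_const))
  exact ((isCompact_closedBall _ _).prod (isCompact_closedBall _ _)).of_isClosed_subset h2 h1

private theorem apx_K {x v : V d} (h : InK x v) : x ≠ 0 := by
  rintro rfl
  have := h.1
  simp at this
  linarith

private theorem apx_gc (a b : V d) (s : ℝ) : ‖gc a b s‖ ≤ ‖a‖ + ‖b‖ := by
  unfold gc
  refine (norm_add_le _ _).trans (add_le_add ?_ ?_)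
  · rw [norm_smul, Real.norm_eq_abs]
    exact mul_le_of_le_one_left (norm_nonneg _) (Real.abs_cos_le_one s)
  · rw [norm_smul, Real.norm_eq_abs]
    exact mul_le_of_le_one_left (norm_nonneg _) (Real.abs_sin_le_one s)

private theorem apx_gd (a b : V d) (s : ℝ) : ‖gd a b s‖ ≤ ‖a‖ + ‖b‖ := by
  unfold gd
  rw [add_comm ‖a‖]
  refine (norm_sub_le _ _).trans (add_le_add ?_ ?_)
  · rw [norm_smul, Real.norm_eq_abs]
    exact mul_le_of_le_one_left (norm_nonneg _) (Real.abs_cos_le_one s)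
  · rw [norm_smul, Real.norm_eq_abs]
    exact mul_le_of_le_one_left (norm_nonneg _) (Real.abs_sin_le_one s)

private theorem apx_gc_sub (a b a' b' : V d) (s : ℝ) :
    gc a b s - gc a' b' s = gc (a - a') (b - b') s := by
  unfold gc
  rw [smul_sub, smul_sub]
  abel

private theorem apx_gd_sub (a b a' b' : V d) (s : ℝ) :
    gd a b s - gd a' b' s = gd (a - a') (b - b') s := by
  unfold gd
  rw [smul_sub, smul_sub]
  abel

private theorem apx_gc_zero (a b : V d) : gc a b 0 = a := by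
  unfold gc
  simp

private theorem apx_gd_zero (a b : V d) : gd a b 0 = b := by
  unfold gd
  simp

private theorem apx_gc_dot {X W : V d} (h : Orth X W) (s : ℝ) : gc X W s ⬝ᵥ gc X W s = 1 := by
  obtain ⟨h1, h2, h3⟩ := h
  unfold gc
  have h4 : W ⬝ᵥ X = 0 := by rw [dotProduct_comm]; exact h3
  rw [add_dotProduct, dotProduct_add, dotProduct_add, smul_dotProduct, smul_dotProduct,
    smul_dotProduct, smul_dotProduct, dotProduct_smul, dotProduct_smul, dotProduct_smul,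
    dotProduct_smul, h1, h2, h3, h4]
  simp only [smul_eq_mul, mul_one, mul_zero, add_zero, zero_add]
  have := Real.cos_sq_add_sin_sq s
  linarith

private theorem apx_norm {X : V d} (h : X ⬝ᵥ X = 1) : ‖X‖ ≤ 1 := by
  have := norm_sq_le_dot X
  rw [h] at this
  nlinarith [norm_nonneg X]

private theorem apx_cd (c : ℝ → V d) (hc : ContDiff ℝ ∞ c) : ContDiff ℝ ∞ (deriv c) :=
  (contDiff_infty_iff_deriv.1 hc).2

private theorem apx_hd (c : ℝ → V d) (hc : ContDiff ℝ ∞ c) (s : ℝ) :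
    HasDerivAt c (deriv c s) s :=
  ((contDiff_infty_iff_deriv.1 hc).1 s).hasDerivAt

theorem apx (ε : ℝ) (G : ℝ → Ten d) (N : Nice ε G) (h : Ten d) (hh : Fld h)
    (hd : ∀ x, x ≠ 0 → ∀ i j, HasDerivAt (fun t => G t x i j) (h x i j) 0) (X W : V d) (hXW : Orth X W)
    (Y : ℝ → V d) (hYs : ContDiff ℝ ∞ Y)
    (hY : ∀ s, HasDerivAt (deriv Y) (-Y s + Eul h (gc X W s) (gd X W s)) s) (C₀ : ℝ) :
    ∃ C > 0, ∃ t₁ > 0, t₁ < ε ∧ ∀ t, |t| ≤ t₁ → ∀ c : ℝ → V d, Sol (G t) c →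
      ‖c 0 - (X + t • Y 0)‖ ≤ C₀ * t ^ 2 → ‖deriv c 0 - (W + t • deriv Y 0)‖ ≤ C₀ * t ^ 2 →
      ∀ s ∈ Set.Icc (0 : ℝ) 7, ‖c s - (gc X W s + t • Y s)‖ ≤ C * t ^ 2 ∧
        ‖deriv c s - (gd X W s + t • deriv Y s)‖ ≤ C * t ^ 2 := by
  obtain ⟨CE, tE, htE, HE⟩ := est ε G N
  obtain ⟨C2, hC2, t2, ht2, ht2E, hcls⟩ := cls G CE tE HE
  obtain ⟨CR, hCR, tR, htR, htRε, hR⟩ := RRt ε G N h hd
  obtain ⟨CL, hCL, tL, htL, -, hL⟩ := lip0
    (fun p : ℝ × (V d × V d) => p.1 • Eul h p.2.1 p.2.2) 1 one_pos ({0}ᶜ ×ˢ Set.univ)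
    (isOpen_compl_singleton.prod isOpen_univ)
    (contDiffOn_fst.smul ((apx_smooth h hh).comp contDiffOn_snd fun p hp => hp.2))
    (fun z _ => zero_smul ℝ _) {z : V d × V d | InK z.1 z.2} apx_compact
    (fun z hz => ⟨apx_K hz, trivial⟩)
  set D0 : ℝ := C2 + (|C₀| + ‖Y 0‖) + (|C₀| + ‖deriv Y 0‖) with hD0
  have hD0p : 0 < D0 := by positivity
  set M0 : ℝ := CR + CL * D0 with hM0
  have hM0p : 0 < M0 := by positivity
  refine ⟨7 * M0 + 2 * |C₀|, by positivity, min (min t2 tR) (min tL 1), by positivity,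
    (min_le_left _ _).trans_lt ((min_le_right _ _).trans_lt htRε), ?_⟩
  intro t ht c hc h1 h2 s hs
  have ht2' : |t| ≤ t2 := ht.trans ((min_le_left _ _).trans (min_le_left _ _))
  have htR' : |t| ≤ tR := ht.trans ((min_le_left _ _).trans (min_le_right _ _))
  have htL' : |t| ≤ tL := ht.trans ((min_le_right _ _).trans (min_le_left _ _))
  have ht1 : |t| ≤ 1 := ht.trans ((min_le_right _ _).trans (min_le_right _ _))
  have hsq : t ^ 2 = |t| * |t| := by rw [← sq, sq_abs]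
  have hsq' : t ^ 2 ≤ |t| := by
    rw [hsq]
    exact mul_le_of_le_one_left (abs_nonneg t) ht1
  have hX1 := apx_norm hXW.1
  have hW1 := apx_norm hXW.2.1
  have hC0 : C₀ * t ^ 2 ≤ |C₀| * t ^ 2 :=
    mul_le_mul_of_nonneg_right (le_abs_self C₀) (sq_nonneg t)
  have hC0' : C₀ * t ^ 2 ≤ |C₀| * |t| :=
    hC0.trans (mul_le_mul_of_nonneg_left hsq' (abs_nonneg _))
  -- the initial data
  have hx0 : ‖c 0 - X‖ ≤ (|C₀| + ‖Y 0‖) * |t| := by
    have e1 : c 0 - X = (c 0 - (X + t • Y 0)) + t • Y 0 := by abel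
    rw [e1]
    refine (norm_add_le _ _).trans ?_
    rw [norm_smul, Real.norm_eq_abs]
    have h3 := h1.trans hC0'
    have h4 : (|C₀| + ‖Y 0‖) * |t| = |C₀| * |t| + |t| * ‖Y 0‖ := by ring
    rw [h4]
    linarith
  have hv0 : ‖deriv c 0 - W‖ ≤ (|C₀| + ‖deriv Y 0‖) * |t| := by
    have e1 : deriv c 0 - W = (deriv c 0 - (W + t • deriv Y 0)) + t • deriv Y 0 := by abel
    rw [e1]
    refine (norm_add_le _ _).trans ?_
    rw [norm_smul, Real.norm_eq_abs]
    have h3 := h2.trans hC0'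
    have h4 : (|C₀| + ‖deriv Y 0‖) * |t| = |C₀| * |t| + |t| * ‖deriv Y 0‖ := by ring
    rw [h4]
    linarith
  -- closeness
  have hcl : ∀ σ ∈ Set.Icc (0 : ℝ) 7, ‖c σ - gc X W σ‖ ≤ D0 * |t| ∧
      ‖deriv c σ - gd X W σ‖ ≤ D0 * |t| := by
    intro σ hσ
    obtain ⟨h3, h4⟩ := (hcls t ht2').1 c hc σ hσ
    have hD : D0 * |t| = C2 * |t| + (|C₀| + ‖Y 0‖) * |t| + (|C₀| + ‖deriv Y 0‖) * |t| := by
      rw [hD0]
      ring
    rw [hD]
    constructor
    · have e1 : c σ - gc X W σ = (c σ - gc (c 0) (deriv c 0) σ) +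
          gc (c 0 - X) (deriv c 0 - W) σ := by
        rw [← apx_gc_sub]
        abel
      rw [e1]
      refine (norm_add_le _ _).trans ?_
      have h5 := apx_gc (c 0 - X) (deriv c 0 - W) σ
      linarith
    · have e1 : deriv c σ - gd X W σ = (deriv c σ - gd (c 0) (deriv c 0) σ) +
          gd (c 0 - X) (deriv c 0 - W) σ := by
        rw [← apx_gd_sub]
        abel
      rw [e1]
      refine (norm_add_le _ _).trans ?_
      have h5 := apx_gd (c 0 - X) (deriv c 0 - W) σ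
      linarith
  have hK1 : ∀ σ, InK (c σ) (deriv c σ) := by
    intro σ
    have h3 := HE.vb t (ht2'.trans ht2E) (c σ) (deriv c σ) (hc.sph σ) (hc.spd σ)
    refine ⟨?_, ?_, by linarith⟩ <;> rw [hc.sph σ] <;> norm_num
  have hK2 : ∀ σ, InK (gc X W σ) (gd X W σ) := by
    intro σ
    refine ⟨?_, ?_, ?_⟩
    · rw [apx_gc_dot hXW]; norm_num
    · rw [apx_gc_dot hXW]; norm_num
    · have := apx_gd X W σ
      linarith
  -- the error term
  set r : ℝ → V d := fun σ => RR (G t) (c σ) (deriv c σ) - t • Eul h (gc X W σ) (gd X W σ) with hr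
  have hrb : ∀ σ ∈ Set.Icc (0 : ℝ) 7, ‖r σ‖ ≤ M0 * t ^ 2 := by
    intro σ hσ
    obtain ⟨h3, h4⟩ := hcl σ hσ
    have h5 := hR t htR' (c σ) (deriv c σ) (hK1 σ)
    have h6 := (hL t htL').2 (gc X W σ, gd X W σ) (hK2 σ) (c σ, deriv c σ) (hK1 σ)
    have h7 : ‖(c σ, deriv c σ) - (gc X W σ, gd X W σ)‖ ≤ D0 * |t| := by
      rw [Prod.mk_sub_mk]
      exact max_le h3 h4
    have e1 : r σ = (RR (G t) (c σ) (deriv c σ) - t • Eul h (c σ) (deriv c σ)) +
        (t • Eul h (c σ) (deriv c σ) - t • Eul h (gc X W σ) (gd X W σ)) := by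
      rw [sub_add_sub_cancel]
    rw [e1]
    refine (norm_add_le _ _).trans ?_
    have h8 : CL * |t| * ‖(c σ, deriv c σ) - (gc X W σ, gd X W σ)‖ ≤ CL * |t| * (D0 * |t|) :=
      mul_le_mul_of_nonneg_left h7 (by positivity)
    have h9 : CL * |t| * (D0 * |t|) = CL * D0 * t ^ 2 := by
      rw [hsq]
      ring
    have h10 := h6.trans h8
    rw [h9] at h10
    simp only at h10
    have h11 : M0 * t ^ 2 = CR * t ^ 2 + CL * D0 * t ^ 2 := by
      rw [hM0]
      ring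
    rw [h11]
    exact add_le_add h5 h10
  have hcd := apx_cd c hc.smooth
  have hYd := apx_cd Y hYs
  have hrc : Continuous r := by
    have e1 : r = fun σ => (deriv (deriv c) σ + c σ) - t • (deriv (deriv Y) σ + Y σ) := by
      funext σ
      rw [(hc.ode σ).deriv, (hY σ).deriv, hr]
      simp only [neg_add_cancel_comm]
    rw [e1]
    exact ((apx_cd _ hcd).continuous.add hc.smooth.continuous).sub
      (((apx_cd _ hYd).continuous.add hYs.continuous).const_smul t)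
  have hξ1 : ∀ σ, HasDerivAt (fun u => c u - gc X W u - t • Y u)
      (deriv c σ - gd X W σ - t • deriv Y σ) σ := fun σ =>
    ((apx_hd c hc.smooth σ).sub (hasDerivAt_gc X W σ)).sub ((apx_hd Y hYs σ).const_smul t)
  have hξ2 : ∀ σ, HasDerivAt (fun u => deriv c u - gd X W u - t • deriv Y u)
      (-(c σ - gc X W σ - t • Y σ) + r σ) σ := by
    intro σ
    refine (((hc.ode σ).sub (hasDerivAt_gd X W σ)).sub ((hY σ).const_smul t)).congr_deriv ?_
    rw [hr]
    simp only [smul_add, smul_neg]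
    abel
  obtain ⟨h3, h4⟩ := voc_bound _ _ r hξ1 hξ2 hrc (M0 * t ^ 2) hrb s hs
  have e0 : c 0 - gc X W 0 - t • Y 0 = c 0 - (X + t • Y 0) := by
    rw [apx_gc_zero]
    abel
  have e0' : deriv c 0 - gd X W 0 - t • deriv Y 0 = deriv c 0 - (W + t • deriv Y 0) := by
    rw [apx_gd_zero]
    abel
  simp only [e0, e0'] at h3 h4
  have h5 := apx_gc (c 0 - (X + t • Y 0)) (deriv c 0 - (W + t • deriv Y 0)) s
  have h6 := apx_gd (c 0 - (X + t • Y 0)) (deriv c 0 - (W + t • deriv Y 0)) s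
  have h7 : (7 * M0 + 2 * |C₀|) * t ^ 2 = 7 * (M0 * t ^ 2) + (|C₀| * t ^ 2 + |C₀| * t ^ 2) := by
    ring
  rw [h7]
  have h8 := h1.trans hC0
  have h9 := h2.trans hC0
  constructor
  · have e1 : c s - (gc X W s + t • Y s) = (c s - gc X W s - t • Y s -
        gc (c 0 - (X + t • Y 0)) (deriv c 0 - (W + t • deriv Y 0)) s) +
        gc (c 0 - (X + t • Y 0)) (deriv c 0 - (W + t • deriv Y 0)) s := by abel
    rw [e1]
    exact (norm_add_le _ _).trans (add_le_add h3 (h5.trans (add_le_add h8 h9)))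
  · have e1 : deriv c s - (gd X W s + t • deriv Y s) = (deriv c s - gd X W s - t • deriv Y s -
        gd (c 0 - (X + t • Y 0)) (deriv c 0 - (W + t • deriv Y 0)) s) +
        gd (c 0 - (X + t • Y 0)) (deriv c 0 - (W + t • deriv Y 0)) s := by abel
    rw [e1]
    exact (norm_add_le _ _).trans (add_le_add h4 (h6.trans (add_le_add h8 h9)))

end Pool.Agent.Work.MP_659252_gt.QR
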