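import Pool.Agent.Work.MP_659252_gt.QR.A.RRa
import Pool.Agent.Work.MP_659252_gt.QR.A.EulA

/-!
# Solutions of the geodesic equation are critical points of the energy.  Size: M.

PROOF.  Let `c` be a `Sol`, `Γ` a variation, `W t = ∂_s Γ (0, t)`.  `Γ ⬝ Γ = 1` gives `c ⬝ W = 0`, and `W = 0` at `a`, `b`.
`E s = ∫ t in a..b, e (s, t)`, `e (s, t) = bil (G (Γ (s, t))) (∂_t Γ) (∂_t Γ)` is smooth in `(s, t)` (`Γ ≠ 0` as `Γ ⬝ Γ = 1`), so
`E'(0) = ∫ ∂_s e (0, t)`, `∂_s e (0, t) = bil (dT G c W) c' c' + 2 bil (G c) c' W'`, `W' = ∂_t W` (equality of mixed derivatives; see the very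
similar proof of `weak_EL` in `Z/VarA`, which may be copied).  `bil (G c) c' W' = (bil (G c) c' W)' - (mul (G c) c')' ⬝ W`, and
`(mul (G c) c')' = mul (dT G c c') c' + mul (G c) c'' = mul (dT G c c') c' - c + Eul G c c'` (`rad` and symmetry: `mul (G c) c = c`, `RR_dot`), whose
scalar product with `W` is `bil (dT G c c') W c' + Eul ⬝ W = (1/2) bil (dT G c W) c' c'` (`Eul_dot`).  So the integral of `∂_s e` is
`2 [bil (G c) c' W]_a^b = 0`.
`deriv (fun t => Γ (s, t)) t` is the partial derivative.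
-/

namespace Pool.Agent.Work.MP_659252_gt.QR

open scoped ContDiff Topology
open Pool.Agent.Work.MP_659252_gt.Z (V Ten val Tan InT IsZoll IsMetric IsGeodesic)

variable {d : ℕ}

private theorem hasDerivAt_fst {F : Type*} [NormedAddCommGroup F] [NormedSpace ℝ F]
    {f : ℝ × ℝ → F} (hf : ContDiff ℝ ∞ f) (s t : ℝ) :
    HasDerivAt (fun s => f (s, t)) (fderiv ℝ f (s, t) (1, 0)) s := by
  have h1 : HasFDerivAt f (fderiv ℝ f (s, t)) (s, t) :=
    (hf.differentiable (by simp) (s, t)).hasFDerivAt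
  have h2 : HasDerivAt (fun s : ℝ => ((s, t) : ℝ × ℝ)) (1, 0) s :=
    (hasDerivAt_id s).prodMk (hasDerivAt_const s t)
  exact h1.comp_hasDerivAt s h2

private theorem hasDerivAt_snd {F : Type*} [NormedAddCommGroup F] [NormedSpace ℝ F]
    {f : ℝ × ℝ → F} (hf : ContDiff ℝ ∞ f) (s t : ℝ) :
    HasDerivAt (fun t => f (s, t)) (fderiv ℝ f (s, t) (0, 1)) t := by
  have h1 : HasFDerivAt f (fderiv ℝ f (s, t)) (s, t) :=
    (hf.differentiable (by simp) (s, t)).hasFDerivAt
  have h2 : HasDerivAt (fun t : ℝ => ((s, t) : ℝ × ℝ)) (0, 1) t :=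
    (hasDerivAt_const t s).prodMk (hasDerivAt_id t)
  exact h1.comp_hasDerivAt t h2

private theorem hasDerivAt_int {e : ℝ × ℝ → ℝ} (he : ContDiff ℝ ∞ e) (a b : ℝ) :
    HasDerivAt (fun s => ∫ t in a..b, e (s, t)) (∫ t in a..b, fderiv ℝ e (0, t) (1, 0)) 0 := by
  have hcont : Continuous e := he.continuous
  have hfd : Continuous (fderiv ℝ e) := he.continuous_fderiv (by simp)
  have hg : Continuous (fun p : ℝ × ℝ => fderiv ℝ e p (1, 0)) := hfd.clm_apply continuous_const
  obtain ⟨M, hM⟩ := ((isCompact_Icc (a := (-1 : ℝ)) (b := 1)).prod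
    (isCompact_uIcc (a := a) (b := b))).exists_bound_of_continuousOn hg.continuousOn
  have hc : ∀ s : ℝ, Continuous (fun t : ℝ => ((s, t) : ℝ × ℝ)) := fun s => by fun_prop
  have h := intervalIntegral.hasDerivAt_integral_of_dominated_loc_of_deriv_le (𝕜 := ℝ)
    (μ := MeasureTheory.volume) (F := fun s t => e (s, t))
    (F' := fun s t => fderiv ℝ e (s, t) (1, 0)) (x₀ := 0) (s := Set.Icc (-1) 1)
    (bound := fun _ => M) (a := a) (b := b) (Icc_mem_nhds (by norm_num) (by norm_num))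
    (Filter.Eventually.of_forall fun s => (hcont.comp (hc s)).aestronglyMeasurable)
    ((hcont.comp (hc 0)).intervalIntegrable _ _)
    ((hg.comp (hc 0)).aestronglyMeasurable)
    (Filter.Eventually.of_forall fun t ht s hs => hM (s, t) ⟨hs, Set.uIoc_subset_uIcc ht⟩)
    (continuous_const.intervalIntegrable _ _)
    (Filter.Eventually.of_forall fun t _ s _ => hasDerivAt_fst he s t)
  exact h.2

theorem Sol.isGeodesic {G : Ten d} (hG : Met G) {c : ℝ → V d} (hc : Sol G c) : IsGeodesic G c := by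
  refine ⟨hc.smooth, hc.sph, ?_⟩
  intro a b Γ hab hvar
  have hΓ : ContDiff ℝ ∞ Γ := hvar.smooth
  have hsph := hvar.sphere
  have hstart := hvar.start
  have hΓ2 : ContDiff ℝ ∞ (fderiv ℝ Γ) := (contDiff_infty_iff_fderiv.1 hΓ).2
  obtain ⟨W, hW⟩ : ∃ W : ℝ → V d, W = fun t => fderiv ℝ Γ (0, t) (1, 0) := ⟨_, rfl⟩
  have hWd : ∀ t, HasDerivAt (fun s => Γ (s, t)) (W t) 0 := by
    intro t
    rw [hW]
    exact hasDerivAt_fst hΓ 0 t
  have hWsm : ContDiff ℝ ∞ W := by
    rw [hW]
    exact (hΓ2.comp (contDiff_const.prodMk contDiff_id)).clm_apply contDiff_const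
  have hWd' : ∀ t, HasDerivAt W (deriv W t) t := fun t =>
    (hWsm.differentiable (by simp) t).hasDerivAt
  have hend : ∀ t, t ≤ a ∨ b ≤ t → W t = 0 := by
    intro t ht
    have h1 : HasDerivAt (fun s => Γ (s, t)) 0 0 := by
      have : (fun s => Γ (s, t)) = fun _ => c t := funext fun s => hvar.fixed s t ht
      rw [this]
      exact hasDerivAt_const _ _
    exact (hWd t).unique h1
  have hperp : ∀ t, c t ⬝ᵥ W t = 0 := by
    intro t
    have h1 : HasDerivAt (fun s => Γ (s, t) ⬝ᵥ Γ (s, t)) (W t ⬝ᵥ Γ (0, t) + Γ (0, t) ⬝ᵥ W t) 0 := by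
      have h2 : ∀ i, HasDerivAt (fun s => Γ (s, t) i) (W t i) 0 := fun i =>
        (hasDerivAt_pi.1 (hWd t)) i
      have h3 := HasDerivAt.fun_sum (u := Finset.univ) (fun i _ => (h2 i).fun_mul (h2 i))
      refine h3.congr_deriv ?_
      simp only [dotProduct]
      rw [← Finset.sum_add_distrib]
    have h4 : (fun s => Γ (s, t) ⬝ᵥ Γ (s, t)) = fun _ => (1 : ℝ) := funext fun s => hsph (s, t)
    rw [h4] at h1
    have h5 := h1.unique (hasDerivAt_const (0 : ℝ) (1 : ℝ))
    rw [hstart, dotProduct_comm (W t) (c t)] at h5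
    linarith
  obtain ⟨D, hDdef⟩ : ∃ D : ℝ × ℝ → V d, D = fun p => fderiv ℝ Γ p (0, 1) := ⟨_, rfl⟩
  have hD : ContDiff ℝ ∞ D := by
    rw [hDdef]
    exact hΓ2.clm_apply contDiff_const
  have hne : ∀ p, Γ p ∈ ({0}ᶜ : Set (V d)) := by
    intro p h0
    have h1 := hsph p
    rw [Set.mem_singleton_iff.1 h0, zero_dotProduct] at h1
    exact zero_ne_one h1
  have hGΓ : ContDiff ℝ ∞ (fun p => G (Γ p)) := hG.smooth.comp_contDiff hΓ hne
  obtain ⟨e, hedef⟩ : ∃ e : ℝ × ℝ → ℝ, e = fun p => bil (G (Γ p)) (D p) (D p) := ⟨_, rfl⟩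
  have he : ContDiff ℝ ∞ e := by
    rw [hedef]
    exact ContDiff.sum fun i _ => ContDiff.sum fun j _ =>
      (contDiff_pi.1 (contDiff_pi.1 hGΓ i) j).mul ((contDiff_pi.1 hD i).mul (contDiff_pi.1 hD j))
  have henergy : ∀ s, Z.energy G (fun t => Γ (s, t)) a b = ∫ t in a..b, e (s, t) := by
    intro s
    unfold Z.energy
    apply intervalIntegral.integral_congr
    intro t _
    have h1 : deriv (fun t => Γ (s, t)) t = D (s, t) := by
      rw [hDdef]
      exact (hasDerivAt_snd hΓ s t).deriv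
    simp only [h1, hedef]
    rfl
  rw [funext henergy, (hasDerivAt_int he a b).deriv]
  have hcsm := hc.smooth
  have hcne : ∀ t, c t ≠ 0 := fun t => ne_zero_of_dot (hc.sph t)
  have hdG : ∀ t i j, DifferentiableAt ℝ (fun y => G y i j) (c t) := fun t i j =>
    diff_of_smooth G {0}ᶜ isOpen_compl_singleton hG.smooth (c t) (hcne t) i j
  have hcd : ∀ t, HasDerivAt c (deriv c t) t := fun t =>
    (hcsm.differentiable (by simp) t).hasDerivAt
  have hh : ∀ t, HasDerivAt (fun t => 2 * bil (G (c t)) (deriv c t) (W t))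
      (fderiv ℝ e (0, t) (1, 0)) t := by
    intro t
    have h0 : Γ (0, t) = c t := hstart t
    have hD0 : D (0, t) = deriv c t := by
      have h1 := (hasDerivAt_snd hΓ 0 t).deriv
      rw [funext hstart] at h1
      rw [hDdef, h1]
    have hfd : ∀ t, fderiv ℝ Γ (0, t) (1, 0) = W t := fun t =>
      (hasDerivAt_fst hΓ 0 t).unique (hWd t)
    have hDs : HasDerivAt (fun s => D (s, t)) (deriv W t) 0 := by
      have h1 := (hasDerivAt_fst hΓ2 0 t).clm_apply (hasDerivAt_const (0 : ℝ) ((0, 1) : ℝ × ℝ))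
      have h2 := (hasDerivAt_snd hΓ2 0 t).clm_apply (hasDerivAt_const t ((1, 0) : ℝ × ℝ))
      rw [map_zero, add_zero] at h1 h2
      simp only [hfd] at h2
      have h4 : ContDiff ℝ 2 Γ := contDiff_infty.1 hΓ 2
      have h3 := (h4.contDiffAt (x := (0, t))).isSymmSndFDerivAt
        (by rw [minSmoothness_of_isRCLikeNormedField]) (1, 0) (0, 1)
      rw [h3, ← h2.deriv] at h1
      rw [hDdef]
      exact h1
    have hes := hasDerivAt_bil G (fun s => Γ (s, t)) (fun s => D (s, t)) (fun s => D (s, t))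
      (W t) (deriv W t) (deriv W t) 0 (by rw [h0]; exact hdG t) (hWd t) hDs hDs
    have hfin : fderiv ℝ e (0, t) (1, 0) = bil (dT G (c t) (W t)) (deriv c t) (deriv c t) +
        bil (G (c t)) (deriv W t) (deriv c t) + bil (G (c t)) (deriv c t) (deriv W t) := by
      have h1 := hasDerivAt_fst he 0 t
      rw [hedef] at h1 ⊢
      rw [h1.unique hes, h0, hD0]
    have hcod : HasDerivAt (deriv c) (-c t + RR G (c t) (deriv c t)) t := hc.ode t
    have hb := hasDerivAt_bil G c (deriv c) W (deriv c t) (-c t + RR G (c t) (deriv c t)) (deriv W t)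
      t (hdG t) (hcd t) hcod (hWd' t)
    have hb2 := hb.const_mul 2
    refine hb2.congr_deriv ?_
    rw [hfin]
    have hsy : bil (G (c t)) (deriv W t) (deriv c t) = bil (G (c t)) (deriv c t) (deriv W t) :=
      bil_comm (hG.symm (c t) (hcne t)) _ _
    have hsy2 : bil (dT G (c t) (deriv c t)) (deriv c t) (W t) =
        bil (dT G (c t) (deriv c t)) (W t) (deriv c t) :=
      bil_comm (fun i j => dT_symm G hG.symm (c t) (hcne t) (deriv c t) i j) _ _
    have hrr : bil (G (c t)) (-c t + RR G (c t) (deriv c t)) (W t) =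
        (1 / 2) * bil (dT G (c t) (W t)) (deriv c t) (deriv c t) -
          bil (dT G (c t) (deriv c t)) (W t) (deriv c t) := by
      rw [bil_add_left, bil_neg_left, hG.rad (c t) (hcne t), hperp t,
        RR_dot G hG (c t) (hcne t), Eul_dot]
      ring
    rw [hsy, hsy2, hrr]
    ring
  have hcontf : Continuous (fun t : ℝ => fderiv ℝ e (0, t) (1, 0)) := by
    have hfd : Continuous (fderiv ℝ e) := he.continuous_fderiv (by simp)
    exact (hfd.comp (by fun_prop : Continuous (fun t : ℝ => ((0, t) : ℝ × ℝ)))).clm_apply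
      continuous_const
  rw [intervalIntegral.integral_eq_sub_of_hasDerivAt (fun t _ => hh t)
    (hcontf.intervalIntegrable _ _), hend a (Or.inl le_rfl), hend b (Or.inr le_rfl)]
  simp [bil]

end Pool.Agent.Work.MP_659252_gt.QR
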