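import Pool.Agent.Work.MP_659252_gt.QR.A.RRa
import Pool.Agent.Work.MP_659252_gt.QR.A.EulA
import Pool.Agent.Work.MP_659252_gt.QR.A.Cls

/-!
# First variation: comparison of a geodesic with a nearby curve, and almost conservation of `p ⬝ δx`.  Size: M.

PROOF.  `fv`: let `c` be a `Sol` of `G` (`Met`), `a : ℝ → V d` a `C^1` curve, `f s = mom G c s ⬝ (a s - c s)`.  Then
`f' = (mom)' ⬝ ξ + mom ⬝ ξ'`, `ξ = a - c`, and `(mom)' = mul (dT G c c') c' + mul (G c) c'' = mul (dT G c c') c' - c + Eul G c c'`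
(`hasDerivAt_mul`; `mul (G c) c = c` from `rad` and symmetry; `mul (G c) (RR) = Eul` from `RR_dot`, `vec_ext`), whose product with `ξ` is
`bil (dT G c c') ξ c' + Eul ⬝ ξ - c ⬝ ξ = (1/2) bil (dT G c ξ) c' c' - c ⬝ ξ` (`Eul_dot`, symmetry of `dT`: `dT_symm`).  So `f' = DLag G c c' ξ ξ'`.
`csv`: `a = c₂`: `Lag = 0` along both (`sph`, `spd`), so by `tl` `|f'| ≤ C (‖ξ‖ + ‖ξ'‖)² ≤ C (2 C₂ δ)²` on `[0, 7]` (`InK` holds, `cls`); integrate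
(`Convex.norm_image_sub_le_of_norm_hasDerivWithin_le` or the mean value inequality): `|f s - f 0| ≤ 7 C (2 C₂ δ)²`.
-/

namespace Pool.Agent.Work.MP_659252_gt.QR

open scoped ContDiff Topology
open Pool.Agent.Work.MP_659252_gt.Z (V Ten val Tan InT IsZoll IsMetric IsGeodesic)

variable {d : ℕ}

private theorem csv_dot {p q : ℝ → V d} {p' q' : V d} {s : ℝ} (hp : HasDerivAt p p' s)
    (hq : HasDerivAt q q' s) :
    HasDerivAt (fun u => p u ⬝ᵥ q u) (p' ⬝ᵥ q s + p s ⬝ᵥ q') s := by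
  have h1 : ∀ i, HasDerivAt (fun u => p u i) (p' i) s := hasDerivAt_pi.1 hp
  have h2 : ∀ i, HasDerivAt (fun u => q u i) (q' i) s := hasDerivAt_pi.1 hq
  have h3 : HasDerivAt (fun u => ∑ i, p u i * q u i) (∑ i, (p' i * q s i + p s i * q' i)) s :=
    HasDerivAt.fun_sum fun i _ => (h1 i).mul (h2 i)
  simp only [dotProduct]
  rw [← Finset.sum_add_distrib]
  exact h3

private theorem csv_mul_self {G : Ten d} (hG : Met G) {x : V d} (hx : x ≠ 0) :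
    mul (G x) x = x := by
  refine vec_ext fun u => ?_
  rw [dotProduct_comm, ← bil_eq_dot, bil_comm (hG.symm x hx), hG.rad x hx]

private theorem Sol.ne {G : Ten d} {c : ℝ → V d} (hc : Sol G c) (s : ℝ) : c s ≠ 0 :=
  ne_zero_of_dot (hc.sph s)

private theorem Sol.hd {G : Ten d} {c : ℝ → V d} (hc : Sol G c) (s : ℝ) :
    HasDerivAt c (deriv c s) s :=
  ((hc.smooth.differentiable (by simp)) s).hasDerivAt

theorem fv (G : Ten d) (hG : Met G) (c : ℝ → V d) (hc : Sol G c) (a a' : ℝ → V d) (s : ℝ)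
    (ha : HasDerivAt a (a' s) s) :
    HasDerivAt (fun u => mom G c u ⬝ᵥ (a u - c u)) (DLag G (c s) (deriv c s) (a s - c s) (a' s - deriv c s)) s := by
  have hx := hc.ne s
  have hdiff : ∀ i j, DifferentiableAt ℝ (fun y => G y i j) (c s) := fun i j =>
    diff_of_smooth G {0}ᶜ isOpen_compl_singleton hG.smooth (c s) hx i j
  have h1 := hasDerivAt_mul G c (deriv c) (deriv c s) _ s hdiff (hc.hd s) (hc.ode s)
  have h2 := csv_dot h1 (ha.sub (hc.hd s))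
  refine h2.congr_deriv ?_
  simp only [Pi.sub_apply]
  set ξ : V d := a s - c s with hξ
  have e1 : mul (dT G (c s) (deriv c s)) (deriv c s) ⬝ᵥ ξ =
      bil (dT G (c s) (deriv c s)) ξ (deriv c s) := by
    rw [dotProduct_comm, ← bil_eq_dot]
  have e2 : mul (G (c s)) (-c s + RR G (c s) (deriv c s)) ⬝ᵥ ξ =
      -(c s ⬝ᵥ ξ) + Eul G (c s) (deriv c s) ⬝ᵥ ξ := by
    have e3 : mul (G (c s)) (RR G (c s) (deriv c s)) ⬝ᵥ ξ = Eul G (c s) (deriv c s) ⬝ᵥ ξ := by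
      rw [dotProduct_comm, ← bil_eq_dot, bil_comm (hG.symm _ hx), RR_dot G hG _ hx]
    have e4 : mul (G (c s)) (-c s) = -c s := by
      have e5 : -c s = (-1 : ℝ) • c s := by rw [neg_one_smul]
      rw [e5, mul_smul, csv_mul_self hG hx]
    rw [mul_add, add_dotProduct, e3, e4, neg_dotProduct]
  rw [add_dotProduct, e1, e2, Eul_dot, DLag]
  ring

theorem csv (ε : ℝ) (G : ℝ → Ten d) (N : Nice ε G) (C t₁ : ℝ) (ht : t₁ < ε) (H : Est G C t₁) :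
    ∃ C₃ > 0, ∃ t₃ > 0, t₃ ≤ t₁ ∧ ∀ t, |t| ≤ t₃ → ∀ c₁ c₂, Sol (G t) c₁ → Sol (G t) c₂ →
      ∀ s ∈ Set.Icc (0 : ℝ) 7, |mom (G t) c₁ s ⬝ᵥ (c₂ s - c₁ s) - mom (G t) c₁ 0 ⬝ᵥ (c₂ 0 - c₁ 0)|
        ≤ C₃ * (‖c₂ 0 - c₁ 0‖ + ‖deriv c₂ 0 - deriv c₁ 0‖) ^ 2 := by
  obtain ⟨C₂, hC₂, t₂, ht₂, htt, hcls⟩ := cls G C t₁ H
  have hC := H.Cpos
  refine ⟨7 * (C * (2 * C₂) ^ 2), by positivity, t₂, ht₂, htt, ?_⟩
  intro t ht' c₁ c₂ h1 h2 s hs
  have htε : t ∈ Set.Ioo (-ε) ε := by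
    have h3 : |t| < ε := by linarith
    rw [abs_lt] at h3
    exact h3
  have hM := N.met t htε
  have htl : |t| ≤ t₁ := ht'.trans htt
  have hd := (hcls t ht').2 c₁ c₂ h1 h2
  set δ : ℝ := ‖c₂ 0 - c₁ 0‖ + ‖deriv c₂ 0 - deriv c₁ 0‖ with hδ
  have hδ0 : 0 ≤ δ := by positivity
  have hIn : ∀ c, Sol (G t) c → ∀ u, InK (c u) (deriv c u) := by
    intro c hc u
    have h4 := H.vb t htl (c u) (deriv c u) (hc.sph u) (hc.spd u)
    refine ⟨?_, ?_, ?_⟩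
    · rw [hc.sph u]; norm_num
    · rw [hc.sph u]; norm_num
    · linarith
  have hLag : ∀ c, Sol (G t) c → ∀ u, Lag (G t) (c u) (deriv c u) = 0 := by
    intro c hc u
    rw [Lag, hc.sph u, hc.spd u]
    ring
  have hder : ∀ u ∈ Set.Icc (0 : ℝ) 7, HasDerivWithinAt
      (fun u => mom (G t) c₁ u ⬝ᵥ (c₂ u - c₁ u))
      (DLag (G t) (c₁ u) (deriv c₁ u) (c₂ u - c₁ u) (deriv c₂ u - deriv c₁ u))
      (Set.Icc (0 : ℝ) 7) u := by
    intro u _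
    exact (fv (G t) hM c₁ h1 c₂ (deriv c₂) u (h2.hd u)).hasDerivWithinAt
  have hbd : ∀ u ∈ Set.Icc (0 : ℝ) 7,
      ‖DLag (G t) (c₁ u) (deriv c₁ u) (c₂ u - c₁ u) (deriv c₂ u - deriv c₁ u)‖ ≤
        C * (2 * C₂) ^ 2 * δ ^ 2 := by
    intro u hu
    obtain ⟨-, -, h5, h6⟩ := hd u hu
    have h7 := H.tl t htl (c₁ u) (deriv c₁ u) (c₂ u) (deriv c₂ u) (hIn c₁ h1 u) (hIn c₂ h2 u)
    rw [hLag c₁ h1, hLag c₂ h2, sub_zero, zero_sub, abs_neg] at h7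
    rw [Real.norm_eq_abs]
    refine h7.trans ?_
    have h8 : ‖c₂ u - c₁ u‖ + ‖deriv c₂ u - deriv c₁ u‖ ≤ 2 * C₂ * δ := by linarith
    have h9 : 0 ≤ ‖c₂ u - c₁ u‖ + ‖deriv c₂ u - deriv c₁ u‖ := by positivity
    calc C * (‖c₂ u - c₁ u‖ + ‖deriv c₂ u - deriv c₁ u‖) ^ 2 ≤ C * (2 * C₂ * δ) ^ 2 := by
          gcongr
      _ = C * (2 * C₂) ^ 2 * δ ^ 2 := by ring
  have h10 := Convex.norm_image_sub_le_of_norm_hasDerivWithin_le hder hbd (convex_Icc _ _)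
    (Set.left_mem_Icc.2 (by norm_num)) hs
  rw [Real.norm_eq_abs, Real.norm_eq_abs, sub_zero, abs_of_nonneg hs.1] at h10
  calc |mom (G t) c₁ s ⬝ᵥ (c₂ s - c₁ s) - mom (G t) c₁ 0 ⬝ᵥ (c₂ 0 - c₁ 0)| ≤
      C * (2 * C₂) ^ 2 * δ ^ 2 * s := h10
    _ ≤ C * (2 * C₂) ^ 2 * δ ^ 2 * 7 := by
        have := hs.2
        gcongr
    _ = 7 * (C * (2 * C₂) ^ 2) * δ ^ 2 := by ring

end Pool.Agent.Work.MP_659252_gt.QR
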