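import Pool.Agent.Work.MP_659252_gt.QR.A.Geo
import Pool.Agent.Work.MP_659252_gt.QR.A.EulA

/-!
# Geodesics with initial conditions `X + t y`, `W + t y'` up to `O(t²)`.  Size: M.

PROOF.  For `t` near `0` put `x = (X + t y)/|X + t y|` (`|X + t y|² = 1 + t² (y ⬝ y)`), `u = W + t y'`, `u' = u - (u ⬝ x) x`, `v = u'/√(bil (G t x) u' u')`.
These are smooth functions of `t` near `0` (`G t x` smooth in `(t, x)`, `x ≠ 0`, `bil > 0`), `x = X`, `v = W` at `t = 0`, with derivatives `y`, `y'` at `0`: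
`x' = y`.  `u ⬝ (X + t y) = t (W ⬝ y + X ⬝ y') + t² (y ⬝ y') = t² (y ⬝ y')` by `h2`, so `u' = W + t y' + O(t²)`, and
`bil (G t x) u' u'` has the derivative `bil (h X) W W + bil (dT (G 0) X y) W W + 2 W ⬝ y' = 0` at `0` (`dT (G 0) = 0` since `G 0` is the identity matrix; `h3`), value `1`.
A `C²` function satisfies `‖F t - F 0 - t F' 0‖ ≤ C t²` near `0`.  `geo_exists` for `(x, v)` gives `c`.
-/

namespace Pool.Agent.Work.MP_659252_gt.QR

open scoped ContDiff Topology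
open Pool.Agent.Work.MP_659252_gt.Z (V Ten val Tan InT IsZoll IsMetric IsGeodesic)

variable {d : ℕ}

/-- second order Taylor bound -/
private theorem taylor2 {E : Type*} [NormedAddCommGroup E] [NormedSpace ℝ E] (F : ℝ → E) (F' : E)
    (hF : ContDiffAt ℝ 2 F 0) (hF' : HasDerivAt F F' 0) :
    ∃ C > 0, ∃ δ > 0, ∀ t : ℝ, |t| ≤ δ → ‖F t - (F 0 + t • F')‖ ≤ C * t ^ 2 := by
  have h1 : DifferentiableAt ℝ (deriv F) 0 := by
    have h2 : ContDiffAt ℝ 1 (fderiv ℝ F) 0 := hF.fderiv_right (by norm_num)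
    have h3 : DifferentiableAt ℝ (fderiv ℝ F) 0 := h2.differentiableAt (by norm_num)
    have h4 : DifferentiableAt ℝ (fun t => fderiv ℝ F t 1) 0 := h3.clm_apply (differentiableAt_const _)
    exact h4
  have h2 : ∀ᶠ t in 𝓝 (0 : ℝ), DifferentiableAt ℝ F t := by
    have h3 := hF.eventually (by simp)
    exact h3.mono fun t ht => ht.differentiableAt (by norm_num)
  obtain ⟨C, hC⟩ := (h1.isBigO_sub).bound
  obtain ⟨δ, hδ, hb⟩ := Metric.eventually_nhds_iff.1 (h2.and hC)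
  refine ⟨|C| + 1, by positivity, δ / 2, by positivity, fun t ht => ?_⟩
  have key := Convex.norm_image_sub_le_of_norm_hasDerivWithin_le (f := fun s : ℝ => F s - s • F')
    (f' := fun s : ℝ => deriv F s - F') (C := (|C| + 1) * |t|) (s := Metric.closedBall (0 : ℝ) |t|)
    (x := 0) (y := t) ?_ ?_ (convex_closedBall _ _) (by simp) (by simp)
  · have e1 : F t - (F 0 + t • F') = (F t - t • F') - (F 0 - (0 : ℝ) • F') := by
      rw [zero_smul, sub_zero]
      abel
    rw [e1]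
    refine key.trans ?_
    rw [sub_zero, Real.norm_eq_abs, mul_assoc, ← pow_two, sq_abs]
  · intro s hs
    rw [mem_closedBall_zero_iff, Real.norm_eq_abs] at hs
    have hs1 := (hb (y := s) (by rw [dist_zero_right, Real.norm_eq_abs]; linarith)).1
    have h5 := (hs1.hasDerivAt.sub ((hasDerivAt_id s).smul_const F')).hasDerivWithinAt
      (s := Metric.closedBall (0 : ℝ) |t|)
    rw [one_smul] at h5
    exact h5
  · intro s hs
    rw [mem_closedBall_zero_iff, Real.norm_eq_abs] at hs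
    have hs1 := (hb (y := s) (by rw [dist_zero_right, Real.norm_eq_abs]; linarith)).2
    rw [hF'.deriv, sub_zero, Real.norm_eq_abs] at hs1
    refine hs1.trans ?_
    exact mul_le_mul ((le_abs_self C).trans (by linarith)) hs (abs_nonneg _) (by positivity)

private theorem hd_bil (M : ℝ → Mat d) (a b : ℝ → V d) (M' : Mat d) (a' b' : V d) (s : ℝ)
    (hM : ∀ i j, HasDerivAt (fun t => M t i j) (M' i j) s) (ha : HasDerivAt a a' s) (hb : HasDerivAt b b' s) :
    HasDerivAt (fun t => bil (M t) (a t) (b t))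
      (bil M' (a s) (b s) + bil (M s) a' (b s) + bil (M s) (a s) b') s := by
  have ha' := hasDerivAt_pi.1 ha
  have hb' := hasDerivAt_pi.1 hb
  have key := HasDerivAt.fun_sum (u := Finset.univ) (fun i _ => HasDerivAt.fun_sum (u := Finset.univ)
    (fun j _ => (hM i j).mul ((ha' i).mul (hb' j))))
  refine key.congr_deriv ?_
  simp only [bil, Pi.mul_apply, ← Finset.sum_add_distrib]
  exact Finset.sum_congr rfl fun i _ => Finset.sum_congr rfl fun j _ => by ring

private theorem bil_ee (M : Mat d) (i j : Fin (d + 1)) : bil M (ee i) (ee j) = M i j := by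
  simp [bil, ee, Pi.single_apply]

/-- the derivative of the inverse square root at a critical point -/
private theorem hd_isqrt (ρ : ℝ → ℝ) (h0 : ρ 0 = 1) (hρ : HasDerivAt ρ 0 0) :
    HasDerivAt (fun t => (√(ρ t))⁻¹) 0 0 := by
  have h1 := (hρ.sqrt (by rw [h0]; norm_num)).inv (by rw [h0]; simp)
  refine h1.congr_deriv ?_
  simp

private theorem cd_isqrt (ρ : ℝ → ℝ) (h0 : ρ 0 = 1) (hρ : ContDiffAt ℝ 2 ρ 0) :
    ContDiffAt ℝ 2 (fun t => (√(ρ t))⁻¹) 0 :=
  (hρ.sqrt (by rw [h0]; norm_num)).inv (by rw [h0]; simp)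

private theorem dot_smul' (c : ℝ) (v w : V d) : v ⬝ᵥ (c • w) = c * (v ⬝ᵥ w) := by
  rw [dotProduct_smul, smul_eq_mul]

private theorem smul_dot' (c : ℝ) (v w : V d) : (c • v) ⬝ᵥ w = c * (v ⬝ᵥ w) := by
  rw [smul_dotProduct, smul_eq_mul]

theorem init (ε : ℝ) (G : ℝ → Ten d) (N : Nice ε G) (h : Ten d)
    (hd : ∀ x, x ≠ 0 → ∀ i j, HasDerivAt (fun t => G t x i j) (h x i j) 0) (X W : V d) (hXW : Orth X W)
    (y y' : V d) (h1 : X ⬝ᵥ y = 0) (h2 : W ⬝ᵥ y + X ⬝ᵥ y' = 0) (h3 : 2 * (W ⬝ᵥ y') + bil (h X) W W = 0) :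
    ∃ C > 0, ∃ t₁ > 0, t₁ < ε ∧ ∀ t, |t| ≤ t₁ → ∃ c : ℝ → V d, Sol (G t) c ∧
      ‖c 0 - (X + t • y)‖ ≤ C * t ^ 2 ∧ ‖deriv c 0 - (W + t • y')‖ ≤ C * t ^ 2 := by
  obtain ⟨hX, hW, hXW'⟩ := hXW
  have hyX : y ⬝ᵥ X = 0 := by rw [dotProduct_comm]; exact h1
  have hWX : W ⬝ᵥ X = 0 := by rw [dotProduct_comm]; exact hXW'
  set κ : ℝ := y ⬝ᵥ y with hκ
  have hκ0 : 0 ≤ κ := dot_self_nonneg y
  set p : ℝ → V d := fun t => X + t • y with hp
  set ρ : ℝ → ℝ := fun t => 1 + t ^ 2 * κ with hρ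
  have hρ1 : ∀ t, 1 ≤ ρ t := fun t => by
    have : 0 ≤ t ^ 2 * κ := mul_nonneg (sq_nonneg t) hκ0
    simp only [hρ]
    linarith
  have hpp : ∀ t, p t ⬝ᵥ p t = ρ t := fun t => by
    simp only [hp, hρ, add_dotProduct, dotProduct_add, smul_dot', dot_smul', hX, h1, hyX]
    ring
  have hp0 : ∀ t, p t ≠ 0 := fun t h0 => by
    have h2 := hpp t
    rw [h0] at h2
    simp only [dotProduct_zero] at h2
    have := hρ1 t
    linarith
  set f : ℝ → ℝ := fun t => t ^ 2 * (y ⬝ᵥ y') / ρ t with hf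
  set u : ℝ → V d := fun t => W + t • y' - f t • p t with hu
  have hpu : ∀ t, p t ⬝ᵥ u t = 0 := fun t => by
    have hρ0 : ρ t ≠ 0 := by have := hρ1 t; positivity
    have e1 : p t ⬝ᵥ u t = p t ⬝ᵥ (W + t • y') - f t * (p t ⬝ᵥ p t) := by
      simp only [hu]
      rw [dotProduct_sub, dot_smul']
    rw [e1, hpp]
    have e2 : f t * ρ t = t ^ 2 * (y ⬝ᵥ y') := by
      simp only [hf]
      field_simp
    rw [e2]
    simp only [hp, add_dotProduct, dotProduct_add, smul_dot', dot_smul', hXW']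
    have e3 : X ⬝ᵥ y' = - (y ⬝ᵥ W) := by
      rw [dotProduct_comm y W]
      linarith
    rw [e3]
    ring
  set q : ℝ → ℝ := fun t => bil (G t (p t)) (u t) (u t) with hq
  have hp00 : p 0 = X := by simp [hp]
  have hρ00 : ρ 0 = 1 := by simp [hρ]
  have hf00 : f 0 = 0 := by simp [hf]
  have hu00 : u 0 = W := by simp [hu, hf00]
  have hX0 : X ≠ 0 := ne_zero_of_dot hX
  have hq00 : q 0 = 1 := by
    simp only [hq]
    rw [hu00, hp00, N.rnd X hX0, hW]
  -- derivatives at 0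
  have dp : HasDerivAt p y 0 := by
    have h5 := ((hasDerivAt_id (0 : ℝ)).smul_const y).const_add X
    rw [one_smul] at h5
    exact h5
  have dρ : HasDerivAt ρ 0 0 := by
    have h5 := (((hasDerivAt_pow 2 (0 : ℝ))).mul_const κ).const_add 1
    refine h5.congr_deriv ?_
    simp
  have df : HasDerivAt f 0 0 := by
    have h5 := ((hasDerivAt_pow 2 (0 : ℝ)).mul_const (y ⬝ᵥ y')).div dρ (by rw [hρ00]; norm_num)
    refine h5.congr_deriv ?_
    simp
  have du : HasDerivAt u y' 0 := by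
    have h5 := (((hasDerivAt_id (0 : ℝ)).smul_const y').const_add W).sub (df.smul dp)
    refine h5.congr_deriv ?_
    simp [hf00]
  have hmem : Set.Ioo (-ε) ε ×ˢ ({0}ᶜ : Set (V d)) ∈ 𝓝 ((0 : ℝ), X) :=
    (isOpen_Ioo.prod isOpen_compl_singleton).mem_nhds
      ⟨⟨neg_neg_of_pos N.pos, N.pos⟩, by simpa using hX0⟩
  have cG : ContDiffAt ℝ ∞ (fun z : ℝ × V d => G z.1 z.2) (0, X) := N.smooth.contDiffAt hmem
  have dG : ∀ i j, HasDerivAt (fun t => G t (p t) i j) (h X i j) 0 := by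
    intro i j
    have cF : ContDiffAt ℝ ∞ (fun z : ℝ × V d => G z.1 z.2 i j) (0, X) :=
      contDiffAt_pi.1 (contDiffAt_pi.1 cG i) j
    have hF := (cF.differentiableAt (by simp)).hasFDerivAt
    set L := fderiv ℝ (fun z : ℝ × V d => G z.1 z.2 i j) (0, X) with hL
    have k1 : HasDerivAt (fun t => G t (p t) i j) (L (1, y)) 0 :=
      hF.comp_hasDerivAt_of_eq (f := fun t : ℝ => (t, p t)) 0 ((hasDerivAt_id (0 : ℝ)).prodMk dp)
        (by simp [hp00])
    have k2 : HasDerivAt (fun t => G t X i j) (L (1, 0)) 0 :=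
      hF.comp_hasDerivAt_of_eq (f := fun t : ℝ => (t, X)) 0
        ((hasDerivAt_id (0 : ℝ)).prodMk (hasDerivAt_const (0 : ℝ) X)) rfl
    have k3 : HasDerivAt (fun t => G 0 (p t) i j) (L (0, y)) 0 :=
      hF.comp_hasDerivAt_of_eq (f := fun t : ℝ => ((0 : ℝ), p t)) 0
        ((hasDerivAt_const (0 : ℝ) (0 : ℝ)).prodMk dp) (by simp [hp00])
    have k4 : (fun t => G 0 (p t) i j) = fun _ => (ee i : V d) ⬝ᵥ ee j := by
      funext t
      rw [← N.rnd (p t) (hp0 t), bil_ee]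
    rw [k4] at k3
    have e1 : L (0, y) = 0 := k3.unique (hasDerivAt_const _ _)
    have e2 : L (1, 0) = h X i j := k2.unique (hd X hX0 i j)
    have e3 : L (1, y) = L (1, 0) + L (0, y) := by
      rw [← map_add]
      simp
    rw [e3, e1, e2, add_zero] at k1
    exact k1
  have dq : HasDerivAt q 0 0 := by
    have h5 := hd_bil (fun t => G t (p t)) u u (h X) y' y' 0 dG du du
    refine h5.congr_deriv ?_
    rw [hu00, hp00, N.rnd X hX0, N.rnd X hX0, dotProduct_comm y' W]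
    linarith
  -- smoothness
  have cp : ContDiffAt ℝ 2 p 0 := by
    have : ContDiff ℝ 2 p := contDiff_const.add (contDiff_id.smul contDiff_const)
    exact this.contDiffAt
  have cρ : ContDiffAt ℝ 2 ρ 0 := by
    have : ContDiff ℝ 2 ρ := contDiff_const.add ((contDiff_id.pow 2).mul contDiff_const)
    exact this.contDiffAt
  have cf : ContDiffAt ℝ 2 f 0 := by
    have : ContDiff ℝ 2 fun t : ℝ => t ^ 2 * (y ⬝ᵥ y') := (contDiff_id.pow 2).mul contDiff_const
    exact this.contDiffAt.div cρ (by rw [hρ00]; norm_num)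
  have cu : ContDiffAt ℝ 2 u 0 := by
    have : ContDiff ℝ 2 fun t : ℝ => W + t • y' := contDiff_const.add (contDiff_id.smul contDiff_const)
    exact this.contDiffAt.sub (cf.smul cp)
  have cGp : ContDiffAt ℝ 2 (fun t => G t (p t)) 0 := by
    have h5 : ContDiffAt ℝ 2 (fun z : ℝ × V d => G z.1 z.2) ((0 : ℝ), p 0) := by
      rw [hp00]
      exact contDiffAt_infty.1 cG 2
    exact h5.comp (0 : ℝ) (f := fun t : ℝ => (t, p t)) (contDiffAt_id.prodMk cp)
  have cq : ContDiffAt ℝ 2 q 0 := by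
    simp only [hq, bil]
    refine ContDiffAt.sum fun i _ => ContDiffAt.sum fun j _ => ?_
    exact (contDiffAt_pi.1 (contDiffAt_pi.1 cGp i) j).mul
      ((contDiffAt_pi.1 cu i).mul (contDiffAt_pi.1 cu j))
  -- the curve of initial data
  set x : ℝ → V d := fun t => (√(ρ t))⁻¹ • p t with hx
  set v : ℝ → V d := fun t => (√(q t))⁻¹ • u t with hv
  have hx00 : x 0 = X := by simp [hx, hρ00, hp00]
  have hv00 : v 0 = W := by simp [hv, hq00, hu00]
  have dx : HasDerivAt x y 0 := by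
    have h5 := (hd_isqrt ρ hρ00 dρ).smul dp
    refine h5.congr_deriv ?_
    simp [hρ00]
  have dv : HasDerivAt v y' 0 := by
    have h5 := (hd_isqrt q hq00 dq).smul du
    refine h5.congr_deriv ?_
    simp [hq00]
  have cx : ContDiffAt ℝ 2 x 0 := (cd_isqrt ρ hρ00 cρ).smul cp
  have cv : ContDiffAt ℝ 2 v 0 := (cd_isqrt q hq00 cq).smul cu
  obtain ⟨C₁, hC₁, δ₁, hδ₁, B₁⟩ := taylor2 x y cx dx
  obtain ⟨C₂, hC₂, δ₂, hδ₂, B₂⟩ := taylor2 v y' cv dv
  have hqpos : ∀ᶠ t in 𝓝 (0 : ℝ), 0 < q t := by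
    have h5 : q 0 ∈ Set.Ioi (0 : ℝ) := by
      rw [hq00]
      exact Set.mem_Ioi.2 one_pos
    exact dq.continuousAt.eventually (isOpen_Ioi.mem_nhds h5)
  obtain ⟨δ₃, hδ₃, B₃⟩ := Metric.eventually_nhds_iff.1 hqpos
  refine ⟨C₁ + C₂, by positivity, min (min δ₁ δ₂) (min (δ₃ / 2) (ε / 2)), ?_, ?_, ?_⟩
  · have := N.pos
    positivity
  · have := N.pos
    exact (min_le_right _ _).trans_lt ((min_le_right _ _).trans_lt (by linarith))
  intro t ht
  have t1 : |t| ≤ δ₁ := ht.trans ((min_le_left _ _).trans (min_le_left _ _))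
  have t2 : |t| ≤ δ₂ := ht.trans ((min_le_left _ _).trans (min_le_right _ _))
  have t3 : |t| ≤ δ₃ / 2 := ht.trans ((min_le_right _ _).trans (min_le_left _ _))
  have t4 : |t| ≤ ε / 2 := ht.trans ((min_le_right _ _).trans (min_le_right _ _))
  have hε := N.pos
  have htI : t ∈ Set.Ioo (-ε) ε := abs_lt.1 (by linarith)
  have hqt : 0 < q t := B₃ (by rw [dist_zero_right, Real.norm_eq_abs]; linarith)
  have hρt : 0 < ρ t := lt_of_lt_of_le one_pos (hρ1 t)
  have hMet := N.met t htI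
  have hGx : G t (x t) = G t (p t) := hMet.hom _ _ (by positivity)
  have sρ : (√(ρ t))⁻¹ * ((√(ρ t))⁻¹ * ρ t) = 1 := by
    have h5 : √(ρ t) * √(ρ t) = ρ t := Real.mul_self_sqrt hρt.le
    have h6 : √(ρ t) ≠ 0 := by positivity
    calc (√(ρ t))⁻¹ * ((√(ρ t))⁻¹ * ρ t) = (√(ρ t))⁻¹ * ((√(ρ t))⁻¹ * (√(ρ t) * √(ρ t))) := by rw [h5]
      _ = 1 := by field_simp
  have sq' : (√(q t))⁻¹ * ((√(q t))⁻¹ * q t) = 1 := by
    have h5 : √(q t) * √(q t) = q t := Real.mul_self_sqrt hqt.le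
    have h6 : √(q t) ≠ 0 := by positivity
    calc (√(q t))⁻¹ * ((√(q t))⁻¹ * q t) = (√(q t))⁻¹ * ((√(q t))⁻¹ * (√(q t) * √(q t))) := by rw [h5]
      _ = 1 := by field_simp
  obtain ⟨c, hc, hc0, hc1⟩ := geo_exists (G t) hMet (x t) (v t)
    (by
      simp only [hx]
      rw [dot_smul', smul_dot', hpp]
      exact sρ)
    (by
      simp only [hx, hv]
      rw [dot_smul', smul_dot', hpu]
      ring)
    (by
      rw [hGx]
      simp only [hv]
      rw [bil_smul_left, bil_smul_right]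
      exact sq')
  refine ⟨c, hc, ?_, ?_⟩
  · rw [hc0]
    have h5 := B₁ t t1
    rw [hx00] at h5
    refine h5.trans ?_
    have : 0 ≤ C₂ * t ^ 2 := by positivity
    nlinarith
  · rw [hc1]
    have h5 := B₂ t t2
    rw [hv00] at h5
    refine h5.trans ?_
    have : 0 ≤ C₁ * t ^ 2 := by positivity
    nlinarith

end Pool.Agent.Work.MP_659252_gt.QR
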