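import Pool.Agent.Work.MP_659252_gt.QR.A.EulA

/-!
# The first variation `Yf` for an odd tensor.  Size: M-L (may be split: `Yf_ode` etc. / `Yf_perp`).

Let `e s = Eul k (gc X W s) (gd X W s)` (smooth).  `gc (s + π) = -gc s`, `gd (s + π) = -gd s`.
PROOF.  `Eul_odd`: `dT k (-x) v = dT k x v` for an odd field (`fderiv` of `y ↦ -k (-y) i j`), linear in `v`; so `Eul k (-x) (-v) = Eul k x v`.
`Eul_smooth`: `(x, v) ↦ Eul k x v` is smooth on `x ≠ 0`.  Hence `e (s + π) = e s`, `e` smooth (`gc s ≠ 0`: `gc ⬝ gc = 1`).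
`Yf s = (1/2) ∫_{s-π}^{s} sin (s - σ) e σ dσ = (1/2) (sin s (A s - A (s - π)) - cos s (B s - B (s - π)))` with `A = ∫_0^s cos σ e σ`, `B = ∫_0^s sin σ e σ`
(smooth functions, `A' = cos e`, `B' = sin e`).  Derivative: `A s - A (s - π)` has derivative `cos s e s - cos (s-π) e (s-π) = 2 cos s e s`, similarly
`2 sin s e s` for `B`.  So `Yf' = (1/2) (cos s (A s - A (s-π)) + sin s (B s - B(s-π)))` (the other terms cancel) and
`Yf'' = -Yf + (1/2) (2 cos² s + 2 sin² s) e s = -Yf + e s`.  `Yf_periodic`: substitute `σ → σ + π`.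
`Yf_perp`, `Yf_speed`: let `u = gc ⬝ Y`, `p = gd ⬝ Y'`, `κ = bil (k gc) gd gd`.  `e ⬝ gc = κ` and `e ⬝ gd = -κ'/2`: `Eul_dot`: `e ⬝ gc = (1/2) bil (dT k gc gc) gd gd -
bil (dT k gc gd) gc gd`; the first is `0` (`dT_self`), and differentiating `bil (k x) x w = 0` along `v`: `bil (dT k x v) x w = -bil (k x) v w`, so it is `κ`.
`κ' = bil (dT k gc gd) gd gd - 2 bil (k gc) gd gc = bil (dT k gc gd) gd gd` and `e ⬝ gd = -(1/2) bil (dT k gc gd) gd gd`.
`u' = gd ⬝ Y + gc ⬝ Y'`, `p' = -gc ⬝ Y' + gd ⬝ (e - Y) = -κ'/2 - u'`, so `p + κ/2 + u = c₀` is constant.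
`u'' = -gc ⬝ Y + 2 gd ⬝ Y' + gc ⬝ (e - Y) = -2 u + 2 p + κ = -4 u + 2 c₀`.  `Y` is `π`-periodic and `gc (s+π) = -gc s`: `u (s + π) = -u s`.
`f = u - c₀/2` satisfies `f'' = -4 f`, so `f = f 0 cos 2s + (f' 0/2) sin 2s` (energy `(f - ..)'² + 4 (f - ..)²` is constant) is `π`-periodic; hence
`u (s + π) = u s`, so `u = 0`, then `c₀ = 0` and `2 p + κ = 0`.
-/

namespace Pool.Agent.Work.MP_659252_gt.QR

open scoped ContDiff Topology
open Pool.Agent.Work.MP_659252_gt.Z (V Ten val Tan InT IsZoll IsMetric IsGeodesic)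

variable {d : ℕ}

private theorem fderiv_odd (f : V d → ℝ) (hf : ∀ y, f (-y) = -f y) (x : V d) :
    fderiv ℝ f (-x) = fderiv ℝ f x := by
  have h1 := (ContinuousLinearEquiv.neg ℝ (M := V d)).comp_right_fderiv (f := f) (x := x)
  have h2 : fderiv ℝ (fun y => -f y) x = -fderiv ℝ f x := fderiv_fun_neg
  have h3 : f ∘ (ContinuousLinearEquiv.neg ℝ (M := V d)) = fun y => -f y := funext hf
  rw [h3, h2] at h1
  apply ContinuousLinearMap.ext
  intro v
  have h4 := congrArg (fun L : V d →L[ℝ] ℝ => L v) h1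
  have h5 : -(fderiv ℝ f x v) = fderiv ℝ f (-x) (-v) := h4
  rw [map_neg] at h5
  exact (neg_injective h5).symm

theorem Eul_odd (k : Ten d) (ho : OddF k) (x v : V d) : Eul k (-x) (-v) = Eul k x v := by
  have h1 : ∀ w : V d, dT k (-x) w = dT k x w := by
    intro w
    funext i j
    simp only [dT]
    rw [fderiv_odd (fun y => k y i j) (fun y => ho y i j) x]
  have h2 : dT k x (-v) = fun i j => -dT k x v i j := by
    funext i j
    simp only [dT, map_neg]
  funext i
  simp only [Eul]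
  rw [h1, h1, bil_neg_left, bil_neg_right, h2]
  simp only [mul, Pi.neg_apply, neg_mul_neg, neg_neg]

theorem Eul_smooth (k : Ten d) (C : Set (V d)) (hC : IsOpen C) (hk : FldOn k C) :
    ContDiffOn ℝ ∞ (fun p : V d × V d => Eul k p.1 p.2) (C ×ˢ Set.univ) := by
  have h0 : ∀ i j, ContDiffOn ℝ ∞ (fun y => k y i j) C := by
    intro i j
    exact contDiffOn_pi.1 (contDiffOn_pi.1 hk.smooth i) j
  have h1 : ∀ i j, ContDiffOn ℝ ∞ (fun p : V d × V d => fderiv ℝ (fun y => k y i j) p.1)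
      (C ×ˢ Set.univ) := by
    intro i j
    have h2 := (h0 i j).fderiv_of_isOpen (m := ∞) hC (by norm_num)
    exact h2.comp contDiff_fst.contDiffOn fun p hp => hp.1
  have hv : ∀ i, ContDiffOn ℝ ∞ (fun p : V d × V d => p.2 i) (C ×ˢ Set.univ) := by
    intro i
    exact ((contDiff_apply ℝ ℝ i).comp contDiff_snd).contDiffOn
  refine contDiffOn_pi.2 fun i => ?_
  unfold Eul
  refine ContDiffOn.sub ?_ ?_
  · refine contDiffOn_const.mul ?_
    unfold bil dT
    refine ContDiffOn.sum fun a _ => ContDiffOn.sum fun b _ => ?_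
    exact ((h1 a b).clm_apply contDiffOn_const).mul ((hv a).mul (hv b))
  · unfold mul dT
    refine ContDiffOn.sum fun b _ => ?_
    exact ((h1 i b).clm_apply contDiff_snd.contDiffOn).mul (hv b)

/-! ### the curve -/

private theorem gc_dot {X W : V d} (h : Orth X W) (s : ℝ) : gc X W s ⬝ᵥ gc X W s = 1 := by
  obtain ⟨h1, h2, h3⟩ := h
  have h4 : W ⬝ᵥ X = 0 := by rw [dotProduct_comm, h3]
  simp only [gc, add_dotProduct, dotProduct_add, smul_dotProduct, dotProduct_smul, smul_eq_mul,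
    h1, h2, h3, h4]
  have := Real.cos_sq_add_sin_sq s
  linear_combination this

private theorem gc_add_pi (X W : V d) (s : ℝ) : gc X W (s + Real.pi) = -gc X W s := by
  funext i
  simp only [gc, Real.cos_add_pi, Real.sin_add_pi, Pi.add_apply, Pi.smul_apply, Pi.neg_apply,
    smul_eq_mul]
  ring

private theorem gd_add_pi (X W : V d) (s : ℝ) : gd X W (s + Real.pi) = -gd X W s := by
  funext i
  simp only [gd, Real.cos_add_pi, Real.sin_add_pi, Pi.sub_apply, Pi.smul_apply, Pi.neg_apply,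
    smul_eq_mul]
  ring

private noncomputable def ev (k : Ten d) (X W : V d) (s : ℝ) : V d :=
  Eul k (gc X W s) (gd X W s)

private theorem ev_per (k : Ten d) (ho : OddF k) (X W : V d) (s : ℝ) :
    ev k X W (s + Real.pi) = ev k X W s := by
  unfold ev
  rw [gc_add_pi, gd_add_pi, Eul_odd k ho]

private theorem ev_smooth (k : Ten d) (hk : Fld k) {X W : V d} (h : Orth X W) :
    ContDiff ℝ ∞ (ev k X W) := by
  have h1 := Eul_smooth k {0}ᶜ isOpen_compl_singleton hk
  have hc : ContDiff ℝ ∞ (fun s => gc X W s) := by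
    unfold gc
    exact (Real.contDiff_cos.smul contDiff_const).add (Real.contDiff_sin.smul contDiff_const)
  have hd : ContDiff ℝ ∞ (fun s => gd X W s) := by
    unfold gd
    exact (Real.contDiff_cos.smul contDiff_const).sub (Real.contDiff_sin.smul contDiff_const)
  have hm : ∀ s, (gc X W s, gd X W s) ∈ ({0}ᶜ : Set (V d)) ×ˢ (Set.univ : Set (V d)) := by
    intro s
    exact Set.mk_mem_prod (ne_zero_of_dot (gc_dot h s)) (Set.mem_univ _)
  exact h1.comp_contDiff (f := fun s => (gc X W s, gd X W s)) (hc.prodMk hd) hm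

private noncomputable def Ai (k : Ten d) (X W : V d) (s : ℝ) : V d :=
  ∫ σ in (0 : ℝ)..s, Real.cos σ • ev k X W σ

private noncomputable def Bi (k : Ten d) (X W : V d) (s : ℝ) : V d :=
  ∫ σ in (0 : ℝ)..s, Real.sin σ • ev k X W σ

private theorem hasDerivAt_Ai (k : Ten d) (hk : Fld k) {X W : V d} (h : Orth X W) (s : ℝ) :
    HasDerivAt (Ai k X W) (Real.cos s • ev k X W s) s := by
  have hf : Continuous fun σ => Real.cos σ • ev k X W σ :=
    Real.continuous_cos.smul (ev_smooth k hk h).continuous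
  exact intervalIntegral.integral_hasDerivAt_right (hf.intervalIntegrable _ _)
    (hf.stronglyMeasurableAtFilter _ _) hf.continuousAt

private theorem hasDerivAt_Bi (k : Ten d) (hk : Fld k) {X W : V d} (h : Orth X W) (s : ℝ) :
    HasDerivAt (Bi k X W) (Real.sin s • ev k X W s) s := by
  have hf : Continuous fun σ => Real.sin σ • ev k X W σ :=
    Real.continuous_sin.smul (ev_smooth k hk h).continuous
  exact intervalIntegral.integral_hasDerivAt_right (hf.intervalIntegrable _ _)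
    (hf.stronglyMeasurableAtFilter _ _) hf.continuousAt

private theorem smooth_of_hasDerivAt {f f' : ℝ → V d} (h : ∀ s, HasDerivAt f (f' s) s)
    (h' : ContDiff ℝ ∞ f') : ContDiff ℝ ∞ f := by
  rw [contDiff_infty_iff_deriv]
  refine ⟨fun s => (h s).differentiableAt, ?_⟩
  have e : deriv f = f' := funext fun s => (h s).deriv
  rw [e]
  exact h'

private theorem Ai_smooth (k : Ten d) (hk : Fld k) {X W : V d} (h : Orth X W) :
    ContDiff ℝ ∞ (Ai k X W) :=
  smooth_of_hasDerivAt (hasDerivAt_Ai k hk h) (Real.contDiff_cos.smul (ev_smooth k hk h))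

private theorem Bi_smooth (k : Ten d) (hk : Fld k) {X W : V d} (h : Orth X W) :
    ContDiff ℝ ∞ (Bi k X W) :=
  smooth_of_hasDerivAt (hasDerivAt_Bi k hk h) (Real.contDiff_sin.smul (ev_smooth k hk h))

private theorem Yf_eq (k : Ten d) (hk : Fld k) {X W : V d} (h : Orth X W) (s : ℝ) :
    Yf k X W s = (1 / 2 : ℝ) • (Real.sin s • (Ai k X W s - Ai k X W (s - Real.pi)) -
      Real.cos s • (Bi k X W s - Bi k X W (s - Real.pi))) := by
  have hf : Continuous fun σ => Real.cos σ • ev k X W σ :=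
    Real.continuous_cos.smul (ev_smooth k hk h).continuous
  have hg : Continuous fun σ => Real.sin σ • ev k X W σ :=
    Real.continuous_sin.smul (ev_smooth k hk h).continuous
  have e1 : Ai k X W s - Ai k X W (s - Real.pi) =
      ∫ σ in (s - Real.pi)..s, Real.cos σ • ev k X W σ :=
    intervalIntegral.integral_interval_sub_left (hf.intervalIntegrable _ _)
      (hf.intervalIntegrable _ _)
  have e2 : Bi k X W s - Bi k X W (s - Real.pi) =
      ∫ σ in (s - Real.pi)..s, Real.sin σ • ev k X W σ :=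
    intervalIntegral.integral_interval_sub_left (hg.intervalIntegrable _ _)
      (hg.intervalIntegrable _ _)
  have e3 : ∫ σ in (s - Real.pi)..s, Real.sin (s - σ) • Eul k (gc X W σ) (gd X W σ) =
      ∫ σ in (s - Real.pi)..s, (Real.sin s • (Real.cos σ • ev k X W σ) -
        Real.cos s • (Real.sin σ • ev k X W σ)) := by
    refine intervalIntegral.integral_congr fun σ _ => ?_
    show Real.sin (s - σ) • ev k X W σ = _
    rw [Real.sin_sub, smul_smul, smul_smul, ← sub_smul]
  have hf' : Continuous fun σ => Real.sin s • (Real.cos σ • ev k X W σ) := hf.fun_const_smul _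
  have hg' : Continuous fun σ => Real.cos s • (Real.sin σ • ev k X W σ) := hg.fun_const_smul _
  rw [e1, e2, Yf, e3, intervalIntegral.integral_sub (hf'.intervalIntegrable _ _)
    (hg'.intervalIntegrable _ _), intervalIntegral.integral_smul, intervalIntegral.integral_smul]

private noncomputable def Yd (k : Ten d) (X W : V d) (s : ℝ) : V d :=
  (1 / 2 : ℝ) • (Real.cos s • (Ai k X W s - Ai k X W (s - Real.pi)) +
      Real.sin s • (Bi k X W s - Bi k X W (s - Real.pi)))

private theorem ev_sub (k : Ten d) (ho : OddF k) (X W : V d) (s : ℝ) :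
    ev k X W (s - Real.pi) = ev k X W s := by
  have := ev_per k ho X W (s - Real.pi)
  rw [sub_add_cancel] at this
  exact this.symm

private theorem dA (k : Ten d) (hk : Fld k) {X W : V d} (h : Orth X W) (ho : OddF k) (s : ℝ) :
    HasDerivAt (fun s => Ai k X W s - Ai k X W (s - Real.pi))
      ((2 * Real.cos s) • ev k X W s) s := by
  have h1 := hasDerivAt_Ai k hk h s
  have h2 := (hasDerivAt_Ai k hk h (s - Real.pi)).comp_sub_const s Real.pi
  rw [ev_sub k ho, Real.cos_sub_pi] at h2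
  refine (h1.sub h2).congr_deriv ?_
  rw [← sub_smul]
  congr 1
  ring

private theorem dB (k : Ten d) (hk : Fld k) {X W : V d} (h : Orth X W) (ho : OddF k) (s : ℝ) :
    HasDerivAt (fun s => Bi k X W s - Bi k X W (s - Real.pi))
      ((2 * Real.sin s) • ev k X W s) s := by
  have h1 := hasDerivAt_Bi k hk h s
  have h2 := (hasDerivAt_Bi k hk h (s - Real.pi)).comp_sub_const s Real.pi
  rw [ev_sub k ho, Real.sin_sub_pi] at h2
  refine (h1.sub h2).congr_deriv ?_
  rw [← sub_smul]
  congr 1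
  ring

private theorem hasDerivAt_Yf (k : Ten d) (hk : Fld k) {X W : V d} (h : Orth X W) (ho : OddF k)
    (s : ℝ) : HasDerivAt (Yf k X W) (Yd k X W s) s := by
  have e : Yf k X W = fun s => (1 / 2 : ℝ) •
      (Real.sin s • (Ai k X W s - Ai k X W (s - Real.pi)) -
        Real.cos s • (Bi k X W s - Bi k X W (s - Real.pi))) := funext (Yf_eq k hk h)
  rw [e]
  have h1 := (((Real.hasDerivAt_sin s).smul (dA k hk h ho s)).sub
    ((Real.hasDerivAt_cos s).smul (dB k hk h ho s))).const_smul (1 / 2 : ℝ)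
  refine h1.congr_deriv ?_
  funext i
  simp only [Yd, Pi.smul_apply, Pi.add_apply, Pi.sub_apply, smul_eq_mul]
  ring

private theorem hasDerivAt_Yd (k : Ten d) (hk : Fld k) {X W : V d} (h : Orth X W) (ho : OddF k)
    (s : ℝ) : HasDerivAt (Yd k X W) (-Yf k X W s + ev k X W s) s := by
  have h1 := (((Real.hasDerivAt_cos s).smul (dA k hk h ho s)).add
    ((Real.hasDerivAt_sin s).smul (dB k hk h ho s))).const_smul (1 / 2 : ℝ)
  refine h1.congr_deriv ?_
  rw [Yf_eq k hk h]
  funext i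
  simp only [Pi.smul_apply, Pi.add_apply, Pi.sub_apply, Pi.neg_apply, smul_eq_mul]
  have := Real.cos_sq_add_sin_sq s
  linear_combination (ev k X W s i) * this

theorem Yf_smooth (k : Ten d) (hk : Fld k) (X W : V d) (hXW : Orth X W) (ho : OddF k) :
    ContDiff ℝ ∞ (Yf k X W) := by
  have _h := ho
  have e : Yf k X W = fun s => (1 / 2 : ℝ) •
      (Real.sin s • (Ai k X W s - Ai k X W (s - Real.pi)) -
        Real.cos s • (Bi k X W s - Bi k X W (s - Real.pi))) := funext (Yf_eq k hk hXW)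
  rw [e]
  have hs : ContDiff ℝ ∞ fun s : ℝ => s - Real.pi := contDiff_id.sub contDiff_const
  have hA := Ai_smooth k hk hXW
  have hB := Bi_smooth k hk hXW
  have h1 : ContDiff ℝ ∞ fun s => Real.sin s • (Ai k X W s - Ai k X W (s - Real.pi)) :=
    Real.contDiff_sin.smul (hA.sub (hA.comp hs))
  have h2 : ContDiff ℝ ∞ fun s => Real.cos s • (Bi k X W s - Bi k X W (s - Real.pi)) :=
    Real.contDiff_cos.smul (hB.sub (hB.comp hs))
  exact (h1.sub h2).const_smul (1 / 2 : ℝ)

theorem Yf_periodic (k : Ten d) (hk : Fld k) (X W : V d) (hXW : Orth X W) (ho : OddF k) (s : ℝ) :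
    Yf k X W (s + Real.pi) = Yf k X W s := by
  have _h := hk
  have _h' := hXW
  simp only [Yf]
  congr 1
  have e := intervalIntegral.integral_comp_add_right
    (a := s - Real.pi) (b := s) (fun σ => Real.sin (s + Real.pi - σ) • Eul k (gc X W σ) (gd X W σ))
    Real.pi
  rw [show s + Real.pi - Real.pi = s - Real.pi + Real.pi by ring, ← e]
  refine intervalIntegral.integral_congr fun σ _ => ?_
  have h1 : Eul k (gc X W (σ + Real.pi)) (gd X W (σ + Real.pi)) =
      Eul k (gc X W σ) (gd X W σ) := ev_per k ho X W σ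
  show Real.sin (s + Real.pi - (σ + Real.pi)) •
    Eul k (gc X W (σ + Real.pi)) (gd X W (σ + Real.pi)) = _
  rw [h1, show s + Real.pi - (σ + Real.pi) = s - σ by ring]

theorem Yf_ode (k : Ten d) (hk : Fld k) (X W : V d) (hXW : Orth X W) (ho : OddF k) (s : ℝ) :
    HasDerivAt (deriv (Yf k X W)) (-Yf k X W s + Eul k (gc X W s) (gd X W s)) s := by
  have e : deriv (Yf k X W) = Yd k X W := funext fun s => (hasDerivAt_Yf k hk hXW ho s).deriv
  rw [e]
  exact hasDerivAt_Yd k hk hXW ho s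

/-! ### the integrals `gc ⬝ Y`, `gd ⬝ Y'` -/

private theorem per_of_ode (f f' : ℝ → ℝ) (h1 : ∀ s, HasDerivAt f (f' s) s)
    (h2 : ∀ s, HasDerivAt f' (-4 * f s) s) (s : ℝ) : f (s + Real.pi) = f s := by
  have hc : ∀ s : ℝ, HasDerivAt (fun s => Real.cos (2 * s)) (-(2 * Real.sin (2 * s))) s := by
    intro s
    have := (Real.hasDerivAt_cos (2 * s)).comp s ((hasDerivAt_id s).const_mul 2)
    refine this.congr_deriv ?_
    ring
  have hs : ∀ s : ℝ, HasDerivAt (fun s => Real.sin (2 * s)) (2 * Real.cos (2 * s)) s := by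
    intro s
    have := (Real.hasDerivAt_sin (2 * s)).comp s ((hasDerivAt_id s).const_mul 2)
    refine this.congr_deriv ?_
    ring
  have hα : ∀ s, HasDerivAt (fun s => 2 * f s * Real.cos (2 * s) - f' s * Real.sin (2 * s)) 0 s := by
    intro s
    have := (((h1 s).const_mul 2).mul (hc s)).sub ((h2 s).mul (hs s))
    refine this.congr_deriv ?_
    ring
  have hβ : ∀ s, HasDerivAt (fun s => 2 * f s * Real.sin (2 * s) + f' s * Real.cos (2 * s)) 0 s := by
    intro s
    have := (((h1 s).const_mul 2).mul (hs s)).add ((h2 s).mul (hc s))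
    refine this.congr_deriv ?_
    ring
  have eα := is_const_of_deriv_eq_zero (fun s => (hα s).differentiableAt)
    (fun s => (hα s).deriv) (s + Real.pi) s
  have eβ := is_const_of_deriv_eq_zero (fun s => (hβ s).differentiableAt)
    (fun s => (hβ s).deriv) (s + Real.pi) s
  have p1 : Real.cos (2 * (s + Real.pi)) = Real.cos (2 * s) := by
    rw [show 2 * (s + Real.pi) = 2 * s + 2 * Real.pi by ring, Real.cos_add_two_pi]
  have p2 : Real.sin (2 * (s + Real.pi)) = Real.sin (2 * s) := by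
    rw [show 2 * (s + Real.pi) = 2 * s + 2 * Real.pi by ring, Real.sin_add_two_pi]
  simp only [p1, p2] at eα eβ
  have q := Real.cos_sq_add_sin_sq (2 * s)
  linear_combination (1 / 2) * Real.cos (2 * s) * eα + (1 / 2) * Real.sin (2 * s) * eβ -
    (f (s + Real.pi) - f s) * q

private theorem hasDerivAt_dot {a b : ℝ → V d} {a' b' : V d} {s : ℝ} (ha : HasDerivAt a a' s)
    (hb : HasDerivAt b b' s) : HasDerivAt (fun s => a s ⬝ᵥ b s) (a' ⬝ᵥ b s + a s ⬝ᵥ b') s := by
  simp only [dotProduct, ← Finset.sum_add_distrib]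
  refine HasDerivAt.fun_sum fun i _ => ?_
  exact (hasDerivAt_pi.1 ha i).mul (hasDerivAt_pi.1 hb i)

private theorem dT_tan (k : Ten d) (hk : Fld k) (x : V d) (hx : x ≠ 0) (v w : V d) :
    bil (dT k x v) x w = -bil (k x) v w := by
  have hdiff : ∀ i j, DifferentiableAt ℝ (fun y => k y i j) (x + (0 : ℝ) • v) := by
    intro i j
    rw [zero_smul, add_zero]
    exact diff_of_smooth k {0}ᶜ isOpen_compl_singleton hk.smooth x hx i j
  have hc : HasDerivAt (fun t : ℝ => x + t • v) v 0 := by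
    have := ((hasDerivAt_id (0 : ℝ)).smul_const v).const_add x
    refine this.congr_deriv ?_
    rw [one_smul]
  have h1 := hasDerivAt_bil k (fun t => x + t • v) (fun t => x + t • v) (fun _ => w) v v 0 0
    hdiff hc hc (hasDerivAt_const _ _)
  have h2 : (fun u : ℝ => bil (k (x + u • v)) (x + u • v) w) = fun _ => 0 := by
    funext u
    exact hk.tan _ _
  rw [h2] at h1
  have h3 := h1.unique (hasDerivAt_const (0 : ℝ) (0 : ℝ))
  simp only [zero_smul, add_zero] at h3
  have h4 : bil (k x) x (0 : V d) = 0 := hk.tan _ _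
  rw [h4] at h3
  linarith

private theorem ev_gc (k : Ten d) (hk : Fld k) {X W : V d} (h : Orth X W) (s : ℝ) :
    ev k X W s ⬝ᵥ gc X W s = bil (k (gc X W s)) (gd X W s) (gd X W s) := by
  have hne : gc X W s ≠ 0 := ne_zero_of_dot (gc_dot h s)
  unfold ev
  rw [Eul_dot, dT_self k {0}ᶜ isOpen_compl_singleton hk.smooth hk.hom _ hne, dT_tan k hk _ hne]
  simp [bil]

private theorem hasDerivAt_kap (k : Ten d) (hk : Fld k) {X W : V d} (h : Orth X W) (s : ℝ) :
    HasDerivAt (fun s => bil (k (gc X W s)) (gd X W s) (gd X W s))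
      (-2 * (ev k X W s ⬝ᵥ gd X W s)) s := by
  have hne : gc X W s ≠ 0 := ne_zero_of_dot (gc_dot h s)
  have h1 := hasDerivAt_bil k (gc X W) (gd X W) (gd X W) (gd X W s) (-gc X W s) (-gc X W s) s
    (fun i j => diff_of_smooth k {0}ᶜ isOpen_compl_singleton hk.smooth _ hne i j)
    (hasDerivAt_gc X W s) (hasDerivAt_gd X W s) (hasDerivAt_gd X W s)
  refine h1.congr_deriv ?_
  unfold ev
  rw [Eul_vel, bil_neg_left, bil_neg_right, bil_comm (hk.symm _) (gd X W s) (gc X W s), hk.tan]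
  ring

private theorem main_perp (k : Ten d) (hk : Fld k) {X W : V d} (h : Orth X W) (ho : OddF k) :
    (∀ s, gc X W s ⬝ᵥ Yf k X W s = 0) ∧
      ∀ s, 2 * (gd X W s ⬝ᵥ Yd k X W s) + bil (k (gc X W s)) (gd X W s) (gd X W s) = 0 := by
  have hY := hasDerivAt_Yf k hk h ho
  have hY' := hasDerivAt_Yd k hk h ho
  have hu : ∀ s, HasDerivAt (fun s => gc X W s ⬝ᵥ Yf k X W s)
      (gd X W s ⬝ᵥ Yf k X W s + gc X W s ⬝ᵥ Yd k X W s) s := fun s =>
    hasDerivAt_dot (hasDerivAt_gc X W s) (hY s)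
  have hp : ∀ s, HasDerivAt (fun s => gd X W s ⬝ᵥ Yd k X W s)
      ((-gc X W s) ⬝ᵥ Yd k X W s + gd X W s ⬝ᵥ (-Yf k X W s + ev k X W s)) s := fun s =>
    hasDerivAt_dot (hasDerivAt_gd X W s) (hY' s)
  have hk' := hasDerivAt_kap k hk h
  -- the constant
  have hsum : ∀ s, HasDerivAt (fun s => gd X W s ⬝ᵥ Yd k X W s +
      (1 / 2) * bil (k (gc X W s)) (gd X W s) (gd X W s) + gc X W s ⬝ᵥ Yf k X W s) 0 s := by
    intro s
    have h1 := ((hp s).add ((hk' s).const_mul (1 / 2))).add (hu s)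
    refine h1.congr_deriv ?_
    rw [neg_dotProduct, dotProduct_add, dotProduct_neg, dotProduct_comm (ev k X W s)]
    ring
  obtain ⟨c₀, hc₀⟩ : ∃ c₀ : ℝ, ∀ s, gd X W s ⬝ᵥ Yd k X W s +
      (1 / 2) * bil (k (gc X W s)) (gd X W s) (gd X W s) + gc X W s ⬝ᵥ Yf k X W s = c₀ :=
    ⟨_, fun s => is_const_of_deriv_eq_zero (fun s => (hsum s).differentiableAt)
      (fun s => (hsum s).deriv) s 0⟩
  -- the second derivative of `u`
  have hu2 : ∀ s, HasDerivAt (fun s => gd X W s ⬝ᵥ Yf k X W s + gc X W s ⬝ᵥ Yd k X W s)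
      (-4 * (gc X W s ⬝ᵥ Yf k X W s - c₀ / 2)) s := by
    intro s
    have h1 := (hasDerivAt_dot (hasDerivAt_gd X W s) (hY s)).add
      (hasDerivAt_dot (hasDerivAt_gc X W s) (hY' s))
    refine h1.congr_deriv ?_
    have h2 := hc₀ s
    have h3 := ev_gc k hk h s
    rw [neg_dotProduct, dotProduct_add, dotProduct_neg, dotProduct_comm _ (ev k X W s), h3]
    linear_combination 2 * h2
  have hper := per_of_ode (fun s => gc X W s ⬝ᵥ Yf k X W s - c₀ / 2) _
    (fun s => (hu s).sub_const _) hu2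
  have hzero : ∀ s, gc X W s ⬝ᵥ Yf k X W s = 0 := by
    intro s
    have h1 := hper s
    rw [gc_add_pi, Yf_periodic k hk X W h ho, neg_dotProduct] at h1
    linarith
  refine ⟨hzero, fun s => ?_⟩
  have h1 : (fun s => gc X W s ⬝ᵥ Yf k X W s) = fun _ => 0 := funext hzero
  have h2 : ∀ s, gd X W s ⬝ᵥ Yf k X W s + gc X W s ⬝ᵥ Yd k X W s = 0 := by
    intro s
    have h3 := hu s
    rw [h1] at h3
    exact h3.unique (hasDerivAt_const _ _)
  have h4 : -4 * (gc X W s ⬝ᵥ Yf k X W s - c₀ / 2) = 0 := by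
    have h3 := hu2 s
    have h5 : (fun s => gd X W s ⬝ᵥ Yf k X W s + gc X W s ⬝ᵥ Yd k X W s) = fun _ => 0 :=
      funext h2
    rw [h5] at h3
    exact h3.unique (hasDerivAt_const _ _)
  have h6 := hc₀ s
  rw [hzero] at h4 h6
  linarith

theorem Yf_perp (k : Ten d) (hk : Fld k) (X W : V d) (hXW : Orth X W) (ho : OddF k) (s : ℝ) :
    gc X W s ⬝ᵥ Yf k X W s = 0 := (main_perp k hk hXW ho).1 s

theorem Yf_speed (k : Ten d) (hk : Fld k) (X W : V d) (hXW : Orth X W) (ho : OddF k) (s : ℝ) :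
    2 * (gd X W s ⬝ᵥ deriv (Yf k X W) s) + bil (k (gc X W s)) (gd X W s) (gd X W s) = 0 := by
  rw [(hasDerivAt_Yf k hk hXW ho s).deriv]
  exact (main_perp k hk hXW ho).2 s

end Pool.Agent.Work.MP_659252_gt.QR
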