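import Pool.Agent.Work.MP_659252_gt.QR.A.Apx
import Pool.Agent.Work.MP_659252_gt.QR.A.Init
import Pool.Agent.Work.MP_659252_gt.QR.A.Csv
import Pool.Agent.Work.MP_659252_gt.QR.A.Yp

/-!
# The length of the geodesics up to `O(t³)`.  Size: M-L.

Let `Y = Yf h X W` (`π`-periodic, `Yf_ode`, `Yf_perp`, `Yf_speed`).  `init` with `y = Y 0`, `y' = Y' 0`: the conditions are `Yf_perp`, its derivative and `Yf_speed`
at `0`.  `apx` gives a `Sol` `c` with `‖c - a‖, ‖c' - a'‖ ≤ C t²` on `[0, 7]`, where `a s = gc s + t Y s`, `a' s = gd s + t Y' s` are `2π`-periodic.  Put `p = mom c`, `ℓ = L - 2π`.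
PROOF.  `c (2π) - c 0 = O(t²)`, `c' (2π) - c' 0 = O(t²)`, so `p (2π) - p 0 = O(t²)` (`ml` and `‖p - ..‖`).  `c L = c 0` and `|ℓ| ≤ C₀ |t|`:
`c L - c (2π) = ℓ c' (2π) + O(ℓ²)` (`‖c''‖ ≤ C`), so `|ℓ| ‖c' (2π)‖ ≤ C t² + C ℓ²`, `‖c'(2π)‖ ≥ 1/(2 (d+1))` (`c' ⬝ c'` close to `1`), hence `|ℓ| ≤ C t²`.
`fv`: `f s = p s ⬝ (a s - c s)` has derivative `DLag (c, c') (a - c, a' - c')`, and `Lag (c, c') = 0`, so by `tl` `|Lag (a, a') - f'| ≤ C (t²)²` (`InK` for
both: `a` is close to the unit vector `gc`).  Integrate over `[0, 2π]`: `∫ Lag (a, a') = f (2π) - f 0 + O(t⁴)`.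
`f (2π) - f 0 = p (2π) ⬝ (a 0 - c (2π)) - p 0 ⬝ (a 0 - c 0) = (p (2π) - p 0) ⬝ (a 0 - c 0) - p (2π) ⬝ (c (2π) - c 0)`; the first is `O(t⁴)`.
`c (2π) - c 0 = c (2π) - c L = -ℓ c' (2π) + O(ℓ²)`, and `p (2π) ⬝ c' (2π) = 1`, so the second is `ℓ + O(t⁴)`.  (`t⁴ ≤ |t|³` for `|t| ≤ 1`.)
-/

namespace Pool.Agent.Work.MP_659252_gt.QR

open scoped ContDiff Topology
open Pool.Agent.Work.MP_659252_gt.Z (V Ten val Tan InT IsZoll IsMetric IsGeodesic)

variable {d : ℕ}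

private theorem dlt_dot {v w : ℝ → V d} {v' w' : V d} {s : ℝ} (hv : HasDerivAt v v' s)
    (hw : HasDerivAt w w' s) : HasDerivAt (fun u => v u ⬝ᵥ w u) (v' ⬝ᵥ w s + v s ⬝ᵥ w') s := by
  simp only [dotProduct, ← Finset.sum_add_distrib]
  exact HasDerivAt.fun_sum fun i _ => ((hasDerivAt_pi.1 hv i).mul (hasDerivAt_pi.1 hw i))

private theorem dlt_gc {X W : V d} (h : Orth X W) (s : ℝ) : gc X W s ⬝ᵥ gc X W s = 1 := by
  obtain ⟨h1, h2, h3⟩ := h
  have h4 : W ⬝ᵥ X = 0 := by rw [dotProduct_comm, h3]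
  simp only [gc, add_dotProduct, dotProduct_add, smul_dotProduct, dotProduct_smul, smul_eq_mul,
    h1, h2, h3, h4]
  linear_combination Real.sin_sq_add_cos_sq s

private theorem dlt_gd {X W : V d} (h : Orth X W) (s : ℝ) : gd X W s ⬝ᵥ gd X W s = 1 := by
  obtain ⟨h1, h2, h3⟩ := h
  have h4 : W ⬝ᵥ X = 0 := by rw [dotProduct_comm, h3]
  simp only [gd, sub_dotProduct, dotProduct_sub, smul_dotProduct, dotProduct_smul, smul_eq_mul,
    h1, h2, h3, h4]
  linear_combination Real.sin_sq_add_cos_sq s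

private theorem dlt_norm_le {v : V d} (h : v ⬝ᵥ v = 1) : ‖v‖ ≤ 1 := by
  have h1 := norm_sq_le_dot v
  rw [h] at h1
  nlinarith [norm_nonneg v]

private theorem dlt_taylor {c c' c'' : ℝ → V d} (h1 : ∀ s, HasDerivAt c (c' s) s)
    (h2 : ∀ s, HasDerivAt c' (c'' s) s) {M : ℝ} (hM : ∀ s, ‖c'' s‖ ≤ M) (P ℓ : ℝ) :
    ‖c (P + ℓ) - c P - ℓ • c' P‖ ≤ M * ℓ ^ 2 := by
  have hM0 : 0 ≤ M := (norm_nonneg _).trans (hM 0)
  have hl : ∀ s, ‖c' s - c' P‖ ≤ M * |s - P| := by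
    intro s
    have := Convex.norm_image_sub_le_of_norm_hasDerivWithin_le (f := c') (f' := c'') (C := M)
      (s := Set.univ) (x := P) (y := s) (fun x _ => (h2 x).hasDerivWithinAt) (fun x _ => hM x)
      convex_univ (Set.mem_univ _) (Set.mem_univ _)
    rwa [Real.norm_eq_abs] at this
  have hg : ∀ s, HasDerivAt (fun u => c u - (u - P) • c' P) (c' s - c' P) s := by
    intro s
    have h3 := (((hasDerivAt_id s).sub_const P).smul_const (c' P))
    rw [one_smul] at h3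
    exact (h1 s).sub h3
  have key := Convex.norm_image_sub_le_of_norm_hasDerivWithin_le
    (f := fun u => c u - (u - P) • c' P) (f' := fun s => c' s - c' P) (C := M * |ℓ|)
    (s := Set.uIcc P (P + ℓ)) (x := P) (y := P + ℓ) (fun x _ => (hg x).hasDerivWithinAt)
    (fun x hx => by
      refine (hl x).trans (mul_le_mul_of_nonneg_left ?_ hM0)
      have := Set.abs_sub_left_of_mem_uIcc hx
      simpa using this) (convex_uIcc _ _) Set.left_mem_uIcc Set.right_mem_uIcc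
  have e1 : c (P + ℓ) - (P + ℓ - P) • c' P - (c P - (P - P) • c' P) =
      c (P + ℓ) - c P - ℓ • c' P := by
    rw [sub_self, zero_smul, sub_zero, add_sub_cancel_left]
    abel
  rw [e1] at key
  refine key.trans (le_of_eq ?_)
  rw [Real.norm_eq_abs, add_sub_cancel_left, mul_assoc, ← sq, sq_abs]

private theorem dlt_lag_cont {G : Ten d} (hG : Met G) {a a' : ℝ → V d} (ha : Continuous a)
    (ha' : Continuous a') (hane : ∀ s, a s ≠ 0) : Continuous fun s => Lag G (a s) (a' s) := by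
  have h1 : Continuous fun s => G (a s) := hG.smooth.continuousOn.comp_continuous ha fun s => hane s
  have h2 : ∀ i j, Continuous fun s => G (a s) i j := fun i j =>
    (continuous_apply j).comp ((continuous_apply i).comp h1)
  have h3 : ∀ i, Continuous fun s => a' s i := fun i => (continuous_apply i).comp ha'
  have h4 : ∀ i, Continuous fun s => a s i := fun i => (continuous_apply i).comp ha
  unfold Lag bil dotProduct
  refine (continuous_const.mul (continuous_finsetSum _ fun i _ => continuous_finsetSum _ fun j _ =>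
    (h2 i j).mul ((h3 i).mul (h3 j)))).sub
    (continuous_const.mul (continuous_finsetSum _ fun i _ => (h4 i).mul (h4 i)))

private theorem dlt_core {G : Ten d} (hG : Met G) {c : ℝ → V d} (hc : Sol G c) {a a' : ℝ → V d}
    (ha : ∀ s, HasDerivAt a (a' s) s) (ha' : Continuous a') (hane : ∀ s, a s ≠ 0)
    (hper : a (2 * Real.pi) = a 0) (hper' : a' (2 * Real.pi) = a' 0) {CE T δ κ L : ℝ}
    (hCE : 0 < CE) (_hT0 : 0 ≤ T) (hT : CE * T ≤ 1) (hδ0 : 0 ≤ δ)
    (hap : ∀ s ∈ Set.Icc (0 : ℝ) 7, ‖c s - a s‖ ≤ δ ∧ ‖deriv c s - a' s‖ ≤ δ)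
    (vb : ∀ s, ‖deriv c s‖ ≤ 2) (rb : ∀ s, ‖RR G (c s) (deriv c s)‖ ≤ 1)
    (mb : ∀ s, ‖mul (G (c s)) (deriv c s) - deriv c s‖ ≤ CE * T)
    (ml : ‖(mul (G (c (2 * Real.pi))) (deriv c (2 * Real.pi)) - deriv c (2 * Real.pi)) -
      (mul (G (c 0)) (deriv c 0) - deriv c 0)‖ ≤
      CE * T * (‖c (2 * Real.pi) - c 0‖ + ‖deriv c (2 * Real.pi) - deriv c 0‖))
    (tl : ∀ s ∈ Set.Icc (0 : ℝ) 7, |Lag G (a s) (a' s) - Lag G (c s) (deriv c s) -
      DLag G (c s) (deriv c s) (a s - c s) (a' s - deriv c s)| ≤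
      CE * (‖a s - c s‖ + ‖a' s - deriv c s‖) ^ 2)
    (hκ : κ ≤ ‖deriv c (2 * Real.pi)‖) (hκ0 : 0 < κ) (hL : 4 * |L - 2 * Real.pi| ≤ κ)
    (hcL : c L = c 0) :
    |(∫ s in (0 : ℝ)..(2 * Real.pi), Lag G (a s) (a' s)) - (L - 2 * Real.pi)| ≤
      (28 * CE + 6 * (d + 1) + 96 * (d + 1) / κ ^ 2) * δ ^ 2 := by
  set P : ℝ := 2 * Real.pi with hP
  have hP0 : 0 ≤ P := by positivity
  have hP7 : P ≤ 7 := by
    have := Real.pi_lt_d2
    rw [hP]
    linarith
  have hPm : P ∈ Set.Icc (0 : ℝ) 7 := ⟨hP0, hP7⟩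
  have h0m : (0 : ℝ) ∈ Set.Icc (0 : ℝ) 7 := ⟨le_refl _, by norm_num⟩
  have hn : (0 : ℝ) ≤ (d : ℝ) + 1 := by positivity
  set ℓ : ℝ := L - P with hℓ
  have hdc : ∀ s, HasDerivAt c (deriv c s) s := fun s =>
    (hc.smooth.differentiable (by simp) s).hasDerivAt
  have hcn : ∀ s, ‖c s‖ ≤ 1 := fun s => dlt_norm_le (hc.sph s)
  -- differences over one turn
  have d1 : ‖c P - c 0‖ ≤ 2 * δ := by
    have e1 : c P - c 0 = (c P - a P) - (c 0 - a 0) := by rw [hper]; abel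
    rw [e1]
    refine (norm_sub_le _ _).trans ?_
    linarith [(hap P hPm).1, (hap 0 h0m).1]
  have d2 : ‖deriv c P - deriv c 0‖ ≤ 2 * δ := by
    have e1 : deriv c P - deriv c 0 = (deriv c P - a' P) - (deriv c 0 - a' 0) := by
      rw [hper']; abel
    rw [e1]
    refine (norm_sub_le _ _).trans ?_
    linarith [(hap P hPm).2, (hap 0 h0m).2]
  -- Taylor
  have hTy : ‖c L - c P - ℓ • deriv c P‖ ≤ 2 * ℓ ^ 2 := by
    have h1 := dlt_taylor (c := c) (c' := deriv c)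
      (c'' := fun s => -c s + RR G (c s) (deriv c s)) hdc hc.ode (M := 2) (fun s => by
        refine (norm_add_le _ _).trans ?_
        rw [norm_neg]
        linarith [hcn s, rb s]) P ℓ
    rwa [hℓ, add_sub_cancel, ← hℓ] at h1
  -- the bound for the length
  have hℓ1 : |ℓ| ≤ 4 * δ / κ := by
    have h1 : ‖ℓ • deriv c P‖ ≤ 2 * δ + 2 * ℓ ^ 2 := by
      have e1 : ℓ • deriv c P = (c L - c P) - (c L - c P - ℓ • deriv c P) := by abel
      rw [e1]
      refine (norm_sub_le _ _).trans ?_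
      have h2 : ‖c L - c P‖ ≤ 2 * δ := by rw [hcL, norm_sub_rev]; exact d1
      linarith
    rw [norm_smul, Real.norm_eq_abs] at h1
    have h2 : |ℓ| * κ ≤ |ℓ| * ‖deriv c P‖ := mul_le_mul_of_nonneg_left hκ (abs_nonneg _)
    have h3 : ℓ ^ 2 = |ℓ| * |ℓ| := by rw [← sq, sq_abs]
    have h4 : 2 * (|ℓ| * |ℓ|) ≤ |ℓ| * κ / 2 := by nlinarith [abs_nonneg ℓ]
    rw [le_div_iff₀ hκ0]
    nlinarith
  have hℓ2 : ℓ ^ 2 ≤ 16 * δ ^ 2 / κ ^ 2 := by
    have h1 : |ℓ| ^ 2 ≤ (4 * δ / κ) ^ 2 := pow_le_pow_left₀ (abs_nonneg _) hℓ1 2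
    rw [sq_abs] at h1
    refine h1.trans (le_of_eq ?_)
    ring
  -- the integral
  set f : ℝ → ℝ := fun u => mom G c u ⬝ᵥ (a u - c u) with hf
  have hfd : ∀ s, HasDerivAt f (DLag G (c s) (deriv c s) (a s - c s) (a' s - deriv c s)) s :=
    fun s => fv G hG c hc a a' s (ha s)
  have hΛ : Continuous fun s => Lag G (a s) (a' s) :=
    dlt_lag_cont hG (continuous_iff_continuousAt.2 fun s => (ha s).continuousAt) ha' hane
  have hlag0 : ∀ s, Lag G (c s) (deriv c s) = 0 := by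
    intro s
    unfold Lag
    rw [hc.spd, hc.sph]
    ring
  have hF : ∀ s, HasDerivAt (fun u => (∫ x in (0 : ℝ)..u, Lag G (a x) (a' x)) - f u)
      (Lag G (a s) (a' s) - DLag G (c s) (deriv c s) (a s - c s) (a' s - deriv c s)) s :=
    fun s => (hΛ.integral_hasStrictDerivAt 0 s).hasDerivAt.sub (hfd s)
  have hE1 : |(∫ x in (0 : ℝ)..P, Lag G (a x) (a' x)) - (f P - f 0)| ≤ CE * (2 * δ) ^ 2 * 7 := by
    have key := Convex.norm_image_sub_le_of_norm_hasDerivWithin_le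
      (f := fun u => (∫ x in (0 : ℝ)..u, Lag G (a x) (a' x)) - f u)
      (f' := fun s => Lag G (a s) (a' s) -
        DLag G (c s) (deriv c s) (a s - c s) (a' s - deriv c s)) (C := CE * (2 * δ) ^ 2)
      (s := Set.Icc (0 : ℝ) 7) (x := 0) (y := P) (fun x _ => (hF x).hasDerivWithinAt)
      (fun x hx => by
        have h1 := tl x hx
        rw [hlag0, sub_zero] at h1
        rw [Real.norm_eq_abs]
        refine h1.trans (mul_le_mul_of_nonneg_left ?_ hCE.le)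
        refine pow_le_pow_left₀ (by positivity) ?_ 2
        rw [norm_sub_rev (a x), norm_sub_rev (a' x)]
        linarith [(hap x hx).1, (hap x hx).2]) (convex_Icc _ _) h0m hPm
    rw [Real.norm_eq_abs, Real.norm_eq_abs, sub_zero, abs_of_nonneg hP0] at key
    have e1 : (∫ x in (0 : ℝ)..P, Lag G (a x) (a' x)) - f P -
        ((∫ x in (0 : ℝ)..0, Lag G (a x) (a' x)) - f 0) =
        (∫ x in (0 : ℝ)..P, Lag G (a x) (a' x)) - (f P - f 0) := by
      rw [intervalIntegral.integral_same]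
      ring
    rw [e1] at key
    refine key.trans ?_
    exact mul_le_mul_of_nonneg_left hP7 (by positivity)
  -- the boundary terms
  have hpc : mom G c P ⬝ᵥ deriv c P = 1 := by
    have h1 := hc.spd P
    rw [bil_eq_dot, dotProduct_comm] at h1
    exact h1
  have hpn : ‖mom G c P‖ ≤ 3 := by
    have e1 : mom G c P = (mul (G (c P)) (deriv c P) - deriv c P) + deriv c P := by
      unfold mom; abel
    rw [e1]
    refine (norm_add_le _ _).trans ?_
    linarith [mb P, vb P]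
  have hpp : ‖mom G c P - mom G c 0‖ ≤ 6 * δ := by
    have e1 : mom G c P - mom G c 0 = ((mul (G (c P)) (deriv c P) - deriv c P) -
        (mul (G (c 0)) (deriv c 0) - deriv c 0)) + (deriv c P - deriv c 0) := by
      unfold mom; abel
    rw [e1]
    refine (norm_add_le _ _).trans ?_
    have h1 : CE * T * (‖c P - c 0‖ + ‖deriv c P - deriv c 0‖) ≤ 1 * (4 * δ) :=
      mul_le_mul hT (by linarith) (by positivity) zero_le_one
    linarith
  have hb1 : f P - f 0 - ℓ = (mom G c P - mom G c 0) ⬝ᵥ (a 0 - c 0) +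
      mom G c P ⬝ᵥ (c L - c P - ℓ • deriv c P) := by
    have e1 : mom G c P ⬝ᵥ (ℓ • deriv c P) = ℓ := by
      rw [dotProduct_smul, hpc, smul_eq_mul, mul_one]
    simp only [hf]
    rw [dotProduct_sub (mom G c P) (c L - c P), e1, hcL, hper]
    simp only [dotProduct_sub, sub_dotProduct]
    ring
  have hb2 : |f P - f 0 - ℓ| ≤ (d + 1) * (6 * δ * δ) + (d + 1) * (3 * (2 * ℓ ^ 2)) := by
    rw [hb1]
    refine (abs_add_le _ _).trans (add_le_add ?_ ?_)
    · refine (abs_dot_le _ _).trans (mul_le_mul_of_nonneg_left ?_ hn)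
      refine mul_le_mul hpp ?_ (norm_nonneg _) (by linarith)
      rw [norm_sub_rev]
      exact (hap 0 h0m).1
    · refine (abs_dot_le _ _).trans (mul_le_mul_of_nonneg_left ?_ hn)
      exact mul_le_mul hpn hTy (norm_nonneg _) (by norm_num)
  have e2 : (∫ s in (0 : ℝ)..P, Lag G (a s) (a' s)) - ℓ =
      ((∫ x in (0 : ℝ)..P, Lag G (a x) (a' x)) - (f P - f 0)) + (f P - f 0 - ℓ) := by ring
  rw [e2]
  refine (abs_add_le _ _).trans ?_
  have h7 : (d + 1 : ℝ) * (3 * (2 * ℓ ^ 2)) ≤ (d + 1) * (3 * (2 * (16 * δ ^ 2 / κ ^ 2))) := by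
    gcongr
  have e3 : (28 * CE + 6 * (d + 1 : ℝ) + 96 * (d + 1) / κ ^ 2) * δ ^ 2 =
      CE * (2 * δ) ^ 2 * 7 + ((d + 1) * (6 * δ * δ) + (d + 1) * (3 * (2 * (16 * δ ^ 2 / κ ^ 2)))) := by
    ring
  rw [e3]
  linarith

theorem dlt (ε : ℝ) (G : ℝ → Ten d) (N : Nice ε G) (h : Ten d) (hh : Fld h) (ho : OddF h)
    (hd : ∀ x, x ≠ 0 → ∀ i j, HasDerivAt (fun t => G t x i j) (h x i j) 0) (X W : V d) (hXW : Orth X W) (C₀ : ℝ) :
    ∃ C > 0, ∃ t₁ > 0, t₁ < ε ∧ ∀ t, |t| ≤ t₁ → ∀ L : ℝ, |L - 2 * Real.pi| ≤ C₀ * |t| →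
      (∀ c, Sol (G t) c → ∀ s, c (s + L) = c s) →
      |(∫ s in (0 : ℝ)..(2 * Real.pi),
          Lag (G t) (gc X W s + t • Yf h X W s) (gd X W s + t • deriv (Yf h X W) s)) - (L - 2 * Real.pi)|
        ≤ C * |t| ^ 3 := by
  have hYs := Yf_smooth h hh X W hXW ho
  have hY := Yf_ode h hh X W hXW ho
  have hperp := Yf_perp h hh X W hXW ho
  have hspeed := Yf_speed h hh X W hXW ho
  have hYper := Yf_periodic h hh X W hXW ho
  set Y : ℝ → V d := Yf h X W with hYdef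
  have hYd : ∀ s, HasDerivAt Y (deriv Y s) s := fun s =>
    (hYs.differentiable (by simp) s).hasDerivAt
  have hYc : Continuous Y := hYs.continuous
  have hY'c : Continuous (deriv Y) := continuous_iff_continuousAt.2 fun s => (hY s).continuousAt
  have hY'per : ∀ s, deriv Y (s + Real.pi) = deriv Y s := by
    intro s
    rw [← deriv_comp_add_const]
    congr 1
    funext u
    exact hYper u
  have p1 : Y (2 * Real.pi) = Y 0 := by
    have h1 := hYper Real.pi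
    have h2 := hYper 0
    rw [zero_add] at h2
    rw [two_mul, h1, h2]
  have p2 : deriv Y (2 * Real.pi) = deriv Y 0 := by
    have h1 := hY'per Real.pi
    have h2 := hY'per 0
    rw [zero_add] at h2
    rw [two_mul, h1, h2]
  have g0 : gc X W 0 = X := by simp [gc]
  have g1 : gd X W 0 = W := by simp [gd]
  have g2 : gc X W (2 * Real.pi) = gc X W 0 := by simp [gc]
  have g3 : gd X W (2 * Real.pi) = gd X W 0 := by simp [gd]
  have c1 : X ⬝ᵥ Y 0 = 0 := by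
    have := hperp 0
    rwa [g0] at this
  have c2 : W ⬝ᵥ Y 0 + X ⬝ᵥ deriv Y 0 = 0 := by
    have h1 := dlt_dot (hasDerivAt_gc X W 0) (hYd 0)
    rw [g0, g1] at h1
    have h2 : (fun u => gc X W u ⬝ᵥ Y u) = fun _ => (0 : ℝ) := funext hperp
    rw [h2] at h1
    exact h1.unique (hasDerivAt_const _ _)
  have c3 : 2 * (W ⬝ᵥ deriv Y 0) + bil (h X) W W = 0 := by
    have := hspeed 0
    rwa [g0, g1] at this
  obtain ⟨CE, tE, htE, HE⟩ := est ε G N
  obtain ⟨CI, hCI, tI, htI, htIε, HI⟩ := init ε G N h hd X W hXW (Y 0) (deriv Y 0) c1 c2 c3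
  obtain ⟨CA, hCA, tA, htA, htAε, HA⟩ := apx ε G N h hh hd X W hXW Y hYs hY CI
  obtain ⟨M₁, hM₁⟩ := (isCompact_Icc (a := (0 : ℝ)) (b := 7)).exists_bound_of_continuousOn
    hYc.continuousOn
  obtain ⟨M₂, hM₂⟩ := (isCompact_Icc (a := (0 : ℝ)) (b := 7)).exists_bound_of_continuousOn
    hY'c.continuousOn
  have h0m : (0 : ℝ) ∈ Set.Icc (0 : ℝ) 7 := ⟨le_refl _, by norm_num⟩
  have hM₁0 : 0 ≤ M₁ := (norm_nonneg _).trans (hM₁ 0 h0m)
  have hM₂0 : 0 ≤ M₂ := (norm_nonneg _).trans (hM₂ 0 h0m)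
  have hCE := HE.Cpos
  have hn1 : (1 : ℝ) ≤ (d : ℝ) + 1 := by
    have : (0 : ℝ) ≤ d := Nat.cast_nonneg d
    linarith
  have hn0 : (0 : ℝ) < (d : ℝ) + 1 := by linarith
  set κ : ℝ := 1 / (2 * ((d : ℝ) + 1)) with hκd
  have hκ0 : 0 < κ := by positivity
  have hκn : κ * (2 * ((d : ℝ) + 1)) = 1 := by
    rw [hκd]
    field_simp
  set B : ℝ := 1 + CE + 4 * |C₀| / κ + ((d : ℝ) + 1) * M₁ + M₁ + M₂ + 4 * ((d : ℝ) + 1) * CE with hB
  have hB1 : 1 ≤ B := by
    have q1 : 0 ≤ 4 * |C₀| / κ := by positivity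
    have q2 : 0 ≤ ((d : ℝ) + 1) * M₁ := by positivity
    have q3 : 0 ≤ 4 * ((d : ℝ) + 1) * CE := by positivity
    rw [hB]
    linarith
  have hB0 : 0 < B := by linarith
  refine ⟨(28 * CE + 6 * (d + 1) + 96 * (d + 1) / κ ^ 2) * CA ^ 2, by positivity,
    min (min tE tI) (min tA (1 / B)), ?_, ?_, ?_⟩
  · exact lt_min (lt_min HE.tpos htI) (lt_min htA (by positivity))
  · exact lt_of_le_of_lt ((min_le_left _ _).trans (min_le_left _ _)) htE
  intro t ht L hL hcl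
  have t1 : |t| ≤ tE := ht.trans ((min_le_left _ _).trans (min_le_left _ _))
  have t2 : |t| ≤ tI := ht.trans ((min_le_left _ _).trans (min_le_right _ _))
  have t3 : |t| ≤ tA := ht.trans ((min_le_right _ _).trans (min_le_left _ _))
  have t4 : |t| * B ≤ 1 := by
    have := ht.trans ((min_le_right _ _).trans (min_le_right _ _))
    rwa [le_div_iff₀ hB0] at this
  have ht0 : 0 ≤ |t| := abs_nonneg t
  have hBx : ∀ x, x ≤ B → |t| * x ≤ 1 := fun x hx =>
    (mul_le_mul_of_nonneg_left hx ht0).trans t4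
  have q1 : 0 ≤ 4 * |C₀| / κ := by positivity
  have q2 : 0 ≤ ((d : ℝ) + 1) * M₁ := by positivity
  have q3 : 0 ≤ 4 * ((d : ℝ) + 1) * CE := by positivity
  have b1 : |t| ≤ 1 := by
    have := hBx 1 hB1
    linarith
  have b2 : CE * |t| ≤ 1 := by
    have := hBx CE (by rw [hB]; linarith)
    linarith
  have b3 : |t| * (4 * |C₀| / κ) ≤ 1 := hBx _ (by rw [hB]; linarith)
  have b4 : |t| * (((d : ℝ) + 1) * M₁) ≤ 1 := hBx _ (by rw [hB]; linarith)
  have b5 : |t| * M₁ ≤ 1 := hBx _ (by rw [hB]; linarith)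
  have b6 : |t| * M₂ ≤ 1 := hBx _ (by rw [hB]; linarith)
  have b7 : |t| * (4 * ((d : ℝ) + 1) * CE) ≤ 1 := hBx _ (by rw [hB]; linarith)
  have htε : t ∈ Set.Ioo (-ε) ε := abs_lt.1 (lt_of_le_of_lt t1 htE)
  obtain ⟨c, hc, hi1, hi2⟩ := HI t t2
  have hA := HA t t3 c hc hi1 hi2
  have vb : ∀ s, ‖deriv c s‖ ≤ 2 := fun s => HE.vb t t1 (c s) (deriv c s) (hc.sph s) (hc.spd s)
  have hKc : ∀ s, InK (c s) (deriv c s) := fun s =>
    ⟨by rw [hc.sph]; norm_num, by rw [hc.sph]; norm_num, (vb s).trans (by norm_num)⟩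
  have haa : ∀ s, (gc X W s + t • Y s) ⬝ᵥ (gc X W s + t • Y s) = 1 + t ^ 2 * (Y s ⬝ᵥ Y s) := by
    intro s
    have e1 := hperp s
    have e2 : Y s ⬝ᵥ gc X W s = 0 := by rw [dotProduct_comm]; exact e1
    simp only [add_dotProduct, dotProduct_add, smul_dotProduct, dotProduct_smul, smul_eq_mul,
      dlt_gc hXW s, e1, e2]
    ring
  have hane : ∀ s, gc X W s + t • Y s ≠ 0 := by
    intro s h0
    have h1 := haa s
    rw [h0, dotProduct_zero] at h1
    have h2 := dot_self_nonneg (Y s)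
    have h3 := sq_nonneg t
    nlinarith
  have hKa : ∀ s ∈ Set.Icc (0 : ℝ) 7, InK (gc X W s + t • Y s) (gd X W s + t • deriv Y s) := by
    intro s hs
    have h2 : Y s ⬝ᵥ Y s ≤ ((d : ℝ) + 1) * (M₁ * M₁) := by
      refine (le_abs_self _).trans ((abs_dot_le _ _).trans ?_)
      have := hM₁ s hs
      gcongr
    have h3 : t ^ 2 * (Y s ⬝ᵥ Y s) ≤ 1 := by
      have h4 : t ^ 2 * (Y s ⬝ᵥ Y s) ≤ t ^ 2 * (((d : ℝ) + 1) * (M₁ * M₁)) :=
        mul_le_mul_of_nonneg_left h2 (sq_nonneg t)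
      have h5 : t ^ 2 * (((d : ℝ) + 1) * (M₁ * M₁)) =
          (|t| * (((d : ℝ) + 1) * M₁)) * (|t| * M₁) := by
        rw [← sq_abs t]
        ring
      rw [h5] at h4
      exact h4.trans (mul_le_one₀ b4 (by positivity) b5)
    have h6 := dot_self_nonneg (Y s)
    have h7 : 0 ≤ t ^ 2 * (Y s ⬝ᵥ Y s) := mul_nonneg (sq_nonneg t) h6
    refine ⟨by rw [haa]; linarith, by rw [haa]; linarith, ?_⟩
    refine (norm_add_le _ _).trans ?_
    rw [norm_smul, Real.norm_eq_abs]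
    have h8 := dlt_norm_le (dlt_gd hXW s)
    have h9 : |t| * ‖deriv Y s‖ ≤ |t| * M₂ := mul_le_mul_of_nonneg_left (hM₂ s hs) ht0
    linarith
  have hlow : κ ≤ ‖deriv c (2 * Real.pi)‖ := by
    by_contra hcon
    push Not at hcon
    set v := deriv c (2 * Real.pi) with hv
    have h1 : v ⬝ᵥ mul (G t (c (2 * Real.pi))) v = 1 := by
      rw [← bil_eq_dot]
      exact hc.spd _
    have h2 : |v ⬝ᵥ (mul (G t (c (2 * Real.pi))) v - v)| ≤ 1 / 2 := by
      refine (abs_dot_le _ _).trans ?_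
      have h3 := HE.mb t t1 (c (2 * Real.pi)) v (hKc _)
      have h4 : ‖v‖ * ‖mul (G t (c (2 * Real.pi))) v - v‖ ≤ 2 * (CE * |t|) :=
        mul_le_mul (vb _) h3 (norm_nonneg _) (by norm_num)
      have h5 : ((d : ℝ) + 1) * (‖v‖ * ‖mul (G t (c (2 * Real.pi))) v - v‖) ≤
          ((d : ℝ) + 1) * (2 * (CE * |t|)) := mul_le_mul_of_nonneg_left h4 hn0.le
      nlinarith
    rw [dotProduct_sub, h1] at h2
    have h6 : v ⬝ᵥ v ≤ ((d : ℝ) + 1) * (‖v‖ * ‖v‖) := (le_abs_self _).trans (abs_dot_le _ _)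
    have h7 : ‖v‖ * ‖v‖ ≤ κ * κ := mul_le_mul hcon.le hcon.le (norm_nonneg _) hκ0.le
    have h8 : ((d : ℝ) + 1) * (‖v‖ * ‖v‖) ≤ ((d : ℝ) + 1) * (κ * κ) :=
      mul_le_mul_of_nonneg_left h7 hn0.le
    have h9 : ((d : ℝ) + 1) * (κ * κ) = κ / 2 := by nlinarith
    have h10 : κ ≤ 1 / 2 := by nlinarith
    have h11 := (abs_le.1 h2).2
    linarith
  have hL4 : 4 * |L - 2 * Real.pi| ≤ κ := by
    have h1 : |L - 2 * Real.pi| ≤ |C₀| * |t| :=
      hL.trans (mul_le_mul_of_nonneg_right (le_abs_self _) ht0)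
    have h2 : |t| * (4 * |C₀| / κ) * κ ≤ 1 * κ := mul_le_mul_of_nonneg_right b3 hκ0.le
    have h3 : |t| * (4 * |C₀| / κ) * κ = 4 * (|C₀| * |t|) := by
      field_simp
    linarith
  have hcL : c L = c 0 := by
    have := hcl c hc 0
    rwa [zero_add] at this
  have key := dlt_core (N.met t htε) hc (a := fun s => gc X W s + t • Y s)
    (a' := fun s => gd X W s + t • deriv Y s)
    (fun s => (hasDerivAt_gc X W s).add ((hYd s).const_smul t))
    (by
      have hgd : Continuous (gd X W) :=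
        continuous_iff_continuousAt.2 fun s => (hasDerivAt_gd X W s).continuousAt
      exact hgd.add (hY'c.const_smul t)) hane
    (by show gc X W (2 * Real.pi) + t • Y (2 * Real.pi) = gc X W 0 + t • Y 0; rw [g2, p1])
    (by
      show gd X W (2 * Real.pi) + t • deriv Y (2 * Real.pi) = gd X W 0 + t • deriv Y 0
      rw [g3, p2])
    (CE := CE) (T := |t|) (δ := CA * t ^ 2) (κ := κ) (L := L) hCE ht0 b2 (by positivity) hA vb
    (fun s => (HE.rb t t1 _ _ (hKc s)).trans b2) (fun s => HE.mb t t1 _ _ (hKc s))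
    (HE.ml t t1 _ _ _ _ (hKc 0) (hKc (2 * Real.pi)))
    (fun s hs => HE.tl t t1 _ _ _ _ (hKc s) (hKa s hs)) hlow hκ0 hL4 hcL
  refine key.trans ?_
  have hK : 0 ≤ 28 * CE + 6 * ((d : ℝ) + 1) + 96 * ((d : ℝ) + 1) / κ ^ 2 := by positivity
  rw [mul_assoc]
  refine mul_le_mul_of_nonneg_left ?_ hK
  have e5 : (CA * t ^ 2) ^ 2 = CA ^ 2 * (|t| ^ 3 * |t|) := by
    rw [← sq_abs t]
    ring
  rw [e5]
  refine mul_le_mul_of_nonneg_left ?_ (sq_nonneg _)
  exact mul_le_of_le_one_right (by positivity) b1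

end Pool.Agent.Work.MP_659252_gt.QR
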