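import Pool.Agent.Work.MP_659252_gt.QR.A.EulA
import Pool.Agent.Work.MP_659252_gt.QR.A.Yp

/-!
# Expansion of the action of `gc + t Y`.  Size: M-L.

Let `Y = Yf h X W`, `φ (t, s) = Lag (G t) (gc s + t Y s) (gd s + t Y' s)`: smooth for `|t| < t₀` (there `gc s + t Y s ≠ 0` for all `s`; `gc`, `Y` are periodic or use `s ∈ [0, 2π]`).
PROOF.  At `t = 0`: `φ = (1 - 1)/2 = 0`.
`∂_t φ (t, s) = (1/2) bil (Ġ) a' a' + (1/2) bil (dT G a Y) a' a' + bil (G) a' Y' - a ⬝ Y` (`a = gc + tY`, `Ġ = ∂_t G`).  At `t = 0`: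
`(1/2) bil (h gc) gd gd + gd ⬝ Y' - gc ⬝ Y`; the integral over `[0, 2π]` is `0`: by `Yf_speed`, `Yf_perp` the integrand is `0` even pointwise.
`∂_t² φ (0, s) = (1/2) bil (Gdd) gd gd + bil (dT h gc Y) gd gd + 2 bil (h gc) gd Y' + Y' ⬝ Y' - Y ⬝ Y` (`G 0` is constant, so its derivatives in `x` vanish).
`∫ [bil (dT h gc Y) gd gd + 2 bil (h gc) gd Y'] = 2 ∫ e ⬝ Y`, `e = Eul h gc gd`: `bil (h gc) gd Y' = (bil (h gc) gd Y)' - (mul (h gc) gd)' ⬝ Y`,
`(mul (h gc) gd)' = mul (dT h gc gd) gd - mul (h gc) gc = mul (dT h gc gd) gd` (`tan`), periodicity, `Eul_dot`.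
`∫ (Y' ⬝ Y' - Y ⬝ Y) = -∫ (Y'' + Y) ⬝ Y = -∫ e ⬝ Y` (periodicity, `Yf_ode`).  So `(1/2) ∫ ∂_t² φ (0, s) ds = (1/2) ∫ e ⬝ Y + (1/4) ∫ bil (Gdd) gd gd = E2`.
The third `t`-derivative of `φ` is bounded for `|t| ≤ t₀/2`, `s ∈ [0, 2π]`, so `|φ (t, s) - t ∂_t φ (0, s) - (t²/2) ∂_t² φ (0, s)| ≤ C |t|³`; integrate.
`Gdd_fld`: `Gdd G x i j` is the second `t`-derivative of a smooth function of `(t, x)`; symmetry, homogeneity from `Met`, `tan`: differentiate
`bil (G t x) x v = x ⬝ v` twice in `t`.  Take `K x = Gdd G x` for `x ≠ 0` and `K 0 = 0`.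
-/

namespace Pool.Agent.Work.MP_659252_gt.QR

open scoped ContDiff Topology
open Pool.Agent.Work.MP_659252_gt.Z (V Ten val Tan InT IsZoll IsMetric IsGeodesic)

variable {d : ℕ}

section Gen

variable {E : Type*} [NormedAddCommGroup E] [NormedSpace ℝ E]

private noncomputable def exPt (f : ℝ × E → ℝ) (p : ℝ × E) : ℝ := fderiv ℝ f p (1, 0)

private theorem exPt_smooth (f : ℝ × E → ℝ) (U : Set (ℝ × E)) (hU : IsOpen U)
    (hf : ContDiffOn ℝ ∞ f U) : ContDiffOn ℝ ∞ (exPt f) U := by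
  have h := hf.fderiv_of_isOpen hU (m := ∞) (by simp)
  exact h.clm_apply contDiffOn_const

private theorem exPt_deriv (f : ℝ × E → ℝ) (U : Set (ℝ × E)) (hU : IsOpen U)
    (hf : ContDiffOn ℝ ∞ f U) (t : ℝ) (x : E) (h : (t, x) ∈ U) :
    HasDerivAt (fun τ => f (τ, x)) (exPt f (t, x)) t := by
  have h1 : HasFDerivAt f (fderiv ℝ f (t, x)) (t, x) :=
    ((hf.contDiffAt (hU.mem_nhds h)).differentiableAt (by simp)).hasFDerivAt
  have h2 : HasDerivAt (fun τ : ℝ => (τ, x)) ((1 : ℝ), (0 : E)) t :=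
    (hasDerivAt_id t).prodMk (hasDerivAt_const t x)
  exact h1.comp_hasDerivAt t h2

private theorem ex_bdd (f : ℝ × E → ℝ) (U : Set (ℝ × E)) (hf : ContDiffOn ℝ ∞ f U) (r : ℝ)
    (K : Set E) (hK : IsCompact K) (hs : Set.Icc (-r) r ×ˢ K ⊆ U) :
    ∃ M : ℝ, 0 ≤ M ∧ ∀ t, |t| ≤ r → ∀ x ∈ K, |f (t, x)| ≤ M := by
  obtain ⟨M, hM⟩ := (isCompact_Icc.prod hK).exists_bound_of_continuousOn
    (hf.continuousOn.mono hs)
  refine ⟨|M|, abs_nonneg M, fun t ht x hx => ?_⟩
  have h1 := hM (t, x) ⟨abs_le.1 ht, hx⟩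
  rw [Real.norm_eq_abs] at h1
  exact h1.trans (le_abs_self M)

end Gen

private theorem ex_tay1 (g g1 : ℝ → ℝ) (r M : ℝ) (hg : ∀ t, |t| ≤ r → HasDerivAt g (g1 t) t)
    (hM : ∀ t, |t| ≤ r → |g1 t| ≤ M) (t : ℝ) (ht : |t| ≤ r) : |g t - g 0| ≤ M * |t| := by
  have hr : 0 ≤ r := (abs_nonneg t).trans ht
  have h := Convex.norm_image_sub_le_of_norm_hasDerivWithin_le (f := g) (f' := g1) (C := M)
    (s := Set.Icc (-r) r) (x := 0) (y := t)
    (fun x hx => (hg x (abs_le.2 hx)).hasDerivWithinAt)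
    (fun x hx => by rw [Real.norm_eq_abs]; exact hM x (abs_le.2 hx)) (convex_Icc _ _)
    ⟨by linarith, hr⟩ (abs_le.1 ht)
  simpa [Real.norm_eq_abs] using h

private theorem ex_tay2 (g g1 g2 : ℝ → ℝ) (r M : ℝ) (hg : ∀ t, |t| ≤ r → HasDerivAt g (g1 t) t)
    (hg1 : ∀ t, |t| ≤ r → HasDerivAt g1 (g2 t) t) (hM : ∀ t, |t| ≤ r → |g2 t| ≤ M) (t : ℝ)
    (ht : |t| ≤ r) : |g t - g 0 - t * g1 0| ≤ M * |t| ^ 2 := by
  have h := ex_tay1 (fun τ => g τ - τ * g1 0) (fun τ => g1 τ - g1 0) |t| (M * |t|)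
    (fun τ hτ => by
      have h1 : HasDerivAt (fun τ => g τ - τ * g1 0) (g1 τ - 1 * g1 0) τ :=
        (hg τ (hτ.trans ht)).fun_sub ((hasDerivAt_id' τ).mul_const (g1 0))
      simpa using h1)
    (fun τ hτ => (ex_tay1 g1 g2 r M hg1 hM τ (hτ.trans ht)).trans
      (mul_le_mul_of_nonneg_left hτ ((abs_nonneg _).trans (hM t ht)))) t le_rfl
  have e : g t - g 0 - t * g1 0 = (g t - t * g1 0) - (g 0 - 0 * g1 0) := by ring
  rw [e]
  calc _ ≤ M * |t| * |t| := h
    _ = _ := by ring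

private theorem ex_tay3 (g g1 g2 g3 : ℝ → ℝ) (r M : ℝ) (hg : ∀ t, |t| ≤ r → HasDerivAt g (g1 t) t)
    (hg1 : ∀ t, |t| ≤ r → HasDerivAt g1 (g2 t) t) (hg2 : ∀ t, |t| ≤ r → HasDerivAt g2 (g3 t) t)
    (hM : ∀ t, |t| ≤ r → |g3 t| ≤ M) (t : ℝ)
    (ht : |t| ≤ r) : |g t - g 0 - t * g1 0 - t ^ 2 / 2 * g2 0| ≤ M * |t| ^ 3 := by
  have h := ex_tay1 (fun τ => g τ - τ * g1 0 - τ ^ 2 / 2 * g2 0)
    (fun τ => g1 τ - g1 0 - τ * g2 0) |t| (M * |t| ^ 2)
    (fun τ hτ => by
      have h2 : HasDerivAt (fun τ : ℝ => τ ^ 2 / 2) τ τ := by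
        have h3 := (hasDerivAt_pow 2 τ).div_const 2
        refine h3.congr_deriv ?_
        norm_num
      have h1 : HasDerivAt (fun τ => g τ - τ * g1 0 - τ ^ 2 / 2 * g2 0)
          (g1 τ - 1 * g1 0 - τ * g2 0) τ :=
        ((hg τ (hτ.trans ht)).fun_sub ((hasDerivAt_id' τ).mul_const (g1 0))).fun_sub
        (h2.mul_const (g2 0))
      simpa using h1)
    (fun τ hτ => (ex_tay2 g1 g2 g3 r M hg1 hg2 hM τ (hτ.trans ht)).trans
      (mul_le_mul_of_nonneg_left (pow_le_pow_left₀ (abs_nonneg _) hτ 2)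
        ((abs_nonneg _).trans (hM t ht)))) t le_rfl
  have e : g t - g 0 - t * g1 0 - t ^ 2 / 2 * g2 0 =
      (g t - t * g1 0 - t ^ 2 / 2 * g2 0) - (g 0 - 0 * g1 0 - 0 ^ 2 / 2 * g2 0) := by ring
  rw [e]
  calc _ ≤ M * |t| ^ 2 * |t| := h
    _ = _ := by ring

/-- components of the family as functions of `(t, x)` -/
private def exF (G : ℝ → Ten d) (i j : Fin (d + 1)) (p : ℝ × V d) : ℝ := G p.1 p.2 i j

private theorem exF_smooth (ε : ℝ) (G : ℝ → Ten d) (N : Nice ε G) (i j : Fin (d + 1)) :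
    ContDiffOn ℝ ∞ (exF G i j) (Set.Ioo (-ε) ε ×ˢ {0}ᶜ) :=
  contDiffOn_pi.1 (contDiffOn_pi.1 N.smooth i) j

private theorem exU_open (ε : ℝ) : IsOpen (Set.Ioo (-ε) ε ×ˢ ({0}ᶜ : Set (V d))) :=
  isOpen_Ioo.prod isOpen_compl_singleton

private theorem exGdd_eq (ε : ℝ) (G : ℝ → Ten d) (N : Nice ε G) (x : V d) (hx : x ≠ 0)
    (i j : Fin (d + 1)) : Gdd G x i j = exPt (exPt (exF G i j)) (0, x) := by
  have hU := exU_open (d := d) ε
  have hF := exF_smooth ε G N i j
  have h0 : ∀ t ∈ Set.Ioo (-ε) ε, (t, x) ∈ Set.Ioo (-ε) ε ×ˢ ({0}ᶜ : Set (V d)) :=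
    fun t ht => ⟨ht, hx⟩
  have hz : (0 : ℝ) ∈ Set.Ioo (-ε) ε := ⟨by linarith [N.pos], N.pos⟩
  unfold Gdd
  rw [iteratedDeriv_succ, iteratedDeriv_one]
  have h1 : deriv (fun t => G t x i j) =ᶠ[𝓝 0] fun t => exPt (exF G i j) (t, x) := by
    filter_upwards [isOpen_Ioo.mem_nhds hz] with t ht
    exact (exPt_deriv (exF G i j) _ hU hF t x (h0 t ht)).deriv
  rw [h1.deriv_eq]
  exact (exPt_deriv _ _ hU (exPt_smooth _ _ hU hF) 0 x (h0 0 hz)).deriv

theorem Gdd_fld (ε : ℝ) (G : ℝ → Ten d) (N : Nice ε G) : ∃ K : Ten d, Fld K ∧ ∀ x, x ≠ 0 → K x = Gdd G x := by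
  classical
  have hU := exU_open (d := d) ε
  have hz : (0 : ℝ) ∈ Set.Ioo (-ε) ε := ⟨by linarith [N.pos], N.pos⟩
  have hev : ∀ᶠ t in 𝓝 (0 : ℝ), t ∈ Set.Ioo (-ε) ε := isOpen_Ioo.mem_nhds hz
  refine ⟨fun x => if x = 0 then fun _ _ => 0 else Gdd G x, ⟨?_, ?_, ?_, ?_⟩, fun x hx => by simp [hx]⟩
  · have h1 : ContDiffOn ℝ ∞ (fun (x : V d) i j => exPt (exPt (exF G i j)) (0, x)) {0}ᶜ := by
      rw [contDiffOn_pi]
      intro i
      rw [contDiffOn_pi]
      intro j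
      have h2 := exPt_smooth _ _ hU (exPt_smooth _ _ hU (exF_smooth ε G N i j))
      exact h2.comp (contDiff_const.prodMk contDiff_id).contDiffOn (fun x hx => ⟨hz, hx⟩)
    refine h1.congr fun x hx => ?_
    have hx' : x ≠ 0 := hx
    funext i j
    simp only [hx', if_false]
    exact exGdd_eq ε G N x hx' i j
  · intro x i j
    by_cases hx : x = 0
    · simp [hx]
    · simp only [hx, if_false]
      unfold Gdd
      refine Filter.EventuallyEq.iteratedDeriv_eq 2 ?_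
      filter_upwards [hev] with t ht
      exact (N.met t ht).symm x hx i j
  · intro c x hc
    by_cases hx : x = 0
    · simp [hx]
    · have hcx : c • x ≠ 0 := smul_ne_zero hc.ne' hx
      simp only [hx, hcx, if_false]
      funext i j
      unfold Gdd
      refine Filter.EventuallyEq.iteratedDeriv_eq 2 ?_
      filter_upwards [hev] with t ht
      rw [(N.met t ht).hom c x hc]
  · intro x v
    by_cases hx : x = 0
    · simp [hx, bil]
    · simp only [hx, if_false]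
      have h0 : ∀ t ∈ Set.Ioo (-ε) ε, (t, x) ∈ Set.Ioo (-ε) ε ×ˢ ({0}ᶜ : Set (V d)) :=
        fun t ht => ⟨ht, hx⟩
      have h1 : ∀ t ∈ Set.Ioo (-ε) ε, HasDerivAt (fun τ => bil (G τ x) x v)
          (∑ i, ∑ j, exPt (exF G i j) (t, x) * (x i * v j)) t := by
        intro t ht
        unfold bil
        refine HasDerivAt.fun_sum fun i _ => HasDerivAt.fun_sum fun j _ => ?_
        exact (exPt_deriv (exF G i j) _ hU (exF_smooth ε G N i j) t x (h0 t ht)).mul_const _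
      have h2 : ∀ t ∈ Set.Ioo (-ε) ε, ∑ i, ∑ j, exPt (exF G i j) (t, x) * (x i * v j) = 0 := by
        intro t ht
        have h3 : (fun τ => bil (G τ x) x v) =ᶠ[𝓝 t] fun _ => x ⬝ᵥ v := by
          filter_upwards [isOpen_Ioo.mem_nhds ht] with τ hτ
          exact (N.met τ hτ).rad x hx v
        have h4 := (h1 t ht).congr_of_eventuallyEq h3.symm
        exact h4.unique (hasDerivAt_const t _)
      have h3 : HasDerivAt (fun t => ∑ i, ∑ j, exPt (exF G i j) (t, x) * (x i * v j))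
          (∑ i, ∑ j, exPt (exPt (exF G i j)) (0, x) * (x i * v j)) 0 := by
        refine HasDerivAt.fun_sum fun i _ => HasDerivAt.fun_sum fun j _ => ?_
        exact (exPt_deriv _ _ hU (exPt_smooth _ _ hU (exF_smooth ε G N i j)) 0 x
          (h0 0 hz)).mul_const _
      have h4 : (fun t => ∑ i, ∑ j, exPt (exF G i j) (t, x) * (x i * v j)) =ᶠ[𝓝 0]
          fun _ => (0 : ℝ) := by
        filter_upwards [hev] with t ht
        exact h2 t ht
      have h5 := (h3.congr_of_eventuallyEq h4.symm).unique (hasDerivAt_const 0 _)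
      unfold bil
      rw [← h5]
      refine Finset.sum_congr rfl fun i _ => Finset.sum_congr rfl fun j _ => ?_
      rw [exGdd_eq ε G N x hx i j]

private theorem ex_G (ε : ℝ) (G : ℝ → Ten d) (N : Nice ε G) (h : Ten d)
    (hd : ∀ x, x ≠ 0 → ∀ i j, HasDerivAt (fun t => G t x i j) (h x i j) 0)
    (K : Set (V d)) (hK : IsCompact K) (hK0 : ∀ x ∈ K, x ≠ 0) (r : ℝ) (hr : 0 < r) (hrε : r < ε) :
    ∃ M : ℝ, 0 ≤ M ∧ ∀ t, |t| ≤ r → ∀ x ∈ K, ∀ i j,
      |G t x i j - G 0 x i j - t * h x i j - t ^ 2 / 2 * Gdd G x i j| ≤ M * |t| ^ 3 := by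
  have hU := exU_open (d := d) ε
  have hz : (0 : ℝ) ∈ Set.Ioo (-ε) ε := ⟨by linarith [N.pos], N.pos⟩
  have hsub : Set.Icc (-r) r ×ˢ K ⊆ Set.Ioo (-ε) ε ×ˢ ({0}ᶜ : Set (V d)) := by
    rintro ⟨t, x⟩ ⟨ht, hx⟩
    exact ⟨⟨by linarith [ht.1], by linarith [ht.2]⟩, hK0 x hx⟩
  have h1 : ∀ i j, ∃ M : ℝ, 0 ≤ M ∧ ∀ t, |t| ≤ r → ∀ x ∈ K,
      |exPt (exPt (exPt (exF G i j))) (t, x)| ≤ M := fun i j =>
    ex_bdd _ _ (exPt_smooth _ _ hU (exPt_smooth _ _ hU (exPt_smooth _ _ hU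
      (exF_smooth ε G N i j)))) r K hK hsub
  choose M hM0 hM using h1
  refine ⟨∑ i, ∑ j, M i j, Finset.sum_nonneg fun i _ => Finset.sum_nonneg fun j _ => hM0 i j,
    fun t ht x hx i j => ?_⟩
  have hF := exF_smooth ε G N i j
  have hmem : ∀ τ, |τ| ≤ r → (τ, x) ∈ Set.Ioo (-ε) ε ×ˢ ({0}ᶜ : Set (V d)) :=
    fun τ hτ => hsub ⟨abs_le.1 hτ, hx⟩
  have h2 := ex_tay3 (fun τ => G τ x i j) (fun τ => exPt (exF G i j) (τ, x))
    (fun τ => exPt (exPt (exF G i j)) (τ, x)) (fun τ => exPt (exPt (exPt (exF G i j))) (τ, x)) r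
    (M i j) (fun τ hτ => exPt_deriv _ _ hU hF τ x (hmem τ hτ))
    (fun τ hτ => exPt_deriv _ _ hU (exPt_smooth _ _ hU hF) τ x (hmem τ hτ))
    (fun τ hτ => exPt_deriv _ _ hU (exPt_smooth _ _ hU (exPt_smooth _ _ hU hF)) τ x (hmem τ hτ))
    (fun τ hτ => hM i j τ hτ x hx) t ht
  have h3 : exPt (exF G i j) (0, x) = h x i j :=
    (exPt_deriv _ _ hU hF 0 x (hmem 0 (by simpa using hr.le))).unique (hd x (hK0 x hx) i j)
  rw [exGdd_eq ε G N x (hK0 x hx) i j, ← h3]
  refine h2.trans ?_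
  gcongr
  refine (Finset.single_le_sum (f := fun j => M i j) (fun j _ => hM0 i j)
    (Finset.mem_univ j)).trans ?_
  exact Finset.single_le_sum (f := fun i => ∑ j, M i j)
    (fun i _ => Finset.sum_nonneg fun j _ => hM0 i j) (Finset.mem_univ i)

private theorem ex_two (f : ℝ × ℝ → ℝ) (hf : ContDiff ℝ ∞ f) (r b : ℝ) :
    ∃ M : ℝ, 0 ≤ M ∧ ∀ t, |t| ≤ r → ∀ s ∈ Set.Icc 0 b, |f (t, s)| ≤ M ∧
      |f (t, s) - f (0, s)| ≤ M * |t| ∧ |f (t, s) - f (0, s) - t * exPt f (0, s)| ≤ M * |t| ^ 2 ∧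
      |exPt f (t, s)| ≤ M := by
  have hU : IsOpen (Set.univ : Set (ℝ × ℝ)) := isOpen_univ
  have hf0 : ContDiffOn ℝ ∞ f Set.univ := hf.contDiffOn
  have hf1 := exPt_smooth _ _ hU hf0
  have hf2 := exPt_smooth _ _ hU hf1
  obtain ⟨M0, hM00, hM0⟩ := ex_bdd f Set.univ hf0 r _ (isCompact_Icc (a := 0) (b := b))
    (Set.subset_univ _)
  obtain ⟨M1, hM10, hM1⟩ := ex_bdd _ Set.univ hf1 r _ (isCompact_Icc (a := 0) (b := b))
    (Set.subset_univ _)
  obtain ⟨M2, hM20, hM2⟩ := ex_bdd _ Set.univ hf2 r _ (isCompact_Icc (a := 0) (b := b))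
    (Set.subset_univ _)
  refine ⟨M0 + M1 + M2, by positivity, fun t ht s hs => ⟨?_, ?_, ?_, ?_⟩⟩
  · linarith [hM0 t ht s hs]
  · refine (ex_tay1 (fun τ => f (τ, s)) (fun τ => exPt f (τ, s)) r M1
      (fun τ _ => exPt_deriv _ _ hU hf0 τ s (Set.mem_univ _)) (fun τ hτ => hM1 τ hτ s hs) t ht).trans ?_
    gcongr
    linarith
  · refine (ex_tay2 (fun τ => f (τ, s)) (fun τ => exPt f (τ, s)) (fun τ => exPt (exPt f) (τ, s)) r M2
      (fun τ _ => exPt_deriv _ _ hU hf0 τ s (Set.mem_univ _))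
      (fun τ _ => exPt_deriv _ _ hU hf1 τ s (Set.mem_univ _)) (fun τ hτ => hM2 τ hτ s hs) t ht).trans ?_
    gcongr
    linarith
  · linarith [hM1 t ht s hs]

private theorem ex_bil (M : Mat d) (m : ℝ) (hm : ∀ i j, |M i j| ≤ m) (v w : V d) (B : ℝ)
    (hv : ‖v‖ ≤ B) (hw : ‖w‖ ≤ B) : |bil M v w| ≤ ((d : ℝ) + 1) ^ 2 * m * B ^ 2 := by
  have hB : 0 ≤ B := (norm_nonneg v).trans hv
  refine (abs_bil_le M v w).trans ?_
  have h1 : ∑ i, ∑ j, |M i j| ≤ ((d : ℝ) + 1) ^ 2 * m := by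
    calc ∑ i, ∑ j, |M i j| ≤ ∑ i : Fin (d + 1), ∑ j : Fin (d + 1), m :=
          Finset.sum_le_sum fun i _ => Finset.sum_le_sum fun j _ => hm i j
      _ = _ := by
          simp only [Finset.sum_const, Finset.card_univ, Fintype.card_fin, nsmul_eq_mul]
          push_cast
          ring
  have h2 : ‖v‖ * ‖w‖ ≤ B ^ 2 := by
    rw [sq]
    exact mul_le_mul hv hw (norm_nonneg _) hB
  exact mul_le_mul h1 h2 (by positivity)
    ((Finset.sum_nonneg fun i _ => Finset.sum_nonneg fun j _ => abs_nonneg _).trans h1)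

private theorem ex_alg (t : ℝ) (Gt M0 Hm P R : Mat d) (c g Y Z : V d)
    (hG : ∀ i j, Gt i j = M0 i j + t * Hm i j + t ^ 2 * P i j + R i j)
    (hM0 : bil M0 (g + t • Z) (g + t • Z) = (g + t • Z) ⬝ᵥ (g + t • Z))
    (hs : ∀ i j, Hm i j = Hm j i)
    (h1 : g ⬝ᵥ g = 1) (h2 : c ⬝ᵥ c = 1) (h3 : c ⬝ᵥ Y = 0)
    (h4 : 2 * (g ⬝ᵥ Z) + bil Hm g g = 0) :
    (1 / 2) * bil Gt (g + t • Z) (g + t • Z) - (1 / 2) * ((c + t • Y) ⬝ᵥ (c + t • Y)) -
      t ^ 2 * ((1 / 2) * (Z ⬝ᵥ Z + 2 * bil Hm g Z + bil P g g - Y ⬝ᵥ Y)) =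
    (1 / 2) * (t ^ 3 * (bil Hm Z Z + (bil P g Z + bil P Z g) + t * bil P Z Z) +
      bil R (g + t • Z) (g + t • Z)) := by
  have e1 : bil Gt (g + t • Z) (g + t • Z) = bil M0 (g + t • Z) (g + t • Z) +
      t * bil Hm (g + t • Z) (g + t • Z) + t ^ 2 * bil P (g + t • Z) (g + t • Z) +
      bil R (g + t • Z) (g + t • Z) := by
    simp only [bil, Finset.mul_sum, ← Finset.sum_add_distrib]
    refine Finset.sum_congr rfl fun i _ => Finset.sum_congr rfl fun j _ => ?_
    rw [hG i j]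
    ring
  have e2 : ∀ M : Mat d, bil M (g + t • Z) (g + t • Z) =
      bil M g g + t * (bil M g Z + bil M Z g) + t ^ 2 * bil M Z Z := by
    intro M
    simp only [bil_add_left, bil_add_right, bil_smul_left, bil_smul_right]
    ring
  have e3 : ∀ x y : V d, (x + t • y) ⬝ᵥ (x + t • y) = x ⬝ᵥ x + 2 * t * (x ⬝ᵥ y) +
      t ^ 2 * (y ⬝ᵥ y) := by
    intro x y
    simp only [dotProduct_add, add_dotProduct, smul_dotProduct, dotProduct_smul, smul_eq_mul,
      dotProduct_comm y x]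
    ring
  rw [e1, hM0, e2 Hm, e2 P, e3 g Z, e3 c Y, bil_comm hs Z g, h1, h2, h3]
  linear_combination (t / 2) * h4

private theorem ex_dot_deriv (a b : ℝ → V d) (a' b' : V d) (s : ℝ) (ha : HasDerivAt a a' s)
    (hb : HasDerivAt b b' s) : HasDerivAt (fun u => a u ⬝ᵥ b u) (a' ⬝ᵥ b s + a s ⬝ᵥ b') s := by
  simp only [dotProduct, ← Finset.sum_add_distrib]
  exact HasDerivAt.fun_sum fun i _ => (hasDerivAt_pi.1 ha i).fun_mul (hasDerivAt_pi.1 hb i)

private theorem ex_gc (X W : V d) (s : ℝ) : HasDerivAt (gc X W) (gd X W s) s := by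
  have h1 := ((Real.hasDerivAt_cos s).smul_const X).fun_add ((Real.hasDerivAt_sin s).smul_const W)
  have e : gd X W s = -Real.sin s • X + Real.cos s • W := by
    unfold gd
    rw [neg_smul]
    abel
  rw [e]
  exact h1

private theorem ex_gd (X W : V d) (s : ℝ) : HasDerivAt (gd X W) (-gc X W s) s := by
  have h1 := ((Real.hasDerivAt_cos s).smul_const W).fun_sub ((Real.hasDerivAt_sin s).smul_const X)
  have e : -gc X W s = -Real.sin s • W - Real.cos s • X := by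
    unfold gc
    rw [neg_smul]
    abel
  rw [e]
  exact h1

private theorem ex_gc_smooth (X W : V d) : ContDiff ℝ ∞ (gc X W) :=
  (Real.contDiff_cos.smul contDiff_const).add (Real.contDiff_sin.smul contDiff_const)

private theorem ex_gd_smooth (X W : V d) : ContDiff ℝ ∞ (gd X W) :=
  (Real.contDiff_cos.smul contDiff_const).sub (Real.contDiff_sin.smul contDiff_const)

private theorem ex_norms (X W : V d) (hXW : Orth X W) (s : ℝ) :
    gc X W s ⬝ᵥ gc X W s = 1 ∧ gd X W s ⬝ᵥ gd X W s = 1 := by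
  obtain ⟨h1, h2, h3⟩ := hXW
  have h4 : W ⬝ᵥ X = 0 := by rw [dotProduct_comm]; exact h3
  have h5 := Real.sin_sq_add_cos_sq s
  unfold gc gd
  constructor
  · simp only [dotProduct_add, add_dotProduct, smul_dotProduct, dotProduct_smul, smul_eq_mul,
      h1, h2, h3, h4]
    linear_combination h5
  · simp only [dotProduct_sub, sub_dotProduct, smul_dotProduct, dotProduct_smul, smul_eq_mul,
      h1, h2, h3, h4]
    linear_combination h5

private theorem ex_dot_smooth {E : Type*} [NormedAddCommGroup E] [NormedSpace ℝ E]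
    (a b : E → V d) (ha : ContDiff ℝ ∞ a) (hb : ContDiff ℝ ∞ b) :
    ContDiff ℝ ∞ (fun u => a u ⬝ᵥ b u) := by
  simp only [dotProduct]
  exact ContDiff.sum fun i _ => (contDiff_pi.1 ha i).mul (contDiff_pi.1 hb i)

private theorem ex_bil_smooth {E : Type*} [NormedAddCommGroup E] [NormedSpace ℝ E]
    (M : E → Mat d) (a b : E → V d) (hM : ∀ i j, ContDiff ℝ ∞ (fun u => M u i j))
    (ha : ContDiff ℝ ∞ a) (hb : ContDiff ℝ ∞ b) :
    ContDiff ℝ ∞ (fun u => bil (M u) (a u) (b u)) := by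
  simp only [bil]
  exact ContDiff.sum fun i _ => ContDiff.sum fun j _ =>
    (hM i j).mul ((contDiff_pi.1 ha i).mul (contDiff_pi.1 hb j))

private theorem ex_dY (h : Ten d) (hh : Fld h) (ho : OddF h) (X W : V d) (hXW : Orth X W) :
    ContDiff ℝ ∞ (deriv (Yf h X W)) := by
  have h1 := Yf_smooth h hh X W hXW ho
  exact (contDiff_infty_iff_deriv.1 h1).2

private theorem ex_comp (T : Ten d) (hT : ContDiffOn ℝ ∞ T {0}ᶜ) {E : Type*}
    [NormedAddCommGroup E] [NormedSpace ℝ E] (A : E → V d) (hA : ContDiff ℝ ∞ A)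
    (hA0 : ∀ u, A u ≠ 0) (i j : Fin (d + 1)) : ContDiff ℝ ∞ (fun u => T (A u) i j) := by
  have h1 : ContDiffOn ℝ ∞ (fun x => T x i j) {0}ᶜ := contDiffOn_pi.1 (contDiffOn_pi.1 hT i) j
  rw [← contDiffOn_univ]
  exact h1.comp hA.contDiffOn (fun u _ => hA0 u)

private theorem ex_id (h : Ten d) (hh : Fld h) (ho : OddF h) (X W : V d) (hXW : Orth X W)
    (s : ℝ) : HasDerivAt (fun u => deriv (Yf h X W) u ⬝ᵥ Yf h X W u +
      2 * bil (h (gc X W u)) (gd X W u) (Yf h X W u))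
      (deriv (Yf h X W) s ⬝ᵥ deriv (Yf h X W) s + 2 * bil (h (gc X W s)) (gd X W s)
        (deriv (Yf h X W) s) + bil (dT h (gc X W s) (Yf h X W s)) (gd X W s) (gd X W s) -
        Yf h X W s ⬝ᵥ Yf h X W s - Eul h (gc X W s) (gd X W s) ⬝ᵥ Yf h X W s) s := by
  have hgc0 : gc X W s ≠ 0 := by
    intro h0
    have := (ex_norms X W hXW s).1
    rw [h0] at this
    simp at this
  have hY : HasDerivAt (Yf h X W) (deriv (Yf h X W) s) s :=
    ((Yf_smooth h hh X W hXW ho).differentiable (by simp) s).hasDerivAt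
  have h1 := ex_dot_deriv _ _ _ _ s (Yf_ode h hh X W hXW ho s) hY
  have h2 := hasDerivAt_bil h (gc X W) (gd X W) (Yf h X W) _ _ _ s
    (fun i j => diff_of_smooth h {0}ᶜ isOpen_compl_singleton hh.smooth (gc X W s) hgc0 i j)
    (ex_gc X W s) (ex_gd X W s) hY
  have h3 := h1.fun_add (h2.const_mul 2)
  refine h3.congr_deriv ?_
  have e1 := Eul_dot h (gc X W s) (gd X W s) (Yf h X W s)
  have e2 : bil (h (gc X W s)) (-gc X W s) (Yf h X W s) = 0 := by
    rw [bil_neg_left, hh.tan, neg_zero]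
  have e3 : bil (dT h (gc X W s) (gd X W s)) (gd X W s) (Yf h X W s) =
      bil (dT h (gc X W s) (gd X W s)) (Yf h X W s) (gd X W s) :=
    bil_comm (fun i j => dT_symm h (fun x _ i j => hh.symm x i j) (gc X W s) hgc0 _ i j) _ _
  rw [e2, e3, add_dotProduct, neg_dotProduct]
  linear_combination (2 : ℝ) * e1

private theorem ex_per (h : Ten d) (hh : Fld h) (ho : OddF h) (X W : V d) (hXW : Orth X W) :
    Yf h X W (2 * Real.pi) = Yf h X W 0 ∧
      deriv (Yf h X W) (2 * Real.pi) = deriv (Yf h X W) 0 := by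
  have h1 : ∀ s, Yf h X W (s + Real.pi) = Yf h X W s := fun s => Yf_periodic h hh X W hXW ho s
  have h2 : ∀ s, Yf h X W (s + 2 * Real.pi) = Yf h X W s := by
    intro s
    rw [two_mul, ← add_assoc, h1, h1]
  constructor
  · have := h2 0
    rwa [zero_add] at this
  · have h3 : (fun s => Yf h X W (s + 2 * Real.pi)) = Yf h X W := funext h2
    have h4 := deriv_comp_add_const (Yf h X W) (2 * Real.pi) 0
    rw [h3, zero_add] at h4
    exact h4.symm

private theorem ex_bil_cont (M : ℝ → Mat d) (a b : ℝ → V d)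
    (hM : ∀ i j, Continuous (fun u => M u i j)) (ha : Continuous a) (hb : Continuous b) :
    Continuous (fun u => bil (M u) (a u) (b u)) := by
  simp only [bil]
  exact continuous_finsetSum _ fun i _ => continuous_finsetSum _ fun j _ =>
    (hM i j).mul (((continuous_apply i).comp ha).mul ((continuous_apply j).comp hb))

private theorem ex_dot_cont (a b : ℝ → V d) (ha : Continuous a) (hb : Continuous b) :
    Continuous (fun u => a u ⬝ᵥ b u) := by
  simp only [dotProduct]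
  exact continuous_finsetSum _ fun i _ =>
    ((continuous_apply i).comp ha).mul ((continuous_apply i).comp hb)

private theorem ex_int (h : Ten d) (hh : Fld h) (ho : OddF h) (K : Ten d) (hK : Fld K)
    (X W : V d) (hXW : Orth X W) :
    Continuous (fun s => (1 / 2 : ℝ) * (deriv (Yf h X W) s ⬝ᵥ deriv (Yf h X W) s +
        2 * bil (h (gc X W s)) (gd X W s) (deriv (Yf h X W) s) +
        (bil (dT h (gc X W s) (Yf h X W s)) (gd X W s) (gd X W s) +
          (1 / 2) * bil (K (gc X W s)) (gd X W s) (gd X W s)) -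
        Yf h X W s ⬝ᵥ Yf h X W s)) ∧
    (∫ s in (0 : ℝ)..(2 * Real.pi), (1 / 2 : ℝ) * (deriv (Yf h X W) s ⬝ᵥ deriv (Yf h X W) s +
        2 * bil (h (gc X W s)) (gd X W s) (deriv (Yf h X W) s) +
        (bil (dT h (gc X W s) (Yf h X W s)) (gd X W s) (gd X W s) +
          (1 / 2) * bil (K (gc X W s)) (gd X W s) (gd X W s)) -
        Yf h X W s ⬝ᵥ Yf h X W s)) =
    (1 / 2) * (∫ s in (0 : ℝ)..(2 * Real.pi), Eul h (gc X W s) (gd X W s) ⬝ᵥ Yf h X W s) +
      (1 / 4) * ∫ s in (0 : ℝ)..(2 * Real.pi), bil (K (gc X W s)) (gd X W s) (gd X W s) := by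
  have hY := Yf_smooth h hh X W hXW ho
  have hZ := ex_dY h hh ho X W hXW
  have hc := ex_gc_smooth X W
  have hg := ex_gd_smooth X W
  have hgc0 : ∀ s, gc X W s ≠ 0 := by
    intro s h0
    have := (ex_norms X W hXW s).1
    rw [h0] at this
    simp at this
  set Pp : ℝ → ℝ := fun u => deriv (Yf h X W) u ⬝ᵥ Yf h X W u +
      2 * bil (h (gc X W u)) (gd X W u) (Yf h X W u) with hPp
  have hPs : ContDiff ℝ ∞ Pp :=
    (ex_dot_smooth _ _ hZ hY).add (contDiff_const.mul (ex_bil_smooth _ _ _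
      (fun i j => ex_comp h hh.smooth (gc X W) hc hgc0 i j) hg hY))
  have hPd : ∀ s, deriv Pp s = deriv (Yf h X W) s ⬝ᵥ deriv (Yf h X W) s +
        2 * bil (h (gc X W s)) (gd X W s)
        (deriv (Yf h X W) s) + bil (dT h (gc X W s) (Yf h X W s)) (gd X W s) (gd X W s) -
        Yf h X W s ⬝ᵥ Yf h X W s - Eul h (gc X W s) (gd X W s) ⬝ᵥ Yf h X W s :=
    fun s => (ex_id h hh ho X W hXW s).deriv
  have hPc : Continuous (deriv Pp) := (contDiff_infty_iff_deriv.1 hPs).2.continuous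
  have he : ∀ s, Eul h (gc X W s) (gd X W s) = deriv (deriv (Yf h X W)) s + Yf h X W s := by
    intro s
    rw [(Yf_ode h hh X W hXW ho s).deriv]
    abel
  have hec : Continuous (fun s => Eul h (gc X W s) (gd X W s) ⬝ᵥ Yf h X W s) := by
    simp only [he]
    exact ex_dot_cont _ _ ((contDiff_infty_iff_deriv.1 hZ).2.continuous.add hY.continuous)
      hY.continuous
  have hKc : Continuous (fun s => bil (K (gc X W s)) (gd X W s) (gd X W s)) :=
    (ex_bil_smooth _ _ _ (fun i j => ex_comp K hK.smooth (gc X W) hc hgc0 i j) hg hg).continuous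
  have hpt : ∀ s, (1 / 2 : ℝ) * (deriv (Yf h X W) s ⬝ᵥ deriv (Yf h X W) s +
        2 * bil (h (gc X W s)) (gd X W s) (deriv (Yf h X W) s) +
        (bil (dT h (gc X W s) (Yf h X W s)) (gd X W s) (gd X W s) +
          (1 / 2) * bil (K (gc X W s)) (gd X W s) (gd X W s)) -
        Yf h X W s ⬝ᵥ Yf h X W s) = (1 / 2) * deriv Pp s +
      (1 / 2) * (Eul h (gc X W s) (gd X W s) ⬝ᵥ Yf h X W s) +
      (1 / 4) * bil (K (gc X W s)) (gd X W s) (gd X W s) := by
    intro s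
    rw [hPd s]
    ring
  constructor
  · simp only [hpt]
    exact ((continuous_const.mul hPc).add (continuous_const.mul hec)).add
      (continuous_const.mul hKc)
  · simp only [hpt]
    have i1 : IntervalIntegrable (fun s => (1 / 2 : ℝ) * deriv Pp s) MeasureTheory.volume 0
        (2 * Real.pi) := (continuous_const.mul hPc).intervalIntegrable _ _
    have i2 : IntervalIntegrable (fun s => (1 / 2 : ℝ) *
        (Eul h (gc X W s) (gd X W s) ⬝ᵥ Yf h X W s)) MeasureTheory.volume 0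
        (2 * Real.pi) := (continuous_const.mul hec).intervalIntegrable _ _
    have i3 : IntervalIntegrable (fun s => (1 / 4 : ℝ) *
        bil (K (gc X W s)) (gd X W s) (gd X W s)) MeasureTheory.volume 0
        (2 * Real.pi) := (continuous_const.mul hKc).intervalIntegrable _ _
    rw [intervalIntegral.integral_add (i1.add i2) i3, intervalIntegral.integral_add i1 i2,
      intervalIntegral.integral_const_mul, intervalIntegral.integral_const_mul,
      intervalIntegral.integral_const_mul]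
    have h0 : ∫ s in (0 : ℝ)..(2 * Real.pi), deriv Pp s = 0 := by
      rw [intervalIntegral.integral_deriv_eq_sub (fun x _ => hPs.differentiable (by simp) x)
        (hPc.intervalIntegrable _ _)]
      obtain ⟨p1, p2⟩ := ex_per h hh ho X W hXW
      have p3 : gc X W (2 * Real.pi) = gc X W 0 := by simp [gc]
      have p4 : gd X W (2 * Real.pi) = gd X W 0 := by simp [gd]
      simp only [hPp]
      rw [p1, p2, p3, p4]
      ring
    rw [h0]
    ring

theorem expE (ε : ℝ) (G : ℝ → Ten d) (N : Nice ε G) (h : Ten d) (hh : Fld h) (ho : OddF h)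
    (hd : ∀ x, x ≠ 0 → ∀ i j, HasDerivAt (fun t => G t x i j) (h x i j) 0) (X W : V d) (hXW : Orth X W) :
    ∃ C > 0, ∃ t₁ > 0, t₁ < ε ∧ ∀ t, |t| ≤ t₁ →
      |(∫ s in (0 : ℝ)..(2 * Real.pi),
          Lag (G t) (gc X W s + t • Yf h X W s) (gd X W s + t • deriv (Yf h X W) s)) -
        t ^ 2 * ((1 / 2) * (∫ s in (0 : ℝ)..(2 * Real.pi), Eul h (gc X W s) (gd X W s) ⬝ᵥ Yf h X W s) +
          (1 / 4) * Phi (Gdd G) X W)| ≤ C * |t| ^ 3 := by
  have hY := Yf_smooth h hh X W hXW ho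
  have hZ := ex_dY h hh ho X W hXW
  have hc := ex_gc_smooth X W
  have hg := ex_gd_smooth X W
  have hpi : (0 : ℝ) ≤ 2 * Real.pi := by positivity
  have hgc0 : ∀ s, gc X W s ≠ 0 := by
    intro s h0
    have := (ex_norms X W hXW s).1
    rw [h0] at this
    simp at this
  set A : ℝ × ℝ → V d := fun p => gc X W p.2 + p.1 • Yf h X W p.2 with hAdef
  have hA : ContDiff ℝ ∞ A := (hc.comp contDiff_snd).add (contDiff_fst.smul (hY.comp contDiff_snd))
  have hA0 : ∀ p, A p ≠ 0 := by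
    intro p h0
    have h1 : A p ⬝ᵥ A p = 1 + p.1 ^ 2 * (Yf h X W p.2 ⬝ᵥ Yf h X W p.2) := by
      have h2 := (ex_norms X W hXW p.2).1
      have h3 := Yf_perp h hh X W hXW ho p.2
      have h4 : Yf h X W p.2 ⬝ᵥ gc X W p.2 = 0 := by rw [dotProduct_comm]; exact h3
      simp only [hAdef, dotProduct_add, add_dotProduct, smul_dotProduct, dotProduct_smul,
        smul_eq_mul, h2, h3, h4]
      ring
    rw [h0] at h1
    have h5 : 0 ≤ Yf h X W p.2 ⬝ᵥ Yf h X W p.2 := by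
      simp only [dotProduct]
      exact Finset.sum_nonneg fun i _ => mul_self_nonneg _
    simp only [dotProduct_zero] at h1
    have : 0 ≤ p.1 ^ 2 * (Yf h X W p.2 ⬝ᵥ Yf h X W p.2) := by positivity
    linarith
  have hA00 : ∀ s, A (0, s) = gc X W s := by
    intro s
    simp [hAdef]
  obtain ⟨KK, hKK, hKe⟩ := Gdd_fld ε G N
  set r : ℝ := min (ε / 2) 1 with hr
  have hεp := N.pos
  have hr0 : 0 < r := lt_min (by linarith) one_pos
  have hrε : r < ε := (min_le_left _ _).trans_lt (by linarith)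
  have hr1 : r ≤ 1 := min_le_right _ _
  have hH : ∀ i j, ContDiff ℝ ∞ (fun p => h (A p) i j) := fun i j => ex_comp h hh.smooth A hA hA0 i j
  have hQ : ∀ i j, ContDiff ℝ ∞ (fun p => KK (A p) i j) :=
    fun i j => ex_comp KK hKK.smooth A hA hA0 i j
  choose MH hMH0 hMH using fun i j => ex_two _ (hH i j) r (2 * Real.pi)
  choose MQ hMQ0 hMQ using fun i j => ex_two _ (hQ i j) r (2 * Real.pi)
  set m : ℝ := ∑ i, ∑ j, (MH i j + MQ i j) with hm
  have hmij : ∀ i j, MH i j + MQ i j ≤ m := by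
    intro i j
    refine (Finset.single_le_sum (f := fun j => MH i j + MQ i j)
      (fun j _ => add_nonneg (hMH0 i j) (hMQ0 i j)) (Finset.mem_univ j)).trans ?_
    exact Finset.single_le_sum (f := fun i => ∑ j, (MH i j + MQ i j))
      (fun i _ => Finset.sum_nonneg fun j _ => add_nonneg (hMH0 i j) (hMQ0 i j))
      (Finset.mem_univ i)
  have hm0 : 0 ≤ m := Finset.sum_nonneg fun i _ => Finset.sum_nonneg fun j _ =>
    add_nonneg (hMH0 i j) (hMQ0 i j)
  have hmH : ∀ i j, MH i j ≤ m := fun i j => by linarith [hmij i j, hMQ0 i j]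
  have hmQ : ∀ i j, MQ i j ≤ m := fun i j => by linarith [hmij i j, hMH0 i j]
  have hKc : IsCompact (A '' (Set.Icc (-r) r ×ˢ Set.Icc 0 (2 * Real.pi))) :=
    (isCompact_Icc.prod isCompact_Icc).image hA.continuous
  obtain ⟨M1, hM10, hM1⟩ := ex_G ε G N h hd _ hKc
    (by rintro x ⟨p, _, rfl⟩; exact hA0 p) r hr0 hrε
  obtain ⟨B1, hB1⟩ := (isCompact_Icc (a := (0 : ℝ)) (b := 2 * Real.pi)).exists_bound_of_continuousOn
    hg.continuous.continuousOn
  obtain ⟨B2, hB2⟩ := (isCompact_Icc (a := (0 : ℝ)) (b := 2 * Real.pi)).exists_bound_of_continuousOn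
    hZ.continuous.continuousOn
  set B : ℝ := |B1| + |B2| with hB
  have hB0 : 0 ≤ B := by positivity
  have hgB : ∀ s ∈ Set.Icc 0 (2 * Real.pi), ‖gd X W s‖ ≤ B := fun s hs => by
    linarith [hB1 s hs, le_abs_self B1, abs_nonneg B2]
  have hZB : ∀ s ∈ Set.Icc 0 (2 * Real.pi), ‖deriv (Yf h X W) s‖ ≤ B := fun s hs => by
    linarith [hB2 s hs, le_abs_self B2, abs_nonneg B1]
  have hdT : ∀ s i j, exPt (fun p => h (A p) i j) (0, s) = dT h (gc X W s) (Yf h X W s) i j := by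
    intro s i j
    have h1 := exPt_deriv _ Set.univ isOpen_univ (hH i j).contDiffOn 0 s (Set.mem_univ _)
    have h2 : HasFDerivAt (fun y => h y i j) (fderiv ℝ (fun y => h y i j) (gc X W s))
        (gc X W s + (0 : ℝ) • Yf h X W s) := by
      rw [zero_smul, add_zero]
      exact (diff_of_smooth h {0}ᶜ isOpen_compl_singleton hh.smooth (gc X W s)
        (hgc0 s) i j).hasFDerivAt
    have h3 : HasDerivAt (fun τ : ℝ => gc X W s + τ • Yf h X W s) ((1 : ℝ) • Yf h X W s) 0 :=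
      ((hasDerivAt_id' (0 : ℝ)).smul_const (Yf h X W s)).const_add _
    have h4 := h2.comp_hasDerivAt (0 : ℝ) h3
    rw [one_smul] at h4
    exact h1.unique h4
  set D2 : ℝ := ((d : ℝ) + 1) ^ 2 with hD2
  have hD20 : 0 ≤ D2 := by positivity
  set C0 : ℝ := (1 / 2) * (7 * (D2 * m * B ^ 2) + D2 * (M1 + 2 * m) * (2 * B) ^ 2) with hC0
  have hC00 : 0 ≤ C0 := by positivity
  obtain ⟨hqc, hqi⟩ := ex_int h hh ho KK hKK X W hXW
  refine ⟨C0 * (2 * Real.pi) + 1, by positivity, r, hr0, hrε, fun t ht => ?_⟩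
  have ht1 : |t| ≤ 1 := ht.trans hr1
  have htε : t ∈ Set.Ioo (-ε) ε := abs_lt.1 (ht.trans_lt hrε)
  have hzε : (0 : ℝ) ∈ Set.Ioo (-ε) ε := ⟨by linarith, hεp⟩
  -- continuity of the integrand
  have hLc : Continuous (fun s => Lag (G t) (gc X W s + t • Yf h X W s)
      (gd X W s + t • deriv (Yf h X W) s)) := by
    have c1 : Continuous (fun s => gc X W s + t • Yf h X W s) :=
      hc.continuous.add (hY.continuous.const_smul t)
    have c2 : Continuous (fun s => gd X W s + t • deriv (Yf h X W) s) :=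
      hg.continuous.add (hZ.continuous.const_smul t)
    have c3 : ∀ i j, Continuous (fun s => G t (gc X W s + t • Yf h X W s) i j) := by
      intro i j
      have h1 : Continuous (fun s : ℝ => ((t, gc X W s + t • Yf h X W s) : ℝ × V d)) :=
        continuous_const.prodMk c1
      exact (exF_smooth ε G N i j).continuousOn.comp_continuous h1
        (fun s => ⟨htε, hA0 (t, s)⟩)
    unfold Lag
    exact (continuous_const.mul (ex_bil_cont _ _ _ c3 c2 c2)).sub
      (continuous_const.mul (ex_dot_cont _ _ c1 c1))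
  have hPhi : Phi (Gdd G) X W =
      ∫ s in (0 : ℝ)..(2 * Real.pi), bil (KK (gc X W s)) (gd X W s) (gd X W s) := by
    unfold Phi
    refine intervalIntegral.integral_congr fun s _ => ?_
    simp only [hKe (gc X W s) (hgc0 s)]
  have hqc2 : Continuous (fun s => t ^ 2 * ((1 / 2 : ℝ) *
        (deriv (Yf h X W) s ⬝ᵥ deriv (Yf h X W) s +
        2 * bil (h (gc X W s)) (gd X W s) (deriv (Yf h X W) s) +
        (bil (dT h (gc X W s) (Yf h X W s)) (gd X W s) (gd X W s) +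
          (1 / 2) * bil (KK (gc X W s)) (gd X W s) (gd X W s)) -
        Yf h X W s ⬝ᵥ Yf h X W s))) := continuous_const.mul hqc
  rw [hPhi, ← hqi, ← intervalIntegral.integral_const_mul, ← intervalIntegral.integral_sub
    (hLc.intervalIntegrable _ _) (hqc2.intervalIntegrable _ _)]
  have hpt : ∀ s ∈ Set.uIoc 0 (2 * Real.pi), ‖Lag (G t) (gc X W s + t • Yf h X W s)
      (gd X W s + t • deriv (Yf h X W) s) -
      t ^ 2 * ((1 / 2 : ℝ) * (deriv (Yf h X W) s ⬝ᵥ deriv (Yf h X W) s +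
        2 * bil (h (gc X W s)) (gd X W s) (deriv (Yf h X W) s) +
        (bil (dT h (gc X W s) (Yf h X W s)) (gd X W s) (gd X W s) +
          (1 / 2) * bil (KK (gc X W s)) (gd X W s) (gd X W s)) -
        Yf h X W s ⬝ᵥ Yf h X W s))‖ ≤ C0 * |t| ^ 3 := by
    intro s hs'
    have hs : s ∈ Set.Icc 0 (2 * Real.pi) := by
      rw [Set.uIoc_of_le hpi] at hs'
      exact ⟨hs'.1.le, hs'.2⟩
    set a := gc X W s + t • Yf h X W s with ha
    have hAa : A (t, s) = a := rfl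
    set g := gd X W s with hgdef
    set Z := deriv (Yf h X W) s with hZdef
    set P : Mat d := fun i j => dT h (gc X W s) (Yf h X W s) i j + (1 / 2) * KK (gc X W s) i j
      with hP
    set R : Mat d := fun i j => G t a i j - G 0 a i j - t * h (gc X W s) i j - t ^ 2 * P i j
      with hR
    have hRb : ∀ i j, |R i j| ≤ (M1 + 2 * m) * |t| ^ 3 := by
      intro i j
      have b1 := hM1 t ht a ⟨(t, s), ⟨abs_le.1 ht, hs⟩, rfl⟩ i j
      obtain ⟨-, -, b2, -⟩ := hMH i j t ht s hs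
      obtain ⟨-, b3, -, -⟩ := hMQ i j t ht s hs
      rw [hdT s i j, hA00 s, hAa] at b2
      rw [hA00 s, hAa] at b3
      rw [← hKe a (hA0 (t, s))] at b1
      have e1 : R i j = (G t a i j - G 0 a i j - t * h a i j - t ^ 2 / 2 * KK a i j) +
          t * (h a i j - h (gc X W s) i j - t * dT h (gc X W s) (Yf h X W s) i j) +
          t ^ 2 / 2 * (KK a i j - KK (gc X W s) i j) := by
        simp only [hR, hP]
        ring
      rw [e1]
      have b2' : |t * (h a i j - h (gc X W s) i j - t * dT h (gc X W s) (Yf h X W s) i j)| ≤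
          m * |t| ^ 3 := by
        rw [abs_mul]
        calc |t| * |h a i j - h (gc X W s) i j - t * dT h (gc X W s) (Yf h X W s) i j|
            ≤ |t| * (MH i j * |t| ^ 2) := mul_le_mul_of_nonneg_left b2 (abs_nonneg t)
          _ = MH i j * |t| ^ 3 := by ring
          _ ≤ m * |t| ^ 3 := mul_le_mul_of_nonneg_right (hmH i j) (by positivity)
      have b3' : |t ^ 2 / 2 * (KK a i j - KK (gc X W s) i j)| ≤ m * |t| ^ 3 := by
        rw [abs_mul, abs_div, abs_pow, abs_two]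
        calc |t| ^ 2 / 2 * |KK a i j - KK (gc X W s) i j|
            ≤ |t| ^ 2 / 2 * (MQ i j * |t|) := mul_le_mul_of_nonneg_left b3 (by positivity)
          _ = MQ i j * |t| ^ 3 / 2 := by ring
          _ ≤ m * |t| ^ 3 := by
              have := mul_le_mul_of_nonneg_right (hmQ i j) (pow_nonneg (abs_nonneg t) 3)
              have h0 := mul_nonneg (hMQ0 i j) (pow_nonneg (abs_nonneg t) 3)
              linarith
      refine (abs_add_le _ _).trans ?_
      refine (add_le_add_left (abs_add_le _ _) _).trans ?_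
      linarith
    have hPb : ∀ i j, |P i j| ≤ 2 * m := by
      intro i j
      obtain ⟨-, -, -, b2⟩ := hMH i j 0 (by simpa using hr0.le) s hs
      obtain ⟨b3, -, -, -⟩ := hMQ i j 0 (by simpa using hr0.le) s hs
      rw [hdT s i j] at b2
      rw [hA00 s] at b3
      simp only [hP]
      refine (abs_add_le _ _).trans ?_
      have b4 : |(1 / 2 : ℝ) * KK (gc X W s) i j| ≤ MQ i j := by
        rw [abs_mul, abs_of_pos (by norm_num : (0 : ℝ) < 1 / 2)]
        have := abs_nonneg (KK (gc X W s) i j)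
        linarith
      linarith [hmH i j, hmQ i j]
    have hHb : ∀ i j, |h (gc X W s) i j| ≤ m := by
      intro i j
      obtain ⟨b2, -, -, -⟩ := hMH i j 0 (by simpa using hr0.le) s hs
      rw [hA00 s] at b2
      exact b2.trans (hmH i j)
    have halg := ex_alg t (G t a) (G 0 a) (h (gc X W s)) P R (gc X W s) g (Yf h X W s) Z
      (fun i j => by simp only [hR]; ring)
      (N.rnd a (hA0 (t, s)) _ _) (fun i j => hh.symm _ i j) (ex_norms X W hXW s).2
      (ex_norms X W hXW s).1 (Yf_perp h hh X W hXW ho s) (Yf_speed h hh X W hXW ho s)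
    have hPg : bil P g g = bil (dT h (gc X W s) (Yf h X W s)) g g +
        (1 / 2) * bil (KK (gc X W s)) g g := by
      rw [hP, bil_add_mat, bil_smul_mat]
    rw [hPg] at halg
    have hlag : Lag (G t) a (g + t • Z) = (1 / 2) * bil (G t a) (g + t • Z) (g + t • Z) -
        (1 / 2) * (a ⬝ᵥ a) := rfl
    rw [hlag, Real.norm_eq_abs, halg]
    have n1 := ex_bil (h (gc X W s)) m hHb Z Z B (hZB s hs) (hZB s hs)
    have n2 := ex_bil P (2 * m) hPb g Z B (hgB s hs) (hZB s hs)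
    have n3 := ex_bil P (2 * m) hPb Z g B (hZB s hs) (hgB s hs)
    have n4 := ex_bil P (2 * m) hPb Z Z B (hZB s hs) (hZB s hs)
    have hv : ‖g + t • Z‖ ≤ 2 * B := by
      refine (norm_add_le _ _).trans ?_
      rw [norm_smul, Real.norm_eq_abs]
      have h1 : |t| * ‖Z‖ ≤ 1 * B := mul_le_mul ht1 (hZB s hs) (norm_nonneg _) zero_le_one
      linarith [hgB s hs]
    have n5 := ex_bil R ((M1 + 2 * m) * |t| ^ 3) hRb _ _ (2 * B) hv hv
    rw [abs_mul, abs_of_pos (by norm_num : (0 : ℝ) < 1 / 2)]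
    have n6 : |t ^ 3 * (bil (h (gc X W s)) Z Z + (bil P g Z + bil P Z g) + t * bil P Z Z)| ≤
        |t| ^ 3 * (7 * (D2 * m * B ^ 2)) := by
      rw [abs_mul, abs_pow]
      refine mul_le_mul_of_nonneg_left ?_ (by positivity)
      have n7 : |t * bil P Z Z| ≤ D2 * (2 * m) * B ^ 2 := by
        rw [abs_mul]
        calc |t| * |bil P Z Z| ≤ 1 * |bil P Z Z| :=
              mul_le_mul_of_nonneg_right ht1 (abs_nonneg _)
          _ ≤ _ := by rw [one_mul]; exact n4
      have n8 := abs_add_le (bil (h (gc X W s)) Z Z + (bil P g Z + bil P Z g)) (t * bil P Z Z)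
      have n9 := abs_add_le (bil (h (gc X W s)) Z Z) (bil P g Z + bil P Z g)
      have n10 := abs_add_le (bil P g Z) (bil P Z g)
      linarith
    have n11 := abs_add_le (t ^ 3 * (bil (h (gc X W s)) Z Z + (bil P g Z + bil P Z g) +
      t * bil P Z Z)) (bil R (g + t • Z) (g + t • Z))
    rw [hC0]
    linarith
  have hfin := intervalIntegral.norm_integral_le_of_norm_le_const hpt
  rw [Real.norm_eq_abs] at hfin
  refine hfin.trans ?_
  rw [sub_zero, abs_of_nonneg hpi]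
  have h3 : 0 ≤ |t| ^ 3 := by positivity
  nlinarith

end Pool.Agent.Work.MP_659252_gt.QR
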