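import Pool.Agent.Work.MP_659252_gt.QR.A.RRa
import Pool.Agent.Work.MP_659252_gt.QR.A.EulA

/-!
# The unit tangent bundle is invariant.  Size: S-M.

PROOF.  Let `q = x ⬝ x - 1`, `u = x ⬝ v`, `e = bil (G x) v v - 1`.  With `R = RR G x v`:
`q' = 2 χ u`.  `u' = χ (v ⬝ v) + χ (x ⬝ (-x + R))`, and `x ⬝ R = bil (G x) x R = bil (G x) R x = Eul G x v ⬝ x = -(v ⬝ v - bil (G x) v v)`
(`rad`, symmetry, `RR_dot`, `Eul_self`), so `u' = χ (bil (G x) v v - x ⬝ x) = χ (e - q)`.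
`e' = χ (bil (dT G x v) v v + 2 bil (G x) v (-x + R)) = χ (bil (dT G x v) v v - 2 (x ⬝ v) + 2 Eul ⬝ v) = -2 χ u`
(`hasDerivAt_bil`, `dT_smul`, `rad`, `Eul_vel`).
So `(e + q)' = 0`, `e + q = 0` (value at `0`), `u' = -2 χ q`, `(q² + u²)' = 2 q (2 χ u) + 2 u (-2 χ q) = 0`, so `q = u = 0`, `e = 0`.
(`is_const_of_deriv_eq_zero`.)
-/

namespace Pool.Agent.Work.MP_659252_gt.QR

open scoped ContDiff Topology
open Pool.Agent.Work.MP_659252_gt.Z (V Ten val Tan InT IsZoll IsMetric IsGeodesic)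

variable {d : ℕ}

private theorem hasDerivAt_dot {a b : ℝ → V d} {a' b' : V d} {s : ℝ} (ha : HasDerivAt a a' s)
    (hb : HasDerivAt b b' s) :
    HasDerivAt (fun u => a u ⬝ᵥ b u) (a' ⬝ᵥ b s + a s ⬝ᵥ b') s := by
  have h := HasDerivAt.fun_sum (u := Finset.univ) fun i _ =>
    (hasDerivAt_pi.1 ha i).mul (hasDerivAt_pi.1 hb i)
  refine (h : HasDerivAt (fun u => a u ⬝ᵥ b u) _ s).congr_deriv ?_
  simp only [dotProduct, ← Finset.sum_add_distrib]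

private theorem const_of {f : ℝ → ℝ} (h : ∀ s, HasDerivAt f 0 s) (s : ℝ) : f s = f 0 :=
  is_const_of_deriv_eq_zero (fun s => (h s).differentiableAt) (fun s => (h s).deriv) s 0

theorem inv (G : Ten d) (hG : Met G) (χ : ℝ → ℝ) (x v : ℝ → V d) (hx0 : ∀ s, x s ≠ 0)
    (hx : ∀ s, HasDerivAt x (χ s • v s) s) (hv : ∀ s, HasDerivAt v (χ s • (-x s + RR G (x s) (v s))) s)
    (h1 : x 0 ⬝ᵥ x 0 = 1) (h2 : x 0 ⬝ᵥ v 0 = 0) (h3 : bil (G (x 0)) (v 0) (v 0) = 1) (s : ℝ) :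
    x s ⬝ᵥ x s = 1 ∧ x s ⬝ᵥ v s = 0 ∧ bil (G (x s)) (v s) (v s) = 1 := by
  have hxR : ∀ s, x s ⬝ᵥ RR G (x s) (v s) =
      -(v s ⬝ᵥ v s - bil (G (x s)) (v s) (v s)) := fun s => by
    rw [← hG.rad (x s) (hx0 s), bil_comm (hG.symm (x s) (hx0 s)), RR_dot G hG _ (hx0 s),
      Eul_self G hG _ (hx0 s)]
  have hq : ∀ s, HasDerivAt (fun s => x s ⬝ᵥ x s) (2 * (χ s * (x s ⬝ᵥ v s))) s := fun s => by
    refine (hasDerivAt_dot (hx s) (hx s)).congr_deriv ?_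
    rw [smul_dotProduct, dotProduct_smul, dotProduct_comm (v s) (x s), smul_eq_mul]
    ring
  have hu : ∀ s, HasDerivAt (fun s => x s ⬝ᵥ v s)
      (χ s * (bil (G (x s)) (v s) (v s) - x s ⬝ᵥ x s)) s := fun s => by
    refine (hasDerivAt_dot (hx s) (hv s)).congr_deriv ?_
    rw [smul_dotProduct, dotProduct_smul, dotProduct_add, dotProduct_neg, hxR s, smul_eq_mul,
      smul_eq_mul]
    ring
  have he : ∀ s, HasDerivAt (fun s => bil (G (x s)) (v s) (v s)) (-(2 * (χ s * (x s ⬝ᵥ v s)))) s :=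
    fun s => by
    have hRv : bil (G (x s)) (RR G (x s) (v s)) (v s) =
        -(1 / 2) * bil (dT G (x s) (v s)) (v s) (v s) := by
      rw [RR_dot G hG _ (hx0 s), Eul_vel]
    refine (hasDerivAt_bil G x v v _ _ _ s (fun i j => diff_of_smooth G {0}ᶜ isOpen_compl_singleton
      hG.smooth (x s) (hx0 s) i j) (hx s) (hv s) (hv s)).congr_deriv ?_
    rw [dT_smul, bil_smul_mat, bil_smul_left, bil_smul_right, bil_comm (hG.symm (x s) (hx0 s)) (v s),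
      bil_add_left, bil_neg_left, hG.rad (x s) (hx0 s), hRv]
    ring
  have hsum : ∀ s, x s ⬝ᵥ x s + bil (G (x s)) (v s) (v s) = 2 := fun s => by
    have h := const_of (f := fun s => x s ⬝ᵥ x s + bil (G (x s)) (v s) (v s))
      (fun s => ((hq s).add (he s)).congr_deriv (by ring)) s
    simp only [h1, h3] at h
    rw [h]
    norm_num
  have hsq : ∀ s, (x s ⬝ᵥ x s - 1) ^ 2 + (x s ⬝ᵥ v s) ^ 2 = 0 := fun s => by
    have h := const_of (f := fun s => (x s ⬝ᵥ x s - 1) ^ 2 + (x s ⬝ᵥ v s) ^ 2)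
      (fun s => ((((hq s).sub_const 1).pow 2).add ((hu s).pow 2)).congr_deriv (by
        have := hsum s
        have e : bil (G (x s)) (v s) (v s) = 2 - x s ⬝ᵥ x s := by linarith
        rw [e]
        push_cast
        ring)) s
    simp only [h1, h2] at h
    rw [h]
    norm_num
  have hs := hsq s
  have ha : x s ⬝ᵥ x s - 1 = 0 := by nlinarith [sq_nonneg (x s ⬝ᵥ x s - 1), sq_nonneg (x s ⬝ᵥ v s)]
  have hb : x s ⬝ᵥ v s = 0 := by nlinarith [sq_nonneg (x s ⬝ᵥ x s - 1), sq_nonneg (x s ⬝ᵥ v s)]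
  have hc := hsum s
  exact ⟨by linarith, hb, by linarith⟩

end Pool.Agent.Work.MP_659252_gt.QR
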