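import Pool.Agent.Work.MP_659252_gt.QR.A.Ode
import Pool.Agent.Work.MP_659252_gt.QR.A.Inv

/-!
# Existence of geodesics.  Size: M.

PROOF.  `K = {(x, v) | x ⬝ x = 1, x ⬝ v = 0, bil (G x) v v = 1}` is compact: closed (continuity of `G` on `x ≠ 0`; on `x ⬝ x = 1`), and bounded:
on the compact set `{(x, v) | x ⬝ x = 1, v ⬝ v = 1}` the positive continuous function `bil (G x) v v` is `≥ m > 0`, so `m (v ⬝ v) ≤ 1` on `K`.
`K` is contained in the open set `Ω = {x ≠ 0}` of `V d × V d`.  Take a smooth `χ : V d × V d → ℝ` with compact support contained in `Ω` and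
`χ = 1` on `K` (`exists_contDiff_tsupport_subset` for a neighbourhood of a compact set, or `exists_smooth_one_nhds_of_subset_interior` style;
it is enough to have `χ = 1` on `K`).
`F (x, v) = χ (x, v) • (v, -x + RR G x v)` (`0` where `χ = 0`) is smooth with compact support (`RR_smooth1`; it is `0` near every point outside of
`tsupport χ`).  `ode_exists` gives `(x, v)(s)`, starting at the given point.  `x s ≠ 0` for all `s`: if `x s₀ = 0` then `F (x s₀, v s₀) = 0`, so the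
constant curve is a solution and by `ode_unique` `x 0 = x s₀ = 0`, contradiction.  By `inv` (with `χ s = χ (x s, v s)`) the solution stays in
`K`, where `χ = 1`: `x' = v`, `v' = -x + RR`.  So `c = x` is a solution: `deriv c = v`.
-/

namespace Pool.Agent.Work.MP_659252_gt.QR

open scoped ContDiff Topology
open Pool.Agent.Work.MP_659252_gt.Z (V Ten val Tan InT IsZoll IsMetric IsGeodesic)

variable {d : ℕ}

private theorem geo_dot_cont : Continuous (fun x : V d => x ⬝ᵥ x) := by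
  unfold dotProduct
  fun_prop

private theorem geo_dot_smooth : ContDiff ℝ ∞ (fun x : V d => x ⬝ᵥ x) := by
  unfold dotProduct
  fun_prop

private theorem geo_bound (G : Ten d) (hG : Met G) (x₀ : V d) (hx₀ : x₀ ⬝ᵥ x₀ = 1) :
    ∃ B : ℝ, 0 < B ∧ ∀ x v : V d, x ⬝ᵥ x = 1 → bil (G x) v v = 1 → v ⬝ᵥ v ≤ B := by
  set S : Set (V d × V d) := {p | p.1 ⬝ᵥ p.1 = 1} ∩ {p | p.2 ⬝ᵥ p.2 = 1} with hS
  have hclosed : IsClosed S :=
    (isClosed_eq (geo_dot_cont.comp continuous_fst) continuous_const).inter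
      (isClosed_eq (geo_dot_cont.comp continuous_snd) continuous_const)
  have hbd : Bornology.IsBounded S := by
    refine (Metric.isBounded_closedBall (x := (0 : V d × V d)) (r := 1)).subset ?_
    rintro ⟨x, v⟩ ⟨h1, h2⟩
    rw [Set.mem_setOf_eq] at h1 h2
    rw [mem_closedBall_zero_iff, Prod.norm_def, max_le_iff]
    have h3 := norm_sq_le_dot x
    have h4 := norm_sq_le_dot v
    simp only at h1 h2
    constructor
    · have := norm_nonneg x
      nlinarith
    · have := norm_nonneg v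
      nlinarith
  have hcomp : IsCompact S := Metric.isCompact_of_isClosed_isBounded hclosed hbd
  have hcont : ContinuousOn (fun p : V d × V d => bil (G p.1) p.2 p.2) S := by
    unfold bil
    have h1 : ContinuousOn (fun p : V d × V d => G p.1) S :=
      hG.smooth.continuousOn.comp continuous_fst.continuousOn
        (fun p hp => ne_zero_of_dot hp.1)
    refine continuousOn_finset_sum _ fun i _ => continuousOn_finset_sum _ fun j _ => ?_
    refine ContinuousOn.mul ?_ (by fun_prop)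
    exact ((continuous_apply_apply i j).comp_continuousOn h1)
  obtain ⟨p, hp, hmin⟩ := hcomp.exists_isMinOn ⟨(x₀, x₀), hx₀, hx₀⟩ hcont
  have hm : 0 < bil (G p.1) p.2 p.2 :=
    hG.pos p.1 (ne_zero_of_dot hp.1) p.2 (ne_zero_of_dot hp.2)
  refine ⟨1 / bil (G p.1) p.2 p.2, by positivity, fun x v hx hv => ?_⟩
  have hv0 : v ≠ 0 := by
    rintro rfl
    simp [bil] at hv
  have hr : 0 < v ⬝ᵥ v := by
    have h1 := norm_sq_le_dot v
    have h2 : 0 < ‖v‖ ^ 2 := by positivity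
    linarith
  have hs : 0 < √(v ⬝ᵥ v) := Real.sqrt_pos.2 hr
  have hs2 : √(v ⬝ᵥ v) * √(v ⬝ᵥ v) = v ⬝ᵥ v := Real.mul_self_sqrt hr.le
  have hw : (x, (√(v ⬝ᵥ v))⁻¹ • v) ∈ S := by
    refine ⟨hx, ?_⟩
    show ((√(v ⬝ᵥ v))⁻¹ • v) ⬝ᵥ ((√(v ⬝ᵥ v))⁻¹ • v) = 1
    rw [smul_dotProduct, dotProduct_smul, smul_eq_mul, smul_eq_mul]
    field_simp
    nlinarith
  have h1 := hmin hw
  rw [Set.mem_setOf_eq] at h1
  simp only at h1
  rw [bil_smul_left, bil_smul_right, hv, mul_one, ← mul_inv, hs2] at h1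
  rw [le_div_iff₀ hm]
  calc v ⬝ᵥ v * bil (G p.1) p.2 p.2 ≤ v ⬝ᵥ v * (v ⬝ᵥ v)⁻¹ :=
        mul_le_mul_of_nonneg_left h1 hr.le
    _ = 1 := mul_inv_cancel₀ hr.ne'

/-- the cutoff -/
private theorem geo_cut (B : ℝ) (hB : 0 < B) : ∃ χ : V d × V d → ℝ, ContDiff ℝ ∞ χ ∧
    (∀ p : V d × V d, p.1 ⬝ᵥ p.1 = 1 → p.2 ⬝ᵥ p.2 ≤ B → χ p = 1) ∧
    (∀ p : V d × V d, p.1 ⬝ᵥ p.1 < 1 / 2 → χ p = 0) ∧
    (∀ p : V d × V d, B + 2 < ‖p‖ → χ p = 0) := by
  let ρ : ContDiffBump (1 : ℝ) := ⟨1 / 4, 1 / 2, by norm_num, by norm_num⟩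
  let τ : ContDiffBump (0 : ℝ) := ⟨B, B + 1, hB, by linarith⟩
  refine ⟨fun p => ρ (p.1 ⬝ᵥ p.1) * τ (p.2 ⬝ᵥ p.2), ?_, ?_, ?_, ?_⟩
  · exact (ρ.contDiff.comp (geo_dot_smooth.comp contDiff_fst)).mul
      (τ.contDiff.comp (geo_dot_smooth.comp contDiff_snd))
  · intro p h1 h2
    have e1 : ρ (p.1 ⬝ᵥ p.1) = 1 := by
      apply ρ.one_of_mem_closedBall
      rw [h1]
      exact Metric.mem_closedBall_self (by norm_num)
    have e2 : τ (p.2 ⬝ᵥ p.2) = 1 := by
      apply τ.one_of_mem_closedBall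
      rw [mem_closedBall_zero_iff, Real.norm_of_nonneg (dot_self_nonneg _)]
      exact h2
    show ρ (p.1 ⬝ᵥ p.1) * τ (p.2 ⬝ᵥ p.2) = 1
    rw [e1, e2, one_mul]
  · intro p h1
    have e1 : ρ (p.1 ⬝ᵥ p.1) = 0 := by
      apply ρ.zero_of_le_dist
      rw [Real.dist_eq]
      refine le_trans ?_ (neg_le_abs _)
      show (1 : ℝ) / 2 ≤ _
      linarith
    show ρ (p.1 ⬝ᵥ p.1) * τ (p.2 ⬝ᵥ p.2) = 0
    rw [e1, zero_mul]
  · intro p h1
    show ρ (p.1 ⬝ᵥ p.1) * τ (p.2 ⬝ᵥ p.2) = 0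
    rw [Prod.norm_def, lt_max_iff] at h1
    rcases h1 with h1 | h1
    · have h2 := norm_sq_le_dot p.1
      have e1 : ρ (p.1 ⬝ᵥ p.1) = 0 := by
        apply ρ.zero_of_le_dist
        rw [Real.dist_eq]
        refine le_trans ?_ (le_abs_self _)
        show (1 : ℝ) / 2 ≤ _
        nlinarith
      rw [e1, zero_mul]
    · have h2 := norm_sq_le_dot p.2
      have e1 : τ (p.2 ⬝ᵥ p.2) = 0 := by
        apply τ.zero_of_le_dist
        rw [Real.dist_eq, sub_zero]
        refine le_trans ?_ (le_abs_self _)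
        show B + 1 ≤ _
        nlinarith
      rw [e1, mul_zero]

theorem geo_exists (G : Ten d) (hG : Met G) (x v : V d) (hx : x ⬝ᵥ x = 1) (hxv : x ⬝ᵥ v = 0)
    (hv : bil (G x) v v = 1) : ∃ c : ℝ → V d, Sol G c ∧ c 0 = x ∧ deriv c 0 = v := by
  obtain ⟨B, hB, hbound⟩ := geo_bound G hG x hx
  obtain ⟨χ, hχs, hχ1, hχ0, hχb⟩ := geo_cut (d := d) B hB
  set F : V d × V d → V d × V d := fun p => χ p • (p.2, -p.1 + RR G p.1 p.2) with hF
  have hFs : ContDiff ℝ ∞ F := by
    rw [contDiff_iff_contDiffAt]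
    intro p
    by_cases hp : p.1 = 0
    · have h1 : F =ᶠ[𝓝 p] fun _ => 0 := by
        have hopen : IsOpen {q : V d × V d | q.1 ⬝ᵥ q.1 < 1 / 2} :=
          isOpen_lt (geo_dot_cont.comp continuous_fst) continuous_const
        have hpm : p ∈ {q : V d × V d | q.1 ⬝ᵥ q.1 < 1 / 2} := by
          rw [Set.mem_setOf_eq, hp]
          simp
        filter_upwards [hopen.mem_nhds hpm] with q hq
        show χ q • _ = 0
        rw [hχ0 q hq, zero_smul]
      exact contDiffAt_const.congr_of_eventuallyEq h1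
    · have hopen : IsOpen (({0}ᶜ : Set (V d)) ×ˢ (Set.univ : Set (V d))) :=
        isOpen_compl_singleton.prod isOpen_univ
      have h1 : ContDiffAt ℝ ∞ (fun p : V d × V d => RR G p.1 p.2) p :=
        (RR_smooth1 G hG).contDiffAt (hopen.mem_nhds ⟨hp, Set.mem_univ _⟩)
      exact hχs.contDiffAt.smul (contDiffAt_snd.prodMk (contDiffAt_fst.neg.add h1))
  have hFc : HasCompactSupport F := by
    refine HasCompactSupport.intro (isCompact_closedBall (0 : V d × V d) (B + 2)) ?_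
    intro p hp
    rw [mem_closedBall_zero_iff, not_le] at hp
    show χ p • _ = 0
    rw [hχb p hp, zero_smul]
  obtain ⟨C, hCs, hC0, hC⟩ := ode_exists F hFs hFc (x, v)
  have hX : ∀ s, HasDerivAt (fun s => (C s).1) (χ (C s) • (C s).2) s := fun s =>
    (ContinuousLinearMap.fst ℝ (V d) (V d)).hasFDerivAt.comp_hasDerivAt s (hC s)
  have hY : ∀ s, HasDerivAt (fun s => (C s).2)
      (χ (C s) • (-(C s).1 + RR G (C s).1 (C s).2)) s := fun s =>
    (ContinuousLinearMap.snd ℝ (V d) (V d)).hasFDerivAt.comp_hasDerivAt s (hC s)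
  have hX0 : ∀ s, (C s).1 ≠ 0 := by
    intro s₀ h0
    have hz : F (C s₀) = 0 := by
      show χ (C s₀) • _ = 0
      rw [hχ0 _ (by rw [h0]; simp), zero_smul]
    have h1 := ode_unique F hFs hFc C (fun _ => C s₀) hC (fun s => by
      show HasDerivAt (fun _ => C s₀) (F (C s₀)) s
      rw [hz]
      exact hasDerivAt_const s _) s₀ rfl
    have h2 : C 0 = C s₀ := congrFun h1 0
    rw [hC0] at h2
    have h3 : x = 0 := by
      rw [← h0, ← h2]
    exact ne_zero_of_dot hx h3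
  have hinv := inv G hG (fun s => χ (C s)) (fun s => (C s).1) (fun s => (C s).2) hX0 hX hY
    (by simp only [hC0]; exact hx) (by simp only [hC0]; exact hxv)
    (by simp only [hC0]; exact hv)
  have hone : ∀ s, χ (C s) = 1 := fun s =>
    hχ1 _ (hinv s).1 (hbound _ _ (hinv s).1 (hinv s).2.2)
  have hX' : ∀ s, HasDerivAt (fun s => (C s).1) ((C s).2) s := fun s => by
    have := hX s
    rwa [hone s, one_smul] at this
  have hY' : ∀ s, HasDerivAt (fun s => (C s).2) (-(C s).1 + RR G (C s).1 (C s).2) s := fun s => by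
    have := hY s
    rwa [hone s, one_smul] at this
  have hder : deriv (fun s => (C s).1) = fun s => (C s).2 := funext fun s => (hX' s).deriv
  refine ⟨fun s => (C s).1, ⟨contDiff_fst.comp hCs, fun s => (hinv s).1, fun s => ?_,
    fun s => ?_⟩, ?_, ?_⟩
  · rw [hder]
    exact (hinv s).2.2
  · rw [hder]
    exact hY' s
  · simp only [hC0]
  · rw [hder]
    simp only [hC0]

end Pool.Agent.Work.MP_659252_gt.QR
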