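import Pool.Agent.Work.MP_659252_gt.QR.A.Csv
import Pool.Agent.Work.MP_659252_gt.QR.A.Est
import Pool.Agent.Work.MP_659252_gt.QR.A.Geo

/-!
# The maximum of `Wf`.  Size: M-L.

`G = G t`, `J = [2π - 1/2, 2π + 1/2] ⊆ [0, 7]`.  Take `est`, `cls`.
EXISTENCE OF THE MAXIMUM.  The set `K_t` of `(x, v)` with `x ⬝ x = 1`, `x ⬝ v = 0`, `bil (G x) v v = 1` is compact (closed, `‖v‖ ≤ 2` by `vb`) and not
empty (`1 ≤ d`: take `x = ee 0`, a nonzero vector orthogonal to it, e.g. `ee 1`, and normalise it by `√(bil ..)`).  For `z ∈ K_t` choose `c_z` (`geo_exists`).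
`(z, τ) ↦ Wf G c_z τ` is continuous on `K_t × J`: by `cls`, `‖c_{z'} s - c_z s‖, ‖c_{z'}' s - c_z' s‖ ≤ C₂ (‖x' - x‖ + ‖v' - v‖)` for `s ∈ [0,7]`, and `c_z`,
`deriv c_z` are continuous in `s`; `mom` is a continuous function of `(c, c')` (on `c ≠ 0`).  So there is a maximum `(z, τ)`; put `c = c_z`.
Every `Sol` `c₂` agrees on `[0, 7]` with `c_{z'}`, `z' = (c₂ 0, deriv c₂ 0)` (`cls` with `δ = 0`), and so do the derivatives; so
`Wf G c₂ τ₂ = Wf G c_{z'} τ₂ ≤ Wf G c τ`.  (`z' ∈ K_t`: `c ⬝ c' = 0` from `sph`.)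
LOWER BOUND.  `Wf G c 2π = 2π - mom(2π) ⬝ a - (1/2)(mom(0) ⬝ a)²` with `a = c (2π) - c 0`, `‖a‖ ≤ C₂ |t|` (`gc x v (2π) = x`), `‖mom‖ ≤ 3`
(`mb`): so the maximum is `≥ 2π - C |t|` (`|t| ≤ 1` may be assumed).
UPPER BOUND.  Let `θ = τ - 2π`, `|θ| ≤ 1/2`, `x = c 0`, `v = c' 0`: by `cls`, `c τ - c 0 = (cos θ - 1) x + sin θ v + O(t)`,
`mom τ = c' τ + O(t) = -sin θ x + cos θ v + O(t)`, `mom 0 = v + O(t)`, and `x ⬝ x = 1`, `x ⬝ v = 0`, `v ⬝ v = 1 + O(t)` (`|bil (G x) v v - v ⬝ v| ≤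
(d+1) ‖mul (G x) v - v‖ ‖v‖`).  So `mom τ ⬝ a = -sin θ (cos θ - 1) + cos θ sin θ + O(t) = sin θ + O(t)`, `mom 0 ⬝ a = sin θ + O(t)`,
`Wf = 2π + θ - sin θ - (1/2) sin² θ + O(t)`.  For `|θ| ≤ 1/2`: `|θ - sin θ| ≤ |θ|³/4 ≤ θ²/8` (`Real.sin_bound` or `Real.sin_gt_sub_cube`) and
`|sin θ| ≥ |θ| (1 - θ²/4) ≥ (15/16) |θ|`, so `θ - sin θ - (1/2) sin² θ ≤ θ² (1/8 - 225/512) ≤ -θ²/4`.  Hence `θ²/4 ≤ C |t|`.
-/

namespace Pool.Agent.Work.MP_659252_gt.QR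

open scoped ContDiff Topology
open Pool.Agent.Work.MP_659252_gt.Z (V Ten val Tan InT IsZoll IsMetric IsGeodesic)

variable {d : ℕ}

private theorem hd_dot {a b : ℝ → V d} {a' b' : V d} {s : ℝ} (ha : HasDerivAt a a' s)
    (hb : HasDerivAt b b' s) : HasDerivAt (fun u => a u ⬝ᵥ b u) (a' ⬝ᵥ b s + a s ⬝ᵥ b') s := by
  have h := HasDerivAt.fun_sum (u := Finset.univ) fun i _ =>
    ((hasDerivAt_pi.1 ha i).mul (hasDerivAt_pi.1 hb i))
  refine h.congr_deriv ?_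
  simp only [dotProduct, ← Finset.sum_add_distrib]

private theorem sol_deriv {G : Ten d} {c : ℝ → V d} (hc : Sol G c) (s : ℝ) :
    HasDerivAt c (deriv c s) s :=
  ((hc.smooth.differentiable (by simp)) s).hasDerivAt

private theorem sol_perp {G : Ten d} {c : ℝ → V d} (hc : Sol G c) (s : ℝ) :
    c s ⬝ᵥ deriv c s = 0 := by
  have h1 := hd_dot (sol_deriv hc s) (sol_deriv hc s)
  have h2 : (fun u => c u ⬝ᵥ c u) = fun _ => (1 : ℝ) := by
    funext u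
    exact hc.sph u
  rw [h2] at h1
  have h3 := h1.unique (hasDerivAt_const s (1 : ℝ))
  rw [dotProduct_comm (deriv c s) (c s)] at h3
  linarith

private theorem sol_norm {G : Ten d} {c : ℝ → V d} (hc : Sol G c) (s : ℝ) : ‖c s‖ ≤ 1 := by
  have h1 := norm_sq_le_dot (c s)
  rw [hc.sph s] at h1
  nlinarith [norm_nonneg (c s)]

private theorem trig {θ : ℝ} (h : |θ| ≤ 1 / 2) : |Real.sin θ| ≤ |θ| ∧ |Real.cos θ - 1| ≤ |θ| / 4 ∧
    |θ - Real.sin θ| ≤ θ ^ 2 / 8 ∧ 15 / 16 * |θ| ≤ |Real.sin θ| ∧ 7 / 8 ≤ Real.cos θ := by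
  have h0 := abs_nonneg θ
  have h1 := Real.sin_bound (x := θ) (by linarith)
  have hq : θ ^ 2 = |θ| ^ 2 := (sq_abs θ).symm
  have e1 : |θ - Real.sin θ| ≤ |θ| ^ 3 / 4 := by
    have h2 : |θ - Real.sin θ| ≤ |Real.sin θ - (θ - θ ^ 3 / 6)| + |θ ^ 3 / 6| := by
      have : θ - Real.sin θ = -(Real.sin θ - (θ - θ ^ 3 / 6)) + θ ^ 3 / 6 := by ring
      rw [this]
      refine (abs_add_le _ _).trans ?_
      rw [abs_neg]
    have h3 : |θ ^ 3 / 6| = |θ| ^ 3 / 6 := by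
      rw [abs_div, abs_pow]
      norm_num
    have h4 : |θ| ^ 5 ≤ |θ| ^ 3 / 4 := by
      have h5 : 0 ≤ |θ| ^ 3 := by positivity
      have h6 : |θ| ^ 2 ≤ 1 / 4 := by nlinarith
      nlinarith
    rw [h3] at h2
    have : 0 ≤ |θ| ^ 3 := by positivity
    linarith
  have e3 : |θ - Real.sin θ| ≤ θ ^ 2 / 8 := by
    refine e1.trans ?_
    rw [hq]
    nlinarith [sq_nonneg |θ|]
  have e4 : |θ - Real.sin θ| ≤ |θ| / 16 := by
    refine e1.trans ?_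
    have : |θ| ^ 2 ≤ 1 / 4 := by nlinarith
    nlinarith
  have hc1 := Real.one_sub_sq_div_two_le_cos (x := θ)
  have hc2 := Real.cos_le_one θ
  refine ⟨Real.abs_sin_le_abs, ?_, e3, ?_, ?_⟩
  · rw [abs_le]
    constructor
    · nlinarith
    · linarith
  · have h5 : |θ| ≤ |θ - Real.sin θ| + |Real.sin θ| := by
      have := abs_add_le (θ - Real.sin θ) (Real.sin θ)
      simpa using this
    linarith
  · nlinarith

/-- the estimates at the time `τ` near `2π` -/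
private theorem quant {G : ℝ → Ten d} {C t₁ C₂ t : ℝ} (H : Est G C t₁) (hC2 : 0 < C₂)
    (ht : |t| ≤ t₁) {c : ℝ → V d} (hc : Sol (G t) c)
    (h7 : ∀ s ∈ Set.Icc (0 : ℝ) 7, ‖c s - gc (c 0) (deriv c 0) s‖ ≤ C₂ * |t| ∧
        ‖deriv c s - gd (c 0) (deriv c 0) s‖ ≤ C₂ * |t|) {τ : ℝ} (hτ : |τ - 2 * Real.pi| ≤ 1 / 2) :
    ‖c τ - c 0‖ ≤ 3 * |τ - 2 * Real.pi| + C₂ * |t| ∧
    |mom (G t) c 0 ⬝ᵥ (c τ - c 0) - Real.sin (τ - 2 * Real.pi)| ≤ 5 * ((d + 1) * (C + C₂)) * |t| ∧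
    |mom (G t) c τ ⬝ᵥ (c τ - c 0) - Real.sin (τ - 2 * Real.pi)| ≤ 5 * ((d + 1) * (C + C₂)) * |t| ∧
    |mom (G t) c 0 ⬝ᵥ deriv c τ - Real.cos (τ - 2 * Real.pi)| ≤ 5 * ((d + 1) * (C + C₂)) * |t| ∧
    ‖mom (G t) c τ - mom (G t) c 0‖ ≤ 2 * |τ - 2 * Real.pi| + (2 * C + C₂) * |t| := by
  set θ : ℝ := τ - 2 * Real.pi with hθ
  set r : ℝ := |t| with hr
  have hr0 : 0 ≤ r := abs_nonneg t
  set D : ℝ := (d + 1 : ℝ) with hD
  have hD1 : 1 ≤ D := by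
    have : (0 : ℝ) ≤ d := Nat.cast_nonneg d
    linarith
  have hD0 : 0 ≤ D := by linarith
  have hC := H.Cpos
  obtain ⟨T1, T2, -, -, -⟩ := trig hτ
  have hpi := Real.pi_gt_three
  have hpi2 := Real.pi_lt_d2
  have hτ' := abs_le.1 hτ
  have hτ7 : τ ∈ Set.Icc (0 : ℝ) 7 := ⟨by linarith, by linarith⟩
  have hcos : Real.cos τ = Real.cos θ := by
    rw [← Real.cos_add_two_pi θ]
    congr 1
    rw [hθ]
    ring
  have hsin : Real.sin τ = Real.sin θ := by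
    rw [← Real.sin_add_two_pi θ]
    congr 1
    rw [hθ]
    ring
  set x := c 0 with hx
  set v := deriv c 0 with hv
  have hx1 : ‖x‖ ≤ 1 := sol_norm hc 0
  have hv2 : ∀ s, ‖deriv c s‖ ≤ 2 := fun s => H.vb t ht _ _ (hc.sph s) (hc.spd s)
  have hv0 : ‖v‖ ≤ 2 := hv2 0
  have hK : ∀ s, InK (c s) (deriv c s) := fun s =>
    ⟨by rw [hc.sph]; norm_num, by rw [hc.sph]; norm_num, (hv2 s).trans (by norm_num)⟩
  have hf : ∀ s, ‖mom (G t) c s - deriv c s‖ ≤ C * r := fun s => H.mb t ht _ _ (hK s)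
  have hxx : x ⬝ᵥ x = 1 := hc.sph 0
  have hxv : x ⬝ᵥ v = 0 := sol_perp hc 0
  have hvx : v ⬝ᵥ x = 0 := by rw [dotProduct_comm]; exact hxv
  have hvv : |v ⬝ᵥ v - 1| ≤ 2 * (D * C) * r := by
    have h1 := hc.spd 0
    rw [bil_eq_dot] at h1
    have h2 : v ⬝ᵥ v - 1 = -(v ⬝ᵥ (mom (G t) c 0 - v)) := by
      rw [dotProduct_sub, ← h1]
      simp only [mom]
      ring
    rw [h2, abs_neg]
    refine (abs_dot_le _ _).trans ?_
    have h3 := hf 0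
    have : ‖v‖ * ‖mom (G t) c 0 - v‖ ≤ 2 * (C * r) :=
      mul_le_mul hv0 h3 (norm_nonneg _) (by norm_num)
    calc D * (‖v‖ * ‖mom (G t) c 0 - v‖) ≤ D * (2 * (C * r)) := mul_le_mul_of_nonneg_left this hD0
      _ = 2 * (D * C) * r := by ring
  obtain ⟨h1, h2⟩ := h7 τ hτ7
  set e1 := c τ - gc x v τ with he1
  set e2 := deriv c τ - gd x v τ with he2
  set f0 := mom (G t) c 0 - v with hf0
  set f1 := mom (G t) c τ - deriv c τ with hf1
  have n0 : ‖f0‖ ≤ C * r := hf 0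
  have n1 : ‖f1‖ ≤ C * r := hf τ
  have ha : c τ - x = (Real.cos θ - 1) • x + Real.sin θ • v + e1 := by
    rw [he1, gc, hcos, hsin, sub_smul, one_smul]
    abel
  have hb : deriv c τ = (-Real.sin θ) • x + Real.cos θ • v + e2 := by
    rw [he2, gd, hcos, hsin, neg_smul]
    abel
  have hp0 : mom (G t) c 0 = v + f0 := by
    rw [hf0]
    abel
  have hp1 : mom (G t) c τ = deriv c τ + f1 := by
    rw [hf1]
    abel
  have ha2 : ‖c τ - x‖ ≤ 2 := (norm_sub_le _ _).trans (by linarith [sol_norm hc τ])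
  have hs1 : |Real.sin θ| ≤ 1 := Real.abs_sin_le_one θ
  have hc1 : |Real.cos θ| ≤ 1 := Real.abs_cos_le_one θ
  have dle : ∀ {u w : V d} {A B : ℝ}, ‖u‖ ≤ A → ‖w‖ ≤ B → 0 ≤ A → |u ⬝ᵥ w| ≤ D * (A * B) := by
    intro u w A B hu hw hA
    exact (abs_dot_le u w).trans (mul_le_mul_of_nonneg_left
      (mul_le_mul hu hw (norm_nonneg _) hA) hD0)
  have hCr : 0 ≤ C * r := mul_nonneg hC.le hr0
  have hC2r : 0 ≤ C₂ * r := mul_nonneg hC2.le hr0
  have hDC : 0 ≤ D * C * r := mul_nonneg (mul_nonneg hD0 hC.le) hr0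
  have hDC2 : 0 ≤ D * C₂ * r := mul_nonneg (mul_nonneg hD0 hC2.le) hr0
  refine ⟨?_, ?_, ?_, ?_, ?_⟩
  · rw [ha]
    refine (norm_add_le _ _).trans ?_
    have i1 : ‖(Real.cos θ - 1) • x + Real.sin θ • v‖ ≤ |θ| / 4 * 1 + |θ| * 2 := by
      refine (norm_add_le _ _).trans ?_
      rw [norm_smul, norm_smul, Real.norm_eq_abs, Real.norm_eq_abs]
      exact add_le_add (mul_le_mul T2 hx1 (norm_nonneg _) (by positivity))
        (mul_le_mul T1 hv0 (norm_nonneg _) (abs_nonneg _))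
    have := abs_nonneg θ
    linarith
  · have e : mom (G t) c 0 ⬝ᵥ (c τ - x) - Real.sin θ =
        Real.sin θ * (v ⬝ᵥ v - 1) + v ⬝ᵥ e1 + f0 ⬝ᵥ (c τ - x) := by
      rw [hp0, add_dotProduct]
      have : v ⬝ᵥ (c τ - x) = Real.sin θ * (v ⬝ᵥ v) + v ⬝ᵥ e1 := by
        rw [ha, dotProduct_add, dotProduct_add, dotProduct_smul, dotProduct_smul, hvx,
          smul_eq_mul, smul_eq_mul]
        ring
      rw [this]
      ring
    rw [e]
    have i1 : |Real.sin θ * (v ⬝ᵥ v - 1)| ≤ 1 * (2 * (D * C) * r) := by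
      rw [abs_mul]
      exact mul_le_mul hs1 hvv (abs_nonneg _) (by norm_num)
    have i2 := dle hv0 h1 (by norm_num)
    have i3 := dle n0 ha2 hCr
    have i4 := abs_add_three (Real.sin θ * (v ⬝ᵥ v - 1)) (v ⬝ᵥ e1) (f0 ⬝ᵥ (c τ - x))
    linarith
  · have e : mom (G t) c τ ⬝ᵥ (c τ - x) - Real.sin θ =
        (f1 + e2) ⬝ᵥ (c τ - x) + (Real.cos θ * Real.sin θ * (v ⬝ᵥ v - 1) +
          ((-Real.sin θ) • x + Real.cos θ • v) ⬝ᵥ e1) := by
      rw [hp1, hb]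
      have e3 : ((-Real.sin θ) • x + Real.cos θ • v) ⬝ᵥ (c τ - x) =
          -Real.sin θ * (Real.cos θ - 1) + Real.cos θ * Real.sin θ * (v ⬝ᵥ v) +
            ((-Real.sin θ) • x + Real.cos θ • v) ⬝ᵥ e1 := by
        rw [ha, dotProduct_add ((-Real.sin θ) • x + Real.cos θ • v)]
        congr 1
        simp only [dotProduct_add, add_dotProduct, dotProduct_smul, smul_dotProduct, hvx, hxv, hxx,
          smul_eq_mul]
        ring
      have e4 : ((-Real.sin θ) • x + Real.cos θ • v + e2 + f1) ⬝ᵥ (c τ - x) =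
          ((-Real.sin θ) • x + Real.cos θ • v) ⬝ᵥ (c τ - x) + (f1 + e2) ⬝ᵥ (c τ - x) := by
        rw [add_dotProduct _ f1, add_dotProduct _ e2, add_dotProduct f1 e2]
        ring
      rw [e4, e3]
      ring
    rw [e]
    have n2 : ‖f1 + e2‖ ≤ C * r + C₂ * r := (norm_add_le _ _).trans (add_le_add n1 h2)
    have n3 : ‖(-Real.sin θ) • x + Real.cos θ • v‖ ≤ 3 := by
      refine (norm_add_le _ _).trans ?_
      rw [norm_smul, norm_smul, Real.norm_eq_abs, Real.norm_eq_abs, abs_neg]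
      have j1 : |Real.sin θ| * ‖x‖ ≤ 1 * 1 := mul_le_mul hs1 hx1 (norm_nonneg _) (by norm_num)
      have j2 : |Real.cos θ| * ‖v‖ ≤ 1 * 2 := mul_le_mul hc1 hv0 (norm_nonneg _) (by norm_num)
      linarith
    have i1 : |Real.cos θ * Real.sin θ * (v ⬝ᵥ v - 1)| ≤ 1 * 1 * (2 * (D * C) * r) := by
      rw [abs_mul, abs_mul]
      exact mul_le_mul (mul_le_mul hc1 hs1 (abs_nonneg _) (by norm_num)) hvv (abs_nonneg _)
        (by norm_num)
    have i2 := dle n2 ha2 (by positivity)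
    have i3 := dle n3 h1 (by norm_num)
    have i4 := abs_add_le ((f1 + e2) ⬝ᵥ (c τ - x)) (Real.cos θ * Real.sin θ * (v ⬝ᵥ v - 1) +
          ((-Real.sin θ) • x + Real.cos θ • v) ⬝ᵥ e1)
    have i5 := abs_add_le (Real.cos θ * Real.sin θ * (v ⬝ᵥ v - 1))
          (((-Real.sin θ) • x + Real.cos θ • v) ⬝ᵥ e1)
    linarith
  · have e : mom (G t) c 0 ⬝ᵥ deriv c τ - Real.cos θ =
        Real.cos θ * (v ⬝ᵥ v - 1) + v ⬝ᵥ e2 + f0 ⬝ᵥ deriv c τ := by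
      rw [hp0, add_dotProduct]
      have : v ⬝ᵥ deriv c τ = Real.cos θ * (v ⬝ᵥ v) + v ⬝ᵥ e2 := by
        rw [hb, dotProduct_add, dotProduct_add, dotProduct_smul, dotProduct_smul, hvx,
          smul_eq_mul, smul_eq_mul]
        ring
      rw [this]
      ring
    rw [e]
    have i1 : |Real.cos θ * (v ⬝ᵥ v - 1)| ≤ 1 * (2 * (D * C) * r) := by
      rw [abs_mul]
      exact mul_le_mul hc1 hvv (abs_nonneg _) (by norm_num)
    have i2 := dle hv0 h2 (by norm_num)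
    have i3 := dle n0 (hv2 τ) hCr
    have i4 := abs_add_three (Real.cos θ * (v ⬝ᵥ v - 1)) (v ⬝ᵥ e2) (f0 ⬝ᵥ deriv c τ)
    linarith
  · have e : mom (G t) c τ - mom (G t) c 0 =
        ((-Real.sin θ) • x + (Real.cos θ - 1) • v) + (e2 + (f1 - f0)) := by
      rw [hp0, hp1, hb, sub_smul, one_smul]
      abel
    rw [e]
    refine (norm_add_le _ _).trans ?_
    have i1 : ‖(-Real.sin θ) • x + (Real.cos θ - 1) • v‖ ≤ |θ| * 1 + |θ| / 4 * 2 := by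
      refine (norm_add_le _ _).trans ?_
      rw [norm_smul, norm_smul, Real.norm_eq_abs, Real.norm_eq_abs, abs_neg]
      exact add_le_add (mul_le_mul T1 hx1 (norm_nonneg _) (abs_nonneg _))
        (mul_le_mul T2 hv0 (norm_nonneg _) (by positivity))
    have i2 : ‖e2 + (f1 - f0)‖ ≤ C₂ * r + (C * r + C * r) :=
      (norm_add_le _ _).trans (add_le_add h2 ((norm_sub_le _ _).trans (add_le_add n1 n0)))
    have := abs_nonneg θ
    linarith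

private theorem cont_aux {f : V d × V d → ℝ → V d} {K : Set (V d × V d)} {C : ℝ}
    (h1 : ∀ z ∈ K, Continuous (f z))
    (h2 : ∀ z ∈ K, ∀ z' ∈ K, ∀ s ∈ Set.Icc (0 : ℝ) 7,
      ‖f z' s - f z s‖ ≤ C * (‖z'.1 - z.1‖ + ‖z'.2 - z.2‖)) :
    ContinuousOn (fun p : (V d × V d) × ℝ => f p.1 p.2) (K ×ˢ Set.Icc (0 : ℝ) 7) := by
  rintro ⟨z0, s0⟩ ⟨hz0, hs0⟩
  rw [ContinuousWithinAt, tendsto_iff_norm_sub_tendsto_zero]
  have hc : Continuous fun p : (V d × V d) × ℝ =>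
      C * (‖p.1.1 - z0.1‖ + ‖p.1.2 - z0.2‖) + ‖f z0 p.2 - f z0 s0‖ := by
    have := (h1 z0 hz0).comp (continuous_snd (X := V d × V d) (Y := ℝ))
    have h3 : Continuous fun p : (V d × V d) × ℝ => f z0 p.2 := this
    fun_prop
  have hlim : Filter.Tendsto (fun p : (V d × V d) × ℝ =>
      C * (‖p.1.1 - z0.1‖ + ‖p.1.2 - z0.2‖) + ‖f z0 p.2 - f z0 s0‖)
      (𝓝[K ×ˢ Set.Icc (0 : ℝ) 7] (z0, s0)) (𝓝 0) := by
    have := hc.continuousWithinAt (s := K ×ˢ Set.Icc (0 : ℝ) 7) (x := (z0, s0))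
    rw [ContinuousWithinAt] at this
    simpa using this
  refine squeeze_zero' (Filter.Eventually.of_forall fun _ => norm_nonneg _) ?_ hlim
  filter_upwards [self_mem_nhdsWithin] with p hp
  have e : f p.1 p.2 - f z0 s0 = (f p.1 p.2 - f z0 p.2) + (f z0 p.2 - f z0 s0) := by abel
  rw [e]
  exact (norm_add_le _ _).trans (add_le_add (h2 z0 hz0 p.1 hp.1 p.2 hp.2) le_rfl)

private theorem cont_mul {G : Ten d} (hG : ContinuousOn G {0}ᶜ) {Z : Type*} [TopologicalSpace Z]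
    {S : Set Z} {P Q : Z → V d} (hP : ContinuousOn P S) (hQ : ContinuousOn Q S)
    (h0 : ∀ z ∈ S, P z ≠ 0) : ContinuousOn (fun z => mul (G (P z)) (Q z)) S := by
  have h1 : ContinuousOn (fun z => G (P z)) S := hG.comp hP fun z hz => h0 z hz
  rw [continuousOn_pi]
  intro i
  simp only [mul]
  refine continuousOn_finsetSum _ fun j _ => ?_
  exact ((continuousOn_pi.1 ((continuousOn_pi.1 h1) i)) j).mul ((continuousOn_pi.1 hQ) j)

private theorem cont_dot {Z : Type*} [TopologicalSpace Z] {S : Set Z} {P Q : Z → V d}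
    (hP : ContinuousOn P S) (hQ : ContinuousOn Q S) : ContinuousOn (fun z => P z ⬝ᵥ Q z) S := by
  simp only [dotProduct]
  exact continuousOn_finsetSum _ fun j _ => ((continuousOn_pi.1 hP) j).mul ((continuousOn_pi.1 hQ) j)

theorem maxA (hd : 1 ≤ d) (ε : ℝ) (G : ℝ → Ten d) (N : Nice ε G) :
    ∃ C > 0, ∃ t₁ > 0, t₁ < ε ∧ ∀ t, |t| ≤ t₁ → ∃ (c : ℝ → V d) (τ : ℝ), Sol (G t) c ∧
      |τ - 2 * Real.pi| ≤ 1 / 2 ∧ (τ - 2 * Real.pi) ^ 2 ≤ C * |t| ∧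
      ∀ c₂ τ₂, Sol (G t) c₂ → |τ₂ - 2 * Real.pi| ≤ 1 / 2 → Wf (G t) c₂ τ₂ ≤ Wf (G t) c τ := by
  obtain ⟨C, t₁, ht₁, H⟩ := est ε G N
  obtain ⟨C₂, hC₂, t₂, ht₂, ht21, hcls⟩ := cls G C t₁ H
  have hC := H.Cpos
  set D : ℝ := (d + 1 : ℝ) with hD
  have hD1 : 1 ≤ D := by
    have : (0 : ℝ) ≤ d := Nat.cast_nonneg d
    linarith
  set M : ℝ := 5 * (D * (C + C₂)) with hM
  have hM0 : 0 < M := by positivity
  refine ⟨12 * M + 2 * M ^ 2, by positivity, min t₂ 1, lt_min ht₂ one_pos,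
    lt_of_le_of_lt ((min_le_left _ _).trans ht21) ht₁, ?_⟩
  intro t ht
  have htt2 : |t| ≤ t₂ := ht.trans (min_le_left _ _)
  have htt1 : |t| ≤ t₁ := htt2.trans ht21
  have hr1 : |t| ≤ 1 := ht.trans (min_le_right _ _)
  have hr0 : 0 ≤ |t| := abs_nonneg t
  have hmet : Met (G t) := N.met t (abs_lt.1 (lt_of_le_of_lt htt1 ht₁))
  have hGc : ContinuousOn (G t) {0}ᶜ := hmet.smooth.continuousOn
  obtain ⟨hcl1, hcl2⟩ := hcls t htt2
  have hpi := Real.pi_gt_three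
  have hpi2 := Real.pi_lt_d2
  -- the set of the initial data
  set K : Set (V d × V d) :=
    {z | z.1 ⬝ᵥ z.1 = 1 ∧ z.1 ⬝ᵥ z.2 = 0 ∧ bil (G t z.1) z.2 z.2 = 1} with hK
  have hdc : Continuous fun z : V d × V d => z.1 ⬝ᵥ z.1 := by
    simp only [dotProduct]
    fun_prop
  have hdc2 : Continuous fun z : V d × V d => z.1 ⬝ᵥ z.2 := by
    simp only [dotProduct]
    fun_prop
  have hKc : IsCompact K := by
    refine Metric.isCompact_of_isClosed_isBounded ?_ ?_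
    · have hS : IsClosed {z : V d × V d | z.1 ⬝ᵥ z.1 = 1 ∧ z.1 ⬝ᵥ z.2 = 0} :=
        (isClosed_singleton.preimage hdc).inter (isClosed_singleton.preimage hdc2)
      have hf : ContinuousOn (fun z : V d × V d => bil (G t z.1) z.2 z.2)
          {z : V d × V d | z.1 ⬝ᵥ z.1 = 1 ∧ z.1 ⬝ᵥ z.2 = 0} := by
        simp only [bil_eq_dot]
        exact cont_dot continuous_snd.continuousOn (cont_mul hGc continuous_fst.continuousOn
          continuous_snd.continuousOn fun z hz => ne_zero_of_dot hz.1)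
      have := hf.preimage_isClosed_of_isClosed hS (isClosed_singleton (x := (1 : ℝ)))
      have e : K = {z : V d × V d | z.1 ⬝ᵥ z.1 = 1 ∧ z.1 ⬝ᵥ z.2 = 0} ∩
          (fun z : V d × V d => bil (G t z.1) z.2 z.2) ⁻¹' {1} := by
        ext z
        constructor
        · rintro ⟨h1, h2, h3⟩
          exact ⟨⟨h1, h2⟩, h3⟩
        · rintro ⟨⟨h1, h2⟩, h3⟩
          exact ⟨h1, h2, h3⟩
      rw [e]
      exact this
    · refine (Metric.isBounded_closedBall (x := (0 : V d × V d)) (r := 2)).subset ?_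
      rintro ⟨x, v⟩ ⟨h1, h2, h3⟩
      rw [mem_closedBall_zero_iff, Prod.norm_def]
      refine max_le ?_ (H.vb t htt1 x v h1 h3)
      have := norm_sq_le_dot x
      simp only at h1
      rw [h1] at this
      have : ‖x‖ ≤ 1 := by nlinarith [norm_nonneg x]
      exact this.trans (by norm_num)
  have hKn : K.Nonempty := by
    set i1 : Fin (d + 1) := ⟨1, by omega⟩ with hi1
    have h01 : (0 : Fin (d + 1)) ≠ i1 := by
      intro h
      have := congrArg Fin.val h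
      simp [hi1] at this
    have hx : (ee 0 : V d) ⬝ᵥ ee 0 = 1 := by
      rw [dot_ee]
      simp [ee]
    have hxw : (ee 0 : V d) ⬝ᵥ ee i1 = 0 := by
      rw [dot_ee]
      simp [ee, h01.symm]
    have hw : (ee i1 : V d) ≠ 0 := by
      intro h
      have := congrFun h i1
      simp [ee] at this
    have hm := hmet.pos _ (ne_zero_of_dot hx) _ hw
    set m : ℝ := bil (G t (ee 0)) (ee i1) (ee i1) with hm'
    refine ⟨(ee 0, (√m)⁻¹ • ee i1), hx, ?_, ?_⟩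
    · show (ee 0 : V d) ⬝ᵥ ((√m)⁻¹ • ee i1) = 0
      rw [dotProduct_smul, hxw, smul_zero]
    · show bil (G t (ee 0)) ((√m)⁻¹ • ee i1) ((√m)⁻¹ • ee i1) = 1
      rw [bil_smul_left, bil_smul_right, ← hm', ← mul_assoc, ← mul_inv, Real.mul_self_sqrt hm.le,
        inv_mul_cancel₀ hm.ne']
  have hex : ∀ z : V d × V d, ∃ c : ℝ → V d, z ∈ K → Sol (G t) c ∧ c 0 = z.1 ∧ deriv c 0 = z.2 := by
    intro z
    by_cases hz : z ∈ K
    · obtain ⟨c, h1, h2, h3⟩ := geo_exists (G t) hmet z.1 z.2 hz.1 hz.2.1 hz.2.2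
      exact ⟨c, fun _ => ⟨h1, h2, h3⟩⟩
    · exact ⟨0, fun h => absurd h hz⟩
  choose cc hcc using hex
  -- continuity
  have hP : ContinuousOn (fun p : (V d × V d) × ℝ => cc p.1 p.2) (K ×ˢ Set.Icc (0 : ℝ) 7) := by
    refine cont_aux (C := C₂) (fun z hz => (hcc z hz).1.smooth.continuous) ?_
    intro z hz z' hz' s hs
    obtain ⟨s1, a1, b1⟩ := hcc z hz
    obtain ⟨s2, a2, b2⟩ := hcc z' hz'
    have := (hcl2 _ _ s1 s2 s hs).2.2.1
    rwa [a1, b1, a2, b2] at this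
  have hQ : ContinuousOn (fun p : (V d × V d) × ℝ => deriv (cc p.1) p.2)
      (K ×ˢ Set.Icc (0 : ℝ) 7) := by
    refine cont_aux (f := fun z => deriv (cc z)) (C := C₂) (fun z hz => ?_) ?_
    · exact (hcc z hz).1.smooth.continuous_deriv (by simp)
    intro z hz z' hz' s hs
    obtain ⟨s1, a1, b1⟩ := hcc z hz
    obtain ⟨s2, a2, b2⟩ := hcc z' hz'
    have := (hcl2 _ _ s1 s2 s hs).2.2.2
    rwa [a1, b1, a2, b2] at this
  have hzero : ContinuousOn (fun p : (V d × V d) × ℝ => ((p.1, (0 : ℝ)) : (V d × V d) × ℝ))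
      (K ×ˢ Set.Icc (0 : ℝ) 7) := by fun_prop
  have hmaps : Set.MapsTo (fun p : (V d × V d) × ℝ => ((p.1, (0 : ℝ)) : (V d × V d) × ℝ))
      (K ×ˢ Set.Icc (0 : ℝ) 7) (K ×ˢ Set.Icc (0 : ℝ) 7) := fun p hp =>
    ⟨hp.1, by norm_num, by norm_num⟩
  have hP0 : ContinuousOn (fun p : (V d × V d) × ℝ => cc p.1 0) (K ×ˢ Set.Icc (0 : ℝ) 7) :=
    hP.comp hzero hmaps
  have hQ0 : ContinuousOn (fun p : (V d × V d) × ℝ => deriv (cc p.1) 0)
      (K ×ˢ Set.Icc (0 : ℝ) 7) := hQ.comp hzero hmaps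
  have hne : ∀ p ∈ K ×ˢ Set.Icc (0 : ℝ) 7, ∀ s, cc p.1 s ≠ 0 := fun p hp s =>
    ne_zero_of_dot ((hcc p.1 hp.1).1.sph s)
  have hW : ContinuousOn (fun p : (V d × V d) × ℝ => Wf (G t) (cc p.1) p.2)
      (K ×ˢ Set.Icc (0 : ℝ) 7) := by
    have m1 := cont_mul hGc hP hQ fun p hp => hne p hp p.2
    have m0 := cont_mul hGc hP0 hQ0 fun p hp => hne p hp 0
    have d1 := cont_dot m1 (hP.sub hP0)
    have d0 := cont_dot m0 (hP.sub hP0)
    exact (continuous_snd.continuousOn.sub d1).sub (continuousOn_const.mul (d0.pow 2))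
  set J : Set ℝ := Set.Icc (2 * Real.pi - 1 / 2) (2 * Real.pi + 1 / 2) with hJ
  have hJs : J ⊆ Set.Icc (0 : ℝ) 7 := fun s hs => ⟨by linarith [hs.1], by linarith [hs.2]⟩
  have hJm : ∀ {s : ℝ}, |s - 2 * Real.pi| ≤ 1 / 2 ↔ s ∈ J := by
    intro s
    rw [abs_le, hJ, Set.mem_Icc]
    constructor
    · rintro ⟨h1, h2⟩
      exact ⟨by linarith, by linarith⟩
    · rintro ⟨h1, h2⟩
      exact ⟨by linarith, by linarith⟩
  obtain ⟨⟨z, τ⟩, ⟨hz, hτ⟩, hmax⟩ := (hKc.prod (isCompact_Icc (a := 2 * Real.pi - 1 / 2)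
    (b := 2 * Real.pi + 1 / 2))).exists_isMaxOn
    (hKn.prod (Set.nonempty_Icc.2 (by linarith))) (hW.mono (Set.prod_mono_right hJs))
  obtain ⟨hs, ha0, hb0⟩ := hcc z hz
  have hall : ∀ c₂ τ₂, Sol (G t) c₂ → |τ₂ - 2 * Real.pi| ≤ 1 / 2 →
      Wf (G t) c₂ τ₂ ≤ Wf (G t) (cc z) τ := by
    intro c₂ τ₂ h2 hτ₂
    have hτ₂' := hJm.1 hτ₂
    have hz' : ((c₂ 0, deriv c₂ 0) : V d × V d) ∈ K := ⟨h2.sph 0, sol_perp h2 0, h2.spd 0⟩
    obtain ⟨s1, a1, b1⟩ := hcc _ hz'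
    have h3 := hmax (show (((c₂ 0, deriv c₂ 0), τ₂) : (V d × V d) × ℝ) ∈ _ from ⟨hz', hτ₂'⟩)
    simp only at a1 b1
    have key : ∀ s ∈ Set.Icc (0 : ℝ) 7, c₂ s = cc (c₂ 0, deriv c₂ 0) s ∧
        deriv c₂ s = deriv (cc (c₂ 0, deriv c₂ 0)) s := by
      intro s hs7
      obtain ⟨-, -, h5, h6⟩ := hcl2 _ _ s1 h2 s hs7
      rw [a1, b1, sub_self, sub_self, norm_zero, add_zero, MulZeroClass.mul_zero] at h5 h6
      exact ⟨sub_eq_zero.1 (norm_le_zero_iff.1 h5), sub_eq_zero.1 (norm_le_zero_iff.1 h6)⟩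
    obtain ⟨k1, k2⟩ := key τ₂ (hJs hτ₂')
    have h4 : Wf (G t) c₂ τ₂ = Wf (G t) (cc (c₂ 0, deriv c₂ 0)) τ₂ := by
      simp only [Wf, mom, a1, b1]
      rw [← k1, ← k2]
    rw [h4]
    exact h3
  refine ⟨cc z, τ, hs, hJm.2 hτ, ?_, hall⟩
  -- the bound
  obtain ⟨-, Q2, Q3, -, -⟩ := quant H hC₂ htt1 hs (hcl1 _ hs) (hJm.2 hτ)
  have h2π : |2 * Real.pi - 2 * Real.pi| ≤ 1 / 2 := by
    rw [sub_self, abs_zero]
    norm_num
  obtain ⟨-, R2, R3, -, -⟩ := quant H hC₂ htt1 hs (hcl1 _ hs) h2π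
  have hlow := hall (cc z) (2 * Real.pi) hs h2π
  obtain ⟨-, -, T3, T4, -⟩ := trig (hJm.2 hτ)
  rw [sub_self, Real.sin_zero, sub_zero] at R2 R3
  unfold Wf at hlow
  set A := mom (G t) (cc z) 0 ⬝ᵥ (cc z τ - cc z 0) with hA
  set B := mom (G t) (cc z) τ ⬝ᵥ (cc z τ - cc z 0) with hB
  set A' := mom (G t) (cc z) 0 ⬝ᵥ (cc z (2 * Real.pi) - cc z 0) with hA'
  set B' := mom (G t) (cc z) (2 * Real.pi) ⬝ᵥ (cc z (2 * Real.pi) - cc z 0) with hB'
  set θ : ℝ := τ - 2 * Real.pi with hθ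
  have hMr : 0 ≤ M * |t| := by positivity
  have hsin1 : |Real.sin θ| ≤ 1 := Real.abs_sin_le_one θ
  have e1 : A' ^ 2 ≤ M ^ 2 * |t| := by
    have h1 : A' ^ 2 ≤ (M * |t|) ^ 2 := by
      rw [← sq_abs A']
      exact pow_le_pow_left₀ (abs_nonneg _) R2 2
    have h2 : (M * |t|) ^ 2 ≤ M ^ 2 * |t| := by
      have h3 : |t| * |t| ≤ 1 * |t| := mul_le_mul_of_nonneg_right hr1 hr0
      have h4 : (M * |t|) ^ 2 = M ^ 2 * (|t| * |t|) := by ring
      rw [h4]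
      exact mul_le_mul_of_nonneg_left (by linarith) (sq_nonneg M)
    exact h1.trans h2
  have e2 : Real.sin θ ^ 2 - 2 * (M * |t|) ≤ A ^ 2 := by
    have h1 : A = Real.sin θ + (A - Real.sin θ) := by ring
    have h2 : |Real.sin θ * (A - Real.sin θ)| ≤ 1 * (M * |t|) := by
      rw [abs_mul]
      exact mul_le_mul hsin1 Q2 (abs_nonneg _) (by norm_num)
    have h3 := (abs_le.1 h2).1
    have h4 := sq_nonneg (A - Real.sin θ)
    have h5 : A ^ 2 = Real.sin θ ^ 2 + 2 * (Real.sin θ * (A - Real.sin θ)) +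
      (A - Real.sin θ) ^ 2 := by ring
    linarith
  have e3 : 225 / 256 * θ ^ 2 ≤ Real.sin θ ^ 2 := by
    have h1 := pow_le_pow_left₀ (by positivity) T4 2
    rw [mul_pow, sq_abs, sq_abs] at h1
    linarith
  have b1 := (abs_le.1 Q3).1
  have b2 := (abs_le.1 R3).2
  have b3 := (abs_le.1 T3).2
  have hfin : (12 * M + 2 * M ^ 2) * |t| = 12 * (M * |t|) + 2 * (M ^ 2 * |t|) := by ring
  rw [hfin]
  have hτθ : τ = 2 * Real.pi + θ := by rw [hθ]; ring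
  rw [hτθ] at hlow
  have h0 := sq_nonneg θ
  linarith

end Pool.Agent.Work.MP_659252_gt.QR
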