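import Pool.Agent.Work.MP_659252_gt.QR.A.Csv
import Pool.Agent.Work.MP_659252_gt.QR.A.Est

/-!
# At the maximum the time is `2π + O(t)`.  Size: M.

Notation: `a = c τ - c 0`, `θ = τ - 2π`, `p s = mom (G t) c s`.  Take `est`, `cls`; `t₁` so small that `C₀ t₁ ≤ 1/8` (then `|θ| < 1/2`: `τ` is an
interior point of the interval).
PROOF.  `s ↦ Wf c s` has at the interior maximum `τ` derivative `0`:
`0 = 1 - p'(τ) ⬝ a - p τ ⬝ c' τ - (p 0 ⬝ a)(p 0 ⬝ c' τ)`, `p τ ⬝ c' τ = bil (G c) c' c' = 1`, and (see the proof of `fv`; in fact apply `fv` with the constant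
curve or the computation there) `p' ⬝ w = (1/2) bil (dT G c w) c' c' - c ⬝ w`.  As `(c 0)⬝(c 0) = 1 = (c τ)⬝(c τ)`: `c τ ⬝ a = (a ⬝ a)/2`.  So
`(p 0 ⬝ a)(p 0 ⬝ c' τ) = (a ⬝ a)/2 - (1/2) bil (dT G (c τ) a) c' c'`, whose absolute value is `≤ (a ⬝ a)/2 + 2 C |t| ‖a‖` (`db`, `‖c'‖ ≤ 2`).
`p 0 ⬝ c' τ = cos θ + O(t) ≥ 1/2` (`cls`, `mb`: `p 0 = v + O(t)`, `c' τ = -sin θ x + cos θ v + O(t)`, `v ⬝ v = 1 + O(t)`).  Hence
`|p 0 ⬝ a| ≤ a ⬝ a + 4 C |t| ‖a‖ ≤ ((d+1) ‖a‖ + 4 C |t|) ‖a‖`.                                                        (1)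
`a = (cos θ - 1) x + sin θ v + O(t)`, so `‖a‖ ≤ 4 |θ| + C |t|` and `p 0 ⬝ a = sin θ + O(t)`.  With (1): `|sin θ| ≤ C (θ² + |t|)`, and `|sin θ| ≥ |θ|/2`,
`|θ| ≤ √(C₀ |t|)` small: `C θ² ≤ |θ|/4` for small `t₁`.  So `|θ| ≤ C |t|`, `‖a‖ ≤ C |t|`, and (1) gives `|p 0 ⬝ a| ≤ C |t| ‖a‖`.
Last: `p τ - p 0 = (c' τ - c' 0) + O(t)` and `c' τ - c' 0 = -sin θ x + (cos θ - 1) v + O(t) = O(t)`.
-/

namespace Pool.Agent.Work.MP_659252_gt.QR

open scoped ContDiff Topology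
open Pool.Agent.Work.MP_659252_gt.Z (V Ten val Tan InT IsZoll IsMetric IsGeodesic)

variable {d : ℕ}

private theorem hd_dot {a b : ℝ → V d} {a' b' : V d} {s : ℝ} (ha : HasDerivAt a a' s)
    (hb : HasDerivAt b b' s) : HasDerivAt (fun u => a u ⬝ᵥ b u) (a' ⬝ᵥ b s + a s ⬝ᵥ b') s := by
  have h := HasDerivAt.fun_sum (u := Finset.univ) fun i _ =>
    ((hasDerivAt_pi.1 ha i).mul (hasDerivAt_pi.1 hb i))
  refine h.congr_deriv ?_
  simp only [dotProduct, ← Finset.sum_add_distrib]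

private theorem sol_deriv {G : Ten d} {c : ℝ → V d} (hc : Sol G c) (s : ℝ) :
    HasDerivAt c (deriv c s) s :=
  ((hc.smooth.differentiable (by simp)) s).hasDerivAt

private theorem sol_perp {G : Ten d} {c : ℝ → V d} (hc : Sol G c) (s : ℝ) :
    c s ⬝ᵥ deriv c s = 0 := by
  have h1 := hd_dot (sol_deriv hc s) (sol_deriv hc s)
  have h2 : (fun u => c u ⬝ᵥ c u) = fun _ => (1 : ℝ) := by
    funext u
    exact hc.sph u
  rw [h2] at h1
  have h3 := h1.unique (hasDerivAt_const s (1 : ℝ))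
  rw [dotProduct_comm (deriv c s) (c s)] at h3
  linarith

private theorem sol_norm {G : Ten d} {c : ℝ → V d} (hc : Sol G c) (s : ℝ) : ‖c s‖ ≤ 1 := by
  have h1 := norm_sq_le_dot (c s)
  rw [hc.sph s] at h1
  nlinarith [norm_nonneg (c s)]

private theorem trig {θ : ℝ} (h : |θ| ≤ 1 / 2) : |Real.sin θ| ≤ |θ| ∧ |Real.cos θ - 1| ≤ |θ| / 4 ∧
    |θ - Real.sin θ| ≤ θ ^ 2 / 8 ∧ 15 / 16 * |θ| ≤ |Real.sin θ| ∧ 7 / 8 ≤ Real.cos θ := by
  have h0 := abs_nonneg θ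
  have h1 := Real.sin_bound (x := θ) (by linarith)
  have hq : θ ^ 2 = |θ| ^ 2 := (sq_abs θ).symm
  have e1 : |θ - Real.sin θ| ≤ |θ| ^ 3 / 4 := by
    have h2 : |θ - Real.sin θ| ≤ |Real.sin θ - (θ - θ ^ 3 / 6)| + |θ ^ 3 / 6| := by
      have : θ - Real.sin θ = -(Real.sin θ - (θ - θ ^ 3 / 6)) + θ ^ 3 / 6 := by ring
      rw [this]
      refine (abs_add_le _ _).trans ?_
      rw [abs_neg]
    have h3 : |θ ^ 3 / 6| = |θ| ^ 3 / 6 := by
      rw [abs_div, abs_pow]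
      norm_num
    have h4 : |θ| ^ 5 ≤ |θ| ^ 3 / 4 := by
      have h5 : 0 ≤ |θ| ^ 3 := by positivity
      have h6 : |θ| ^ 2 ≤ 1 / 4 := by nlinarith
      nlinarith
    rw [h3] at h2
    have : 0 ≤ |θ| ^ 3 := by positivity
    linarith
  have e3 : |θ - Real.sin θ| ≤ θ ^ 2 / 8 := by
    refine e1.trans ?_
    rw [hq]
    nlinarith [sq_nonneg |θ|]
  have e4 : |θ - Real.sin θ| ≤ |θ| / 16 := by
    refine e1.trans ?_
    have : |θ| ^ 2 ≤ 1 / 4 := by nlinarith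
    nlinarith
  have hc1 := Real.one_sub_sq_div_two_le_cos (x := θ)
  have hc2 := Real.cos_le_one θ
  refine ⟨Real.abs_sin_le_abs, ?_, e3, ?_, ?_⟩
  · rw [abs_le]
    constructor
    · nlinarith
    · linarith
  · have h5 : |θ| ≤ |θ - Real.sin θ| + |Real.sin θ| := by
      have := abs_add_le (θ - Real.sin θ) (Real.sin θ)
      simpa using this
    linarith
  · nlinarith

/-- the estimates at the time `τ` near `2π` -/
private theorem quant {G : ℝ → Ten d} {C t₁ C₂ t : ℝ} (H : Est G C t₁) (hC2 : 0 < C₂)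
    (ht : |t| ≤ t₁) {c : ℝ → V d} (hc : Sol (G t) c)
    (h7 : ∀ s ∈ Set.Icc (0 : ℝ) 7, ‖c s - gc (c 0) (deriv c 0) s‖ ≤ C₂ * |t| ∧
        ‖deriv c s - gd (c 0) (deriv c 0) s‖ ≤ C₂ * |t|) {τ : ℝ} (hτ : |τ - 2 * Real.pi| ≤ 1 / 2) :
    ‖c τ - c 0‖ ≤ 3 * |τ - 2 * Real.pi| + C₂ * |t| ∧
    |mom (G t) c 0 ⬝ᵥ (c τ - c 0) - Real.sin (τ - 2 * Real.pi)| ≤ 5 * ((d + 1) * (C + C₂)) * |t| ∧
    |mom (G t) c τ ⬝ᵥ (c τ - c 0) - Real.sin (τ - 2 * Real.pi)| ≤ 5 * ((d + 1) * (C + C₂)) * |t| ∧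
    |mom (G t) c 0 ⬝ᵥ deriv c τ - Real.cos (τ - 2 * Real.pi)| ≤ 5 * ((d + 1) * (C + C₂)) * |t| ∧
    ‖mom (G t) c τ - mom (G t) c 0‖ ≤ 2 * |τ - 2 * Real.pi| + (2 * C + C₂) * |t| := by
  set θ : ℝ := τ - 2 * Real.pi with hθ
  set r : ℝ := |t| with hr
  have hr0 : 0 ≤ r := abs_nonneg t
  set D : ℝ := (d + 1 : ℝ) with hD
  have hD1 : 1 ≤ D := by
    have : (0 : ℝ) ≤ d := Nat.cast_nonneg d
    linarith
  have hD0 : 0 ≤ D := by linarith
  have hC := H.Cpos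
  obtain ⟨T1, T2, -, -, -⟩ := trig hτ
  have hpi := Real.pi_gt_three
  have hpi2 := Real.pi_lt_d2
  have hτ' := abs_le.1 hτ
  have hτ7 : τ ∈ Set.Icc (0 : ℝ) 7 := ⟨by linarith, by linarith⟩
  have hcos : Real.cos τ = Real.cos θ := by
    rw [← Real.cos_add_two_pi θ]
    congr 1
    rw [hθ]
    ring
  have hsin : Real.sin τ = Real.sin θ := by
    rw [← Real.sin_add_two_pi θ]
    congr 1
    rw [hθ]
    ring
  set x := c 0 with hx
  set v := deriv c 0 with hv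
  have hx1 : ‖x‖ ≤ 1 := sol_norm hc 0
  have hv2 : ∀ s, ‖deriv c s‖ ≤ 2 := fun s => H.vb t ht _ _ (hc.sph s) (hc.spd s)
  have hv0 : ‖v‖ ≤ 2 := hv2 0
  have hK : ∀ s, InK (c s) (deriv c s) := fun s =>
    ⟨by rw [hc.sph]; norm_num, by rw [hc.sph]; norm_num, (hv2 s).trans (by norm_num)⟩
  have hf : ∀ s, ‖mom (G t) c s - deriv c s‖ ≤ C * r := fun s => H.mb t ht _ _ (hK s)
  have hxx : x ⬝ᵥ x = 1 := hc.sph 0
  have hxv : x ⬝ᵥ v = 0 := sol_perp hc 0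
  have hvx : v ⬝ᵥ x = 0 := by rw [dotProduct_comm]; exact hxv
  have hvv : |v ⬝ᵥ v - 1| ≤ 2 * (D * C) * r := by
    have h1 := hc.spd 0
    rw [bil_eq_dot] at h1
    have h2 : v ⬝ᵥ v - 1 = -(v ⬝ᵥ (mom (G t) c 0 - v)) := by
      rw [dotProduct_sub, ← h1]
      simp only [mom]
      ring
    rw [h2, abs_neg]
    refine (abs_dot_le _ _).trans ?_
    have h3 := hf 0
    have : ‖v‖ * ‖mom (G t) c 0 - v‖ ≤ 2 * (C * r) :=
      mul_le_mul hv0 h3 (norm_nonneg _) (by norm_num)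
    calc D * (‖v‖ * ‖mom (G t) c 0 - v‖) ≤ D * (2 * (C * r)) := mul_le_mul_of_nonneg_left this hD0
      _ = 2 * (D * C) * r := by ring
  obtain ⟨h1, h2⟩ := h7 τ hτ7
  set e1 := c τ - gc x v τ with he1
  set e2 := deriv c τ - gd x v τ with he2
  set f0 := mom (G t) c 0 - v with hf0
  set f1 := mom (G t) c τ - deriv c τ with hf1
  have n0 : ‖f0‖ ≤ C * r := hf 0
  have n1 : ‖f1‖ ≤ C * r := hf τ
  have ha : c τ - x = (Real.cos θ - 1) • x + Real.sin θ • v + e1 := by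
    rw [he1, gc, hcos, hsin, sub_smul, one_smul]
    abel
  have hb : deriv c τ = (-Real.sin θ) • x + Real.cos θ • v + e2 := by
    rw [he2, gd, hcos, hsin, neg_smul]
    abel
  have hp0 : mom (G t) c 0 = v + f0 := by
    rw [hf0]
    abel
  have hp1 : mom (G t) c τ = deriv c τ + f1 := by
    rw [hf1]
    abel
  have ha2 : ‖c τ - x‖ ≤ 2 := (norm_sub_le _ _).trans (by linarith [sol_norm hc τ])
  have hs1 : |Real.sin θ| ≤ 1 := Real.abs_sin_le_one θ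
  have hc1 : |Real.cos θ| ≤ 1 := Real.abs_cos_le_one θ
  have dle : ∀ {u w : V d} {A B : ℝ}, ‖u‖ ≤ A → ‖w‖ ≤ B → 0 ≤ A → |u ⬝ᵥ w| ≤ D * (A * B) := by
    intro u w A B hu hw hA
    exact (abs_dot_le u w).trans (mul_le_mul_of_nonneg_left
      (mul_le_mul hu hw (norm_nonneg _) hA) hD0)
  have hCr : 0 ≤ C * r := mul_nonneg hC.le hr0
  have hC2r : 0 ≤ C₂ * r := mul_nonneg hC2.le hr0
  have hDC : 0 ≤ D * C * r := mul_nonneg (mul_nonneg hD0 hC.le) hr0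
  have hDC2 : 0 ≤ D * C₂ * r := mul_nonneg (mul_nonneg hD0 hC2.le) hr0
  refine ⟨?_, ?_, ?_, ?_, ?_⟩
  · rw [ha]
    refine (norm_add_le _ _).trans ?_
    have i1 : ‖(Real.cos θ - 1) • x + Real.sin θ • v‖ ≤ |θ| / 4 * 1 + |θ| * 2 := by
      refine (norm_add_le _ _).trans ?_
      rw [norm_smul, norm_smul, Real.norm_eq_abs, Real.norm_eq_abs]
      exact add_le_add (mul_le_mul T2 hx1 (norm_nonneg _) (by positivity))
        (mul_le_mul T1 hv0 (norm_nonneg _) (abs_nonneg _))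
    have := abs_nonneg θ
    linarith
  · have e : mom (G t) c 0 ⬝ᵥ (c τ - x) - Real.sin θ =
        Real.sin θ * (v ⬝ᵥ v - 1) + v ⬝ᵥ e1 + f0 ⬝ᵥ (c τ - x) := by
      rw [hp0, add_dotProduct]
      have : v ⬝ᵥ (c τ - x) = Real.sin θ * (v ⬝ᵥ v) + v ⬝ᵥ e1 := by
        rw [ha, dotProduct_add, dotProduct_add, dotProduct_smul, dotProduct_smul, hvx,
          smul_eq_mul, smul_eq_mul]
        ring
      rw [this]
      ring
    rw [e]
    have i1 : |Real.sin θ * (v ⬝ᵥ v - 1)| ≤ 1 * (2 * (D * C) * r) := by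
      rw [abs_mul]
      exact mul_le_mul hs1 hvv (abs_nonneg _) (by norm_num)
    have i2 := dle hv0 h1 (by norm_num)
    have i3 := dle n0 ha2 hCr
    have i4 := abs_add_three (Real.sin θ * (v ⬝ᵥ v - 1)) (v ⬝ᵥ e1) (f0 ⬝ᵥ (c τ - x))
    linarith
  · have e : mom (G t) c τ ⬝ᵥ (c τ - x) - Real.sin θ =
        (f1 + e2) ⬝ᵥ (c τ - x) + (Real.cos θ * Real.sin θ * (v ⬝ᵥ v - 1) +
          ((-Real.sin θ) • x + Real.cos θ • v) ⬝ᵥ e1) := by
      rw [hp1, hb]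
      have e3 : ((-Real.sin θ) • x + Real.cos θ • v) ⬝ᵥ (c τ - x) =
          -Real.sin θ * (Real.cos θ - 1) + Real.cos θ * Real.sin θ * (v ⬝ᵥ v) +
            ((-Real.sin θ) • x + Real.cos θ • v) ⬝ᵥ e1 := by
        rw [ha, dotProduct_add ((-Real.sin θ) • x + Real.cos θ • v)]
        congr 1
        simp only [dotProduct_add, add_dotProduct, dotProduct_smul, smul_dotProduct, hvx, hxv, hxx,
          smul_eq_mul]
        ring
      have e4 : ((-Real.sin θ) • x + Real.cos θ • v + e2 + f1) ⬝ᵥ (c τ - x) =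
          ((-Real.sin θ) • x + Real.cos θ • v) ⬝ᵥ (c τ - x) + (f1 + e2) ⬝ᵥ (c τ - x) := by
        rw [add_dotProduct _ f1, add_dotProduct _ e2, add_dotProduct f1 e2]
        ring
      rw [e4, e3]
      ring
    rw [e]
    have n2 : ‖f1 + e2‖ ≤ C * r + C₂ * r := (norm_add_le _ _).trans (add_le_add n1 h2)
    have n3 : ‖(-Real.sin θ) • x + Real.cos θ • v‖ ≤ 3 := by
      refine (norm_add_le _ _).trans ?_
      rw [norm_smul, norm_smul, Real.norm_eq_abs, Real.norm_eq_abs, abs_neg]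
      have j1 : |Real.sin θ| * ‖x‖ ≤ 1 * 1 := mul_le_mul hs1 hx1 (norm_nonneg _) (by norm_num)
      have j2 : |Real.cos θ| * ‖v‖ ≤ 1 * 2 := mul_le_mul hc1 hv0 (norm_nonneg _) (by norm_num)
      linarith
    have i1 : |Real.cos θ * Real.sin θ * (v ⬝ᵥ v - 1)| ≤ 1 * 1 * (2 * (D * C) * r) := by
      rw [abs_mul, abs_mul]
      exact mul_le_mul (mul_le_mul hc1 hs1 (abs_nonneg _) (by norm_num)) hvv (abs_nonneg _)
        (by norm_num)
    have i2 := dle n2 ha2 (by positivity)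
    have i3 := dle n3 h1 (by norm_num)
    have i4 := abs_add_le ((f1 + e2) ⬝ᵥ (c τ - x)) (Real.cos θ * Real.sin θ * (v ⬝ᵥ v - 1) +
          ((-Real.sin θ) • x + Real.cos θ • v) ⬝ᵥ e1)
    have i5 := abs_add_le (Real.cos θ * Real.sin θ * (v ⬝ᵥ v - 1))
          (((-Real.sin θ) • x + Real.cos θ • v) ⬝ᵥ e1)
    linarith
  · have e : mom (G t) c 0 ⬝ᵥ deriv c τ - Real.cos θ =
        Real.cos θ * (v ⬝ᵥ v - 1) + v ⬝ᵥ e2 + f0 ⬝ᵥ deriv c τ := by
      rw [hp0, add_dotProduct]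
      have : v ⬝ᵥ deriv c τ = Real.cos θ * (v ⬝ᵥ v) + v ⬝ᵥ e2 := by
        rw [hb, dotProduct_add, dotProduct_add, dotProduct_smul, dotProduct_smul, hvx,
          smul_eq_mul, smul_eq_mul]
        ring
      rw [this]
      ring
    rw [e]
    have i1 : |Real.cos θ * (v ⬝ᵥ v - 1)| ≤ 1 * (2 * (D * C) * r) := by
      rw [abs_mul]
      exact mul_le_mul hc1 hvv (abs_nonneg _) (by norm_num)
    have i2 := dle hv0 h2 (by norm_num)
    have i3 := dle n0 (hv2 τ) hCr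
    have i4 := abs_add_three (Real.cos θ * (v ⬝ᵥ v - 1)) (v ⬝ᵥ e2) (f0 ⬝ᵥ deriv c τ)
    linarith
  · have e : mom (G t) c τ - mom (G t) c 0 =
        ((-Real.sin θ) • x + (Real.cos θ - 1) • v) + (e2 + (f1 - f0)) := by
      rw [hp0, hp1, hb, sub_smul, one_smul]
      abel
    rw [e]
    refine (norm_add_le _ _).trans ?_
    have i1 : ‖(-Real.sin θ) • x + (Real.cos θ - 1) • v‖ ≤ |θ| * 1 + |θ| / 4 * 2 := by
      refine (norm_add_le _ _).trans ?_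
      rw [norm_smul, norm_smul, Real.norm_eq_abs, Real.norm_eq_abs, abs_neg]
      exact add_le_add (mul_le_mul T1 hx1 (norm_nonneg _) (abs_nonneg _))
        (mul_le_mul T2 hv0 (norm_nonneg _) (by positivity))
    have i2 : ‖e2 + (f1 - f0)‖ ≤ C₂ * r + (C * r + C * r) :=
      (norm_add_le _ _).trans (add_le_add h2 ((norm_sub_le _ _).trans (add_le_add n1 n0)))
    have := abs_nonneg θ
    linarith

theorem maxB (ε : ℝ) (G : ℝ → Ten d) (N : Nice ε G) (C₀ : ℝ) :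
    ∃ C > 0, ∃ t₁ > 0, t₁ < ε ∧ ∀ t, |t| ≤ t₁ → ∀ (c : ℝ → V d) (τ : ℝ), Sol (G t) c →
      |τ - 2 * Real.pi| ≤ 1 / 2 → (τ - 2 * Real.pi) ^ 2 ≤ C₀ * |t| →
      (∀ τ₂, |τ₂ - 2 * Real.pi| ≤ 1 / 2 → Wf (G t) c τ₂ ≤ Wf (G t) c τ) →
      |τ - 2 * Real.pi| ≤ C * |t| ∧ ‖c τ - c 0‖ ≤ C * |t| ∧
        |mom (G t) c 0 ⬝ᵥ (c τ - c 0)| ≤ C * |t| * ‖c τ - c 0‖ ∧
        ‖mom (G t) c τ - mom (G t) c 0‖ ≤ C * |t| := by
  obtain ⟨C, t₁, ht₁, H⟩ := est ε G N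
  obtain ⟨C₂, hC₂, t₂, ht₂, ht21, hcls⟩ := cls G C t₁ H
  have hC := H.Cpos
  set D : ℝ := (d + 1 : ℝ) with hD
  have hD1 : 1 ≤ D := by
    have : (0 : ℝ) ≤ d := Nat.cast_nonneg d
    linarith
  have hD0 : 0 ≤ D := by linarith
  set M : ℝ := 5 * (D * (C + C₂)) with hM
  have hM0 : 0 < M := by positivity
  set K0 : ℝ := |C₀| + 1 with hK0
  have hK00 : 0 < K0 := by positivity
  set K : ℝ := M + 18 * D * C₂ ^ 2 + 8 * C with hK
  have hKp : 0 < K := by positivity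
  set t₃ : ℝ := min (min t₂ 1) (min (1 / (8 * M)) (1 / (K0 * (80 * D) ^ 2))) with ht₃
  have ht₃0 : 0 < t₃ := by
    rw [ht₃]
    refine lt_min (lt_min ht₂ one_pos) (lt_min ?_ ?_) <;> positivity
  have i1 : t₃ ≤ t₂ := (min_le_left _ _).trans (min_le_left _ _)
  have i2 : t₃ ≤ 1 := (min_le_left _ _).trans (min_le_right _ _)
  have i3 : t₃ ≤ 1 / (8 * M) := (min_le_right _ _).trans (min_le_left _ _)
  have i4 : t₃ ≤ 1 / (K0 * (80 * D) ^ 2) := (min_le_right _ _).trans (min_le_right _ _)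
  set A : ℝ := 12 * K + C₂ with hA
  have hA0 : 0 < A := by positivity
  refine ⟨4 * K + A + (D * A + 4 * C) + (8 * K + (2 * C + C₂)), by positivity, t₃, ht₃0,
    lt_of_le_of_lt (i1.trans ht21) ht₁, ?_⟩
  intro t ht c τ hc hτ hτ2 hmax
  have htt2 : |t| ≤ t₂ := ht.trans i1
  have htt1 : |t| ≤ t₁ := htt2.trans ht21
  set r : ℝ := |t| with hr
  have hr0 : 0 ≤ r := abs_nonneg t
  have hr1 : r ≤ 1 := ht.trans i2
  obtain ⟨Q1, Q2, Q3, Q4, Q5⟩ := quant H hC₂ htt1 hc ((hcls t htt2).1 c hc) hτ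
  obtain ⟨T1, T2, T3, T4, T5⟩ := trig hτ
  set θ : ℝ := τ - 2 * Real.pi with hθ
  have hθ0 := abs_nonneg θ
  have hMr : M * r ≤ 1 / 8 := by
    have : r ≤ 1 / (8 * M) := ht.trans i3
    rw [le_div_iff₀ (by positivity)] at this
    linarith
  have hK0r : K0 * r * (80 * D) ^ 2 ≤ 1 := by
    have : r ≤ 1 / (K0 * (80 * D) ^ 2) := ht.trans i4
    rw [le_div_iff₀ (by positivity)] at this
    linarith
  -- `|θ| ≤ 1 / (80 D)`
  have hθs : 80 * D * |θ| ≤ 1 := by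
    have h1 : θ ^ 2 ≤ K0 * r := by
      refine hτ2.trans (mul_le_mul_of_nonneg_right ?_ hr0)
      rw [hK0]
      linarith [le_abs_self C₀]
    have h2 : (80 * D * |θ|) ^ 2 ≤ 1 := by
      have : (80 * D * |θ|) ^ 2 = θ ^ 2 * (80 * D) ^ 2 := by
        rw [mul_pow, sq_abs]
        ring
      rw [this]
      exact (mul_le_mul_of_nonneg_right h1 (by positivity)).trans hK0r
    exact (sq_le_one_iff₀ (by positivity)).1 h2
  have hθlt : |θ| < 1 / 2 := by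
    have : 1 * |θ| ≤ D * |θ| := mul_le_mul_of_nonneg_right hD1 hθ0
    linarith
  -- the derivative at the maximum
  have hcd := sol_deriv hc τ
  have hmet : Met (G t) := N.met t (by
    have : |t| < ε := lt_of_le_of_lt htt1 ht₁
    exact abs_lt.1 this)
  set a : V d := c τ - c 0 with ha
  set w : V d := deriv c τ with hw
  have hd1 := fv (G t) hmet c hc (fun _ => c 0) (fun _ => 0) τ (hasDerivAt_const τ (c 0))
  have hd2 : HasDerivAt (fun u => mom (G t) c 0 ⬝ᵥ (c u - c 0)) (mom (G t) c 0 ⬝ᵥ w) τ := by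
    have := hd_dot (hasDerivAt_const τ (mom (G t) c 0)) (hcd.sub_const (c 0))
    refine this.congr_deriv ?_
    rw [zero_dotProduct, zero_add]
  have hW : HasDerivAt (fun u => Wf (G t) c u)
      (1 + DLag (G t) (c τ) w (c 0 - c τ) (0 - w) -
        (1 / 2) * (2 * (mom (G t) c 0 ⬝ᵥ a) * (mom (G t) c 0 ⬝ᵥ w))) τ := by
    have h3 := ((hasDerivAt_id τ).add hd1).sub ((hd2.pow 2).const_mul (1 / 2))
    have h4 : (fun u => Wf (G t) c u) = fun u => id u + mom (G t) c u ⬝ᵥ (c 0 - c u) -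
        1 / 2 * (mom (G t) c 0 ⬝ᵥ (c u - c 0)) ^ 2 := by
      funext u
      unfold Wf
      have : c 0 - c u = -(c u - c 0) := by abel
      rw [this, dotProduct_neg]
      simp only [id]
      ring
    rw [h4]
    refine h3.congr_deriv ?_
    simp only [Nat.cast_ofNat]
    ring
  have hloc : IsLocalMax (fun u => Wf (G t) c u) τ := by
    have : ∀ᶠ u in 𝓝 τ, |u - 2 * Real.pi| < 1 / 2 := by
      have hcont : Continuous fun u : ℝ => |u - 2 * Real.pi| := by fun_prop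
      exact hcont.continuousAt.eventually_lt continuousAt_const hθlt
    exact this.mono fun u hu => hmax u hu.le
  have hz := hloc.hasDerivAt_eq_zero hW
  -- the algebra
  have hsph0 := hc.sph 0
  have hsphτ := hc.sph τ
  have hspd := hc.spd τ
  have hdT : bil (dT (G t) (c τ) (c 0 - c τ)) w w = -bil (dT (G t) (c τ) a) w w := by
    have : c 0 - c τ = (-1 : ℝ) • a := by
      rw [ha, neg_smul, one_smul]
      abel
    rw [this, dT_smul, bil_smul_mat]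
    ring
  have hDL : DLag (G t) (c τ) w (c 0 - c τ) (0 - w) =
      -(1 / 2) * bil (dT (G t) (c τ) a) w w - 1 + c τ ⬝ᵥ a := by
    unfold DLag
    rw [hdT, zero_sub, dotProduct_neg, dotProduct_comm (mul (G t (c τ)) w) w, ← bil_eq_dot, hspd]
    have : c 0 - c τ = -a := by rw [ha]; abel
    rw [this, dotProduct_neg]
    ring
  have hca : c τ ⬝ᵥ a = (a ⬝ᵥ a) / 2 := by
    rw [ha]
    simp only [dotProduct_sub, sub_dotProduct]
    rw [hsphτ, hsph0, dotProduct_comm (c 0) (c τ)]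
    ring
  rw [hDL, hca] at hz
  have hR : (mom (G t) c 0 ⬝ᵥ a) * (mom (G t) c 0 ⬝ᵥ w) =
      (a ⬝ᵥ a) / 2 - (1 / 2) * bil (dT (G t) (c τ) a) w w := by linarith
  have hw2 : ‖w‖ ≤ 2 := H.vb t htt1 _ _ hsphτ hspd
  have hna := norm_nonneg a
  have hB : |bil (dT (G t) (c τ) a) w w| ≤ C * r * (‖a‖ * 4) := by
    refine (H.db t htt1 (c τ) (by rw [hsphτ]; norm_num) (by rw [hsphτ]; norm_num) a w w).trans ?_
    have : ‖w‖ * ‖w‖ ≤ 2 * 2 := mul_le_mul hw2 hw2 (norm_nonneg _) (by norm_num)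
    have h0 : 0 ≤ C * r := mul_nonneg hC.le hr0
    refine mul_le_mul_of_nonneg_left (mul_le_mul_of_nonneg_left ?_ hna) h0
    linarith
  have haa : |a ⬝ᵥ a| ≤ D * (‖a‖ * ‖a‖) := abs_dot_le a a
  have hRle : |(mom (G t) c 0 ⬝ᵥ a) * (mom (G t) c 0 ⬝ᵥ w)| ≤
      D * (‖a‖ * ‖a‖) / 2 + 2 * (C * r) * ‖a‖ := by
    rw [hR]
    rw [abs_le] at hB haa ⊢
    constructor <;> linarith
  have hpw : 1 / 2 ≤ mom (G t) c 0 ⬝ᵥ w := by
    have := (abs_le.1 Q4).1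
    linarith
  have h1 : |mom (G t) c 0 ⬝ᵥ a| ≤ D * (‖a‖ * ‖a‖) + 4 * (C * r) * ‖a‖ := by
    rw [abs_mul, abs_of_pos (show 0 < mom (G t) c 0 ⬝ᵥ w by linarith)] at hRle
    have := mul_le_mul_of_nonneg_left hpw (abs_nonneg (mom (G t) c 0 ⬝ᵥ a))
    linarith
  -- bound for `θ`
  have ha2 : ‖a‖ ≤ 2 := (norm_sub_le _ _).trans (by linarith [sol_norm hc τ, sol_norm hc 0])
  have hsin : |Real.sin θ| ≤ M * r + |mom (G t) c 0 ⬝ᵥ a| := by
    have h5 := abs_sub_abs_le_abs_sub (Real.sin θ) (mom (G t) c 0 ⬝ᵥ a)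
    rw [abs_sub_comm] at h5
    linarith
  have hnn : ‖a‖ * ‖a‖ ≤ 18 * (|θ| * |θ|) + 2 * (C₂ ^ 2 * r) := by
    have h7 : ‖a‖ * ‖a‖ ≤ (3 * |θ| + C₂ * r) * (3 * |θ| + C₂ * r) :=
      mul_le_mul Q1 Q1 hna (by positivity)
    have h8 : r * r ≤ r := by nlinarith
    have h9 : C₂ ^ 2 * (r * r) ≤ C₂ ^ 2 * r := mul_le_mul_of_nonneg_left h8 (sq_nonneg _)
    have h10 := sq_nonneg (3 * |θ| - C₂ * r)
    have h11 : (3 * |θ| + C₂ * r) * (3 * |θ| + C₂ * r) + (3 * |θ| - C₂ * r) ^ 2 =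
        18 * (|θ| * |θ|) + 2 * (C₂ ^ 2 * (r * r)) := by ring
    linarith
  have hθ1 : |θ| ≤ 4 * K * r := by
    have h7 : D * (‖a‖ * ‖a‖) ≤ D * (18 * (|θ| * |θ|) + 2 * (C₂ ^ 2 * r)) :=
      mul_le_mul_of_nonneg_left hnn hD0
    have h8 : D * (18 * (|θ| * |θ|)) ≤ 18 / 80 * |θ| := by
      have := mul_le_mul_of_nonneg_right hθs hθ0
      linarith
    have h9 : 4 * (C * r) * ‖a‖ ≤ 8 * (C * r) := by
      have := mul_le_mul_of_nonneg_left ha2 (show 0 ≤ 4 * (C * r) by positivity)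
      linarith
    have h10 : 0 ≤ D * C₂ ^ 2 * r := by positivity
    have h11 : K * r = M * r + 18 * (D * C₂ ^ 2 * r) + 8 * (C * r) := by rw [hK]; ring
    have h12 : 15 / 16 * |θ| ≤ M * r + (D * (‖a‖ * ‖a‖) + 4 * (C * r) * ‖a‖) := by linarith
    have h13 : D * (18 * (|θ| * |θ|) + 2 * (C₂ ^ 2 * r)) =
        D * (18 * (|θ| * |θ|)) + 2 * (D * C₂ ^ 2 * r) := by ring
    have h14 : 4 * K * r = 4 * (K * r) := by ring
    rw [h13] at h7
    rw [h14, h11]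
    have h15 : 0 ≤ C * r := by positivity
    have h16 : 0 ≤ M * r := by positivity
    linarith
  have haA : ‖a‖ ≤ A * r := by
    have : A * r = 12 * K * r + C₂ * r := by rw [hA]; ring
    rw [this]
    linarith
  have hKr : 0 ≤ K * r := by positivity
  have hAr : 0 ≤ A * r := by positivity
  have hCr : 0 ≤ C * r := by positivity
  have hC2r : 0 ≤ C₂ * r := by positivity
  have hDAr : 0 ≤ D * A * r := by positivity
  have hexp : (4 * K + A + (D * A + 4 * C) + (8 * K + (2 * C + C₂))) * r =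
      12 * (K * r) + A * r + D * A * r + 6 * (C * r) + C₂ * r := by ring
  have hθ1' : |θ| ≤ 4 * (K * r) := by linarith
  have hexp2 : (2 * C + C₂) * |t| = 2 * (C * r) + C₂ * r := by rw [← hr]; ring
  refine ⟨?_, ?_, ?_, ?_⟩
  · rw [hexp]
    linarith
  · rw [hexp]
    linarith
  · refine h1.trans ?_
    have h3 : D * (‖a‖ * ‖a‖) ≤ D * (A * r * ‖a‖) :=
      mul_le_mul_of_nonneg_left (mul_le_mul_of_nonneg_right haA hna) hD0
    have h4 : (4 * K + A + (D * A + 4 * C) + (8 * K + (2 * C + C₂))) * r * ‖a‖ =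
        (D * (A * r * ‖a‖) + 4 * (C * r) * ‖a‖) +
          (12 * (K * r) + A * r + 2 * (C * r) + C₂ * r) * ‖a‖ := by ring
    rw [h4]
    have h5 : 0 ≤ (12 * (K * r) + A * r + 2 * (C * r) + C₂ * r) * ‖a‖ := by positivity
    linarith
  · refine Q5.trans ?_
    rw [hexp2, hexp]
    linarith

end Pool.Agent.Work.MP_659252_gt.QR
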