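import Pool.Agent.Work.MP_659252_gt.QR.A.EulA

/-!
# Curves of initial conditions with a given velocity.  Size: M.

PROOF.  For small `e > 0` put `x' = (x + e a)/|x + e a|` (`|x + e a|² = 1 + e² (a ⬝ a)` because `x ⬝ a = 0`), `u = v + e b`,
`u' = u - (u ⬝ x') x'` and `v' = u' / √(bil (G x') u' u')`.  Then `x' ⬝ x' = 1`, `x' ⬝ v' = 0`, `bil (G x') v' v' = 1`.
`x' - x - e a = O(e²)` (`1/√(1 + r) = 1 + O(r)`).  `u ⬝ (x + e a) = v ⬝ x + e (b ⬝ x + v ⬝ a) + e² (b ⬝ a) = e² (b ⬝ a)` by the second hypothesis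
(`x ⬝ v = 0`), so `u' = v + e b + O(e²)`.
`g e = bil (G x') u' u'` is a smooth function of `e` near `0` (`x' ≠ 0`), `g 0 = 1`, `g' 0 = bil (dT G x a) v v + 2 bil (G x) v b = 0` by the third hypothesis
(`hasDerivAt_bil`), so `g e = 1 + O(e²)`, `1/√(g e) = 1 + O(e²)`.
A convenient way: `e ↦ x'`, `e ↦ v'` are smooth near `0` (`ContDiffAt`), with derivatives `a`, `b` at `0`; a `C²` function satisfies
`‖F e - F 0 - e F' 0‖ ≤ C e²` near `0` (Taylor, e.g. `taylor_mean_remainder_bound` on `[0, e₀]`, or the mean value inequality for `F - F 0 - e F' 0`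
with the locally Lipschitz derivative).
-/

namespace Pool.Agent.Work.MP_659252_gt.QR

open scoped ContDiff Topology
open Pool.Agent.Work.MP_659252_gt.Z (V Ten val Tan InT IsZoll IsMetric IsGeodesic)

variable {d : ℕ}

private theorem taylor1 {E : Type*} [NormedAddCommGroup E] [NormedSpace ℝ E] (F : ℝ → E) (f' : E)
    {e₁ : ℝ} (he : 0 < e₁) (hF : ContDiffOn ℝ 2 F (Set.Icc 0 e₁)) (hd : HasDerivAt F f' 0) :
    ∃ C : ℝ, 0 < C ∧ ∀ e ∈ Set.Icc 0 e₁, ‖F e - F 0 - e • f'‖ ≤ C * e ^ 2 := by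
  obtain ⟨C, hC⟩ := exists_taylor_mean_remainder_bound (n := 1) he.le
    (by simpa [one_add_one_eq_two] using hF)
  refine ⟨max C 1, lt_max_of_lt_right one_pos, fun e hee => ?_⟩
  have h1 := hC e hee
  have h2 : taylorWithinEval F 1 (Set.Icc 0 e₁) 0 e = F 0 + e • f' := by
    rw [taylorWithinEval_succ, taylor_within_zero_eval]
    have h3 : iteratedDerivWithin 1 F (Set.Icc 0 e₁) 0 = f' := by
      rw [iteratedDerivWithin_one]
      exact hd.hasDerivWithinAt.derivWithin (uniqueDiffOn_Icc he 0 ⟨le_rfl, he.le⟩)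
    simp [h3]
  rw [h2] at h1
  have h4 : F e - F 0 - e • f' = F e - (F 0 + e • f') := by abel
  rw [h4]
  refine h1.trans ?_
  have h5 : (e - 0) ^ (1 + 1) = e ^ 2 := by norm_num
  rw [h5]
  exact mul_le_mul_of_nonneg_right (le_max_left _ _) (sq_nonneg e)

private theorem hasDerivAt_dot {p q : ℝ → V d} {p' q' : V d} {s : ℝ} (hp : HasDerivAt p p' s)
    (hq : HasDerivAt q q' s) : HasDerivAt (fun e => p e ⬝ᵥ q e) (p' ⬝ᵥ q s + p s ⬝ᵥ q') s := by
  simp only [dotProduct]
  rw [← Finset.sum_add_distrib]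
  refine HasDerivAt.fun_sum fun i _ => ?_
  exact ((hasDerivAt_pi.1 hp) i).mul ((hasDerivAt_pi.1 hq) i)

private theorem contDiff_dot {p q : ℝ → V d} (hp : ContDiff ℝ 2 p) (hq : ContDiff ℝ 2 q) :
    ContDiff ℝ 2 (fun e => p e ⬝ᵥ q e) := by
  simp only [dotProduct]
  refine ContDiff.sum fun i _ => ?_
  exact ((contDiff_pi.1 hp) i).mul ((contDiff_pi.1 hq) i)

theorem path (G : Ten d) (hG : Met G) (x v a b : V d) (hx : x ⬝ᵥ x = 1) (hxv : x ⬝ᵥ v = 0)
    (hv : bil (G x) v v = 1) (h1 : x ⬝ᵥ a = 0) (h2 : x ⬝ᵥ b + v ⬝ᵥ a = 0)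
    (h3 : 2 * bil (G x) v b + bil (dT G x a) v v = 0) :
    ∃ C > 0, ∃ e₀ > 0, ∀ e, 0 < e → e < e₀ → ∃ x' v' : V d, x' ⬝ᵥ x' = 1 ∧ x' ⬝ᵥ v' = 0 ∧
      bil (G x') v' v' = 1 ∧ ‖x' - x - e • a‖ ≤ C * e ^ 2 ∧ ‖v' - v - e • b‖ ≤ C * e ^ 2 := by
  have hx0 : x ≠ 0 := ne_zero_of_dot hx
  set p : ℝ → V d := fun e => x + e • a with hp
  set q : ℝ → ℝ := fun e => p e ⬝ᵥ p e with hq
  have hqe : ∀ e, q e = 1 + e ^ 2 * (a ⬝ᵥ a) := by
    intro e
    simp only [hq, hp, add_dotProduct, dotProduct_add, smul_dotProduct, dotProduct_smul, smul_eq_mul]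
    rw [hx, h1, dotProduct_comm a x, h1]
    ring
  have hqpos : ∀ e, 0 < q e := by
    intro e
    rw [hqe]
    have := mul_nonneg (sq_nonneg e) (dot_self_nonneg a)
    linarith
  have cp : ContDiff ℝ 2 p := by
    rw [hp]
    fun_prop
  have cq : ContDiff ℝ 2 q := contDiff_dot cp cp
  have csq : ContDiff ℝ 2 (fun e => (√(q e))⁻¹) := by
    refine ContDiff.inv (cq.sqrt fun e => (hqpos e).ne') fun e => ?_
    exact (Real.sqrt_pos.2 (hqpos e)).ne'
  set X : ℝ → V d := fun e => (√(q e))⁻¹ • p e with hX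
  have cX : ContDiff ℝ 2 X := csq.smul cp
  have hXX : ∀ e, X e ⬝ᵥ X e = 1 := by
    intro e
    have h4 : X e ⬝ᵥ X e = (√(q e))⁻¹ * ((√(q e))⁻¹ * q e) := by
      simp only [hX, hq, smul_dotProduct, dotProduct_smul, smul_eq_mul]
    rw [h4]
    have h5 := Real.sqrt_pos.2 (hqpos e)
    have h6 := Real.mul_self_sqrt (hqpos e).le
    field_simp
    nlinarith
  have hXne : ∀ e, X e ≠ 0 := fun e => ne_zero_of_dot (hXX e)
  have q0 : q 0 = 1 := by rw [hqe]; norm_num
  have p0 : p 0 = x := by simp [hp]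
  have X0 : X 0 = x := by simp [hX, q0, p0]
  have dp : HasDerivAt p a 0 := by
    have := ((hasDerivAt_id (0 : ℝ)).smul_const a).const_add x
    rw [one_smul] at this
    exact this
  have dq : HasDerivAt q 0 0 := by
    have := hasDerivAt_dot dp dp
    rw [p0, dotProduct_comm a x, h1, add_zero] at this
    exact this
  have dsq : HasDerivAt (fun e => (√(q e))⁻¹) 0 0 := by
    have h4 := (dq.sqrt (by rw [q0]; norm_num)).inv (by rw [q0]; norm_num)
    exact h4.congr_deriv (by simp)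
  have dX : HasDerivAt X a 0 := by
    have := dsq.smul dp
    simp only [q0, p0, Real.sqrt_one, inv_one, one_smul, zero_smul, add_zero] at this
    exact this
  set u : ℝ → V d := fun e => v + e • b with hu
  have cu : ContDiff ℝ 2 u := by
    rw [hu]
    fun_prop
  have u0 : u 0 = v := by simp [hu]
  have du : HasDerivAt u b 0 := by
    have := ((hasDerivAt_id (0 : ℝ)).smul_const b).const_add v
    rw [one_smul] at this
    exact this
  set r : ℝ → ℝ := fun e => u e ⬝ᵥ X e with hr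
  have cr : ContDiff ℝ 2 r := contDiff_dot cu cX
  have r0 : r 0 = 0 := by
    rw [hr]
    simp only [u0, X0]
    rw [dotProduct_comm, hxv]
  have dr : HasDerivAt r 0 0 := by
    have := hasDerivAt_dot du dX
    rw [u0, X0, dotProduct_comm b x, h2] at this
    exact this
  set U : ℝ → V d := fun e => u e - r e • X e with hU
  have cU : ContDiff ℝ 2 U := cu.sub (cr.smul cX)
  have U0 : U 0 = v := by simp [hU, u0, r0]
  have dU : HasDerivAt U b 0 := by
    have := du.sub (dr.smul dX)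
    simp only [r0, zero_smul, add_zero, sub_zero] at this
    exact this
  have hXU : ∀ e, X e ⬝ᵥ U e = 0 := by
    intro e
    simp only [hU, hr, dotProduct_sub, dotProduct_smul, smul_eq_mul]
    rw [hXX, dotProduct_comm (u e) (X e)]
    ring
  set g : ℝ → ℝ := fun e => bil (G (X e)) (U e) (U e) with hg
  have cG : ContDiff ℝ 2 (fun e => G (X e)) :=
    (show ContDiffOn ℝ 2 G {0}ᶜ by exact_mod_cast contDiffOn_infty.1 hG.smooth 2).comp_contDiff cX
      fun e => hXne e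
  have cg : ContDiff ℝ 2 g := by
    simp only [hg, bil]
    refine ContDiff.sum fun i _ => ContDiff.sum fun j _ => ?_
    refine ContDiff.mul ?_ (((contDiff_pi.1 cU) i).mul ((contDiff_pi.1 cU) j))
    exact contDiff_pi.1 (contDiff_pi.1 cG i) j
  have g0 : g 0 = 1 := by
    rw [hg]
    simp only [X0, U0]
    exact hv
  have dg : HasDerivAt g 0 0 := by
    have h4 := hasDerivAt_bil G X U U a b b 0
      (fun i j => by
        rw [X0]
        exact diff_of_smooth G {0}ᶜ isOpen_compl_singleton hG.smooth x hx0 i j) dX dU dU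
    rw [X0, U0] at h4
    have h5 : bil (dT G x a) v v + bil (G x) b v + bil (G x) v b = 0 := by
      rw [bil_comm (hG.symm x hx0) b v]
      linarith
    rw [h5] at h4
    exact h4
  -- a neighbourhood where `g` is positive
  obtain ⟨e₁, he₁, hgpos⟩ : ∃ e₁ > 0, ∀ e ∈ Set.Icc 0 e₁, 0 < g e := by
    have h4 : ∀ᶠ e in 𝓝 (0 : ℝ), 0 < g e := by
      refine cg.continuous.continuousAt.eventually_const_lt ?_
      rw [g0]
      exact one_pos
    obtain ⟨δ, hδ, hh⟩ := Metric.eventually_nhds_iff.1 h4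
    refine ⟨δ / 2, by positivity, fun e hee => hh ?_⟩
    rw [Real.dist_eq, sub_zero, abs_of_nonneg hee.1]
    linarith [hee.2]
  set Y : ℝ → V d := fun e => (√(g e))⁻¹ • U e with hY
  have cY : ContDiffOn ℝ 2 Y (Set.Icc 0 e₁) := by
    have h4 : ContDiffOn ℝ 2 (fun e => (√(g e))⁻¹) (Set.Icc 0 e₁) :=
      ContDiffOn.inv (ContDiffOn.sqrt cg.contDiffOn fun e he => (hgpos e he).ne') fun e he =>
        (Real.sqrt_pos.2 (hgpos e he)).ne'
    exact h4.smul cU.contDiffOn
  have Y0 : Y 0 = v := by simp [hY, g0, U0]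
  have dY : HasDerivAt Y b 0 := by
    have h4 := (dg.sqrt (by rw [g0]; norm_num)).inv (by rw [g0]; norm_num)
    have h5 : HasDerivAt (fun e => (√(g e))⁻¹) 0 0 := h4.congr_deriv (by simp)
    have := h5.smul dU
    simp only [g0, U0, Real.sqrt_one, inv_one, one_smul, zero_smul, add_zero] at this
    exact this
  obtain ⟨C₁, hC₁, hT₁⟩ := taylor1 X a he₁ cX.contDiffOn dX
  obtain ⟨C₂, hC₂, hT₂⟩ := taylor1 Y b he₁ cY dY
  refine ⟨C₁ + C₂, by positivity, e₁, he₁, fun e he0 he => ?_⟩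
  have hmem : e ∈ Set.Icc 0 e₁ := ⟨he0.le, he.le⟩
  refine ⟨X e, Y e, hXX e, ?_, ?_, ?_, ?_⟩
  · simp only [hY, dotProduct_smul, hXU e, smul_zero]
  · have h4 : bil (G (X e)) (Y e) (Y e) = (√(g e))⁻¹ * ((√(g e))⁻¹ * g e) := by
      simp only [hY, bil_smul_left, bil_smul_right]
      rfl
    rw [h4]
    have h5 := Real.sqrt_pos.2 (hgpos e hmem)
    have h6 := Real.mul_self_sqrt (hgpos e hmem).le
    field_simp
    nlinarith
  · have := hT₁ e hmem
    rw [X0] at this
    refine this.trans ?_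
    have := sq_nonneg e
    nlinarith
  · have := hT₂ e hmem
    rw [Y0] at this
    refine this.trans ?_
    have := sq_nonneg e
    nlinarith

end Pool.Agent.Work.MP_659252_gt.QR
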