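import Pool.Agent.Work.MP_659252_gt.QR.A.MaxC
import Pool.Agent.Work.MP_659252_gt.QR.A.Csv
import Pool.Agent.Work.MP_659252_gt.QR.A.Geo
import Pool.Agent.Work.MP_659252_gt.QR.A.Est

/-!
# The derivative inequality at the maximum.  Size: M-L.

Notation: `A = c τ - c 0`, `p s = mom (G t) c s`, `B = p τ - p 0`, `m = ‖A‖ + ‖B‖`.  Constants `C` change; they do not depend on `t, c, τ, a, b`; the
constants in `O_e(..)` may depend on everything except `e`.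
PROOF.  By `path` and `geo_exists` there is for small `e > 0` a `Sol` `c_e` with `c_e 0 = c 0 + e a + O_e(e²)`, `c_e' 0 = c' 0 + e b + O_e(e²)`.
Let `Δ0 = c_e 0 - c 0`, `Δ0' = c_e' 0 - c' 0`, `δ = ‖Δ0‖ + ‖Δ0'‖ = e (‖a‖ + ‖b‖) + O_e(e²)`, `Δ = c_e τ - c τ`, `Δ' = c_e' τ - c' τ`, `p_e = mom c_e`.
`cls` (`τ ∈ [0,7]`): `‖Δ - gc Δ0 Δ0' τ‖, ‖Δ' - gd Δ0 Δ0' τ‖ ≤ C |t| δ`, and `gc Δ0 Δ0' τ = Δ0 + O(|θ| δ)`, `gd .. = Δ0' + O(|θ| δ)`, `θ = τ - 2π = O(t)`.  So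
`‖Δ - Δ0‖ ≤ C |t| δ`, `‖Δ' - Δ0'‖ ≤ C |t| δ`, and (`ml`) `‖(p_e τ - p τ) - Δ'‖ ≤ C |t| δ`, `‖p_e 0 - p 0‖ ≤ C δ`.
With `A_e = c_e τ - c_e 0 = A + (Δ - Δ0)`:
`p_e τ ⬝ A_e - p τ ⬝ A = (p_e τ - p τ) ⬝ A + p τ ⬝ (Δ - Δ0) + (p_e τ - p τ) ⬝ (Δ - Δ0)`; by `csv`: `p τ ⬝ Δ = p 0 ⬝ Δ0 + O(δ²)`.  So it is
`(p_e τ - p τ) ⬝ A - B ⬝ Δ0 + O(δ²) = Δ0' ⬝ A - B ⬝ Δ0 + O(|t| δ ‖A‖) + O(δ²)`.
`p_e 0 ⬝ A_e - p 0 ⬝ A = (p_e 0 - p 0) ⬝ A + p_e 0 ⬝ (Δ - Δ0) = O(δ ‖A‖ + |t| δ) = O(|t| δ)` (`‖A‖ ≤ C₀ |t|`), so the difference of the squares is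
`O(|t| δ) (2 |p 0 ⬝ A| + O(|t| δ)) = O(|t|² δ ‖A‖) + O(δ²)` (`|p 0 ⬝ A| ≤ C₀ |t| ‖A‖`).
`0 ≥ Wf c_e τ - Wf c τ = -(Δ0' ⬝ A - B ⬝ Δ0) - O(|t| δ ‖A‖) - O(δ²)`.  Divide by `e` and let `e → 0+`:
`0 ≥ B ⬝ a - A ⬝ b - C |t| (‖a‖ + ‖b‖) ‖A‖`.
-/

namespace Pool.Agent.Work.MP_659252_gt.QR

open scoped ContDiff Topology
open Pool.Agent.Work.MP_659252_gt.Z (V Ten val Tan InT IsZoll IsMetric IsGeodesic)

variable {d : ℕ}

private theorem mxd_lim (X M e₁ : ℝ) (he : 0 < e₁) (h : ∀ e, 0 < e → e < e₁ → e * X ≤ e ^ 2 * M) :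
    X ≤ 0 := by
  by_contra hX
  push Not at hX
  obtain ⟨e, hedef⟩ : ∃ e, e = min (e₁ / 2) (X / (2 * (|M| + 1))) := ⟨_, rfl⟩
  have hM : 0 < |M| + 1 := by positivity
  have he0 : 0 < e := by
    rw [hedef]
    exact lt_min (by linarith) (by positivity)
  have he1 : e < e₁ := by
    rw [hedef]
    exact lt_of_le_of_lt (min_le_left _ _) (by linarith)
  have he2 : e ≤ X / (2 * (|M| + 1)) := by
    rw [hedef]
    exact min_le_right _ _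
  have h1 := h e he0 he1
  have h2 : X ≤ e * M := by
    have h3 : e * X ≤ e * (e * M) := by
      calc e * X ≤ e ^ 2 * M := h1
        _ = e * (e * M) := by ring
    exact le_of_mul_le_mul_left h3 he0
  have h3 : e * M ≤ e * (|M| + 1) := mul_le_mul_of_nonneg_left
    (by linarith [le_abs_self M]) he0.le
  have h4 : e * (|M| + 1) ≤ X / (2 * (|M| + 1)) * (|M| + 1) :=
    mul_le_mul_of_nonneg_right he2 hM.le
  have h5 : X / (2 * (|M| + 1)) * (|M| + 1) = X / 2 := by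
    field_simp
  linarith

private theorem mxd_core (pt p0 qt q0 A A2 Δ Δ0 Δ' : V d) (C C₀ C₃ K₁ K₂ s δ : ℝ) (hC : 0 ≤ C)
    (hC₀ : 0 ≤ C₀) (hK₁ : 0 ≤ K₁) (hK₂ : 0 ≤ K₂) (hs0 : 0 ≤ s) (hs1 : s ≤ 1) (hδ : 0 ≤ δ)
    (hA2 : A2 = A + (Δ - Δ0)) (h1 : ‖Δ - Δ0‖ ≤ K₁ * s * δ) (h2 : ‖(qt - pt) - Δ'‖ ≤ K₂ * s * δ)
    (hδ' : ‖Δ'‖ ≤ δ) (h3 : ‖q0 - p0‖ ≤ (1 + C) * δ) (h4 : ‖q0‖ ≤ 2 + C)
    (h5 : |pt ⬝ᵥ Δ - p0 ⬝ᵥ Δ0| ≤ C₃ * δ ^ 2) (hA : ‖A‖ ≤ C₀ * s)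
    (hp : |p0 ⬝ᵥ A| ≤ C₀ * s * ‖A‖)
    (hW : pt ⬝ᵥ A + (1 / 2) * (p0 ⬝ᵥ A) ^ 2 ≤ qt ⬝ᵥ A2 + (1 / 2) * (q0 ⬝ᵥ A2) ^ 2) :
    (pt - p0) ⬝ᵥ Δ0 - Δ' ⬝ᵥ A ≤
      ((d + 1 : ℝ) * K₂ + C₀ * ((d + 1 : ℝ) * ((1 + C) * C₀ + (2 + C) * K₁))) * s * δ * ‖A‖ +
      (C₃ + (d + 1 : ℝ) * ((1 + K₂) * K₁) +
        ((d + 1 : ℝ) * ((1 + C) * C₀ + (2 + C) * K₁)) ^ 2) * δ ^ 2 := by
  obtain ⟨D, hD⟩ : ∃ D : ℝ, D = (d + 1 : ℝ) := ⟨_, rfl⟩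
  have hD0 : 0 ≤ D := by
    rw [hD]
    positivity
  rw [← hD]
  obtain ⟨K₄, hK₄⟩ : ∃ K₄ : ℝ, K₄ = D * ((1 + C) * C₀ + (2 + C) * K₁) := ⟨_, rfl⟩
  rw [← hK₄]
  have hK₄0 : 0 ≤ K₄ := by
    rw [hK₄]
    positivity
  have hA0 : 0 ≤ ‖A‖ := norm_nonneg _
  -- the first error
  have b1 : ((qt - pt) - Δ') ⬝ᵥ A ≤ D * K₂ * s * δ * ‖A‖ := by
    have := abs_dot_le ((qt - pt) - Δ') A
    rw [← hD] at this
    have h6 : ‖(qt - pt) - Δ'‖ * ‖A‖ ≤ K₂ * s * δ * ‖A‖ :=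
      mul_le_mul_of_nonneg_right h2 hA0
    have h7 := mul_le_mul_of_nonneg_left h6 hD0
    calc ((qt - pt) - Δ') ⬝ᵥ A ≤ |((qt - pt) - Δ') ⬝ᵥ A| := le_abs_self _
      _ ≤ D * (‖(qt - pt) - Δ'‖ * ‖A‖) := this
      _ ≤ D * (K₂ * s * δ * ‖A‖) := h7
      _ = _ := by ring
  have b2 : pt ⬝ᵥ Δ - p0 ⬝ᵥ Δ0 ≤ C₃ * δ ^ 2 := (le_abs_self _).trans h5
  have b3 : (qt - pt) ⬝ᵥ (Δ - Δ0) ≤ D * ((1 + K₂) * K₁) * δ ^ 2 := by
    have := abs_dot_le (qt - pt) (Δ - Δ0)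
    rw [← hD] at this
    have h6 : ‖qt - pt‖ ≤ (1 + K₂) * δ := by
      have h7 : qt - pt = ((qt - pt) - Δ') + Δ' := by abel
      rw [h7]
      refine (norm_add_le _ _).trans ?_
      have h8 : K₂ * s * δ ≤ K₂ * δ := by
        have : K₂ * s * δ = K₂ * δ * s := by ring
        rw [this]
        exact mul_le_of_le_one_right (by positivity) hs1
      linarith
    have h7 : ‖Δ - Δ0‖ ≤ K₁ * δ := by
      refine h1.trans ?_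
      have : K₁ * s * δ = K₁ * δ * s := by ring
      rw [this]
      exact mul_le_of_le_one_right (by positivity) hs1
    calc (qt - pt) ⬝ᵥ (Δ - Δ0) ≤ |(qt - pt) ⬝ᵥ (Δ - Δ0)| := le_abs_self _
      _ ≤ D * (‖qt - pt‖ * ‖Δ - Δ0‖) := this
      _ ≤ D * (((1 + K₂) * δ) * (K₁ * δ)) :=
          mul_le_mul_of_nonneg_left (mul_le_mul h6 h7 (norm_nonneg _) (by positivity)) hD0
      _ = _ := by ring
  obtain ⟨y, hy⟩ : ∃ y, y = q0 ⬝ᵥ A2 - p0 ⬝ᵥ A := ⟨_, rfl⟩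
  have by' : |y| ≤ K₄ * s * δ := by
    have e1 : y = (q0 - p0) ⬝ᵥ A + q0 ⬝ᵥ (Δ - Δ0) := by
      rw [hy, hA2, dotProduct_add, sub_dotProduct]
      ring
    rw [e1]
    refine (abs_add_le _ _).trans ?_
    have c1 := abs_dot_le (q0 - p0) A
    have c2 := abs_dot_le q0 (Δ - Δ0)
    rw [← hD] at c1 c2
    have c3 : D * (‖q0 - p0‖ * ‖A‖) ≤ D * (((1 + C) * δ) * (C₀ * s)) :=
      mul_le_mul_of_nonneg_left (mul_le_mul h3 hA hA0 (by positivity)) hD0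
    have c4 : D * (‖q0‖ * ‖Δ - Δ0‖) ≤ D * ((2 + C) * (K₁ * s * δ)) :=
      mul_le_mul_of_nonneg_left (mul_le_mul h4 h1 (norm_nonneg _) (by positivity)) hD0
    have c5 : K₄ * s * δ = D * (((1 + C) * δ) * (C₀ * s)) + D * ((2 + C) * (K₁ * s * δ)) := by
      rw [hK₄]
      ring
    rw [c5]
    linarith
  have b4 : y ^ 2 ≤ K₄ ^ 2 * δ ^ 2 := by
    have h6 : |y| ≤ K₄ * δ := by
      refine by'.trans ?_
      have : K₄ * s * δ = K₄ * δ * s := by ring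
      rw [this]
      exact mul_le_of_le_one_right (by positivity) hs1
    calc y ^ 2 = |y| ^ 2 := (sq_abs y).symm
      _ ≤ (K₄ * δ) ^ 2 := pow_le_pow_left₀ (abs_nonneg _) h6 2
      _ = _ := by ring
  have b5 : (p0 ⬝ᵥ A) * y ≤ C₀ * K₄ * s * δ * ‖A‖ := by
    have h6 : |(p0 ⬝ᵥ A) * y| ≤ (C₀ * s * ‖A‖) * (K₄ * s * δ) := by
      rw [abs_mul]
      exact mul_le_mul hp by' (abs_nonneg _) (by positivity)
    have h7 : (C₀ * s * ‖A‖) * (K₄ * s * δ) = (C₀ * K₄ * s * δ * ‖A‖) * s := by ring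
    have h8 : (C₀ * K₄ * s * δ * ‖A‖) * s ≤ C₀ * K₄ * s * δ * ‖A‖ :=
      mul_le_of_le_one_right (by positivity) hs1
    exact (le_abs_self _).trans (h6.trans (h7.le.trans h8))
  have e2 : qt ⬝ᵥ A2 - pt ⬝ᵥ A = Δ' ⬝ᵥ A - (pt - p0) ⬝ᵥ Δ0 + ((qt - pt) - Δ') ⬝ᵥ A +
      (pt ⬝ᵥ Δ - p0 ⬝ᵥ Δ0) + (qt - pt) ⬝ᵥ (Δ - Δ0) := by
    rw [hA2]
    simp only [dotProduct_add, dotProduct_sub, sub_dotProduct]
    ring
  have e3 : (q0 ⬝ᵥ A2) ^ 2 = (p0 ⬝ᵥ A) ^ 2 + 2 * ((p0 ⬝ᵥ A) * y) + y ^ 2 := by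
    have : q0 ⬝ᵥ A2 = p0 ⬝ᵥ A + y := by
      rw [hy]
      ring
    rw [this]
    ring
  have hy2 := sq_nonneg y
  have e4 : (D * K₂ + C₀ * K₄) * s * δ * ‖A‖ = D * K₂ * s * δ * ‖A‖ + C₀ * K₄ * s * δ * ‖A‖ := by
    ring
  have e5 : (C₃ + D * ((1 + K₂) * K₁) + K₄ ^ 2) * δ ^ 2 =
      C₃ * δ ^ 2 + D * ((1 + K₂) * K₁) * δ ^ 2 + K₄ ^ 2 * δ ^ 2 := by ring
  rw [e4, e5]
  linarith

private theorem mxd_orth {G : Ten d} {c : ℝ → V d} (hc : Sol G c) (s : ℝ) :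
    c s ⬝ᵥ deriv c s = 0 := by
  have h1 : HasDerivAt c (deriv c s) s :=
    (hc.smooth.differentiable (by simp) s).hasDerivAt
  have h2 : HasDerivAt (fun u => c u ⬝ᵥ c u) (2 * (c s ⬝ᵥ deriv c s)) s := by
    have h3 : ∀ i ∈ (Finset.univ : Finset (Fin (d + 1))),
        HasDerivAt (fun u => c u i * c u i) (deriv c s i * c s i + c s i * deriv c s i) s :=
      fun i _ => ((hasDerivAt_pi.1 h1) i).mul ((hasDerivAt_pi.1 h1) i)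
    have h4 := HasDerivAt.fun_sum h3
    refine h4.congr_deriv ?_
    simp only [dotProduct, Finset.mul_sum]
    exact Finset.sum_congr rfl fun i _ => by ring
  have h3 : HasDerivAt (fun u => c u ⬝ᵥ c u) 0 s := by
    have e : (fun u => c u ⬝ᵥ c u) = fun _ => 1 := funext hc.sph
    rw [e]
    exact hasDerivAt_const s 1
  have := h2.unique h3
  linarith

private theorem mxd_gc (X W : V d) (τ θ : ℝ) (hθ : |τ - 2 * Real.pi| ≤ θ) :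
    ‖gc X W τ - X‖ ≤ θ * (‖X‖ + ‖W‖) ∧ ‖gd X W τ - W‖ ≤ θ * (‖X‖ + ‖W‖) := by
  have hθ0 : 0 ≤ θ := (abs_nonneg _).trans hθ
  obtain ⟨z, hz⟩ : ∃ z, z = τ - 2 * Real.pi := ⟨_, rfl⟩
  rw [← hz] at hθ
  have hcos : Real.cos τ = Real.cos z := by
    rw [hz, Real.cos_sub_two_pi]
  have hsin : Real.sin τ = Real.sin z := by
    rw [hz, Real.sin_sub_two_pi]
  have hs : |Real.sin z| ≤ θ := (Real.abs_sin_le_abs).trans hθ
  have hc : |Real.cos z - 1| ≤ θ := by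
    have h1 := Real.abs_cos_sub_cos_le z 0
    rw [Real.cos_zero, sub_zero] at h1
    exact h1.trans hθ
  constructor
  · have e : gc X W τ - X = (Real.cos z - 1) • X + Real.sin z • W := by
      rw [gc, hcos, hsin, sub_smul, one_smul]
      abel
    rw [e]
    refine (norm_add_le _ _).trans ?_
    rw [norm_smul, norm_smul, Real.norm_eq_abs, Real.norm_eq_abs]
    have h1 := mul_le_mul_of_nonneg_right hc (norm_nonneg X)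
    have h2 := mul_le_mul_of_nonneg_right hs (norm_nonneg W)
    linarith
  · have e : gd X W τ - W = (Real.cos z - 1) • W - Real.sin z • X := by
      rw [gd, hcos, hsin, sub_smul, one_smul]
      abel
    rw [e]
    refine (norm_sub_le _ _).trans ?_
    rw [norm_smul, norm_smul, Real.norm_eq_abs, Real.norm_eq_abs]
    have h1 := mul_le_mul_of_nonneg_right hc (norm_nonneg W)
    have h2 := mul_le_mul_of_nonneg_right hs (norm_nonneg X)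
    linarith

theorem maxD (ε : ℝ) (G : ℝ → Ten d) (N : Nice ε G) (C₀ : ℝ) :
    ∃ C > 0, ∃ t₁ > 0, t₁ < ε ∧ ∀ t, |t| ≤ t₁ → ∀ (c : ℝ → V d) (τ : ℝ), Sol (G t) c →
      |τ - 2 * Real.pi| ≤ C₀ * |t| → ‖c τ - c 0‖ ≤ C₀ * |t| →
      |mom (G t) c 0 ⬝ᵥ (c τ - c 0)| ≤ C₀ * |t| * ‖c τ - c 0‖ →
      (∀ c₂, Sol (G t) c₂ → Wf (G t) c₂ τ ≤ Wf (G t) c τ) →
      ∀ a b : V d, c 0 ⬝ᵥ a = 0 → c 0 ⬝ᵥ b + deriv c 0 ⬝ᵥ a = 0 →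
        2 * bil (G t (c 0)) (deriv c 0) b + bil (dT (G t) (c 0) a) (deriv c 0) (deriv c 0) = 0 →
        (mom (G t) c τ - mom (G t) c 0) ⬝ᵥ a - (c τ - c 0) ⬝ᵥ b ≤
          C * |t| * (‖a‖ + ‖b‖) * (‖c τ - c 0‖ + ‖mom (G t) c τ - mom (G t) c 0‖) := by
  obtain ⟨C, t₁, ht₁, H⟩ := est ε G N
  obtain ⟨C₂, hC₂, t₂, ht₂0, ht₂, Hcls⟩ := cls G C t₁ H
  obtain ⟨C₃, hC₃, t₃, ht₃0, ht₃, Hcsv⟩ := csv ε G N C t₁ ht₁ H
  have hC := H.Cpos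
  obtain ⟨E, hE⟩ : ∃ E, E = |C₀| := ⟨_, rfl⟩
  have hE0 : 0 ≤ E := by
    rw [hE]
    exact abs_nonneg _
  have hCE : C₀ ≤ E := by
    rw [hE]
    exact le_abs_self _
  obtain ⟨K₁, hK₁⟩ : ∃ K₁, K₁ = C₂ + E := ⟨_, rfl⟩
  obtain ⟨K₂, hK₂⟩ : ∃ K₂, K₂ = 2 * C * C₂ + K₁ := ⟨_, rfl⟩
  have hK₁0 : 0 ≤ K₁ := by
    rw [hK₁]
    positivity
  have hK₂0 : 0 ≤ K₂ := by
    rw [hK₂]
    positivity
  obtain ⟨L₁, hL₁⟩ : ∃ L₁ : ℝ, L₁ =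
      (d + 1 : ℝ) * K₂ + E * ((d + 1 : ℝ) * ((1 + C) * E + (2 + C) * K₁)) := ⟨_, rfl⟩
  obtain ⟨L₂, hL₂⟩ : ∃ L₂ : ℝ, L₂ = C₃ + (d + 1 : ℝ) * ((1 + K₂) * K₁) +
        ((d + 1 : ℝ) * ((1 + C) * E + (2 + C) * K₁)) ^ 2 := ⟨_, rfl⟩
  have hL₁0 : 0 ≤ L₁ := by
    rw [hL₁]
    positivity
  have hL₂0 : 0 ≤ L₂ := by
    rw [hL₂]
    positivity
  refine ⟨L₁ + 1, by linarith, min (min t₂ t₃) (min 1 (1 / (2 * (E + 1)))),
    lt_min (lt_min ht₂0 ht₃0) (lt_min one_pos (by positivity)),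
    lt_of_le_of_lt ((min_le_left _ _).trans ((min_le_left _ _).trans ht₂)) ht₁, ?_⟩
  intro t ht c τ hc hτ hA hp hmax a b h1 h2 h3
  have ht2 : |t| ≤ t₂ := ht.trans ((min_le_left _ _).trans (min_le_left _ _))
  have ht3 : |t| ≤ t₃ := ht.trans ((min_le_left _ _).trans (min_le_right _ _))
  have ht1 : |t| ≤ t₁ := ht2.trans ht₂
  have hto : |t| ≤ 1 := ht.trans ((min_le_right _ _).trans (min_le_left _ _))
  have htE : |t| ≤ 1 / (2 * (E + 1)) := ht.trans ((min_le_right _ _).trans (min_le_right _ _))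
  obtain ⟨s, hs⟩ : ∃ s, s = |t| := ⟨_, rfl⟩
  have hs0 : 0 ≤ s := by
    rw [hs]
    exact abs_nonneg _
  have hmet : Met (G t) := N.met t (by
    rw [Set.mem_Ioo, ← abs_lt]
    exact lt_of_le_of_lt ht1 ht₁)
  have hτE : |τ - 2 * Real.pi| ≤ E * s := by
    rw [hs]
    exact hτ.trans (mul_le_mul_of_nonneg_right hCE (abs_nonneg _))
  have hAE : ‖c τ - c 0‖ ≤ E * s := by
    rw [hs]
    exact hA.trans (mul_le_mul_of_nonneg_right hCE (abs_nonneg _))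
  have hpE : |mom (G t) c 0 ⬝ᵥ (c τ - c 0)| ≤ E * s * ‖c τ - c 0‖ := by
    rw [hs]
    exact hp.trans (mul_le_mul_of_nonneg_right (mul_le_mul_of_nonneg_right hCE (abs_nonneg _))
      (norm_nonneg _))
  have hEs : E * s ≤ 1 / 2 := by
    have h4 : E * s ≤ E * (1 / (2 * (E + 1))) := by
      rw [hs]
      exact mul_le_mul_of_nonneg_left htE hE0
    have h5 : E * (1 / (2 * (E + 1))) ≤ 1 / 2 := by
      rw [mul_one_div, div_le_div_iff₀ (by positivity) (by norm_num)]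
      linarith
    linarith
  have hτI : τ ∈ Set.Icc (0 : ℝ) 7 := by
    have h4 := abs_le.1 (hτE.trans hEs)
    have h5 := Real.pi_gt_three
    have h6 := Real.pi_lt_d2
    rw [Set.mem_Icc]
    constructor <;> linarith [h4.1, h4.2]
  have hK : ∀ c₁, Sol (G t) c₁ → ∀ u, InK (c₁ u) (deriv c₁ u) ∧ ‖deriv c₁ u‖ ≤ 2 := by
    intro c₁ hc₁ u
    have h4 := H.vb t ht1 (c₁ u) (deriv c₁ u) (hc₁.sph u) (hc₁.spd u)
    refine ⟨⟨?_, ?_, by linarith⟩, h4⟩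
    · rw [hc₁.sph u]
      norm_num
    · rw [hc₁.sph u]
      norm_num
  have hmb : ∀ c₁, Sol (G t) c₁ → ∀ u, ‖mom (G t) c₁ u‖ ≤ 2 + C := by
    intro c₁ hc₁ u
    obtain ⟨h4, h5⟩ := hK c₁ hc₁ u
    have h6 := H.mb t ht1 _ _ h4
    have h7 : mom (G t) c₁ u = (mul (G t (c₁ u)) (deriv c₁ u) - deriv c₁ u) + deriv c₁ u := by
      rw [mom]
      abel
    rw [h7]
    refine (norm_add_le _ _).trans ?_
    have h8 : C * |t| ≤ C := mul_le_of_le_one_right hC.le hto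
    linarith
  have hml : ∀ c₁, Sol (G t) c₁ → ∀ u, ‖(mom (G t) c₁ u - mom (G t) c u) -
      (deriv c₁ u - deriv c u)‖ ≤ C * |t| * (‖c₁ u - c u‖ + ‖deriv c₁ u - deriv c u‖) := by
    intro c₁ hc₁ u
    have h6 := H.ml t ht1 _ _ _ _ (hK c hc u).1 (hK c₁ hc₁ u).1
    have h7 : (mom (G t) c₁ u - mom (G t) c u) - (deriv c₁ u - deriv c u) =
        (mul (G t (c₁ u)) (deriv c₁ u) - deriv c₁ u) -
          (mul (G t (c u)) (deriv c u) - deriv c u) := by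
      rw [mom, mom]
      abel
    rw [h7]
    exact h6
  obtain ⟨Cp, hCp, e₀, he₀, hpath⟩ := path (G t) hmet (c 0) (deriv c 0) a b (hc.sph 0)
    (mxd_orth hc 0) (hc.spd 0) h1 h2 h3
  obtain ⟨A, hAdef⟩ : ∃ A, A = c τ - c 0 := ⟨_, rfl⟩
  obtain ⟨B, hBdef⟩ : ∃ B, B = mom (G t) c τ - mom (G t) c 0 := ⟨_, rfl⟩
  rw [← hAdef, ← hBdef, ← hs]
  rw [← hAdef] at hAE hpE
  have hD0 : (0 : ℝ) ≤ (d + 1 : ℝ) := by positivity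
  have key : B ⬝ᵥ a - A ⬝ᵥ b - L₁ * s * ‖A‖ * (‖a‖ + ‖b‖) ≤ 0 := by
    refine mxd_lim _ (L₁ * s * ‖A‖ * (2 * Cp) + L₂ * (‖a‖ + ‖b‖ + 2 * Cp) ^ 2 +
      (d + 1 : ℝ) * ((‖B‖ + ‖A‖) * Cp)) (min e₀ 1) (lt_min he₀ one_pos) ?_
    intro e he he1
    have hee₀ : e < e₀ := lt_of_lt_of_le he1 (min_le_left _ _)
    have he1' : e ≤ 1 := (lt_of_lt_of_le he1 (min_le_right _ _)).le
    obtain ⟨x', v', hx', hxv', hv', ha', hb'⟩ := hpath e he hee₀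
    obtain ⟨c₂, hc₂, hc₂0, hc₂0'⟩ := geo_exists (G t) hmet x' v' hx' hxv' hv'
    rw [← hc₂0] at ha'
    rw [← hc₂0'] at hb'
    obtain ⟨Δ0, hΔ0⟩ : ∃ Δ0, Δ0 = c₂ 0 - c 0 := ⟨_, rfl⟩
    obtain ⟨Δ', hΔ'⟩ : ∃ Δ', Δ' = deriv c₂ 0 - deriv c 0 := ⟨_, rfl⟩
    rw [← hΔ0] at ha'
    rw [← hΔ'] at hb'
    obtain ⟨δ, hδ⟩ : ∃ δ, δ = ‖Δ0‖ + ‖Δ'‖ := ⟨_, rfl⟩
    have hδ0 : 0 ≤ δ := by
      rw [hδ]
      positivity
    have hmaxc := hmax c₂ hc₂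
    obtain ⟨g1, g2, g3, g4⟩ := (Hcls t ht2).2 c c₂ hc hc₂ τ hτI
    have g5 := Hcsv t ht3 c c₂ hc hc₂ τ hτI
    rw [← hΔ0, ← hΔ', ← hδ, ← hs] at g1 g2
    rw [← hΔ0, ← hΔ', ← hδ] at g3 g4 g5
    obtain ⟨m1, m2⟩ := mxd_gc Δ0 Δ' τ (E * s) hτE
    rw [← hδ] at m1 m2
    have n1 : ‖(c₂ τ - c τ) - Δ0‖ ≤ K₁ * s * δ := by
      have e1 : (c₂ τ - c τ) - Δ0 = ((c₂ τ - c τ) - gc Δ0 Δ' τ) + (gc Δ0 Δ' τ - Δ0) := by abel
      rw [e1]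
      refine (norm_add_le _ _).trans ?_
      have e2 : K₁ * s * δ = C₂ * s * δ + E * s * δ := by
        rw [hK₁]
        ring
      rw [e2]
      exact add_le_add g1 m1
    have n2 : ‖(deriv c₂ τ - deriv c τ) - Δ'‖ ≤ K₁ * s * δ := by
      have e1 : (deriv c₂ τ - deriv c τ) - Δ' =
          ((deriv c₂ τ - deriv c τ) - gd Δ0 Δ' τ) + (gd Δ0 Δ' τ - Δ') := by abel
      rw [e1]
      refine (norm_add_le _ _).trans ?_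
      have e2 : K₁ * s * δ = C₂ * s * δ + E * s * δ := by
        rw [hK₁]
        ring
      rw [e2]
      exact add_le_add g2 m2
    have n3 : ‖(mom (G t) c₂ τ - mom (G t) c τ) - Δ'‖ ≤ K₂ * s * δ := by
      have e1 : (mom (G t) c₂ τ - mom (G t) c τ) - Δ' =
          ((mom (G t) c₂ τ - mom (G t) c τ) - (deriv c₂ τ - deriv c τ)) +
            ((deriv c₂ τ - deriv c τ) - Δ') := by abel
      rw [e1]
      refine (norm_add_le _ _).trans ?_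
      have e2 : K₂ * s * δ = 2 * C * C₂ * s * δ + K₁ * s * δ := by
        rw [hK₂]
        ring
      rw [e2]
      refine add_le_add ((hml c₂ hc₂ τ).trans ?_) n2
      rw [← hs]
      have e3 : ‖c₂ τ - c τ‖ + ‖deriv c₂ τ - deriv c τ‖ ≤ 2 * C₂ * δ := by linarith
      have e4 := mul_le_mul_of_nonneg_left e3 (by positivity : 0 ≤ C * s)
      refine e4.trans (le_of_eq ?_)
      ring
    have n4 : ‖mom (G t) c₂ 0 - mom (G t) c 0‖ ≤ (1 + C) * δ := by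
      have e1 : mom (G t) c₂ 0 - mom (G t) c 0 =
          ((mom (G t) c₂ 0 - mom (G t) c 0) - (deriv c₂ 0 - deriv c 0)) + Δ' := by
        rw [hΔ']
        abel
      rw [e1]
      refine (norm_add_le _ _).trans ?_
      have e2 := hml c₂ hc₂ 0
      have e3 : C * |t| * (‖c₂ 0 - c 0‖ + ‖deriv c₂ 0 - deriv c 0‖) ≤ C * δ := by
        rw [← hΔ0, ← hΔ', ← hδ]
        exact mul_le_mul_of_nonneg_right (mul_le_of_le_one_right hC.le hto) hδ0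
      have e4 : ‖Δ'‖ ≤ δ := by
        rw [hδ]
        exact le_add_of_nonneg_left (norm_nonneg _)
      linarith
    have hcore := mxd_core (mom (G t) c τ) (mom (G t) c 0) (mom (G t) c₂ τ) (mom (G t) c₂ 0) A
      (c₂ τ - c₂ 0) (c₂ τ - c τ) Δ0 Δ' C E C₃ K₁ K₂ s δ hC.le hE0 hK₁0 hK₂0 hs0
      (by rw [hs]; exact hto) hδ0 (by rw [hAdef, hΔ0]; abel) n1 n3
      (by rw [hδ]; exact le_add_of_nonneg_left (norm_nonneg _)) n4 (hmb c₂ hc₂ 0) g5 hAE hpE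
      (by
        unfold Wf at hmaxc
        rw [← hAdef] at hmaxc
        linarith)
    rw [← hBdef, ← hL₁, ← hL₂] at hcore
    -- pass to `a`, `b`
    have r1 : B ⬝ᵥ Δ0 = e * (B ⬝ᵥ a) + B ⬝ᵥ (Δ0 - e • a) := by
      rw [dotProduct_sub, dotProduct_smul, smul_eq_mul]
      ring
    have r2 : Δ' ⬝ᵥ A = e * (A ⬝ᵥ b) + (Δ' - e • b) ⬝ᵥ A := by
      rw [sub_dotProduct, smul_dotProduct, smul_eq_mul, dotProduct_comm b A]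
      ring
    have r3 : -(B ⬝ᵥ (Δ0 - e • a)) ≤ (d + 1 : ℝ) * (‖B‖ * (Cp * e ^ 2)) := by
      have := abs_dot_le B (Δ0 - e • a)
      refine (neg_le_abs _).trans (this.trans ?_)
      exact mul_le_mul_of_nonneg_left (mul_le_mul_of_nonneg_left ha' (norm_nonneg _)) hD0
    have r4 : (Δ' - e • b) ⬝ᵥ A ≤ (d + 1 : ℝ) * ((Cp * e ^ 2) * ‖A‖) := by
      have := abs_dot_le (Δ' - e • b) A
      refine (le_abs_self _).trans (this.trans ?_)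
      exact mul_le_mul_of_nonneg_left (mul_le_mul_of_nonneg_right hb' (norm_nonneg _)) hD0
    have r5 : δ ≤ e * (‖a‖ + ‖b‖) + 2 * Cp * e ^ 2 := by
      have q1 : ‖Δ0‖ ≤ e * ‖a‖ + Cp * e ^ 2 := by
        have q2 : Δ0 = e • a + (Δ0 - e • a) := by abel
        calc ‖Δ0‖ = ‖e • a + (Δ0 - e • a)‖ := by rw [← q2]
          _ ≤ ‖e • a‖ + ‖Δ0 - e • a‖ := norm_add_le _ _
          _ ≤ e * ‖a‖ + Cp * e ^ 2 := by
              rw [norm_smul, Real.norm_eq_abs, abs_of_pos he]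
              linarith
      have q3 : ‖Δ'‖ ≤ e * ‖b‖ + Cp * e ^ 2 := by
        have q2 : Δ' = e • b + (Δ' - e • b) := by abel
        calc ‖Δ'‖ = ‖e • b + (Δ' - e • b)‖ := by rw [← q2]
          _ ≤ ‖e • b‖ + ‖Δ' - e • b‖ := norm_add_le _ _
          _ ≤ e * ‖b‖ + Cp * e ^ 2 := by
              rw [norm_smul, Real.norm_eq_abs, abs_of_pos he]
              linarith
      rw [hδ]
      linarith
    have r6 : L₁ * s * δ * ‖A‖ ≤ e * (L₁ * s * ‖A‖ * (‖a‖ + ‖b‖)) +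
        e ^ 2 * (L₁ * s * ‖A‖ * (2 * Cp)) := by
      have q1 : L₁ * s * δ * ‖A‖ = (L₁ * s * ‖A‖) * δ := by ring
      rw [q1]
      have q2 := mul_le_mul_of_nonneg_left r5 (by positivity : 0 ≤ L₁ * s * ‖A‖)
      refine q2.trans (le_of_eq ?_)
      ring
    have r7 : L₂ * δ ^ 2 ≤ e ^ 2 * (L₂ * (‖a‖ + ‖b‖ + 2 * Cp) ^ 2) := by
      have q1 : δ ≤ e * (‖a‖ + ‖b‖ + 2 * Cp) := by
        have q2 : 2 * Cp * e ^ 2 ≤ 2 * Cp * e := by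
          have q3 : e ^ 2 ≤ e := by
            rw [pow_two]
            exact mul_le_of_le_one_right he.le he1'
          exact mul_le_mul_of_nonneg_left q3 (by positivity)
        refine r5.trans ?_
        calc e * (‖a‖ + ‖b‖) + 2 * Cp * e ^ 2 ≤ e * (‖a‖ + ‖b‖) + 2 * Cp * e := by linarith
          _ = _ := by ring
      have q2 : δ ^ 2 ≤ (e * (‖a‖ + ‖b‖ + 2 * Cp)) ^ 2 := pow_le_pow_left₀ hδ0 q1 2
      refine (mul_le_mul_of_nonneg_left q2 hL₂0).trans (le_of_eq ?_)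
      ring
    have r8 : (d + 1 : ℝ) * (‖B‖ * (Cp * e ^ 2)) + (d + 1 : ℝ) * ((Cp * e ^ 2) * ‖A‖) =
        e ^ 2 * ((d + 1 : ℝ) * ((‖B‖ + ‖A‖) * Cp)) := by ring
    have r9 : e * (B ⬝ᵥ a - A ⬝ᵥ b - L₁ * s * ‖A‖ * (‖a‖ + ‖b‖)) =
        e * (B ⬝ᵥ a) - e * (A ⬝ᵥ b) - e * (L₁ * s * ‖A‖ * (‖a‖ + ‖b‖)) := by ring
    rw [r9, _root_.mul_add, _root_.mul_add]
    rw [r1, r2] at hcore
    linarith
  have hfin : L₁ * s * ‖A‖ * (‖a‖ + ‖b‖) ≤ (L₁ + 1) * s * (‖a‖ + ‖b‖) * (‖A‖ + ‖B‖) := by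
    have q1 : L₁ * s * ‖A‖ * (‖a‖ + ‖b‖) = L₁ * s * (‖a‖ + ‖b‖) * ‖A‖ := by ring
    rw [q1]
    refine mul_le_mul (mul_le_mul_of_nonneg_right (mul_le_mul_of_nonneg_right (by linarith) hs0)
      (by positivity)) (le_add_of_nonneg_right (norm_nonneg _)) (norm_nonneg _) (by positivity)
  linarith

end Pool.Agent.Work.MP_659252_gt.QR
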