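import Pool.Agent.Work.MP_659252_gt.QR.A.Csv
import Pool.Agent.Work.MP_659252_gt.QR.A.Est

/-!
# At the maximum the geodesic closes up.  Size: M-L.

Notation: `x = c 0`, `v = c' 0`, `A = c τ - c 0`, `p s = mom (G t) c s`, `B = p τ - p 0`, `m = ‖A‖ + ‖B‖`; `E` is the hypothesis `hE`.
Test vectors: `a = B - (x ⬝ B) x`, `b = -A + α x + β v` with `α = x ⬝ A - v ⬝ a`, `β = p 0 ⬝ A - (1/2) bil (dT G x a) v v`.
They satisfy the three conditions: `x ⬝ a = 0`; `x ⬝ b + v ⬝ a = -x ⬝ A + α + v ⬝ a = 0` (`x ⬝ v = 0`);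
`bil (G x) v b = p 0 ⬝ b = -p 0 ⬝ A + α (p 0 ⬝ x) + β = -(1/2) bil (dT G x a) v v` (`p 0 ⬝ x = bil (G x) v x = v ⬝ x = 0`, `p 0 ⬝ v = 1`).
BOUNDS (all `≤ C |t| m`).  `x ⬝ p 0 = 0`, `c τ ⬝ p τ = 0` (`rad` and `c ⬝ c' = 0`), so `x ⬝ B = x ⬝ p τ = -A ⬝ p τ = -A ⬝ p 0 - A ⬝ B`, and
`|A ⬝ p 0| ≤ C₀ |t| ‖A‖`, `|A ⬝ B| ≤ (d+1) C₀ |t| ‖B‖`.  `x ⬝ A = -(A ⬝ A)/2` (`|x| = |x + A| = 1`), `≤ C |t| ‖A‖`.
`v ⬝ a = v ⬝ B` (`v ⬝ x = 0`), `v ⬝ B = p 0 ⬝ B + (v - p 0) ⬝ B`, `‖v - p 0‖ ≤ C |t|` (`mb`);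
`2 p 0 ⬝ B = p τ ⬝ p τ - p 0 ⬝ p 0 - B ⬝ B`, and `p ⬝ p = p ⬝ c' + p ⬝ (p - c') = 1 + p ⬝ (p - c')`, so
`p τ ⬝ p τ - p 0 ⬝ p 0 = p τ ⬝ (q τ - q 0) + B ⬝ q 0` with `q = p - c' = mul (G c) c' - c'`, `‖q‖ ≤ C |t|` (`mb`),
`‖q τ - q 0‖ ≤ C |t| (‖A‖ + ‖c' τ - c' 0‖)` (`ml`), `‖c' τ - c' 0‖ ≤ ‖B‖ + ‖q τ - q 0‖`, so `‖c' τ - c' 0‖ ≤ 2 m` for small `t`; and `B ⬝ B ≤ (d+1) C₀ |t| ‖B‖`.
`β`: `|p 0 ⬝ A| ≤ C₀ |t| ‖A‖`, `db` and `‖a‖ ≤ C m`.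
So `‖a‖ + ‖b‖ ≤ C m`, `B ⬝ a - A ⬝ b = B ⬝ B - (x ⬝ B)² + A ⬝ A - α (A ⬝ x) - β (A ⬝ v) ≥ B ⬝ B + A ⬝ A - C |t| m²`, and `hE` gives
`A ⬝ A + B ⬝ B ≤ C |t| m²`.  As `m² ≤ 2 ‖A‖² + 2 ‖B‖² ≤ 2 (A ⬝ A + B ⬝ B)`, for `2 C |t| < 1` we get `m = 0`.
Then `c τ = c 0`, `mul (G x) (c' τ) = mul (G x) (c' 0)`, so `bil (G x) w w = 0` for `w = c' τ - c' 0`, `w = 0` (`pos`).
-/

namespace Pool.Agent.Work.MP_659252_gt.QR

open scoped ContDiff Topology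
open Pool.Agent.Work.MP_659252_gt.Z (V Ten val Tan InT IsZoll IsMetric IsGeodesic)

variable {d : ℕ}

private theorem mE_core {x v A B q0 q1 v1 p0 p1 : V d} {T : V d → ℝ} {k : ℝ} (hk0 : 0 ≤ k)
    (hk1 : k ≤ 1 / 4)
    (hkD : 2 * (k * (8 + 20 * ((d : ℝ) + 1) + 13 * ((d : ℝ) + 1) ^ 2)) < 1)
    (hx : x ⬝ᵥ x = 1) (hxv : x ⬝ᵥ v = 0) (hp0 : p0 = v + q0) (hp1 : p1 = v1 + q1)
    (hB : B = p1 - p0) (hxp0 : x ⬝ᵥ p0 = 0) (hxp1 : (x + A) ⬝ᵥ p1 = 0)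
    (hxA : (x + A) ⬝ᵥ (x + A) = 1) (hpv0 : p0 ⬝ᵥ v = 1) (hpv1 : p1 ⬝ᵥ v1 = 1)
    (hq0 : ‖q0‖ ≤ k) (hq1 : ‖q1‖ ≤ k) (hqq : ‖q1 - q0‖ ≤ k * (‖A‖ + ‖v1 - v‖))
    (hv : ‖v‖ ≤ 2) (hv1 : ‖v1‖ ≤ 2) (hAk : ‖A‖ ≤ k) (hBk : ‖B‖ ≤ k)
    (hpA : |p0 ⬝ᵥ A| ≤ k * ‖A‖) (hT : ∀ a, |T a| ≤ k * (‖a‖ * 4))
    (hE : ∀ a b : V d, x ⬝ᵥ a = 0 → x ⬝ᵥ b + v ⬝ᵥ a = 0 → 2 * (p0 ⬝ᵥ b) + T a = 0 →
      B ⬝ᵥ a - A ⬝ᵥ b ≤ k * (‖a‖ + ‖b‖) * (‖A‖ + ‖B‖)) : A = 0 ∧ B = 0 := by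
  set n : ℝ := (d : ℝ) + 1 with hn
  have hn1 : 1 ≤ n := by rw [hn]; linarith [(Nat.cast_nonneg d : (0 : ℝ) ≤ d)]
  set m : ℝ := ‖A‖ + ‖B‖ with hm
  have hA0 : 0 ≤ ‖A‖ := norm_nonneg _
  have hB0 : 0 ≤ ‖B‖ := norm_nonneg _
  have hm0 : 0 ≤ m := by positivity
  have hAm : ‖A‖ ≤ m := by linarith
  have hBm : ‖B‖ ≤ m := by linarith
  have hxn : ‖x‖ ≤ 1 := by
    have h1 := norm_sq_le_dot x
    rw [hx] at h1
    nlinarith [norm_nonneg x]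
  have hkm : 0 ≤ k * m := mul_nonneg hk0 hm0
  have hdot : ∀ (u w : V d) (r s : ℝ), ‖u‖ ≤ r → ‖w‖ ≤ s → |u ⬝ᵥ w| ≤ n * (r * s) := by
    intro u w r s hu hw
    refine (abs_dot_le u w).trans ?_
    rw [← hn]
    have hr : 0 ≤ r := (norm_nonneg u).trans hu
    have := mul_le_mul hu hw (norm_nonneg _) hr
    exact mul_le_mul_of_nonneg_left this (by linarith)
  have hp1B : p1 = p0 + B := by rw [hB]; abel
  -- x . B
  have s1 : x ⬝ᵥ B = -(p0 ⬝ᵥ A) - A ⬝ᵥ B := by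
    rw [hp1B, add_dotProduct, dotProduct_add, dotProduct_add, hxp0] at hxp1
    rw [dotProduct_comm p0 A]
    linarith
  have s1a : |x ⬝ᵥ B| ≤ (1 + n) * (k * m) := by
    rw [s1]
    have h1 := hdot A B m k hAm hBk
    have h2 : k * ‖A‖ ≤ k * m := mul_le_mul_of_nonneg_left hAm hk0
    calc |-(p0 ⬝ᵥ A) - A ⬝ᵥ B| ≤ |-(p0 ⬝ᵥ A)| + |A ⬝ᵥ B| := abs_sub _ _
      _ ≤ k * m + n * (m * k) := by rw [abs_neg]; linarith
      _ = (1 + n) * (k * m) := by ring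
  have s1b : |x ⬝ᵥ B| ≤ n * m := by
    have h1 := hdot x B 1 m hxn hBm
    rwa [one_mul] at h1
  -- x . A
  have s2 : x ⬝ᵥ A = -(A ⬝ᵥ A) / 2 := by
    rw [add_dotProduct, dotProduct_add, dotProduct_add, hx, dotProduct_comm A x] at hxA
    linarith
  have s2a : |x ⬝ᵥ A| ≤ n * (k * m) := by
    have h1 := hdot A A m k hAm hAk
    have h2 : 0 ≤ n * (k * m) := by positivity
    rw [s2, abs_div, abs_neg, abs_two]
    have h3 : n * (m * k) = n * (k * m) := by ring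
    linarith
  have s2b : |x ⬝ᵥ A| ≤ n * m := by
    have h1 := hdot x A 1 m hxn hAm
    rwa [one_mul] at h1
  -- velocities
  have s3 : ‖v1 - v‖ ≤ 2 * m := by
    have h1 : v1 - v = B - (q1 - q0) := by
      rw [hB, hp0, hp1]; abel
    have h2 : ‖v1 - v‖ ≤ ‖B‖ + k * (‖A‖ + ‖v1 - v‖) := by
      conv_lhs => rw [h1]
      exact (norm_sub_le _ _).trans (by linarith)
    have h3 : 0 ≤ ‖v1 - v‖ := norm_nonneg _
    have h4 : k * (‖A‖ + ‖v1 - v‖) ≤ 1 / 4 * (‖A‖ + ‖v1 - v‖) :=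
      mul_le_mul_of_nonneg_right hk1 (by linarith)
    linarith
  have s4 : ‖q1 - q0‖ ≤ 3 * (k * m) := by
    refine hqq.trans ?_
    have : k * (‖A‖ + ‖v1 - v‖) ≤ k * (m + 2 * m) :=
      mul_le_mul_of_nonneg_left (by linarith) hk0
    linarith
  have s5 : ‖p1‖ ≤ 3 := by
    rw [hp1]
    exact (norm_add_le _ _).trans (by linarith)
  have s6 : 2 * (p0 ⬝ᵥ B) = p1 ⬝ᵥ (q1 - q0) + B ⬝ᵥ q0 - B ⬝ᵥ B := by
    have h1 : p1 ⬝ᵥ p1 = 1 + p1 ⬝ᵥ q1 := by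
      conv_lhs => rw [hp1, ← hp1, hp1, dotProduct_add]
      rw [← hp1, hpv1]
    have h2 : p0 ⬝ᵥ p0 = 1 + p0 ⬝ᵥ q0 := by
      have h3 : p0 ⬝ᵥ p0 = p0 ⬝ᵥ (v + q0) := by rw [← hp0]
      rw [h3, dotProduct_add, hpv0]
    have h3 : p1 ⬝ᵥ p1 = p0 ⬝ᵥ p0 + 2 * (p0 ⬝ᵥ B) + B ⬝ᵥ B := by
      rw [hp1B, add_dotProduct, dotProduct_add, dotProduct_add, dotProduct_comm B p0]
      ring
    have h4 : p1 ⬝ᵥ q0 = p0 ⬝ᵥ q0 + B ⬝ᵥ q0 := by rw [hp1B, add_dotProduct]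
    rw [dotProduct_sub]
    linarith
  have s7 : |p0 ⬝ᵥ B| ≤ 11 / 2 * (n * (k * m)) := by
    have h1 := hdot p1 (q1 - q0) 3 (3 * (k * m)) s5 s4
    have h2 := hdot B q0 m k hBm hq0
    have h3 := hdot B B m k hBm hBk
    have h4 : |2 * (p0 ⬝ᵥ B)| ≤ 11 * (n * (k * m)) := by
      rw [s6]
      calc |p1 ⬝ᵥ (q1 - q0) + B ⬝ᵥ q0 - B ⬝ᵥ B| ≤
          |p1 ⬝ᵥ (q1 - q0)| + |B ⬝ᵥ q0| + |B ⬝ᵥ B| :=
            (abs_sub _ _).trans (add_le_add_left (abs_add_le _ _) _)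
        _ ≤ n * (3 * (3 * (k * m))) + n * (m * k) + n * (m * k) := by linarith
        _ = 11 * (n * (k * m)) := by ring
    rw [abs_mul, abs_two] at h4
    linarith
  have s8 : |v ⬝ᵥ B| ≤ 7 * (n * (k * m)) := by
    have h1 := hdot q0 B k m hq0 hBm
    have h2 : v ⬝ᵥ B = p0 ⬝ᵥ B - q0 ⬝ᵥ B := by rw [hp0, add_dotProduct]; ring
    rw [h2]
    have h3 : 0 ≤ n * (k * m) := by positivity
    refine (abs_sub _ _).trans ?_
    linarith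
  -- the test vectors
  set a : V d := B - (x ⬝ᵥ B) • x with ha
  have a1 : x ⬝ᵥ a = 0 := by
    rw [ha, dotProduct_sub, dotProduct_smul, hx, smul_eq_mul, mul_one, sub_self]
  have a2 : v ⬝ᵥ a = v ⬝ᵥ B := by
    rw [ha, dotProduct_sub, dotProduct_smul, dotProduct_comm v x, hxv, smul_zero, sub_zero]
  have a3 : ‖a‖ ≤ (1 + n) * m := by
    have h1 : ‖(x ⬝ᵥ B) • x‖ ≤ n * m := by
      rw [norm_smul, Real.norm_eq_abs]
      calc |x ⬝ᵥ B| * ‖x‖ ≤ (n * m) * 1 := mul_le_mul s1b hxn (norm_nonneg _) (by positivity)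
        _ = n * m := mul_one _
    rw [ha]
    refine (norm_sub_le _ _).trans ?_
    linarith
  set α : ℝ := x ⬝ᵥ A - v ⬝ᵥ a with hα
  set β : ℝ := p0 ⬝ᵥ A - (1 / 2) * T a with hβ
  have b1 : |α| ≤ 8 * (n * (k * m)) := by
    rw [hα, a2]
    refine (abs_sub _ _).trans ?_
    linarith
  have b2 : |β| ≤ (3 + 2 * n) * (k * m) := by
    have h1 := hT a
    have h2 : k * (‖a‖ * 4) ≤ k * ((1 + n) * m * 4) := by
      exact mul_le_mul_of_nonneg_left (mul_le_mul_of_nonneg_right a3 (by norm_num)) hk0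
    have h3 : k * ‖A‖ ≤ k * m := mul_le_mul_of_nonneg_left hAm hk0
    rw [hβ]
    refine (abs_sub _ _).trans ?_
    rw [abs_mul, abs_of_pos (by norm_num : (0 : ℝ) < 1 / 2)]
    calc |p0 ⬝ᵥ A| + 1 / 2 * |T a| ≤ k * m + 1 / 2 * (k * ((1 + n) * m * 4)) := by linarith
      _ = (3 + 2 * n) * (k * m) := by ring
  set b : V d := -A + α • x + β • v with hb
  have b3 : ‖b‖ ≤ (7 + 12 * n) * m := by
    have h1 : ‖α • x‖ ≤ 8 * (n * (k * m)) := by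
      rw [norm_smul, Real.norm_eq_abs]
      calc |α| * ‖x‖ ≤ 8 * (n * (k * m)) * 1 :=
            mul_le_mul b1 hxn (norm_nonneg _) (by positivity)
        _ = 8 * (n * (k * m)) := mul_one _
    have h2 : ‖β • v‖ ≤ (3 + 2 * n) * (k * m) * 2 := by
      rw [norm_smul, Real.norm_eq_abs]
      exact mul_le_mul b2 hv (norm_nonneg _) (by positivity)
    have h3 : k * m ≤ m := by nlinarith
    have h4 : n * (k * m) ≤ n * m := mul_le_mul_of_nonneg_left h3 (by linarith)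
    rw [hb]
    refine (norm_add_le _ _).trans ?_
    have h5 : ‖-A + α • x‖ ≤ ‖A‖ + ‖α • x‖ := by
      refine (norm_add_le _ _).trans ?_
      rw [norm_neg]
    have h6 : (3 + 2 * n) * (k * m) * 2 = 6 * (k * m) + 4 * (n * (k * m)) := by ring
    have h7 : (7 + 12 * n) * m = m + 8 * (n * m) + (6 * m + 4 * (n * m)) := by ring
    linarith
  have b4 : x ⬝ᵥ b + v ⬝ᵥ a = 0 := by
    rw [hb, dotProduct_add, dotProduct_add, dotProduct_neg, dotProduct_smul, dotProduct_smul, hx,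
      hxv, smul_eq_mul, smul_eq_mul, hα]
    ring
  have b5 : 2 * (p0 ⬝ᵥ b) + T a = 0 := by
    rw [hb, dotProduct_add, dotProduct_add, dotProduct_neg, dotProduct_smul, dotProduct_smul,
      hpv0, dotProduct_comm p0 x, hxp0, smul_eq_mul, smul_eq_mul, hβ]
    ring
  have c1 := hE a b a1 b4 b5
  have c2 : B ⬝ᵥ a = B ⬝ᵥ B - (x ⬝ᵥ B) ^ 2 := by
    rw [ha, dotProduct_sub, dotProduct_smul, dotProduct_comm B x, smul_eq_mul]
    ring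
  have c3 : A ⬝ᵥ b = -(A ⬝ᵥ A) + α * (x ⬝ᵥ A) + β * (A ⬝ᵥ v) := by
    rw [hb, dotProduct_add, dotProduct_add, dotProduct_neg, dotProduct_smul, dotProduct_smul,
      dotProduct_comm A x, smul_eq_mul, smul_eq_mul]
  have c4 : (x ⬝ᵥ B) ^ 2 ≤ (1 + n) * (k * m) * (n * m) := by
    rw [← sq_abs, sq]
    exact mul_le_mul s1a s1b (abs_nonneg _) (by positivity)
  have c5 : α * (x ⬝ᵥ A) ≤ 8 * (n * (k * m)) * (n * m) := by
    refine (le_abs_self _).trans ?_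
    rw [abs_mul]
    exact mul_le_mul b1 s2b (abs_nonneg _) (by positivity)
  have c6 : β * (A ⬝ᵥ v) ≤ (3 + 2 * n) * (k * m) * (n * (m * 2)) := by
    refine (le_abs_self _).trans ?_
    rw [abs_mul]
    exact mul_le_mul b2 (hdot A v m 2 hAm hv) (abs_nonneg _) (by positivity)
  have c7 : k * (‖a‖ + ‖b‖) * m ≤ k * ((1 + n) * m + (7 + 12 * n) * m) * m := by
    gcongr
  have c8 : A ⬝ᵥ A + B ⬝ᵥ B ≤ k * (8 + 20 * n + 13 * n ^ 2) * m ^ 2 := by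
    have e1 : k * (8 + 20 * n + 13 * n ^ 2) * m ^ 2 =
        k * ((1 + n) * m + (7 + 12 * n) * m) * m + (1 + n) * (k * m) * (n * m) +
          8 * (n * (k * m)) * (n * m) + (3 + 2 * n) * (k * m) * (n * (m * 2)) := by ring
    rw [e1]
    rw [c2, c3] at c1
    linarith
  have c9 : m ^ 2 ≤ 2 * (A ⬝ᵥ A + B ⬝ᵥ B) := by
    have h1 := norm_sq_le_dot A
    have h2 := norm_sq_le_dot B
    have h3 : m ^ 2 ≤ 2 * ‖A‖ ^ 2 + 2 * ‖B‖ ^ 2 := by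
      rw [hm]
      nlinarith [sq_nonneg (‖A‖ - ‖B‖)]
    linarith
  have c10 : m ^ 2 = 0 := by
    by_contra hne
    have hpos : 0 < m ^ 2 := lt_of_le_of_ne (sq_nonneg m) (Ne.symm hne)
    have h1 : m ^ 2 ≤ (2 * (k * (8 + 20 * n + 13 * n ^ 2))) * m ^ 2 := by
      have : (2 * (k * (8 + 20 * n + 13 * n ^ 2))) * m ^ 2 =
        2 * (k * (8 + 20 * n + 13 * n ^ 2) * m ^ 2) := by ring
      linarith
    have h2 : (2 * (k * (8 + 20 * n + 13 * n ^ 2))) * m ^ 2 < 1 * m ^ 2 :=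
      mul_lt_mul_of_pos_right hkD hpos
    linarith
  have c11 : m = 0 := by
    rwa [sq_eq_zero_iff] at c10
  exact ⟨norm_eq_zero.1 (by linarith), norm_eq_zero.1 (by linarith)⟩

theorem maxE (ε : ℝ) (G : ℝ → Ten d) (N : Nice ε G) (C₀ : ℝ) :
    ∃ t₁ > 0, t₁ < ε ∧ ∀ t, |t| ≤ t₁ → ∀ (c : ℝ → V d) (τ : ℝ), Sol (G t) c →
      |τ - 2 * Real.pi| ≤ C₀ * |t| → ‖c τ - c 0‖ ≤ C₀ * |t| →
      |mom (G t) c 0 ⬝ᵥ (c τ - c 0)| ≤ C₀ * |t| * ‖c τ - c 0‖ →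
      ‖mom (G t) c τ - mom (G t) c 0‖ ≤ C₀ * |t| →
      (∀ a b : V d, c 0 ⬝ᵥ a = 0 → c 0 ⬝ᵥ b + deriv c 0 ⬝ᵥ a = 0 →
        2 * bil (G t (c 0)) (deriv c 0) b + bil (dT (G t) (c 0) a) (deriv c 0) (deriv c 0) = 0 →
        (mom (G t) c τ - mom (G t) c 0) ⬝ᵥ a - (c τ - c 0) ⬝ᵥ b ≤
          C₀ * |t| * (‖a‖ + ‖b‖) * (‖c τ - c 0‖ + ‖mom (G t) c τ - mom (G t) c 0‖)) →
      c τ = c 0 ∧ deriv c τ = deriv c 0 := by
  obtain ⟨C, t₁, ht₁, H⟩ := est ε G N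
  set K : ℝ := |C₀| + C + 1 with hK
  have hC := H.Cpos
  have hK1 : 1 ≤ K := by rw [hK]; linarith [abs_nonneg C₀]
  have hCK : C ≤ K := by rw [hK]; linarith [abs_nonneg C₀]
  have hC0K : C₀ ≤ K := by rw [hK]; linarith [le_abs_self C₀]
  set D : ℝ := 8 + 20 * ((d : ℝ) + 1) + 13 * ((d : ℝ) + 1) ^ 2 with hD
  have hD8 : 8 ≤ D := by rw [hD]; nlinarith [(Nat.cast_nonneg d : (0 : ℝ) ≤ d)]
  refine ⟨min t₁ (1 / (4 * (K * D))), lt_min H.tpos (by positivity),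
    lt_of_le_of_lt (min_le_left _ _) ht₁, ?_⟩
  intro t ht c τ hc hτ hA hpA hB hE
  have htt : |t| ≤ t₁ := ht.trans (min_le_left _ _)
  have htK : |t| ≤ 1 / (4 * (K * D)) := ht.trans (min_le_right _ _)
  have htε : t ∈ Set.Ioo (-ε) ε := by
    have h3 : |t| < ε := by linarith
    rw [abs_lt] at h3
    exact h3
  have hM := N.met t htε
  have ht0 : 0 ≤ |t| := abs_nonneg t
  have hk0 : 0 ≤ K * |t| := by positivity
  have hkD : K * |t| * D ≤ 1 / 4 := by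
    have h1 : |t| * (4 * (K * D)) ≤ 1 := by
      rwa [le_div_iff₀ (by positivity)] at htK
    linarith
  have hk1 : K * |t| ≤ 1 / 4 := by nlinarith
  have hne : ∀ s, c s ≠ 0 := fun s => ne_zero_of_dot (hc.sph s)
  have hv2 : ∀ s, ‖deriv c s‖ ≤ 2 := fun s => H.vb t htt (c s) (deriv c s) (hc.sph s) (hc.spd s)
  have hIn : ∀ u, InK (c u) (deriv c u) := by
    intro u
    refine ⟨?_, ?_, ?_⟩
    · rw [hc.sph u]; norm_num
    · rw [hc.sph u]; norm_num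
    · linarith [hv2 u]
  have hcd : ∀ s, HasDerivAt c (deriv c s) s := fun s =>
    ((hc.smooth.differentiable (by simp)) s).hasDerivAt
  have hperp : ∀ s, c s ⬝ᵥ deriv c s = 0 := by
    intro s
    have h1 : HasDerivAt (fun u => ∑ i, c u i * c u i)
        (∑ i, (deriv c s i * c s i + c s i * deriv c s i)) s :=
      HasDerivAt.fun_sum fun i _ => ((hasDerivAt_pi.1 (hcd s)) i).mul ((hasDerivAt_pi.1 (hcd s)) i)
    have h2 : (fun u => ∑ i, c u i * c u i) = fun _ => (1 : ℝ) := by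
      funext u
      exact hc.sph u
    rw [h2] at h1
    have h3 := h1.unique (hasDerivAt_const s (1 : ℝ))
    rw [Finset.sum_add_distrib] at h3
    have h4 : ∑ i, deriv c s i * c s i = ∑ i, c s i * deriv c s i :=
      Finset.sum_congr rfl fun i _ => mul_comm _ _
    rw [h4] at h3
    show ∑ i, c s i * deriv c s i = 0
    linarith
  have hcp : ∀ s, c s ⬝ᵥ mom (G t) c s = 0 := by
    intro s
    rw [mom, ← bil_eq_dot, hM.rad _ (hne s), hperp s]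
  have hpv : ∀ s, mom (G t) c s ⬝ᵥ deriv c s = 1 := by
    intro s
    rw [dotProduct_comm, mom, ← bil_eq_dot, hc.spd s]
  have hCt : C * |t| ≤ K * |t| := mul_le_mul_of_nonneg_right hCK ht0
  have hCt0 : C₀ * |t| ≤ K * |t| := mul_le_mul_of_nonneg_right hC0K ht0
  have hq : ∀ s, ‖mul (G t (c s)) (deriv c s) - deriv c s‖ ≤ K * |t| := fun s =>
    (H.mb t htt _ _ (hIn s)).trans hCt
  have hcore := mE_core (d := d) (x := c 0) (v := deriv c 0) (A := c τ - c 0)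
    (B := mom (G t) c τ - mom (G t) c 0) (q0 := mul (G t (c 0)) (deriv c 0) - deriv c 0)
    (q1 := mul (G t (c τ)) (deriv c τ) - deriv c τ) (v1 := deriv c τ)
    (p0 := mom (G t) c 0) (p1 := mom (G t) c τ)
    (T := fun a => bil (dT (G t) (c 0) a) (deriv c 0) (deriv c 0)) (k := K * |t|) hk0 hk1
    (by rw [← hD]; linarith) (hc.sph 0) (hperp 0) (by rw [mom]; abel) (by rw [mom]; abel) rfl
    (hcp 0) (by rw [add_sub_cancel]; exact hcp τ) (by rw [add_sub_cancel]; exact hc.sph τ)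
    (hpv 0) (hpv τ) (hq 0) (hq τ)
    ((H.ml t htt _ _ _ _ (hIn 0) (hIn τ)).trans
      (mul_le_mul_of_nonneg_right hCt (by positivity)))
    (hv2 0) (hv2 τ) (hA.trans hCt0) (hB.trans hCt0)
    (hpA.trans (mul_le_mul_of_nonneg_right hCt0 (norm_nonneg _)))
    (fun a => by
      have h1 := H.db t htt (c 0) (by rw [hc.sph 0]; norm_num) (by rw [hc.sph 0]; norm_num) a
        (deriv c 0) (deriv c 0)
      refine h1.trans ?_
      have h2 : ‖deriv c 0‖ * ‖deriv c 0‖ ≤ 4 := by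
        have := hv2 0
        nlinarith [norm_nonneg (deriv c 0)]
      exact mul_le_mul hCt (mul_le_mul_of_nonneg_left h2 (norm_nonneg _)) (by positivity) hk0)
    (fun a b h1 h2 h3 => by
      have h4 : bil (G t (c 0)) (deriv c 0) b = mom (G t) c 0 ⬝ᵥ b := by
        rw [bil_comm (hM.symm _ (hne 0)), bil_eq_dot, dotProduct_comm, mom]
      refine (hE a b h1 h2 (by rw [h4]; exact h3)).trans ?_
      refine mul_le_mul_of_nonneg_right (mul_le_mul_of_nonneg_right hCt0 (by positivity))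
        (by positivity))
  obtain ⟨h1, h2⟩ := hcore
  have h3 : c τ = c 0 := sub_eq_zero.1 h1
  refine ⟨h3, ?_⟩
  have h4 : mul (G t (c 0)) (deriv c τ - deriv c 0) = 0 := by
    have h5 : mul (G t (c 0)) (deriv c τ - deriv c 0) =
        mul (G t (c 0)) (deriv c τ) - mul (G t (c 0)) (deriv c 0) := by
      have h6 : deriv c τ - deriv c 0 = deriv c τ + (-1 : ℝ) • deriv c 0 := by
        rw [neg_one_smul, sub_eq_add_neg]
      rw [h6, mul_add, mul_smul, neg_one_smul, sub_eq_add_neg]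
    rw [h5]
    have h6 : mul (G t (c τ)) (deriv c τ) - mul (G t (c 0)) (deriv c 0) = 0 := h2
    rwa [h3] at h6
  by_contra hne'
  have h5 := hM.pos (c 0) (hne 0) (deriv c τ - deriv c 0) (sub_ne_zero.2 hne')
  rw [bil_eq_dot, h4, dotProduct_zero] at h5
  exact lt_irrefl _ h5

end Pool.Agent.Work.MP_659252_gt.QR
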