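import Pool.Agent.Work.MP_659252_gt.QR.Bas

/-!
# The normal form of a metric.  Size: M (may be split between two seats: algebra / smoothness).

For `x ≠ 0` let `u = x/|x|`, `P = 1 - u uᵀ` and `nrm G x = u uᵀ + P (G u) P`: entries `u_i u_j + bil (G u) (P e_i) (P e_j)`,
`pj u i = P e_i = e_i - u_i u`.
PROOF.  For `y : V d`: `∑ i, y i • pj u i = y - (u ⬝ y) • u =: y'` is tangent at `u` (if `u ⬝ u = 1`), so
`bil (nrm G x) y z = (u ⬝ y)(u ⬝ z) + bil (G u) y' z'` (bilinearity).  Consequences: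
* `nrm_hom`: `u` does not change for `c > 0`.  `nrm_symm`: `G u` symmetric.
* `nrm_rad`: `x' = 0`, `(u ⬝ x)(u ⬝ v) = x ⬝ v`.  `nrm_tan`: for `x ⬝ x = 1`: `u = x`, `v' = v`, `w' = w`.
* `nrm_pos`: `(u ⬝ v)² + bil (G u) v' v'`; if `v' ≠ 0` the second term is `> 0`, otherwise `v = (u ⬝ v) u ≠ 0`.
* `nrm_round`: `(u ⬝ v)(u ⬝ w) + v' ⬝ w' = v ⬝ w`.
* `nrm_smooth`: `x ↦ u` is smooth on `x ≠ 0` (`√` of a positive number), with values `≠ 0`; compose.
* `nrm_deriv`: `nrm (G t) x i j = u_i u_j + bil (G t u) (P e_i) (P e_j)` has derivative `bil (h u) (P e_i) (P e_j)` at `t = 0`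
  by hypothesis; and `h` is tangential and symmetric, so this is `h u i j = h x i j` (`hom` with `c = √(x⬝x)`; `ee i = pj u i + u_i u`).
-/

namespace Pool.Agent.Work.MP_659252_gt.QR

open scoped ContDiff Topology
open Pool.Agent.Work.MP_659252_gt.Z (V Ten val Tan InT IsZoll IsMetric IsGeodesic)

variable {d : ℕ}

/-- The orthogonal projection of the `i`-th basis vector to the complement of the unit vector `u`. -/
def pj (u : V d) (i : Fin (d + 1)) : V d := fun j => (if j = i then 1 else 0) - u i * u j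

/-- The unit vector of `x`. -/
noncomputable def un (x : V d) : V d := (√(x ⬝ᵥ x))⁻¹ • x

/-- The normal form of `G`. -/
noncomputable def nrm (G : Ten d) : Ten d := fun x i j => un x i * un x j + bil (G (un x)) (pj (un x) i) (pj (un x) j)

private theorem bil_sum_left {ι : Type*} (s : Finset ι) (M : Mat d) (c : ι → ℝ) (v : ι → V d) (w : V d) :
    bil M (∑ i ∈ s, c i • v i) w = ∑ i ∈ s, c i * bil M (v i) w := by
  classical
  induction s using Finset.induction_on with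
  | empty => simp [bil]
  | insert a s ha ih => rw [Finset.sum_insert ha, Finset.sum_insert ha, bil_add_left, bil_smul_left, ih]

private theorem bil_sum_right {ι : Type*} (s : Finset ι) (M : Mat d) (c : ι → ℝ) (v : V d) (w : ι → V d) :
    bil M v (∑ i ∈ s, c i • w i) = ∑ i ∈ s, c i * bil M v (w i) := by
  classical
  induction s using Finset.induction_on with
  | empty => simp [bil]
  | insert a s ha ih => rw [Finset.sum_insert ha, Finset.sum_insert ha, bil_add_right, bil_smul_right, ih]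

/-- the tangential part -/
private noncomputable def tp (u y : V d) : V d := y - (u ⬝ᵥ y) • u

private theorem sum_pj (u y : V d) : ∑ i, y i • pj u i = tp u y := by
  funext k
  simp only [Finset.sum_apply, Pi.smul_apply, smul_eq_mul, pj, tp, Pi.sub_apply, dotProduct]
  simp only [mul_sub, Finset.sum_sub_distrib, mul_ite, mul_one, mul_zero]
  rw [Finset.sum_ite_eq Finset.univ k, if_pos (Finset.mem_univ k), Finset.sum_mul]
  congr 1
  exact Finset.sum_congr rfl fun j _ => by ring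

private theorem bil_nrm (G : Ten d) (x y z : V d) :
    bil (nrm G x) y z = (un x ⬝ᵥ y) * (un x ⬝ᵥ z) + bil (G (un x)) (tp (un x) y) (tp (un x) z) := by
  rw [← sum_pj, ← sum_pj, bil_sum_left]
  simp only [bil_sum_right]
  simp only [dotProduct, Finset.sum_mul_sum]
  rw [← Finset.sum_add_distrib]
  have h0 : bil (nrm G x) y z = ∑ i, ∑ j, nrm G x i j * (y i * z j) := rfl
  rw [h0]
  refine Finset.sum_congr rfl fun i _ => ?_
  rw [Finset.mul_sum, ← Finset.sum_add_distrib]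
  refine Finset.sum_congr rfl fun j _ => ?_
  unfold nrm
  ring

private theorem dot_pos {x : V d} (hx : x ≠ 0) : 0 < x ⬝ᵥ x := by
  refine lt_of_le_of_ne (dot_self_nonneg x) fun h => hx ?_
  have h1 := norm_sq_le_dot x
  rw [← h] at h1
  have h2 : ‖x‖ = 0 := by
    have := norm_nonneg x
    nlinarith
  exact norm_eq_zero.1 h2

private theorem un_dot {x : V d} (hx : x ≠ 0) : un x ⬝ᵥ un x = 1 := by
  have h := dot_pos hx
  have h1 : √(x ⬝ᵥ x) ≠ 0 := (Real.sqrt_pos.2 h).ne'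
  unfold un
  rw [smul_dotProduct, dotProduct_smul, smul_eq_mul, smul_eq_mul]
  have h2 : x ⬝ᵥ x = √(x ⬝ᵥ x) * √(x ⬝ᵥ x) := (Real.mul_self_sqrt h.le).symm
  conv_lhs => rw [h2]
  rw [Real.sqrt_mul_self (Real.sqrt_nonneg _)]
  field_simp

private theorem un_self {x : V d} (hx : x ⬝ᵥ x = 1) : un x = x := by
  unfold un
  rw [hx, Real.sqrt_one, inv_one, one_smul]

private theorem un_x {x : V d} (hx : x ≠ 0) : un x ⬝ᵥ x = √(x ⬝ᵥ x) := by
  have h := dot_pos hx
  have h1 : √(x ⬝ᵥ x) ≠ 0 := (Real.sqrt_pos.2 h).ne'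
  unfold un
  rw [smul_dotProduct, smul_eq_mul]
  have h2 : x ⬝ᵥ x = √(x ⬝ᵥ x) * √(x ⬝ᵥ x) := (Real.mul_self_sqrt h.le).symm
  conv_lhs => rw [h2]
  rw [Real.sqrt_mul_self (Real.sqrt_nonneg _)]
  field_simp

private theorem x_un {x : V d} (hx : x ≠ 0) : √(x ⬝ᵥ x) • un x = x := by
  have h := dot_pos hx
  have h1 : √(x ⬝ᵥ x) ≠ 0 := (Real.sqrt_pos.2 h).ne'
  unfold un
  rw [smul_smul, mul_inv_cancel₀ h1, one_smul]

private theorem tan_tp {u : V d} (hu : u ⬝ᵥ u = 1) (y : V d) : Tan u (tp u y) := by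
  refine ⟨hu, ?_⟩
  unfold tp
  rw [dotProduct_sub, dotProduct_smul, hu, smul_eq_mul]
  ring

private theorem un_hom (c : ℝ) (x : V d) (hc : 0 < c) : un (c • x) = un x := by
  unfold un
  rw [smul_dotProduct, dotProduct_smul, smul_eq_mul, smul_eq_mul, ← mul_assoc,
    Real.sqrt_mul (mul_self_nonneg c), Real.sqrt_mul_self hc.le, smul_smul, mul_inv_rev]
  congr 1
  rw [mul_assoc, inv_mul_cancel₀ hc.ne', mul_one]

theorem nrm_hom (G : Ten d) (c : ℝ) (x : V d) (hc : 0 < c) : nrm G (c • x) = nrm G x := by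
  unfold nrm
  rw [un_hom c x hc]

theorem nrm_symm (G : Ten d) (hs : ∀ x i j, G x i j = G x j i) (x : V d) (i j : Fin (d + 1)) :
    nrm G x i j = nrm G x j i := by
  unfold nrm
  rw [bil_comm (hs (un x)), mul_comm]

theorem nrm_rad (G : Ten d) (x : V d) (hx : x ≠ 0) (v : V d) : bil (nrm G x) x v = x ⬝ᵥ v := by
  rw [bil_nrm, un_x hx]
  have h0 : tp (un x) x = 0 := by
    unfold tp
    rw [un_x hx, x_un hx, sub_self]
  rw [h0]
  have h1 : bil (G (un x)) 0 (tp (un x) v) = 0 := by simp [bil]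
  rw [h1, add_zero]
  conv_rhs => rw [← x_un hx]
  rw [smul_dotProduct, smul_eq_mul]

theorem nrm_tan (G : Ten d) (x v w : V d) (hv : Tan x v) (hw : Tan x w) : bil (nrm G x) v w = bil (G x) v w := by
  rw [bil_nrm, un_self hv.1]
  unfold tp
  rw [hv.2, hw.2, zero_smul, sub_zero, sub_zero, zero_mul, zero_add]

theorem nrm_pos (G : Ten d) (hp : ∀ x v, Tan x v → v ≠ 0 → 0 < bil (G x) v v) (x : V d) (hx : x ≠ 0) (v : V d)
    (hv : v ≠ 0) : 0 < bil (nrm G x) v v := by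
  rw [bil_nrm]
  by_cases h0 : tp (un x) v = 0
  · have h1 : bil (G (un x)) (tp (un x) v) (tp (un x) v) = 0 := by rw [h0]; simp [bil]
    rw [h1, add_zero]
    have h2 : un x ⬝ᵥ v ≠ 0 := by
      intro h2
      unfold tp at h0
      rw [h2, zero_smul, sub_zero] at h0
      exact hv h0
    exact mul_self_pos.2 h2
  · have h1 := hp (un x) (tp (un x) v) (tan_tp (un_dot hx) v) h0
    have h2 := mul_self_nonneg (un x ⬝ᵥ v)
    linarith

theorem nrm_round (G : Ten d) (hr : ∀ x v w, Tan x v → Tan x w → bil (G x) v w = v ⬝ᵥ w) (x : V d) (hx : x ≠ 0)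
    (v w : V d) : bil (nrm G x) v w = v ⬝ᵥ w := by
  rw [bil_nrm, hr (un x) _ _ (tan_tp (un_dot hx) v) (tan_tp (un_dot hx) w)]
  unfold tp
  rw [sub_dotProduct, dotProduct_sub, dotProduct_sub, smul_dotProduct, smul_dotProduct, dotProduct_smul,
    dotProduct_smul, un_dot hx, dotProduct_comm v (un x)]
  simp only [smul_eq_mul]
  ring

private theorem un_ne {x : V d} (hx : x ≠ 0) : un x ≠ 0 := ne_zero_of_dot (un_dot hx)

private theorem un_smooth : ContDiffOn ℝ ∞ (un : V d → V d) {0}ᶜ := by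
  have h1 : ContDiffOn ℝ ∞ (fun x : V d => x ⬝ᵥ x) {0}ᶜ := by
    have : ContDiff ℝ ∞ (fun x : V d => x ⬝ᵥ x) := by
      unfold dotProduct
      fun_prop
    exact this.contDiffOn
  have h2 : ContDiffOn ℝ ∞ (fun x : V d => √(x ⬝ᵥ x)) {0}ᶜ :=
    h1.sqrt fun x hx => (dot_pos hx).ne'
  have h3 : ContDiffOn ℝ ∞ (fun x : V d => (√(x ⬝ᵥ x))⁻¹) {0}ᶜ :=
    h2.inv fun x hx => (Real.sqrt_pos.2 (dot_pos hx)).ne'
  exact h3.smul contDiffOn_id

theorem nrm_smooth (ε : ℝ) (G : ℝ → Ten d)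
    (hG : ContDiffOn ℝ ∞ (fun p : ℝ × V d => G p.1 p.2) (Set.Ioo (-ε) ε ×ˢ {0}ᶜ)) :
    ContDiffOn ℝ ∞ (fun p : ℝ × V d => nrm (G p.1) p.2) (Set.Ioo (-ε) ε ×ˢ {0}ᶜ) := by
  have hu : ContDiffOn ℝ ∞ (fun p : ℝ × V d => un p.2) (Set.Ioo (-ε) ε ×ˢ {0}ᶜ) :=
    un_smooth.comp contDiff_snd.contDiffOn fun p hp => hp.2
  have hui : ∀ i, ContDiffOn ℝ ∞ (fun p : ℝ × V d => un p.2 i) (Set.Ioo (-ε) ε ×ˢ {0}ᶜ) :=
    fun i => contDiffOn_pi.1 hu i
  have hGu : ContDiffOn ℝ ∞ (fun p : ℝ × V d => G p.1 (un p.2)) (Set.Ioo (-ε) ε ×ˢ {0}ᶜ) := by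
    have hm : ContDiffOn ℝ ∞ (fun p : ℝ × V d => ((p.1, un p.2) : ℝ × V d)) (Set.Ioo (-ε) ε ×ˢ {0}ᶜ) :=
      contDiff_fst.contDiffOn.prodMk hu
    exact hG.comp hm fun p hp => ⟨hp.1, un_ne hp.2⟩
  have hGk : ∀ k l, ContDiffOn ℝ ∞ (fun p : ℝ × V d => G p.1 (un p.2) k l) (Set.Ioo (-ε) ε ×ˢ {0}ᶜ) :=
    fun k l => contDiffOn_pi.1 (contDiffOn_pi.1 hGu k) l
  have hpj : ∀ i k, ContDiffOn ℝ ∞ (fun p : ℝ × V d => pj (un p.2) i k) (Set.Ioo (-ε) ε ×ˢ {0}ᶜ) := by
    intro i k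
    exact contDiffOn_const.sub ((hui i).mul (hui k))
  rw [contDiffOn_pi]
  intro i
  rw [contDiffOn_pi]
  intro j
  refine ((hui i).mul (hui j)).add ?_
  unfold bil
  exact ContDiffOn.sum fun k _ => ContDiffOn.sum fun l _ => (hGk k l).mul ((hpj i k).mul (hpj j l))

private theorem pj_eq (u : V d) (i : Fin (d + 1)) : pj u i = ee i - u i • u := by
  funext k
  simp [pj, ee, Pi.single_apply]

private theorem pj_tan {u : V d} (hu : u ⬝ᵥ u = 1) (i : Fin (d + 1)) : Tan u (pj u i) := by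
  refine ⟨hu, ?_⟩
  rw [pj_eq, dotProduct_sub, dotProduct_smul, hu, dot_ee, smul_eq_mul]
  ring

theorem nrm_deriv (h : Ten d) (hh : Fld h) (G : ℝ → Ten d)
    (hd : ∀ x v w, Tan x v → Tan x w → HasDerivAt (fun t => bil (G t x) v w) (bil (h x) v w) 0) (x : V d)
    (hx : x ≠ 0) (i j : Fin (d + 1)) : HasDerivAt (fun t => nrm (G t) x i j) (h x i j) 0 := by
  have hu := un_dot hx
  have h1 := hd (un x) (pj (un x) i) (pj (un x) j) (pj_tan hu i) (pj_tan hu j)
  have h2 := h1.const_add (un x i * un x j)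
  refine h2.congr_deriv ?_
  have htan' : ∀ v, bil (h (un x)) v (un x) = 0 := fun v => by
    rw [bil_comm (hh.symm (un x))]
    exact hh.tan _ _
  rw [pj_eq, pj_eq, bil_sub_left, bil_sub_right, bil_sub_right, bil_smul_left, bil_smul_left,
    bil_smul_right, htan', hh.tan, bil_smul_right, hh.tan]
  have h3 : h (un x) = h x := by
    have h4 : un x = (√(x ⬝ᵥ x))⁻¹ • x := rfl
    rw [h4]
    exact hh.hom _ x (inv_pos.2 (Real.sqrt_pos.2 (dot_pos hx)))
  have h5 : bil (h (un x)) (ee i) (ee j) = h x i j := by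
    rw [h3]
    simp [bil, ee, Pi.single_apply]
  rw [h5]
  ring

end Pool.Agent.Work.MP_659252_gt.QR
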