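import Pool.Agent.Work.MP_659252_gt.QR.Bas

/-!
# Geodesics and Zoll metrics only depend on the values on tangent vectors.  Size: S-M.

PROOF.  `isGeodesic_congr`: if `γ` (or a variation `Γ (s, ·)`) is a smooth curve on the sphere, `γ t` and `deriv γ t` are `Tan`
(differentiate `γ ⬝ γ = 1`), so `energy G = energy G'` for all curves of the variation (for every `s`, `Γ (s, ·)` is smooth and on the
sphere), hence the derivatives at `0` agree.  `isZoll_congr`: the same `L`; a unit speed geodesic of `G'` is one of `G`.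
-/

namespace Pool.Agent.Work.MP_659252_gt.QR

open scoped ContDiff Topology
open Pool.Agent.Work.MP_659252_gt.Z (V Ten val Tan InT IsZoll IsMetric IsGeodesic)

variable {d : ℕ}

private theorem tan_of_sphere {γ : ℝ → V d} (hγ : Differentiable ℝ γ) (hs : ∀ t, γ t ⬝ᵥ γ t = 1)
    (t : ℝ) : Tan (γ t) (deriv γ t) := by
  refine ⟨hs t, ?_⟩
  have hi : ∀ i, HasDerivAt (fun t => γ t i) (deriv γ t i) t :=
    fun i => hasDerivAt_pi.1 (hγ t).hasDerivAt i
  have h1 : HasDerivAt (fun t => γ t ⬝ᵥ γ t)
      (∑ i, (deriv γ t i * γ t i + γ t i * deriv γ t i)) t := by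
    have := HasDerivAt.fun_sum (u := Finset.univ) fun i _ => (hi i).mul (hi i)
    exact this
  have h2 : HasDerivAt (fun t => γ t ⬝ᵥ γ t) 0 t := by
    have e : (fun t => γ t ⬝ᵥ γ t) = fun _ => (1 : ℝ) := funext hs
    rw [e]
    exact hasDerivAt_const t 1
  have h3 := h1.unique h2
  have h4 : ∑ i, (deriv γ t i * γ t i + γ t i * deriv γ t i) = 2 * (γ t ⬝ᵥ deriv γ t) := by
    simp only [dotProduct, Finset.mul_sum]
    exact Finset.sum_congr rfl fun i _ => by ring
  rw [h4] at h3
  linarith

theorem isGeodesic_congr (G G' : Ten d) (h : ∀ x v, Tan x v → val G x v v = val G' x v v) (γ : ℝ → V d)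
    (hγ : IsGeodesic G γ) : IsGeodesic G' γ := by
  refine ⟨hγ.smooth, hγ.sphere, fun a b Γ hab hΓ => ?_⟩
  have e : (fun s => Z.energy G' (fun t => Γ (s, t)) a b) =
      fun s => Z.energy G (fun t => Γ (s, t)) a b := by
    funext s
    have hsm : ContDiff ℝ ∞ fun t => Γ (s, t) := hΓ.smooth.comp (contDiff_const.prodMk contDiff_id)
    have hd : Differentiable ℝ fun t => Γ (s, t) := hsm.differentiable (by simp)
    have e1 : (fun t => val G' (Γ (s, t)) (deriv (fun t => Γ (s, t)) t)
        (deriv (fun t => Γ (s, t)) t)) = fun t => val G (Γ (s, t)) (deriv (fun t => Γ (s, t)) t)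
        (deriv (fun t => Γ (s, t)) t) := by
      funext t
      exact (h _ _ (tan_of_sphere hd (fun t => hΓ.sphere (s, t)) t)).symm
    unfold Z.energy
    rw [e1]
  rw [e]
  exact hγ.crit a b Γ hab hΓ

theorem isZoll_congr (G G' : Ten d) (hG : IsZoll G) (hG' : IsMetric G')
    (h : ∀ x v, Tan x v → val G x v v = val G' x v v) : IsZoll G' := by
  obtain ⟨-, L, hL, H⟩ := hG
  refine ⟨hG', L, hL, fun γ hγ hs => H γ
    (isGeodesic_congr G' G (fun x v hx => (h x v hx).symm) γ hγ) fun t => ?_⟩
  rw [h _ _ (tan_of_sphere (hγ.smooth.differentiable (by simp)) hγ.sphere t)]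
  exact hs t

end Pool.Agent.Work.MP_659252_gt.QR
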