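import Pool.Agent.Work.MP_659252_gt.QR.A.NrmA
import Pool.Agent.Work.MP_659252_gt.QR.A.NrmB

/-!
# Every family in the definition of `T_d` can be put in normal form.  Size: S-M.

PROOF.  `InT h` gives `ε`, `G` with the properties of the definition.  Take `G' t = nrm (G t)`.  `IsZoll (G t)` contains `IsMetric (G t)`:
`symm`, `pos` on tangent vectors, so `nrm_symm`, `nrm_hom`, `nrm_rad`, `nrm_pos`, and `nrm_smooth` for the family
(for one `t`: compose with `x ↦ (t, x)`) give `Met (G' t)`; `nrm_round` gives `rnd`; `IsMetric (G' t)` and `nrm_tan` with `isZoll_congr` give `zoll`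
(the values of `G t`, `G' t` agree on tangent vectors, so `pos` of `IsMetric (G' t)` follows from `nrm_pos`).  `nrm_deriv` gives the derivative.
-/

namespace Pool.Agent.Work.MP_659252_gt.QR

open scoped ContDiff Topology
open Pool.Agent.Work.MP_659252_gt.Z (V Ten val Tan InT IsZoll IsMetric IsGeodesic)

variable {d : ℕ}

theorem nice_of_InT (h : Ten d) (hh : Fld h) (hT : InT h) :
    ∃ (ε : ℝ) (G : ℝ → Ten d), Nice ε G ∧
      ∀ x, x ≠ 0 → ∀ i j, HasDerivAt (fun t => G t x i j) (h x i j) 0 := by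
  obtain ⟨ε, hε, G, hsm, hz, h0, hd⟩ := hT
  have hns := nrm_smooth ε G hsm
  have hsmt : ∀ t ∈ Set.Ioo (-ε) ε, ContDiffOn ℝ ∞ (nrm (G t)) {0}ᶜ := by
    intro t ht
    exact hns.comp (contDiff_const.prodMk contDiff_id).contDiffOn (fun x hx => ⟨ht, hx⟩)
  have hpos : ∀ t ∈ Set.Ioo (-ε) ε, ∀ x, x ≠ 0 → ∀ v, v ≠ 0 → 0 < bil (nrm (G t) x) v v :=
    fun t ht x hx v hv => nrm_pos (G t) (fun x v h1 h2 => (hz t ht).1.pos x v h1 h2) x hx v hv
  refine ⟨ε, fun t => nrm (G t), ⟨hε, hns, fun t ht => ?_, fun t ht => ?_, fun x hx v w =>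
    nrm_round (G 0) (fun x v w h1 h2 => h0 x v w h1 h2) x hx v w⟩, fun x hx i j =>
    nrm_deriv h hh G (fun x v w h1 h2 => hd x v w h1 h2) x hx i j⟩
  · exact ⟨hsmt t ht, fun x _ i j => nrm_symm (G t) (hz t ht).1.symm x i j,
      fun c x hc => nrm_hom (G t) c x hc, fun x hx v => nrm_rad (G t) x hx v, hpos t ht⟩
  · refine isZoll_congr (G t) (nrm (G t)) (hz t ht) ⟨hsmt t ht,
      fun x i j => nrm_symm (G t) (hz t ht).1.symm x i j, fun x v hv hv0 =>
        hpos t ht x (ne_zero_of_dot hv.1) v hv0⟩ fun x v hv => ?_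
    exact (nrm_tan (G t) x v v hv hv).symm

end Pool.Agent.Work.MP_659252_gt.QR
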