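import Mathlib

/-!
# Global smooth solutions of `c' = F(c)`, `F` smooth with compact support.  Size: M.

PROOF.  `F` is Lipschitz with some constant `K` (`ContDiff.lipschitzWith_of_hasCompactSupport`) and bounded by some `L > 0`
(`Continuous.bounded_above_of_compact_support` or `HasCompactSupport.isCompact_range`).
For every `n : ℕ`, `n ≥ 1`: `IsPicardLindelof (fun _ => F)` on `[-n, n]`, `t₀ = 0`, centre `z`, `a = L * n`, `r = 0`
(`IsPicardLindelof.of_time_independent`; `L * max n n ≤ a - 0`), so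
`IsPicardLindelof.exists_eq_forall_mem_Icc_hasDerivWithinAt₀` gives `α n` on `[-n, n]` with `α n 0 = z` and derivative `F (α n t)` there.
Uniqueness (`ODE_solution_unique_of_mem_Icc` with `s = univ`, or `ODE_solution_unique_univ` style): `α n = α m` on `[-n, n]` for `n ≤ m`.
Put `c t = α (⌈|t|⌉₊ + 1) t`; near every `t₀` it is equal to `α (⌈|t₀|⌉₊ + 2)`, so it has derivative `F (c t)` everywhere.
Smoothness: `ODE.contDiffOn_enat_Icc_of_hasDerivWithinAt` (with `f t x = F x`, `u = univ`, `n = ⊤`) on `[-n, n]`, and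
`ContDiffOn.contDiffAt` at interior points.
Uniqueness statement: `ODE_solution_unique_univ`.
-/

namespace Pool.Agent.Work.MP_659252_gt.QR

open scoped ContDiff Topology

private theorem ode_local {E : Type} [NormedAddCommGroup E] [NormedSpace ℝ E]
    [FiniteDimensional ℝ E] (F : E → E) {K L : NNReal} (hK : LipschitzWith K F)
    (hL : ∀ x, ‖F x‖ ≤ L) (z : E) (n : ℕ) :
    ∃ α : ℝ → E, α 0 = z ∧ ∀ t ∈ Set.Icc (-((n : ℝ) + 1)) ((n : ℝ) + 1),
      HasDerivWithinAt α (F (α t)) (Set.Icc (-((n : ℝ) + 1)) ((n : ℝ) + 1)) t := by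
  have hn : (0 : ℝ) ≤ (n : ℝ) + 1 := by positivity
  haveI : CompleteSpace E := FiniteDimensional.complete ℝ E
  have hpl : IsPicardLindelof (fun _ : ℝ => F) (tmin := -((n : ℝ) + 1)) (tmax := (n : ℝ) + 1)
      ⟨0, by constructor <;> linarith⟩ z (L * ((n : NNReal) + 1)) 0 L K := by
    refine IsPicardLindelof.of_time_independent (fun x _ => hL x) (hK.lipschitzOnWith) ?_
    simp
  exact hpl.exists_eq_forall_mem_Icc_hasDerivWithinAt₀

theorem ode_exists {E : Type} [NormedAddCommGroup E] [NormedSpace ℝ E] [FiniteDimensional ℝ E] (F : E → E)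
    (hF : ContDiff ℝ ∞ F) (hc : HasCompactSupport F) (z : E) :
    ∃ c : ℝ → E, ContDiff ℝ ∞ c ∧ c 0 = z ∧ ∀ s, HasDerivAt c (F (c s)) s := by
  obtain ⟨K, hK⟩ := ContDiff.lipschitzWith_of_hasCompactSupport hc hF (by simp)
  obtain ⟨C, hC⟩ := hc.exists_bound_of_continuous hF.continuous
  have hL : ∀ x, ‖F x‖ ≤ (C.toNNReal : ℝ) := fun x =>
    (hC x).trans (Real.le_coe_toNNReal C)
  haveI : CompleteSpace E := FiniteDimensional.complete ℝ E
  choose α hα0 hα using fun n => ode_local F hK hL z n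
  have hint : ∀ n : ℕ, ∀ t : ℝ, |t| < (n : ℝ) + 1 → HasDerivAt (α n) (F (α n t)) t := by
    intro n t ht
    have h1 := abs_lt.1 ht
    exact (hα n t ⟨h1.1.le, h1.2.le⟩).hasDerivAt (Icc_mem_nhds h1.1 h1.2)
  have huniq : ∀ n m : ℕ, n ≤ m → ∀ t : ℝ, |t| < (n : ℝ) + 1 → α n t = α m t := by
    intro n m hnm t ht
    have hnm' : (n : ℝ) ≤ m := by exact_mod_cast hnm
    have hn : (0 : ℝ) < (n : ℝ) + 1 := by positivity
    have h1 : Set.EqOn (α n) (α m) (Set.Ioo (-((n : ℝ) + 1)) ((n : ℝ) + 1)) := by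
      refine ODE_solution_unique_of_mem_Ioo (v := fun _ => F) (s := fun _ => Set.univ) (K := K)
        (t₀ := 0) (fun t _ => hK.lipschitzOnWith) ⟨by linarith, hn⟩ (fun t ht => ?_)
        (fun t ht => ?_) ?_
      · exact ⟨hint n t (abs_lt.2 ⟨ht.1, ht.2⟩), Set.mem_univ _⟩
      · exact ⟨hint m t (abs_lt.2 ⟨by linarith [ht.1], by linarith [ht.2]⟩), Set.mem_univ _⟩
      · rw [hα0, hα0]
    exact h1 ⟨(abs_lt.1 ht).1, (abs_lt.1 ht).2⟩
  have hlt : ∀ t : ℝ, |t| < (⌈|t|⌉₊ : ℝ) + 1 := fun t => by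
    have := Nat.le_ceil |t|
    linarith
  have hceq : ∀ (n : ℕ) (t : ℝ), |t| < (n : ℝ) + 1 → α ⌈|t|⌉₊ t = α n t := by
    intro n t ht
    rcases le_total n ⌈|t|⌉₊ with h | h
    · exact (huniq _ _ h t ht).symm
    · exact huniq _ _ h t (hlt t)
  have hder : ∀ s : ℝ, HasDerivAt (fun t => α ⌈|t|⌉₊ t) (F (α ⌈|s|⌉₊ s)) s := by
    intro s
    have h1 := hint ⌈|s|⌉₊ s (hlt s)
    refine h1.congr_of_eventuallyEq ?_
    have hopen : IsOpen {t : ℝ | |t| < (⌈|s|⌉₊ : ℝ) + 1} :=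
      isOpen_lt continuous_abs continuous_const
    filter_upwards [hopen.mem_nhds (hlt s)] with t ht
    exact hceq _ t ht
  refine ⟨fun t => α ⌈|t|⌉₊ t, ?_, ?_, hder⟩
  · rw [contDiff_iff_contDiffAt]
    intro t
    have h1 : ContDiffOn ℝ ((⊤ : ℕ∞) : WithTop ℕ∞) (fun t => α ⌈|t|⌉₊ t)
        (Set.Icc (t - 1) (t + 1)) := by
      refine ODE.contDiffOn_enat_Icc_of_hasDerivWithinAt (f := fun _ => F) (u := Set.univ)
        ?_ (fun s _ => (hder s).hasDerivWithinAt) (fun _ _ => Set.mem_univ _)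
      exact (hF.comp contDiff_snd).contDiffOn
    exact h1.contDiffAt (Icc_mem_nhds (by linarith) (by linarith))
  · show α ⌈|(0 : ℝ)|⌉₊ 0 = z
    exact hα0 _

theorem ode_unique {E : Type} [NormedAddCommGroup E] [NormedSpace ℝ E] [FiniteDimensional ℝ E] (F : E → E)
    (hF : ContDiff ℝ ∞ F) (hc : HasCompactSupport F) (c₁ c₂ : ℝ → E) (h₁ : ∀ s, HasDerivAt c₁ (F (c₁ s)) s)
    (h₂ : ∀ s, HasDerivAt c₂ (F (c₂ s)) s) (s₀ : ℝ) (h : c₁ s₀ = c₂ s₀) : c₁ = c₂ := by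
  obtain ⟨K, hK⟩ := ContDiff.lipschitzWith_of_hasCompactSupport hc hF (by simp)
  exact ODE_solution_unique_univ (v := fun _ => F) (s := fun _ => Set.univ) (K := K) (t₀ := s₀)
    (fun t => hK.lipschitzOnWith) (fun t => ⟨h₁ t, Set.mem_univ _⟩)
    (fun t => ⟨h₂ t, Set.mem_univ _⟩) h

end Pool.Agent.Work.MP_659252_gt.QR
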