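import Pool.Agent.Work.MP_659252_gt.QR.A.MaxA
import Pool.Agent.Work.MP_659252_gt.QR.A.MaxB
import Pool.Agent.Work.MP_659252_gt.QR.A.MaxD
import Pool.Agent.Work.MP_659252_gt.QR.A.MaxE
import Pool.Agent.Work.MP_659252_gt.QR.A.Crit
import Pool.Agent.Work.MP_659252_gt.QR.A.Est

/-!
# The common length of the geodesics of `G t` is `2π + O(t)`.  Size: M.

PROOF.  (`closed_geo`) combine `maxA`, `maxB` (with `C₀ = C` of `maxA`), `maxD`, `maxE` (with `C₀` = the largest of the constants before; all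
hypotheses are monotone in the constant): for small `t` there are a `Sol` `c` and `τ` with `|τ - 2π| ≤ C |t|`, `c τ = c 0`.
(`period`) By `zoll` and `Sol.isGeodesic` (`spd` is the unit speed condition) there is `L > 0` such that every `Sol` is `L`-periodic and injective on
`[0, L)`.  With `c`, `τ > 0`: if `τ < L` then `0, τ ∈ [0, L)` contradict injectivity; so `L ≤ τ ≤ 2π + C |t|`.
Lower bound, from `c L = c 0`, `0 < L ≤ 7`, `x = c 0`, `v = c' 0`: by `cls` `0 = c L - c 0 = (cos L - 1) x + sin L v + O(t)`; the products with `x`, `v`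
(`x ⬝ x = 1`, `x ⬝ v = 0`, `v ⬝ v = 1 + O(t)`) give `1 - cos L ≤ C |t|`, `|sin L| ≤ C |t|`.  If `L ≤ 1/2` then, as `c' s ⬝ v = cos s + O(t) ≥ 1/2` for
`0 ≤ s ≤ 1/2`, `0 = (c L - c 0) ⬝ v = ∫_0^L c' ⬝ v ≥ L/2 > 0`, contradiction.  So `1/2 < L ≤ 2π + 1/4`, `cos L` is close to `1`: `|L - 2π| ≤ 1/2` for small `t`
(`cos` on `[1/2, 2π - 1/2]` is `≤ cos (1/2) < 1`), and then `|L - 2π| ≤ 2 |sin (L - 2π)| = 2 |sin L| ≤ C |t|`.
-/

namespace Pool.Agent.Work.MP_659252_gt.QR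

open scoped ContDiff Topology
open Pool.Agent.Work.MP_659252_gt.Z (V Ten val Tan InT IsZoll IsMetric IsGeodesic)

variable {d : ℕ}

theorem closed_geo (hd : 1 ≤ d) (ε : ℝ) (G : ℝ → Ten d) (N : Nice ε G) :
    ∃ C > 0, ∃ t₁ > 0, t₁ < ε ∧ ∀ t, |t| ≤ t₁ → ∃ (c : ℝ → V d) (τ : ℝ), Sol (G t) c ∧
      |τ - 2 * Real.pi| ≤ C * |t| ∧ c τ = c 0 := by
  obtain ⟨CA, hCA, tA, htA, htAε, hA⟩ := maxA hd ε G N
  obtain ⟨CB, hCB, tB, htB, htBε, hB⟩ := maxB ε G N CA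
  obtain ⟨CD, hCD, tD, htD, htDε, hD⟩ := maxD ε G N CB
  obtain ⟨tE, htE, htEε, hE⟩ := maxE ε G N (max CB CD)
  refine ⟨CB, hCB, min (min tA tB) (min tD tE), by positivity, ?_, ?_⟩
  · exact lt_of_le_of_lt ((min_le_left _ _).trans (min_le_left _ _)) htAε
  intro t ht
  have h1 : |t| ≤ tA := ht.trans ((min_le_left _ _).trans (min_le_left _ _))
  have h2 : |t| ≤ tB := ht.trans ((min_le_left _ _).trans (min_le_right _ _))
  have h3 : |t| ≤ tD := ht.trans ((min_le_right _ _).trans (min_le_left _ _))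
  have h4 : |t| ≤ tE := ht.trans ((min_le_right _ _).trans (min_le_right _ _))
  obtain ⟨c, τ, hc, hτ, hτ2, hmax⟩ := hA t h1
  obtain ⟨b1, b2, b3, b4⟩ := hB t h2 c τ hc hτ hτ2 (fun τ₂ hτ₂ => hmax c τ₂ hc hτ₂)
  have d1 := hD t h3 c τ hc b1 b2 b3 (fun c₂ hc₂ => hmax c₂ τ hc₂ hτ)
  have m1 : CB * |t| ≤ max CB CD * |t| := mul_le_mul_of_nonneg_right (le_max_left _ _) (abs_nonneg t)
  have m2 : CD * |t| ≤ max CB CD * |t| := mul_le_mul_of_nonneg_right (le_max_right _ _) (abs_nonneg t)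
  have e1 := hE t h4 c τ hc (b1.trans m1) (b2.trans m1)
    (b3.trans (mul_le_mul_of_nonneg_right m1 (norm_nonneg _))) (b4.trans m1)
    (fun a b h5 h6 h7 => (d1 a b h5 h6 h7).trans (by gcongr))
  exact ⟨c, τ, hc, b1, e1.1⟩

private theorem per_dot {c : ℝ → V d} {c' : V d} {s : ℝ} (h : HasDerivAt c c' s) :
    HasDerivAt (fun u => c u ⬝ᵥ c u) (2 * (c s ⬝ᵥ c')) s := by
  have h2 : ∀ i, HasDerivAt (fun u => c u i) (c' i) s := fun i => hasDerivAt_pi.1 h i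
  have h4 : HasDerivAt (fun u => ∑ i, c u i * c u i) (∑ i, (c' i * c s i + c s i * c' i)) s :=
    HasDerivAt.fun_sum fun i _ => (h2 i).mul (h2 i)
  refine h4.congr_deriv ?_
  simp only [dotProduct, Finset.mul_sum]
  exact Finset.sum_congr rfl fun i _ => by ring

private theorem per_orth {G : Ten d} {c : ℝ → V d} (hc : Sol G c) (s : ℝ) : c s ⬝ᵥ deriv c s = 0 := by
  have h1 : HasDerivAt c (deriv c s) s := (hc.smooth.differentiable (by simp) s).hasDerivAt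
  have h2 := per_dot h1
  have h3 : (fun u => c u ⬝ᵥ c u) = fun _ => 1 := funext hc.sph
  rw [h3] at h2
  have := h2.unique (hasDerivAt_const s 1)
  linarith

/-- a geodesic which returns to its starting point -/
private theorem per_close (ε : ℝ) (G : ℝ → Ten d) (N : Nice ε G) :
    ∃ A > 0, ∃ t₁ > 0, t₁ < ε ∧ ∀ t, |t| ≤ t₁ → ∀ c, Sol (G t) c → ∀ s ∈ Set.Icc (0 : ℝ) 7,
      c s = c 0 → 1 - Real.cos s ≤ A * |t| ∧ |Real.sin s| ≤ A * |t| := by
  obtain ⟨C, t₁, ht₁, H⟩ := est ε G N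
  obtain ⟨C₂, hC₂, t₂, ht₂, ht₂₁, hcls⟩ := cls G C t₁ H
  have hC := H.Cpos
  have hD : (1 : ℝ) ≤ (d + 1 : ℝ) := by
    have : (0 : ℝ) ≤ d := Nat.cast_nonneg d
    linarith
  have hD0 : (0 : ℝ) < (d + 1 : ℝ) := by linarith
  refine ⟨4 * (d + 1 : ℝ) * C₂, by positivity, min t₂ (1 / (4 * (d + 1 : ℝ) * C)), by positivity, ?_, ?_⟩
  · exact lt_of_le_of_lt ((min_le_left _ _).trans ht₂₁) ht₁
  intro t ht c hc s hs hcs
  have h1 : |t| ≤ t₂ := ht.trans (min_le_left _ _)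
  have h2 : |t| ≤ 1 / (4 * (d + 1 : ℝ) * C) := ht.trans (min_le_right _ _)
  have h3 : 4 * (d + 1 : ℝ) * C * |t| ≤ 1 := by
    rw [le_div_iff₀ (by positivity)] at h2
    linarith
  have ht₁' : |t| ≤ t₁ := h1.trans ht₂₁
  obtain ⟨hy, -⟩ := (hcls t h1).1 c hc s hs
  have hxx := hc.sph 0
  have hxv := per_orth hc 0
  have hvv := hc.spd 0
  have hv2 := H.vb t ht₁' (c 0) (deriv c 0) hxx hvv
  have hx1 : ‖c 0‖ ≤ 1 := by
    have := norm_sq_le_dot (c 0)
    rw [hxx] at this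
    nlinarith [norm_nonneg (c 0)]
  have hmb := H.mb t ht₁' (c 0) (deriv c 0) ⟨by rw [hxx]; norm_num, by rw [hxx]; norm_num, by linarith⟩
  set x := c 0 with hx
  set v := deriv c 0 with hv
  rw [hcs] at hy
  set y := x - gc x v s with hydef
  -- the length of v
  have hvl : 1 / 2 ≤ v ⬝ᵥ v := by
    have e1 : v ⬝ᵥ v = bil (G t x) v v - v ⬝ᵥ (mul (G t x) v - v) := by
      rw [bil_eq_dot, dotProduct_sub]
      ring
    have e2 := abs_dot_le v (mul (G t x) v - v)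
    have e3 : ‖v‖ * ‖mul (G t x) v - v‖ ≤ 2 * (C * |t|) :=
      mul_le_mul hv2 hmb (norm_nonneg _) (by norm_num)
    have e4 : (d + 1 : ℝ) * (‖v‖ * ‖mul (G t x) v - v‖) ≤ (d + 1 : ℝ) * (2 * (C * |t|)) :=
      mul_le_mul_of_nonneg_left e3 hD0.le
    have e5 := (abs_le.1 (e2.trans e4)).2
    rw [e1, hvv]
    nlinarith
  have hxy : x ⬝ᵥ y = 1 - Real.cos s := by
    rw [hydef, gc, dotProduct_sub, dotProduct_add, dotProduct_smul, dotProduct_smul, hxx, hxv]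
    simp
  have hvy : v ⬝ᵥ y = -(Real.sin s * (v ⬝ᵥ v)) := by
    rw [hydef, gc, dotProduct_sub, dotProduct_add, dotProduct_smul, dotProduct_smul, dotProduct_comm v x,
      hxv]
    simp
  constructor
  · have e1 := (abs_le.1 (abs_dot_le x y)).2
    rw [hxy] at e1
    have e2 : ‖x‖ * ‖y‖ ≤ 1 * (C₂ * |t|) := mul_le_mul hx1 hy (norm_nonneg _) (by norm_num)
    have e3 : (d + 1 : ℝ) * (‖x‖ * ‖y‖) ≤ (d + 1 : ℝ) * (1 * (C₂ * |t|)) :=
      mul_le_mul_of_nonneg_left e2 hD0.le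
    have e4 : 0 ≤ (d + 1 : ℝ) * (C₂ * |t|) := by positivity
    nlinarith
  · have e1 := abs_dot_le v y
    rw [hvy, abs_neg, abs_mul, abs_of_nonneg (dot_self_nonneg v)] at e1
    have e2 : ‖v‖ * ‖y‖ ≤ 2 * (C₂ * |t|) := mul_le_mul hv2 hy (norm_nonneg _) (by norm_num)
    have e3 : (d + 1 : ℝ) * (‖v‖ * ‖y‖) ≤ (d + 1 : ℝ) * (2 * (C₂ * |t|)) :=
      mul_le_mul_of_nonneg_left e2 hD0.le
    have e4 : |Real.sin s| * (1 / 2) ≤ |Real.sin s| * (v ⬝ᵥ v) :=
      mul_le_mul_of_nonneg_left hvl (abs_nonneg _)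
    linarith

theorem period (hd : 1 ≤ d) (ε : ℝ) (G : ℝ → Ten d) (N : Nice ε G) :
    ∃ C > 0, ∃ t₁ > 0, t₁ < ε ∧ ∀ t, |t| ≤ t₁ → ∃ L : ℝ, |L - 2 * Real.pi| ≤ C * |t| ∧
      ∀ c, Sol (G t) c → ∀ s, c (s + L) = c s := by
  obtain ⟨C₁, hC₁, t₁, ht₁, ht₁ε, hgeo⟩ := closed_geo hd ε G N
  obtain ⟨A, hA, t₂, ht₂, ht₂ε, hcl⟩ := per_close ε G N
  refine ⟨2 * A, by positivity, min (min t₁ t₂) (min (1 / (4 * C₁)) (1 / (4 * A))), by positivity, ?_, ?_⟩
  · exact lt_of_le_of_lt ((min_le_left _ _).trans (min_le_left _ _)) ht₁ε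
  intro t ht
  have h1 : |t| ≤ t₁ := ht.trans ((min_le_left _ _).trans (min_le_left _ _))
  have h2 : |t| ≤ t₂ := ht.trans ((min_le_left _ _).trans (min_le_right _ _))
  have h3 : |t| ≤ 1 / (4 * C₁) := ht.trans ((min_le_right _ _).trans (min_le_left _ _))
  have h4 : |t| ≤ 1 / (4 * A) := ht.trans ((min_le_right _ _).trans (min_le_right _ _))
  have h3' : C₁ * |t| ≤ 1 / 4 := by
    rw [le_div_iff₀ (by positivity)] at h3
    linarith
  have h4' : A * |t| ≤ 1 / 4 := by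
    rw [le_div_iff₀ (by positivity)] at h4
    linarith
  have htI : t ∈ Set.Ioo (-ε) ε := abs_lt.1 (lt_of_le_of_lt h1 ht₁ε)
  obtain ⟨c, τ, hc, hτ, hcτ⟩ := hgeo t h1
  obtain ⟨-, L, hL, hz⟩ := N.zoll t htI
  have hgood : ∀ c, Sol (G t) c → (∀ s, c (s + L) = c s) ∧ Set.InjOn c (Set.Ico 0 L) := fun c hc =>
    hz c (hc.isGeodesic (N.met t htI)) (fun s => hc.spd s)
  refine ⟨L, ?_, fun c hc => (hgood c hc).1⟩
  have hp3 := Real.pi_gt_three
  have hp4 := Real.pi_lt_d2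
  obtain ⟨hτ1, hτ2⟩ := abs_le.1 hτ
  -- upper bound
  have hLτ : L ≤ τ := by
    by_contra hcon
    push Not at hcon
    have h0 : (0 : ℝ) ∈ Set.Ico 0 L := ⟨le_rfl, hL⟩
    have hτm : τ ∈ Set.Ico 0 L := ⟨by linarith, hcon⟩
    have := (hgood c hc).2 hτm h0 hcτ
    linarith
  have hL7 : L ≤ 2 * Real.pi + 1 / 4 := by linarith
  have hmul : ∀ k : ℕ, c (k * L) = c 0 := by
    intro k
    induction k with
    | zero => simp
    | succ k ih =>
      have e1 : ((k + 1 : ℕ) : ℝ) * L = k * L + L := by push_cast; ring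
      rw [e1, (hgood c hc).1, ih]
  have hcos1 := Real.cos_one_le
  -- lower bound
  have hL1 : 1 < L := by
    by_contra hcon
    push Not at hcon
    set k := ⌈1 / L⌉₊ with hk
    have e1 : 1 / L ≤ k := Nat.le_ceil _
    have e2 : (k : ℝ) < 1 / L + 1 := Nat.ceil_lt_add_one (by positivity)
    have e3 : 1 ≤ k * L := by
      rw [div_le_iff₀ hL] at e1
      exact e1
    have e4 : k * L ≤ 2 := by
      have : (k : ℝ) * L < (1 / L + 1) * L := mul_lt_mul_of_pos_right e2 hL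
      rw [add_mul, one_div, inv_mul_cancel₀ hL.ne', one_mul] at this
      linarith
    have e5 := (hcl t h2 c hc (k * L) ⟨by linarith, by linarith⟩ (hmul k)).1
    have e6 : Real.cos (k * L) ≤ Real.cos 1 :=
      Real.cos_le_cos_of_nonneg_of_le_pi zero_le_one (by linarith) e3
    linarith
  have hper : c L = c 0 := by
    have := (hgood c hc).1 0
    rwa [zero_add] at this
  obtain ⟨f1, f2⟩ := hcl t h2 c hc L ⟨hL.le, by linarith⟩ hper
  have hL2 : 2 * Real.pi - 1 < L := by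
    by_contra hcon
    push Not at hcon
    have e6 : Real.cos L ≤ Real.cos 1 := by
      rcases le_total L Real.pi with h | h
      · exact Real.cos_le_cos_of_nonneg_of_le_pi zero_le_one h hL1.le
      · rw [← Real.cos_two_pi_sub L]
        exact Real.cos_le_cos_of_nonneg_of_le_pi zero_le_one (by linarith) (by linarith)
    linarith
  have hθ : |L - 2 * Real.pi| ≤ 1 := abs_le.2 ⟨by linarith, by linarith⟩
  have g1 : 2 / Real.pi * |L - 2 * Real.pi| ≤ |Real.sin (L - 2 * Real.pi)| :=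
    Real.mul_abs_le_abs_sin (by linarith)
  rw [Real.sin_sub_two_pi] at g1
  have g2 : (1 / 2 : ℝ) ≤ 2 / Real.pi := by
    rw [le_div_iff₀ (by linarith)]
    linarith
  have g3 : 1 / 2 * |L - 2 * Real.pi| ≤ 2 / Real.pi * |L - 2 * Real.pi| :=
    mul_le_mul_of_nonneg_right g2 (abs_nonneg _)
  linarith

end Pool.Agent.Work.MP_659252_gt.QR
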