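import Pool.Agent.Work.MP_659252_gt.QR.Bas

/-!
# The right side of the geodesic equation.  Size: M.

PROOF.  `RR_dot`: `Matrix.of (G x)` is invertible: its kernel is `0` because `0 < bil (G x) v v` for `v ≠ 0`
(`Matrix.det_ne_zero` from injectivity of `mulVec`, e.g. `Matrix.exists_mulVec_eq_zero_iff`).  So `(G x).mulVec (RR) = Eul`
(`Matrix.mul_nonsing_inv`), and `bil (G x) R w = bil (G x) w R = w ⬝ (G x).mulVec R = w ⬝ Eul` by symmetry.
`RR_smooth`: the entries of the inverse are `(det)⁻¹ * adjugate` (`Matrix.inv_def`, `Matrix.adjugate`, polynomials in the entries: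
`Matrix.det_apply`; or `contDiffAt_ringInverse`), with `det ≠ 0` on the set; `Eul (G t) x v` is a sum of products of components of `v` and of
derivatives `fderiv ℝ (fun y => G t y i j) x (ee k)` which are smooth in `(t, x)`: it is `fderiv` of `(t, y) ↦ G t y i j` applied to `(0, ee k)`.
`RR_smooth1`: the same for one metric.
`RR_round`: `G 0 y i j = bil (G 0 y) (ee i) (ee j) = if i = j then 1 else 0` for `y ≠ 0`, so `dT (G 0) x = 0`, `Eul = 0`.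
-/

namespace Pool.Agent.Work.MP_659252_gt.QR

open scoped ContDiff Topology
open Pool.Agent.Work.MP_659252_gt.Z (V Ten val Tan InT IsZoll IsMetric IsGeodesic)

variable {d : ℕ}

private theorem mul_eq_mulVec (M : Mat d) (v : V d) : mul M v = (Matrix.of M).mulVec v := rfl

private theorem det_ne (G : Ten d) (hG : Met G) (x : V d) (hx : x ≠ 0) : (Matrix.of (G x)).det ≠ 0 := by
  intro h
  obtain ⟨v, hv, hv0⟩ := Matrix.exists_mulVec_eq_zero_iff.2 h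
  have h1 := hG.pos x hx v hv
  rw [bil_eq_dot, mul_eq_mulVec, hv0, dotProduct_zero] at h1
  exact lt_irrefl _ h1

theorem RR_dot (G : Ten d) (hG : Met G) (x : V d) (hx : x ≠ 0) (v w : V d) :
    bil (G x) (RR G x v) w = Eul G x v ⬝ᵥ w := by
  rw [bil_comm (hG.symm x hx), bil_eq_dot, mul_eq_mulVec, RR, Matrix.mulVec_mulVec,
    Matrix.mul_nonsing_inv _ (isUnit_iff_ne_zero.2 (det_ne G hG x hx)), Matrix.one_mulVec, dotProduct_comm]

section smooth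

variable {E : Type*} [NormedAddCommGroup E] [NormedSpace ℝ E]

private theorem det_smooth {n : ℕ} {U : Set E} (M : E → Matrix (Fin n) (Fin n) ℝ)
    (hM : ∀ i j, ContDiffOn ℝ ∞ (fun p => M p i j) U) : ContDiffOn ℝ ∞ (fun p => (M p).det) U := by
  have h1 : (fun p => (M p).det) = fun p => ∑ σ : Equiv.Perm (Fin n),
      ((Equiv.Perm.sign σ : ℤ) : ℝ) * ∏ i, M p (σ i) i := by
    funext p
    exact Matrix.det_apply' _
  rw [h1]
  refine ContDiffOn.sum fun σ _ => ?_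
  refine contDiffOn_const.mul ?_
  exact contDiffOn_prod fun i _ => hM _ _

private theorem inv_smooth {n : ℕ} {U : Set E} (M : E → Matrix (Fin n) (Fin n) ℝ)
    (hM : ∀ i j, ContDiffOn ℝ ∞ (fun p => M p i j) U) (hd : ∀ p ∈ U, (M p).det ≠ 0) (i j : Fin n) :
    ContDiffOn ℝ ∞ (fun p => (M p)⁻¹ i j) U := by
  have h1 : (fun p => (M p)⁻¹ i j) = fun p => ((M p).det)⁻¹ * ((M p).updateRow j (Pi.single i 1)).det := by
    funext p
    rw [Matrix.inv_def, Matrix.smul_apply, Matrix.adjugate_apply, Ring.inverse_eq_inv', smul_eq_mul]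
  rw [h1]
  refine ((det_smooth M hM).inv hd).mul ?_
  refine det_smooth (fun p => (M p).updateRow j (Pi.single i 1)) fun k l => ?_
  by_cases hk : k = j
  · subst hk
    simp only [Matrix.updateRow_self]
    exact contDiffOn_const
  · simp only [Matrix.updateRow_ne hk]
    exact hM k l

private theorem Eul_smooth (ε : ℝ) (G : ℝ → Ten d)
    (hs : ContDiffOn ℝ ∞ (fun p : ℝ × V d => G p.1 p.2) (Set.Ioo (-ε) ε ×ˢ {0}ᶜ)) (i : Fin (d + 1)) :
    ContDiffOn ℝ ∞ (fun p : ℝ × (V d × V d) => Eul (G p.1) p.2.1 p.2.2 i)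
      (Set.Ioo (-ε) ε ×ˢ ({0}ᶜ ×ˢ Set.univ)) := by
  have hop : IsOpen (Set.Ioo (-ε) ε ×ˢ ({0}ᶜ : Set (V d))) := isOpen_Ioo.prod isOpen_compl_singleton
  have hent : ∀ a b : Fin (d + 1), ContDiffOn ℝ ∞ (fun p : ℝ × V d => G p.1 p.2 a b)
      (Set.Ioo (-ε) ε ×ˢ {0}ᶜ) := by
    intro a b
    exact (contDiffOn_pi.1 (contDiffOn_pi.1 hs a) b)
  -- the partial derivative
  have hfd : ∀ (a b : Fin (d + 1)) (u : ℝ × (V d × V d) → V d), ContDiff ℝ ∞ u →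
      ContDiffOn ℝ ∞ (fun p : ℝ × (V d × V d) => fderiv ℝ (fun y => G p.1 y a b) p.2.1 (u p))
        (Set.Ioo (-ε) ε ×ˢ ({0}ᶜ ×ˢ Set.univ)) := by
    intro a b u hu
    have h1 : ContDiffOn ℝ ∞ (fderiv ℝ (fun p : ℝ × V d => G p.1 p.2 a b)) (Set.Ioo (-ε) ε ×ˢ {0}ᶜ) :=
      (hent a b).fderiv_of_isOpen hop (by simp)
    have h2 : ContDiffOn ℝ ∞ (fun p : ℝ × (V d × V d) => (p.1, p.2.1))
        (Set.Ioo (-ε) ε ×ˢ ({0}ᶜ ×ˢ Set.univ)) :=
      (contDiff_fst.prodMk (contDiff_fst.comp contDiff_snd)).contDiffOn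
    have h3 : Set.MapsTo (fun p : ℝ × (V d × V d) => (p.1, p.2.1))
        (Set.Ioo (-ε) ε ×ˢ ({0}ᶜ ×ˢ Set.univ)) (Set.Ioo (-ε) ε ×ˢ ({0}ᶜ : Set (V d))) := by
      rintro ⟨t, x, v⟩ ⟨ht, hx, -⟩
      exact ⟨ht, hx⟩
    have h4 := h1.comp h2 h3
    have h5 : ContDiffOn ℝ ∞ (fun p : ℝ × (V d × V d) => ((0 : ℝ), u p))
        (Set.Ioo (-ε) ε ×ˢ ({0}ᶜ ×ˢ Set.univ)) :=
      (contDiff_const.prodMk hu).contDiffOn
    refine (h4.clm_apply h5).congr ?_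
    rintro ⟨t, x, v⟩ ⟨ht, hx, -⟩
    change fderiv ℝ (fun y => G t y a b) x (u (t, x, v)) =
      fderiv ℝ (fun p : ℝ × V d => G p.1 p.2 a b) (t, x) ((0 : ℝ), u (t, x, v))
    have h6 : DifferentiableAt ℝ (fun p : ℝ × V d => G p.1 p.2 a b) (t, x) :=
      ((hent a b).contDiffAt (hop.mem_nhds ⟨ht, hx⟩)).differentiableAt (by simp)
    have h7 : HasFDerivAt (fun y : V d => ((t, y) : ℝ × V d)) (ContinuousLinearMap.inr ℝ ℝ (V d)) x :=
      hasFDerivAt_prodMk_right t x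
    have h8 := h6.hasFDerivAt.comp x h7
    have h9 : HasFDerivAt (fun y => G t y a b)
        ((fderiv ℝ (fun p : ℝ × V d => G p.1 p.2 a b) (t, x)).comp (ContinuousLinearMap.inr ℝ ℝ (V d))) x := h8
    rw [h9.fderiv]
    rfl
  have hv : ∀ k : Fin (d + 1), ContDiffOn ℝ ∞ (fun p : ℝ × (V d × V d) => p.2.2 k)
      (Set.Ioo (-ε) ε ×ˢ ({0}ᶜ ×ˢ Set.univ)) := by
    intro k
    exact (((contDiff_apply ℝ ℝ k).comp (contDiff_snd.comp contDiff_snd))).contDiffOn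
  simp only [Eul, bil, mul, dT]
  refine ContDiffOn.sub (contDiffOn_const.mul ?_) ?_
  · refine ContDiffOn.sum fun a _ => ContDiffOn.sum fun b _ => ?_
    exact (hfd a b (fun _ => ee i) contDiff_const).mul ((hv a).mul (hv b))
  · refine ContDiffOn.sum fun b _ => ?_
    exact (hfd i b (fun p => p.2.2) (contDiff_snd.comp contDiff_snd)).mul (hv b)

end smooth

private theorem RR_smooth_aux (ε : ℝ) (G : ℝ → Ten d)
    (hs : ContDiffOn ℝ ∞ (fun p : ℝ × V d => G p.1 p.2) (Set.Ioo (-ε) ε ×ˢ {0}ᶜ))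
    (hm : ∀ t ∈ Set.Ioo (-ε) ε, Met (G t)) :
    ContDiffOn ℝ ∞ (fun p : ℝ × (V d × V d) => RR (G p.1) p.2.1 p.2.2)
      (Set.Ioo (-ε) ε ×ˢ ({0}ᶜ ×ˢ Set.univ)) := by
  refine contDiffOn_pi.2 fun i => ?_
  have h1 : (fun p : ℝ × (V d × V d) => RR (G p.1) p.2.1 p.2.2 i) = fun p =>
      ∑ j, (Matrix.of (G p.1 p.2.1))⁻¹ i j * Eul (G p.1) p.2.1 p.2.2 j := rfl
  rw [h1]
  refine ContDiffOn.sum fun j _ => ContDiffOn.mul ?_ (Eul_smooth ε G hs j)
  refine inv_smooth (fun p : ℝ × (V d × V d) => Matrix.of (G p.1 p.2.1)) (fun a b => ?_) ?_ i j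
  · have h2 : ContDiffOn ℝ ∞ (fun p : ℝ × (V d × V d) => (p.1, p.2.1))
        (Set.Ioo (-ε) ε ×ˢ ({0}ᶜ ×ˢ Set.univ)) :=
      (contDiff_fst.prodMk (contDiff_fst.comp contDiff_snd)).contDiffOn
    have h3 : Set.MapsTo (fun p : ℝ × (V d × V d) => (p.1, p.2.1))
        (Set.Ioo (-ε) ε ×ˢ ({0}ᶜ ×ˢ Set.univ)) (Set.Ioo (-ε) ε ×ˢ ({0}ᶜ : Set (V d))) := by
      rintro ⟨t, x, v⟩ ⟨ht, hx, -⟩
      exact ⟨ht, hx⟩
    exact (contDiffOn_pi.1 (contDiffOn_pi.1 hs a) b).comp h2 h3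
  · rintro ⟨t, x, v⟩ ⟨ht, hx, -⟩
    exact det_ne (G t) (hm t ht) x hx

theorem RR_smooth (ε : ℝ) (G : ℝ → Ten d) (N : Nice ε G) :
    ContDiffOn ℝ ∞ (fun p : ℝ × (V d × V d) => RR (G p.1) p.2.1 p.2.2)
      (Set.Ioo (-ε) ε ×ˢ ({0}ᶜ ×ˢ Set.univ)) :=
  RR_smooth_aux ε G N.smooth N.met

theorem RR_smooth1 (G : Ten d) (hG : Met G) :
    ContDiffOn ℝ ∞ (fun p : V d × V d => RR G p.1 p.2) ({0}ᶜ ×ˢ Set.univ) := by
  have h1 := RR_smooth_aux 1 (fun _ => G)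
    (hG.smooth.comp (contDiff_snd.contDiffOn (s := Set.Ioo (-1 : ℝ) 1 ×ˢ ({0}ᶜ : Set (V d))))
      (fun p hp => hp.2)) (fun _ _ => hG)
  have h2 : ContDiffOn ℝ ∞ (fun p : V d × V d => ((0 : ℝ), p)) ({0}ᶜ ×ˢ Set.univ) :=
    (contDiff_const.prodMk contDiff_id).contDiffOn
  exact h1.comp h2 (fun p hp => ⟨by simp, hp⟩)

theorem RR_round (ε : ℝ) (G : ℝ → Ten d) (N : Nice ε G) (x : V d) (hx : x ≠ 0) (v : V d) : RR (G 0) x v = 0 := by
  have h1 : ∀ y : V d, y ≠ 0 → ∀ i j, G 0 y i j = ee i ⬝ᵥ ee (d := d) j := by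
    intro y hy i j
    rw [← N.rnd y hy (ee i) (ee j), bil_eq_dot, dotProduct_comm, dot_ee, mul_eq_mulVec]
    change G 0 y i j = ∑ k, G 0 y i k * (ee j : V d) k
    have h2 : ∀ k, G 0 y i k * (ee j : V d) k = if k = j then G 0 y i j else 0 := by
      intro k
      rw [ee, Pi.single_apply]
      split_ifs with h
      · rw [h, mul_one]
      · rw [mul_zero]
    rw [Finset.sum_congr rfl fun k _ => h2 k, Finset.sum_ite_eq' Finset.univ j, if_pos (Finset.mem_univ j)]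
  have h2 : ∀ u : V d, dT (G 0) x u = 0 := by
    intro u
    funext i j
    have h3 : (fun y => G 0 y i j) =ᶠ[𝓝 x] fun _ => ee i ⬝ᵥ ee (d := d) j := by
      filter_upwards [isOpen_compl_singleton.mem_nhds hx] with y hy
      exact h1 y hy i j
    rw [dT, h3.fderiv_eq, fderiv_fun_const]
    rfl
  have h3 : Eul (G 0) x v = 0 := by
    funext i
    simp only [Eul, h2, bil, mul, Pi.zero_apply, zero_mul, Finset.sum_const_zero, mul_zero, sub_zero]
  rw [RR, h3, Matrix.mulVec_zero]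

end Pool.Agent.Work.MP_659252_gt.QR
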