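import Pool.Agent.Work.MP_659252_gt.QR.A.RRa
import Pool.Agent.Work.MP_659252_gt.QR.A.EulA
import Pool.Agent.Work.MP_659252_gt.QR.A.Yp

/-!
# `RR (G t) x v = t Eul h x v + O(t²)`.  Size: M.

PROOF.  `R (t, x, v) = RR (G t) x v` is smooth on `(-ε, ε) × ({0}ᶜ × univ)` (`RR_smooth`), `R (0, ·) = 0` (`RR_round`).  The second `t`-derivative is bounded on
`|t| ≤ ε/2`, `InK x v` (compact), so `‖R (t, x, v) - t ∂_t R (0, x, v)‖ ≤ C t²` (Taylor in `t`; e.g. the mean value inequality twice).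
`∂_t R (0, x, v) = Eul h x v`: differentiate the identity `mul (G t x) (RR (G t) x v) = Eul (G t) x v` (`RR_dot`, symmetry, `vec_ext`) at `t = 0`:
`mul (h x) 0 + mul (G 0 x) (∂_t R) = ∂_t (Eul (G t) x v)`, `mul (G 0 x) w = w` (`rnd`), and `∂_t (dT (G t) x w i j) = dT h x w i j` (mixed derivatives of the
smooth function `(t, x) ↦ G t x i j`, whose `t`-derivative at `0` is `h x i j` for all `x ≠ 0`), so `∂_t Eul (G t) = Eul h`.
-/

namespace Pool.Agent.Work.MP_659252_gt.QR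

open scoped ContDiff Topology
open Pool.Agent.Work.MP_659252_gt.Z (V Ten val Tan InT IsZoll IsMetric IsGeodesic)

variable {d : ℕ}

private theorem rrt_taylor {E F : Type*} [NormedAddCommGroup E] [NormedSpace ℝ E]
    [NormedAddCommGroup F] [NormedSpace ℝ F] (R : ℝ × E → F) (ε : ℝ) (hε : 0 < ε) (U : Set E)
    (hU : IsOpen U) (hR : ContDiffOn ℝ ∞ R (Set.Ioo (-ε) ε ×ˢ U)) (h0 : ∀ y ∈ U, R (0, y) = 0)
    (K : Set E) (hK : IsCompact K) (hKU : K ⊆ U) :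
    ∃ C > 0, ∀ t, |t| ≤ ε / 2 → ∀ y ∈ K,
      ‖R (t, y) - t • fderiv ℝ R (0, y) (1, 0)‖ ≤ C * t ^ 2 := by
  have hS : IsOpen (Set.Ioo (-ε) ε ×ˢ U) := isOpen_Ioo.prod hU
  obtain ⟨D, hDdef⟩ : ∃ D : ℝ × E → F, D = fun p => fderiv ℝ R p (1, 0) := ⟨_, rfl⟩
  have hD : ContDiffOn ℝ ∞ D (Set.Ioo (-ε) ε ×ˢ U) := by
    rw [hDdef]
    exact (hR.fderiv_of_isOpen hS (by simp)).clm_apply contDiffOn_const
  obtain ⟨D2, hD2def⟩ : ∃ D2 : ℝ × E → F, D2 = fun p => fderiv ℝ D p (1, 0) := ⟨_, rfl⟩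
  have hD2 : ContinuousOn D2 (Set.Ioo (-ε) ε ×ˢ U) := by
    rw [hD2def]
    have h1 : ContDiffOn ℝ ∞ (fun p => fderiv ℝ D p (1, 0)) (Set.Ioo (-ε) ε ×ˢ U) :=
      (hD.fderiv_of_isOpen hS (by simp)).clm_apply contDiffOn_const
    exact h1.continuousOn
  have hcomp : IsCompact (Set.Icc (-(ε / 2)) (ε / 2) ×ˢ K) := isCompact_Icc.prod hK
  have hsub : Set.Icc (-(ε / 2)) (ε / 2) ×ˢ K ⊆ Set.Ioo (-ε) ε ×ˢ U := by
    rintro ⟨t, y⟩ ⟨h1, h2⟩
    rw [Set.mem_Icc] at h1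
    exact ⟨⟨by linarith [h1.1], by linarith [h1.2]⟩, hKU h2⟩
  obtain ⟨C, hC⟩ := hcomp.exists_bound_of_continuousOn (hD2.mono hsub)
  have hder : ∀ (g : ℝ × E → F), ContDiffOn ℝ ∞ g (Set.Ioo (-ε) ε ×ˢ U) → ∀ t ∈ Set.Icc (-(ε / 2)) (ε / 2),
      ∀ y ∈ K, HasDerivAt (fun τ => g (τ, y)) (fderiv ℝ g (t, y) (1, 0)) t := by
    intro g hg t ht y hy
    have h1 : HasFDerivAt g (fderiv ℝ g (t, y)) (t, y) :=
      ((hg.contDiffAt (hS.mem_nhds (hsub ⟨ht, hy⟩))).differentiableAt (by simp)).hasFDerivAt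
    have h2 : HasDerivAt (fun τ : ℝ => (τ, y)) ((1 : ℝ), (0 : E)) t :=
      (hasDerivAt_id t).prodMk (hasDerivAt_const t y)
    exact h1.comp_hasDerivAt t h2
  have h0mem : (0 : ℝ) ∈ Set.Icc (-(ε / 2)) (ε / 2) := ⟨by linarith, by linarith⟩
  have hstep : ∀ t ∈ Set.Icc (-(ε / 2)) (ε / 2), ∀ y ∈ K, ‖D (t, y) - D (0, y)‖ ≤ C * |t| := by
    intro t ht y hy
    have h1 := Convex.norm_image_sub_le_of_norm_hasDerivWithin_le (f := fun τ => D (τ, y))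
      (f' := fun τ => D2 (τ, y)) (C := C) (s := Set.Icc (-(ε / 2)) (ε / 2)) (x := 0) (y := t)
      (fun τ hτ => by
        rw [hD2def]
        exact (hder D hD τ hτ y hy).hasDerivWithinAt)
      (fun τ hτ => hC (τ, y) ⟨hτ, hy⟩) (convex_Icc _ _) h0mem ht
    simp only [sub_zero, Real.norm_eq_abs] at h1
    exact h1
  refine ⟨max C 1, lt_max_of_lt_right one_pos, fun t ht y hy => ?_⟩
  have htm : t ∈ Set.Icc (-(ε / 2)) (ε / 2) := abs_le.1 ht
  have hsub2 : Set.Icc (-|t|) |t| ⊆ Set.Icc (-(ε / 2)) (ε / 2) := fun τ hτ =>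
    ⟨by linarith [hτ.1], by linarith [hτ.2]⟩
  have h1 := Convex.norm_image_sub_le_of_norm_hasDerivWithin_le
    (f := fun τ => R (τ, y) - τ • D (0, y)) (f' := fun τ => D (τ, y) - D (0, y))
    (C := max C 1 * |t|) (s := Set.Icc (-|t|) |t|) (x := 0) (y := t)
    (fun τ hτ => by
      have h2 := hder R hR τ (hsub2 hτ) y hy
      have h3 : HasDerivAt (fun τ : ℝ => τ • D (0, y)) ((1 : ℝ) • D (0, y)) τ :=
        (hasDerivAt_id τ).smul_const (D (0, y))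
      rw [one_smul] at h3
      have h4 := (h2.sub h3).hasDerivWithinAt (s := Set.Icc (-|t|) |t|)
      have h5 : fderiv ℝ R (τ, y) (1, 0) = D (τ, y) := by rw [hDdef]
      rw [h5] at h4
      exact h4)
    (fun τ hτ => by
      have h2 := hstep τ (hsub2 hτ) y hy
      have h3 : |τ| ≤ |t| := abs_le.2 hτ
      calc ‖D (τ, y) - D (0, y)‖ ≤ C * |τ| := h2
        _ ≤ max C 1 * |τ| := mul_le_mul_of_nonneg_right (le_max_left _ _) (abs_nonneg _)
        _ ≤ max C 1 * |t| := mul_le_mul_of_nonneg_left h3 (le_max_of_le_right zero_le_one))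
    (convex_Icc _ _) ⟨neg_nonpos.2 (abs_nonneg _), abs_nonneg _⟩ ⟨neg_abs_le t, le_abs_self t⟩
  have h6 : fderiv ℝ R (0, y) (1, 0) = D (0, y) := by rw [hDdef]
  rw [h6]
  simp only [zero_smul, sub_zero, h0 y (hKU hy), Real.norm_eq_abs] at h1
  calc ‖R (t, y) - t • D (0, y)‖ ≤ max C 1 * |t| * |t| := h1
    _ = max C 1 * t ^ 2 := by rw [mul_assoc, abs_mul_abs_self, sq]

private theorem rrt_mixed (Γ : ℝ × V d → ℝ) (ε : ℝ) (hε : 0 < ε)
    (hΓ : ContDiffOn ℝ ∞ Γ (Set.Ioo (-ε) ε ×ˢ {0}ᶜ)) (k : V d → ℝ)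
    (hk : ∀ y, y ≠ 0 → HasDerivAt (fun t => Γ (t, y)) (k y) 0) (x : V d) (hx : x ≠ 0) (u : V d) :
    HasDerivAt (fun t => fderiv ℝ (fun y => Γ (t, y)) x u) (fderiv ℝ k x u) 0 := by
  have hS : IsOpen (Set.Ioo (-ε) ε ×ˢ ({0}ᶜ : Set (V d))) := isOpen_Ioo.prod isOpen_compl_singleton
  have hmem : ∀ t ∈ Set.Ioo (-ε) ε, ∀ y : V d, y ≠ 0 → (t, y) ∈ Set.Ioo (-ε) ε ×ˢ ({0}ᶜ : Set (V d)) :=
    fun t ht y hy => Set.mk_mem_prod ht (Set.mem_compl_singleton_iff.2 hy)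
  have h00 : (0 : ℝ) ∈ Set.Ioo (-ε) ε := ⟨by linarith, hε⟩
  have hcd : ContDiffAt ℝ ∞ Γ (0, x) := hΓ.contDiffAt (hS.mem_nhds (hmem 0 h00 x hx))
  have hdf : ∀ t ∈ Set.Ioo (-ε) ε, ∀ y : V d, y ≠ 0 → HasFDerivAt Γ (fderiv ℝ Γ (t, y)) (t, y) :=
    fun t ht y hy => ((hΓ.contDiffAt (hS.mem_nhds (hmem t ht y hy))).differentiableAt
      (by simp)).hasFDerivAt
  have hd2 : HasFDerivAt (fderiv ℝ Γ) (fderiv ℝ (fderiv ℝ Γ) (0, x)) (0, x) :=
    ((hcd.fderiv_right (m := ∞) (by simp)).differentiableAt (by simp)).hasFDerivAt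
  have hap : ∀ a : ℝ × V d, HasFDerivAt (fun p => fderiv ℝ Γ p a)
      ((ContinuousLinearMap.apply ℝ ℝ a).comp (fderiv ℝ (fderiv ℝ Γ) (0, x))) (0, x) := fun a =>
    (ContinuousLinearMap.apply ℝ ℝ a).hasFDerivAt.comp (0, x) hd2
  have hsym : fderiv ℝ (fderiv ℝ Γ) (0, x) (1, 0) (0, u) =
      fderiv ℝ (fderiv ℝ Γ) (0, x) (0, u) (1, 0) :=
    (hcd.isSymmSndFDerivAt (by
      rw [minSmoothness_of_isRCLikeNormedField]
      exact WithTop.coe_le_coe.2 (le_top : (2 : ℕ∞) ≤ ⊤))) (1, 0) (0, u)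
  have hb : HasDerivAt (fun t => fderiv ℝ Γ (t, x) (0, u))
      (fderiv ℝ (fderiv ℝ Γ) (0, x) (1, 0) (0, u)) 0 := by
    have h2 : HasDerivAt (fun τ : ℝ => (τ, x)) ((1 : ℝ), (0 : V d)) 0 :=
      (hasDerivAt_id 0).prodMk (hasDerivAt_const 0 x)
    exact (hap (0, u)).comp_hasDerivAt (0 : ℝ) h2
  have hc : fderiv ℝ k x u = fderiv ℝ (fderiv ℝ Γ) (0, x) (0, u) (1, 0) := by
    have h1 : k =ᶠ[𝓝 x] fun y => fderiv ℝ Γ (0, y) (1, 0) := by
      filter_upwards [isOpen_ne.mem_nhds hx] with y hy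
      have h2 : HasDerivAt (fun τ : ℝ => (τ, y)) ((1 : ℝ), (0 : V d)) 0 :=
        (hasDerivAt_id 0).prodMk (hasDerivAt_const 0 y)
      exact (hk y hy).unique ((hdf 0 h00 y hy).comp_hasDerivAt (0 : ℝ) h2)
    have h3 : HasFDerivAt (fun y : V d => ((0 : ℝ), y)) (ContinuousLinearMap.inr ℝ ℝ (V d)) x :=
      hasFDerivAt_prodMk_right (0 : ℝ) x
    have h4 := (hap (1, 0)).comp x h3
    rw [h1.fderiv_eq]
    have h5 : fderiv ℝ (fun y => fderiv ℝ Γ (0, y) (1, 0)) x =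
      ((ContinuousLinearMap.apply ℝ ℝ ((1 : ℝ), (0 : V d))).comp
        (fderiv ℝ (fderiv ℝ Γ) (0, x))).comp (ContinuousLinearMap.inr ℝ ℝ (V d)) := h4.fderiv
    rw [h5]
    rfl
  rw [hc, ← hsym]
  refine hb.congr_of_eventuallyEq ?_
  filter_upwards [isOpen_Ioo.mem_nhds h00] with t ht
  have h3 : HasFDerivAt (fun y : V d => (t, y)) (ContinuousLinearMap.inr ℝ ℝ (V d)) x :=
    hasFDerivAt_prodMk_right t x
  have h4 : HasFDerivAt (fun y : V d => Γ (t, y))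
      ((fderiv ℝ Γ (t, x)).comp (ContinuousLinearMap.inr ℝ ℝ (V d))) x := (hdf t ht x hx).comp x h3
  rw [h4.fderiv]
  rfl

private theorem rrt_bil {M : ℝ → Mat d} {M' : Mat d}
    (h : ∀ i j, HasDerivAt (fun t => M t i j) (M' i j) 0) (v w : V d) :
    HasDerivAt (fun t => bil (M t) v w) (bil M' v w) 0 := by
  unfold bil
  exact HasDerivAt.fun_sum fun i _ => HasDerivAt.fun_sum fun j _ => (h i j).mul_const _

private theorem rrt_val (ε : ℝ) (G : ℝ → Ten d) (N : Nice ε G) (h : Ten d)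
    (hd : ∀ x, x ≠ 0 → ∀ i j, HasDerivAt (fun t => G t x i j) (h x i j) 0) (x : V d) (hx : x ≠ 0)
    (v r : V d) (hr : HasDerivAt (fun t => RR (G t) x v) r 0) : r = Eul h x v := by
  refine vec_ext fun w => ?_
  have h1 : (fun t => bil (G t x) (RR (G t) x v) w) =ᶠ[𝓝 0] fun t => Eul (G t) x v ⬝ᵥ w := by
    filter_upwards [isOpen_Ioo.mem_nhds (show (0 : ℝ) ∈ Set.Ioo (-ε) ε from
      ⟨by linarith [N.pos], N.pos⟩)] with t ht
    exact RR_dot (G t) (N.met t ht) x hx v w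
  have h2 : HasDerivAt (fun t => bil (G t x) (RR (G t) x v) w) (r ⬝ᵥ w) 0 := by
    have h3 : HasDerivAt (fun t => ∑ i, ∑ j, G t x i j * (RR (G t) x v i * w j))
        (∑ i, ∑ j, (h x i j * (RR (G 0) x v i * w j) + G 0 x i j * (r i * w j))) 0 :=
      HasDerivAt.fun_sum fun i _ => HasDerivAt.fun_sum fun j _ =>
        (hd x hx i j).mul ((hasDerivAt_pi.1 hr i).mul_const (w j))
    have h4 : (∑ i, ∑ j, (h x i j * (RR (G 0) x v i * w j) + G 0 x i j * (r i * w j))) =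
        r ⬝ᵥ w := by
      rw [RR_round ε G N x hx v, ← N.rnd x hx r w]
      simp [bil]
    rw [h4] at h3
    exact h3
  have hmix : ∀ (u : V d) (i j : Fin (d + 1)),
      HasDerivAt (fun t => dT (G t) x u i j) (dT h x u i j) 0 := fun u i j =>
    rrt_mixed (fun p => G p.1 p.2 i j) ε N.pos
      (contDiffOn_pi.1 (contDiffOn_pi.1 N.smooth i) j) (fun y => h y i j)
      (fun y hy => hd y hy i j) x hx u
  have h5 : HasDerivAt (fun t => Eul (G t) x v ⬝ᵥ w) (Eul h x v ⬝ᵥ w) 0 := by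
    simp only [Eul_dot]
    exact ((rrt_bil (hmix w) v v).const_mul (1 / 2)).sub (rrt_bil (hmix v) w v)
  exact (h2.congr_of_eventuallyEq h1.symm).unique h5

private theorem rrt_compact : IsCompact {p : V d × V d | InK p.1 p.2} := by
  have hdc : Continuous fun p : V d × V d => p.1 ⬝ᵥ p.1 := by
    unfold dotProduct
    exact continuous_finsetSum _ fun i _ =>
      ((continuous_apply i).comp continuous_fst).mul ((continuous_apply i).comp continuous_fst)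
  apply Metric.isCompact_of_isClosed_isBounded
  · exact (isClosed_le continuous_const hdc).inter ((isClosed_le hdc continuous_const).inter
      (isClosed_le continuous_snd.norm continuous_const))
  · refine (Metric.isBounded_closedBall (x := (0 : V d × V d)) (r := 3)).subset ?_
    rintro ⟨x, v⟩ ⟨-, h2, h3⟩
    rw [Metric.mem_closedBall, dist_zero_right, Prod.norm_def]
    refine max_le ?_ h3
    have h4 := norm_sq_le_dot x
    simp only at h2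
    show ‖x‖ ≤ 3
    nlinarith [norm_nonneg x]

theorem RRt (ε : ℝ) (G : ℝ → Ten d) (N : Nice ε G) (h : Ten d)
    (hd : ∀ x, x ≠ 0 → ∀ i j, HasDerivAt (fun t => G t x i j) (h x i j) 0) :
    ∃ C > 0, ∃ t₁ > 0, t₁ < ε ∧ ∀ t, |t| ≤ t₁ → ∀ x v : V d, InK x v →
      ‖RR (G t) x v - t • Eul h x v‖ ≤ C * t ^ 2 := by
  have hε := N.pos
  have hU : IsOpen (({0}ᶜ : Set (V d)) ×ˢ (Set.univ : Set (V d))) :=
    isOpen_compl_singleton.prod isOpen_univ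
  have hne : ∀ x v : V d, InK x v → x ≠ 0 := by
    rintro x v hK rfl
    have := hK.1
    simp at this
    norm_num at this
  have hKU : {p : V d × V d | InK p.1 p.2} ⊆ ({0}ᶜ : Set (V d)) ×ˢ (Set.univ : Set (V d)) :=
    fun p hp => Set.mk_mem_prod (Set.mem_compl_singleton_iff.2 (hne p.1 p.2 hp)) (Set.mem_univ _)
  have hsm := RR_smooth ε G N
  obtain ⟨C, hC, hb⟩ := rrt_taylor (fun p : ℝ × (V d × V d) => RR (G p.1) p.2.1 p.2.2) ε hε _ hU hsm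
    (fun y hy => RR_round ε G N y.1 (Set.mem_compl_singleton_iff.1 hy.1) y.2) _ rrt_compact hKU
  refine ⟨C, hC, ε / 2, by linarith, by linarith, fun t ht x v hK => ?_⟩
  have h1 := hb t ht (x, v) hK
  have hx := hne x v hK
  have hS : IsOpen (Set.Ioo (-ε) ε ×ˢ (({0}ᶜ : Set (V d)) ×ˢ (Set.univ : Set (V d)))) :=
    isOpen_Ioo.prod hU
  have h2 : HasFDerivAt (fun p : ℝ × (V d × V d) => RR (G p.1) p.2.1 p.2.2)
      (fderiv ℝ (fun p : ℝ × (V d × V d) => RR (G p.1) p.2.1 p.2.2) (0, (x, v))) (0, (x, v)) :=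
    ((hsm.contDiffAt (hS.mem_nhds (Set.mk_mem_prod (Set.mem_Ioo.2 ⟨by linarith, hε⟩)
      (hKU (show (x, v) ∈ {p : V d × V d | InK p.1 p.2} from hK))))).differentiableAt
      (by simp)).hasFDerivAt
  have h3 : HasDerivAt (fun τ : ℝ => (τ, (x, v))) ((1 : ℝ), (0 : V d × V d)) 0 :=
    (hasDerivAt_id 0).prodMk (hasDerivAt_const 0 (x, v))
  have h6 := HasFDerivAt.comp_hasDerivAt (0 : ℝ) h2 h3
  have h5 : HasDerivAt (fun τ => RR (G τ) x v)
      (fderiv ℝ (fun p : ℝ × (V d × V d) => RR (G p.1) p.2.1 p.2.2) (0, (x, v)) (1, 0)) 0 := h6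
  have h4 := rrt_val ε G N h hd x hx v _ h5
  rw [h4] at h1
  exact h1

end Pool.Agent.Work.MP_659252_gt.QR
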