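import Pool.Agent.Work.MP_659252_gt.QR.A.Yp

/-!
# Symmetry of the second variation.  Size: S-M.

PROOF.  With `e_h s = Eul h (gc s) (gd s)`: `e_h = Y_h'' + Y_h` (`Yf_ode`), so `∫ e_h ⬝ Y_k = ∫ (Y_h'' ⬝ Y_k + Y_h ⬝ Y_k)`, and
`(Y_h' ⬝ Y_k - Y_h ⬝ Y_k')' = Y_h'' ⬝ Y_k - Y_h ⬝ Y_k''`; the function in the bracket is `2π`-periodic (`Yf_periodic` twice; the derivative of a
periodic function is periodic), so `∫_0^{2π} (Y_h'' ⬝ Y_k - Y_h ⬝ Y_k'') = 0`.
`Yf_add`, `Eul_add`: linearity of `fderiv` (all fields are differentiable at `gc s ≠ 0`) and of the integral.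
-/

namespace Pool.Agent.Work.MP_659252_gt.QR

open scoped ContDiff Topology
open Pool.Agent.Work.MP_659252_gt.Z (V Ten val Tan InT IsZoll IsMetric IsGeodesic)

variable {d : ℕ}

private theorem comp_diff (h : Ten d) (hh : Fld h) (x : V d) (hx : x ≠ 0) (i j : Fin (d + 1)) :
    DifferentiableAt ℝ (fun y => h y i j) x := by
  have h1 : ContDiffAt ℝ ∞ h x := hh.smooth.contDiffAt (isOpen_compl_singleton.mem_nhds hx)
  have h2 : DifferentiableAt ℝ h x := h1.differentiableAt (by simp)
  exact differentiableAt_pi.1 (differentiableAt_pi.1 h2 i) j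

private theorem dT_add' (h k : Ten d) (hh : Fld h) (hk : Fld k) (x : V d) (hx : x ≠ 0) (v : V d) :
    dT (fun y i j => h y i j + k y i j) x v = fun i j => dT h x v i j + dT k x v i j := by
  funext i j
  simp only [dT]
  rw [fderiv_fun_add (comp_diff h hh x hx i j) (comp_diff k hk x hx i j)]
  rfl

private theorem gc_ne (X W : V d) (hXW : Orth X W) (s : ℝ) : gc X W s ≠ 0 := by
  apply ne_zero_of_dot
  obtain ⟨h1, h2, h3⟩ := hXW
  have h4 : W ⬝ᵥ X = 0 := by rw [dotProduct_comm]; exact h3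
  simp only [gc, add_dotProduct, dotProduct_add, smul_dotProduct, dotProduct_smul, smul_eq_mul, h1, h2, h3, h4]
  nlinarith [Real.sin_sq_add_cos_sq s]

private theorem cont_gc (X W : V d) : Continuous (gc X W) :=
  continuous_iff_continuousAt.2 fun s => (hasDerivAt_gc X W s).continuousAt

private theorem cont_gd (X W : V d) : Continuous (gd X W) :=
  continuous_iff_continuousAt.2 fun s => (hasDerivAt_gd X W s).continuousAt

private theorem cont_e (h : Ten d) (hh : Fld h) (X W : V d) (hXW : Orth X W) :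
    Continuous fun s => Eul h (gc X W s) (gd X W s) := by
  have h1 := (Eul_smooth h {0}ᶜ isOpen_compl_singleton hh).continuousOn
  have h2 : Continuous fun s : ℝ => ((gc X W s, gd X W s) : V d × V d) := (cont_gc X W).prodMk (cont_gd X W)
  have h3 : ∀ s : ℝ, ((gc X W s, gd X W s) : V d × V d) ∈ ({0}ᶜ ×ˢ Set.univ : Set (V d × V d)) :=
    fun s => Set.mk_mem_prod (gc_ne X W hXW s) (Set.mem_univ _)
  have h4 := ContinuousOn.comp_continuous h1 h2 h3
  exact h4

private theorem hasDerivAt_dot {u v : ℝ → V d} {u' v' : V d} {s : ℝ} (hu : HasDerivAt u u' s) (hv : HasDerivAt v v' s) :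
    HasDerivAt (fun t => u t ⬝ᵥ v t) (u' ⬝ᵥ v s + u s ⬝ᵥ v') s := by
  have h1 : HasDerivAt (fun t => ∑ i, u t i * v t i) (∑ i, (u' i * v s i + u s i * v' i)) s :=
    HasDerivAt.fun_sum fun i _ => (hasDerivAt_pi.1 hu i).mul (hasDerivAt_pi.1 hv i)
  have h2 : u' ⬝ᵥ v s + u s ⬝ᵥ v' = ∑ i, (u' i * v s i + u s i * v' i) := by
    simp only [dotProduct, Finset.sum_add_distrib]
  rw [h2]
  exact h1

private theorem cont_dot {u v : ℝ → V d} (hu : Continuous u) (hv : Continuous v) : Continuous fun s => u s ⬝ᵥ v s := by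
  simp only [dotProduct]
  exact continuous_finsetSum _ fun i _ => ((continuous_apply i).comp hu).mul ((continuous_apply i).comp hv)

theorem Eul_add (h k : Ten d) (hh : Fld h) (hk : Fld k) (x : V d) (hx : x ≠ 0) (v : V d) :
    Eul (fun y i j => h y i j + k y i j) x v = Eul h x v + Eul k x v := by
  funext i
  simp only [Eul, dT_add' h k hh hk x hx, bil_add_mat, Pi.add_apply]
  have h1 : mul (fun i j => dT h x v i j + dT k x v i j) v i = mul (dT h x v) v i + mul (dT k x v) v i := by
    simp only [mul, ← Finset.sum_add_distrib]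
    exact Finset.sum_congr rfl fun j _ => by ring
  rw [h1]
  ring

theorem Yf_add (h k : Ten d) (hh : Fld h) (hk : Fld k) (X W : V d) (hXW : Orth X W) (s : ℝ) :
    Yf (fun y i j => h y i j + k y i j) X W s = Yf h X W s + Yf k X W s := by
  simp only [Yf]
  rw [← smul_add, ← intervalIntegral.integral_add]
  · congr 1
    refine intervalIntegral.integral_congr fun σ _ => ?_
    rw [Eul_add h k hh hk _ (gc_ne X W hXW σ), smul_add]
  · exact ((Real.continuous_sin.comp (continuous_const.sub continuous_id)).smul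
      (cont_e h hh X W hXW)).intervalIntegrable _ _
  · exact ((Real.continuous_sin.comp (continuous_const.sub continuous_id)).smul
      (cont_e k hk X W hXW)).intervalIntegrable _ _

theorem sym (h k : Ten d) (hh : Fld h) (hk : Fld k) (oh : OddF h) (ok : OddF k) (X W : V d) (hXW : Orth X W) :
    ∫ s in (0 : ℝ)..(2 * Real.pi), Eul h (gc X W s) (gd X W s) ⬝ᵥ Yf k X W s =
      ∫ s in (0 : ℝ)..(2 * Real.pi), Eul k (gc X W s) (gd X W s) ⬝ᵥ Yf h X W s := by
  have sh : ContDiff ℝ ∞ (Yf h X W) := Yf_smooth h hh X W hXW oh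
  have sk : ContDiff ℝ ∞ (Yf k X W) := Yf_smooth k hk X W hXW ok
  have dh : ∀ s, HasDerivAt (Yf h X W) (deriv (Yf h X W) s) s := fun s =>
    (sh.differentiable (by simp) s).hasDerivAt
  have dk : ∀ s, HasDerivAt (Yf k X W) (deriv (Yf k X W) s) s := fun s =>
    (sk.differentiable (by simp) s).hasDerivAt
  have ph : ∀ s, Yf h X W (s + 2 * Real.pi) = Yf h X W s := fun s => by
    rw [two_mul, ← add_assoc, Yf_periodic h hh X W hXW oh, Yf_periodic h hh X W hXW oh]
  have pk : ∀ s, Yf k X W (s + 2 * Real.pi) = Yf k X W s := fun s => by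
    rw [two_mul, ← add_assoc, Yf_periodic k hk X W hXW ok, Yf_periodic k hk X W hXW ok]
  have p'h : deriv (Yf h X W) (2 * Real.pi) = deriv (Yf h X W) 0 := by
    have h1 : (fun s => Yf h X W (s + 2 * Real.pi)) = Yf h X W := funext ph
    have h2 := deriv_comp_add_const (Yf h X W) (2 * Real.pi) 0
    rw [h1, zero_add] at h2
    exact h2.symm
  have p'k : deriv (Yf k X W) (2 * Real.pi) = deriv (Yf k X W) 0 := by
    have h1 : (fun s => Yf k X W (s + 2 * Real.pi)) = Yf k X W := funext pk
    have h2 := deriv_comp_add_const (Yf k X W) (2 * Real.pi) 0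
    rw [h1, zero_add] at h2
    exact h2.symm
  have p0h : Yf h X W (2 * Real.pi) = Yf h X W 0 := by simpa using ph 0
  have p0k : Yf k X W (2 * Real.pi) = Yf k X W 0 := by simpa using pk 0
  have ch := cont_dot (cont_e h hh X W hXW) sk.continuous
  have ck := cont_dot (cont_e k hk X W hXW) sh.continuous
  have hF : ∀ s, HasDerivAt (fun t => deriv (Yf h X W) t ⬝ᵥ Yf k X W t - deriv (Yf k X W) t ⬝ᵥ Yf h X W t)
      (Eul h (gc X W s) (gd X W s) ⬝ᵥ Yf k X W s - Eul k (gc X W s) (gd X W s) ⬝ᵥ Yf h X W s) s := by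
    intro s
    have h1 := (hasDerivAt_dot (Yf_ode h hh X W hXW oh s) (dk s)).sub (hasDerivAt_dot (Yf_ode k hk X W hXW ok s) (dh s))
    refine h1.congr_deriv ?_
    rw [add_dotProduct, add_dotProduct, neg_dotProduct, neg_dotProduct,
      dotProduct_comm (Yf k X W s) (Yf h X W s), dotProduct_comm (deriv (Yf k X W) s) (deriv (Yf h X W) s)]
    ring
  have h3 := intervalIntegral.integral_eq_sub_of_hasDerivAt (a := 0) (b := 2 * Real.pi) (fun s _ => hF s)
    ((ch.sub ck).intervalIntegrable _ _)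
  rw [intervalIntegral.integral_sub (ch.intervalIntegrable _ _) (ck.intervalIntegrable _ _), p'h, p'k, p0h, p0k,
    sub_self] at h3
  exact sub_eq_zero.1 h3

end Pool.Agent.Work.MP_659252_gt.QR
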