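import Pool.Agent.Work.MP_659252_gt.QR.A.NrmC
import Pool.Agent.Work.MP_659252_gt.QR.A.Per
import Pool.Agent.Work.MP_659252_gt.QR.A.Dlt
import Pool.Agent.Work.MP_659252_gt.QR.A.ExpE
import Pool.Agent.Work.MP_659252_gt.QR.A.Sym

/-!
# The second order condition (THEOREM A).  Size: M.

PROOF.  `so`: `nice_of_InT` gives `ε, G`.  For an orthonormal pair let `E2 (X, W) = (1/2) ∫ Eul h ⬝ Yf h + (1/4) Phi (Gdd G) X W`.  `period`: for small `t` there is `L` with
`|L - 2π| ≤ C |t|` for which all `Sol` are periodic; `dlt`, `expE`: `|(L - 2π) - t² E2 (X, W)| ≤ C |t|³` for small `t`, for every orthonormal pair (with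
`C` depending on the pair).  For two pairs: `t² |E2 - E2'| ≤ C |t|³` for all small `t > 0`, so `E2` is a constant `λ`.  With `K₂` from `Gdd_fld` and
`P x = 1 - x xᵀ/(x ⬝ x)` (`Fld`, `P 0 = 0`; `bil (P gc) gd gd = 1` for orthonormal pairs, so `Phi P = 2π`) the field `K = (λ/π) P - (1/2) K₂` satisfies
`∫ Eul h ⬝ Yf h = 2 λ - (1/2) Phi K₂ = Phi K` (`Phi` only sees `x ≠ 0`; linearity).  (If there is no orthonormal pair there is nothing to prove.)
`thmA`: apply `so` to `h`, `k`, `h + k` (all odd and `Fld`); `Eul_add`, `Yf_add` and bilinearity: `∫ Eul (h+k) ⬝ Yf (h+k) = ∫ Eul h ⬝ Yf h + ∫ Eul k ⬝ Yf k +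
∫ Eul h ⬝ Yf k + ∫ Eul k ⬝ Yf h`, and the last two are equal (`sym`).  So `K = (1/2) (K_{h+k} - K_h - K_k)`.
-/

namespace Pool.Agent.Work.MP_659252_gt.QR

open scoped ContDiff Topology
open Pool.Agent.Work.MP_659252_gt.Z (V Ten val Tan InT IsZoll IsMetric IsGeodesic)

variable {d : ℕ}

private theorem so_dots (X W : V d) (hXW : Orth X W) (s : ℝ) : gc X W s ⬝ᵥ gc X W s = 1 ∧
    gd X W s ⬝ᵥ gd X W s = 1 ∧ gc X W s ⬝ᵥ gd X W s = 0 := by
  obtain ⟨h1, h2, h3⟩ := hXW
  have h4 : W ⬝ᵥ X = 0 := by rw [dotProduct_comm]; exact h3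
  have h5 := Real.sin_sq_add_cos_sq s
  simp only [gc, gd, add_dotProduct, dotProduct_add, smul_dotProduct, dotProduct_smul,
    sub_dotProduct, dotProduct_sub, smul_eq_mul, h1, h2, h3, h4]
  refine ⟨by linear_combination h5, by linear_combination h5, by ring⟩

private theorem so_gc_ne (X W : V d) (hXW : Orth X W) (s : ℝ) : gc X W s ≠ 0 :=
  ne_zero_of_dot (so_dots X W hXW s).1

private theorem so_gc_cont (X W : V d) : Continuous (gc X W) :=
  continuous_iff_continuousAt.2 fun s => (hasDerivAt_gc X W s).continuousAt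

private theorem so_gd_cont (X W : V d) : Continuous (gd X W) :=
  continuous_iff_continuousAt.2 fun s => (hasDerivAt_gd X W s).continuousAt

private theorem so_bil_cont (h : Ten d) (hh : Fld h) (X W : V d) (hXW : Orth X W) :
    Continuous fun s => bil (h (gc X W s)) (gd X W s) (gd X W s) := by
  have h1 : Continuous fun s => h (gc X W s) :=
    hh.smooth.continuousOn.comp_continuous (so_gc_cont X W) (fun s => so_gc_ne X W hXW s)
  have h2 : ∀ i j, Continuous fun s => h (gc X W s) i j := fun i j =>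
    (continuous_apply j).comp ((continuous_apply i).comp h1)
  have h3 : ∀ i, Continuous fun s => gd X W s i := fun i =>
    (continuous_apply i).comp (so_gd_cont X W)
  unfold bil
  exact continuous_finsetSum _ fun i _ => continuous_finsetSum _ fun j _ =>
    (h2 i j).mul ((h3 i).mul (h3 j))

private theorem so_bil_lin (h k : Ten d) (a b : ℝ) (x v w : V d) :
    bil (fun i j => a * h x i j + b * k x i j) v w = a * bil (h x) v w + b * bil (k x) v w := by
  have h1 := bil_add_mat (fun i j => a * h x i j) (fun i j => b * k x i j) v w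
  rw [bil_smul_mat, bil_smul_mat] at h1
  exact h1

private theorem so_fld_lin (h k : Ten d) (hh : Fld h) (hk : Fld k) (a b : ℝ) :
    Fld (fun x i j => a * h x i j + b * k x i j) := by
  refine ⟨?_, ?_, ?_, ?_⟩
  · have h1 : ContDiffOn ℝ ∞ (fun x => a • h x + b • k x) {0}ᶜ :=
      (hh.smooth.const_smul a).add (hk.smooth.const_smul b)
    exact h1
  · intro x i j
    show a * h x i j + b * k x i j = a * h x j i + b * k x j i
    rw [hh.symm x i j, hk.symm x i j]
  · intro c x hc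
    show (fun i j => a * h (c • x) i j + b * k (c • x) i j) = _
    rw [hh.hom c x hc, hk.hom c x hc]
  · intro x v
    rw [so_bil_lin h k a b x x v, hh.tan, hk.tan, mul_zero, mul_zero, add_zero]

private theorem so_phi_lin (h k : Ten d) (hh : Fld h) (hk : Fld k) (a b : ℝ) (X W : V d)
    (hXW : Orth X W) :
    Phi (fun x i j => a * h x i j + b * k x i j) X W = a * Phi h X W + b * Phi k X W := by
  unfold Phi
  have i1 : IntervalIntegrable (fun s => a * bil (h (gc X W s)) (gd X W s) (gd X W s))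
      MeasureTheory.volume 0 (2 * Real.pi) :=
    (continuous_const.mul (so_bil_cont h hh X W hXW)).intervalIntegrable _ _
  have i2 : IntervalIntegrable (fun s => b * bil (k (gc X W s)) (gd X W s) (gd X W s))
      MeasureTheory.volume 0 (2 * Real.pi) :=
    (continuous_const.mul (so_bil_cont k hk X W hXW)).intervalIntegrable _ _
  rw [← intervalIntegral.integral_const_mul, ← intervalIntegral.integral_const_mul,
    ← intervalIntegral.integral_add i1 i2]
  exact intervalIntegral.integral_congr fun s _ => so_bil_lin h k a b _ _ _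

/-- the round metric, as a field -/
private noncomputable def soP : Ten d := fun x i j => (if i = j then 1 else 0) - x i * x j / (x ⬝ᵥ x)

private theorem so_bilP (x v w : V d) :
    bil (soP x) v w = v ⬝ᵥ w - (x ⬝ᵥ v) * (x ⬝ᵥ w) / (x ⬝ᵥ x) := by
  have h1 : bil (soP x) v w = (∑ i, ∑ j, (if i = j then (1 : ℝ) else 0) * (v i * w j)) -
      ∑ i, ∑ j, x i * x j / (x ⬝ᵥ x) * (v i * w j) := by
    simp only [bil, soP, sub_mul, Finset.sum_sub_distrib]
  have h2 : ∑ i, ∑ j, (if i = j then (1 : ℝ) else 0) * (v i * w j) = v ⬝ᵥ w := by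
    simp [dotProduct]
  have h3 : ∑ i, ∑ j, x i * x j / (x ⬝ᵥ x) * (v i * w j) =
      (x ⬝ᵥ v) * (x ⬝ᵥ w) / (x ⬝ᵥ x) := by
    have h4 : (x ⬝ᵥ v) * (x ⬝ᵥ w) = ∑ i, ∑ j, x i * v i * (x j * w j) := by
      simp only [dotProduct, Finset.sum_mul_sum]
    rw [h4, Finset.sum_div]
    refine Finset.sum_congr rfl fun i _ => ?_
    rw [Finset.sum_div]
    exact Finset.sum_congr rfl fun j _ => by ring
  rw [h1, h2, h3]

private theorem so_dot_pos {x : V d} (hx : x ≠ 0) : 0 < x ⬝ᵥ x :=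
  (pow_pos (norm_pos_iff.2 hx) 2).trans_le (norm_sq_le_dot x)

private theorem so_P_fld : Fld (soP (d := d)) := by
  refine ⟨?_, ?_, ?_, ?_⟩
  · refine contDiffOn_pi.2 fun i => contDiffOn_pi.2 fun j => ?_
    have h1 : ∀ i : Fin (d + 1), ContDiff ℝ ∞ fun x : V d => x i := fun i => contDiff_apply ℝ ℝ i
    have h2 : ContDiff ℝ ∞ fun x : V d => x ⬝ᵥ x := by
      unfold dotProduct
      exact ContDiff.sum fun i _ => (h1 i).mul (h1 i)
    exact contDiffOn_const.sub (((h1 i).mul (h1 j)).contDiffOn.div h2.contDiffOn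
      fun x hx => (so_dot_pos hx).ne')
  · intro x i j
    simp only [soP]
    rw [mul_comm (x i) (x j)]
    simp only [eq_comm]
  · intro c x hc
    funext i j
    simp only [soP, Pi.smul_apply, smul_eq_mul, smul_dotProduct, dotProduct_smul]
    congr 1
    by_cases hx : x ⬝ᵥ x = 0
    · simp [hx]
    · field_simp
  · intro x v
    rw [so_bilP]
    by_cases hx : x ⬝ᵥ x = 0
    · have hx0 : x = 0 := by
        by_contra hne
        exact (so_dot_pos hne).ne' hx
      rw [hx0]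
      simp
    · field_simp
      ring

private theorem so_phiP (X W : V d) (hXW : Orth X W) : Phi (soP (d := d)) X W = 2 * Real.pi := by
  unfold Phi
  have h1 : ∀ s, bil (soP (gc X W s)) (gd X W s) (gd X W s) = 1 := by
    intro s
    obtain ⟨h1, h2, h3⟩ := so_dots X W hXW s
    rw [so_bilP, h2, h3]
    simp
  simp only [h1]
  rw [intervalIntegral.integral_const, sub_zero, smul_eq_mul, mul_one]

private theorem so_arith {C a b δ : ℝ} (hC : 0 < C) (hδ : 0 < δ)
    (h : ∀ t : ℝ, 0 < t → t ≤ δ → t ^ 2 * |a - b| ≤ C * t ^ 3) : a = b := by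
  by_contra hne
  have hab : 0 < |a - b| := abs_pos.2 (sub_ne_zero.2 hne)
  have ht0 : 0 < min δ (|a - b| / (2 * C)) := lt_min hδ (by positivity)
  have h1 := h _ ht0 (min_le_left _ _)
  have h2 : min δ (|a - b| / (2 * C)) ≤ |a - b| / (2 * C) := min_le_right _ _
  generalize min δ (|a - b| / (2 * C)) = t at ht0 h1 h2
  have h3 : |a - b| ≤ C * t := by
    have h4 : t ^ 2 * |a - b| ≤ t ^ 2 * (C * t) := by linarith [h1, show t ^ 2 * (C * t) = C * t ^ 3 by ring]
    exact le_of_mul_le_mul_left h4 (by positivity)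
  rw [le_div_iff₀ (by positivity)] at h2
  linarith

private theorem so_const (hd : 1 ≤ d) (ε : ℝ) (G : ℝ → Ten d) (N : Nice ε G) (h : Ten d)
    (hh : Fld h) (ho : OddF h)
    (hder : ∀ x, x ≠ 0 → ∀ i j, HasDerivAt (fun t => G t x i j) (h x i j) 0)
    (X W X' W' : V d) (hXW : Orth X W) (hXW' : Orth X' W') :
    (1 / 2) * (∫ s in (0 : ℝ)..(2 * Real.pi), Eul h (gc X W s) (gd X W s) ⬝ᵥ Yf h X W s) +
          (1 / 4) * Phi (Gdd G) X W =
    (1 / 2) * (∫ s in (0 : ℝ)..(2 * Real.pi), Eul h (gc X' W' s) (gd X' W' s) ⬝ᵥ Yf h X' W' s) +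
          (1 / 4) * Phi (Gdd G) X' W' := by
  obtain ⟨C₀, hC₀, t₀, ht₀, ht₀ε, hper⟩ := period hd ε G N
  obtain ⟨C₁, hC₁, t₁, ht₁, -, h1⟩ := dlt ε G N h hh ho hder X W hXW C₀
  obtain ⟨C₂, hC₂, t₂, ht₂, -, h2⟩ := expE ε G N h hh ho hder X W hXW
  obtain ⟨C₃, hC₃, t₃, ht₃, -, h3⟩ := dlt ε G N h hh ho hder X' W' hXW' C₀
  obtain ⟨C₄, hC₄, t₄, ht₄, -, h4⟩ := expE ε G N h hh ho hder X' W' hXW'
  refine so_arith (C := C₁ + C₂ + C₃ + C₄) (δ := min t₀ (min (min t₁ t₂) (min t₃ t₄)))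
    (by positivity) (lt_min ht₀ (lt_min (lt_min ht₁ ht₂) (lt_min ht₃ ht₄))) fun t ht hle => ?_
  rw [le_min_iff, le_min_iff, le_min_iff, le_min_iff] at hle
  obtain ⟨l0, ⟨l1, l2⟩, l3, l4⟩ := hle
  have habs : |t| = t := abs_of_pos ht
  obtain ⟨L, hL, hL'⟩ := hper t (by rw [habs]; exact l0)
  have g1 := h1 t (by rw [habs]; exact l1) L hL hL'
  have g2 := h2 t (by rw [habs]; exact l2)
  have g3 := h3 t (by rw [habs]; exact l3) L hL hL'
  have g4 := h4 t (by rw [habs]; exact l4)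
  rw [habs] at g1 g2 g3 g4
  rw [abs_le] at g1 g2 g3 g4
  have ht2 : (0 : ℝ) ≤ t ^ 2 := by positivity
  generalize (1 / 2) * (∫ s in (0 : ℝ)..(2 * Real.pi), Eul h (gc X W s) (gd X W s) ⬝ᵥ Yf h X W s) +
    (1 / 4) * Phi (Gdd G) X W = A at g2 ⊢
  generalize (1 / 2) * (∫ s in (0 : ℝ)..(2 * Real.pi),
    Eul h (gc X' W' s) (gd X' W' s) ⬝ᵥ Yf h X' W' s) + (1 / 4) * Phi (Gdd G) X' W' = B at g4 ⊢
  have h5 : t ^ 2 * |A - B| = |t ^ 2 * A - t ^ 2 * B| := by
    rw [← _root_.mul_sub, abs_mul, abs_of_nonneg ht2]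
  rw [h5, abs_le]
  constructor
  · linarith [g1.1, g1.2, g2.1, g2.2, g3.1, g3.2, g4.1, g4.2]
  · linarith [g1.1, g1.2, g2.1, g2.2, g3.1, g3.2, g4.1, g4.2]

theorem so (hd : 1 ≤ d) (h : Ten d) (hh : Fld h) (ho : OddF h) (hT : InT h) :
    ∃ K : Ten d, Fld K ∧ ∀ X W : V d, Orth X W →
      ∫ s in (0 : ℝ)..(2 * Real.pi), Eul h (gc X W s) (gd X W s) ⬝ᵥ Yf h X W s = Phi K X W := by
  obtain ⟨ε, G, N, hder⟩ := nice_of_InT h hh hT
  obtain ⟨K₂, hK₂, hK₂'⟩ := Gdd_fld ε G N
  by_cases hex : ∃ X W : V d, Orth X W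
  · obtain ⟨X₀, W₀, h₀⟩ := hex
    obtain ⟨lam, hlam⟩ : ∃ lam : ℝ, lam = (1 / 2) * (∫ s in (0 : ℝ)..(2 * Real.pi),
        Eul h (gc X₀ W₀ s) (gd X₀ W₀ s) ⬝ᵥ Yf h X₀ W₀ s) + (1 / 4) * Phi (Gdd G) X₀ W₀ := ⟨_, rfl⟩
    refine ⟨fun x i j => (lam / Real.pi) * soP x i j + (-(1 / 2)) * K₂ x i j,
      so_fld_lin _ _ so_P_fld hK₂ _ _, fun X W hXW => ?_⟩
    have h1 := so_const hd ε G N h hh ho hder X W X₀ W₀ hXW h₀
    rw [← hlam] at h1
    have h2 : Phi (Gdd G) X W = Phi K₂ X W := by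
      unfold Phi
      refine intervalIntegral.integral_congr fun s _ => ?_
      show bil (Gdd G (gc X W s)) _ _ = bil (K₂ (gc X W s)) _ _
      rw [hK₂' _ (so_gc_ne X W hXW s)]
    rw [so_phi_lin _ _ so_P_fld hK₂ _ _ X W hXW, so_phiP X W hXW, ← h2]
    have h3 : lam / Real.pi * (2 * Real.pi) = 2 * lam := by
      have := Real.pi_ne_zero
      field_simp
    rw [h3]
    linarith
  · exact ⟨K₂, hK₂, fun X W hXW => absurd ⟨X, W, hXW⟩ hex⟩

private theorem so_eul_cont (h : Ten d) (hh : Fld h) (X W : V d) (hXW : Orth X W) :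
    Continuous fun s => Eul h (gc X W s) (gd X W s) := by
  have h1 := (Eul_smooth h {0}ᶜ isOpen_compl_singleton hh).continuousOn
  have h2 : Continuous fun s => ((gc X W s, gd X W s) : V d × V d) :=
    (so_gc_cont X W).prodMk (so_gd_cont X W)
  have h3 : ∀ s, ((gc X W s, gd X W s) : V d × V d) ∈ ({0}ᶜ : Set (V d)) ×ˢ Set.univ := fun s =>
    Set.mk_mem_prod (Set.mem_compl_singleton_iff.2 (so_gc_ne X W hXW s)) (Set.mem_univ _)
  have h4 := h1.comp_continuous h2 h3
  exact h4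

private theorem so_int (h k : Ten d) (hh : Fld h) (hk : Fld k) (ok : OddF k) (X W : V d)
    (hXW : Orth X W) : IntervalIntegrable
      (fun s => Eul h (gc X W s) (gd X W s) ⬝ᵥ Yf k X W s) MeasureTheory.volume 0
      (2 * Real.pi) := by
  have h1 := so_eul_cont h hh X W hXW
  have h2 : Continuous (Yf k X W) := (Yf_smooth k hk X W hXW ok).continuous
  have h3 : Continuous fun s => Eul h (gc X W s) (gd X W s) ⬝ᵥ Yf k X W s := by
    unfold dotProduct
    exact continuous_finsetSum _ fun i _ => ((continuous_apply i).comp h1).mul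
      ((continuous_apply i).comp h2)
  exact h3.intervalIntegrable _ _

theorem thmA (hd : 1 ≤ d) (h k : Ten d) (hh : Fld h) (hk : Fld k) (oh : OddF h) (ok : OddF k) (hT : InT h)
    (kT : InT k) (hkT : InT (fun x i j => h x i j + k x i j)) :
    ∃ K : Ten d, Fld K ∧ ∀ X W : V d, Orth X W →
      ∫ s in (0 : ℝ)..(2 * Real.pi), Eul h (gc X W s) (gd X W s) ⬝ᵥ Yf k X W s = Phi K X W := by
  have hhk : Fld (fun x i j => h x i j + k x i j) := by
    have h1 := so_fld_lin h k hh hk 1 1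
    simp only [one_mul] at h1
    exact h1
  have ohk : OddF (fun x i j => h x i j + k x i j) := by
    intro x i j
    show h (-x) i j + k (-x) i j = -(h x i j + k x i j)
    rw [oh, ok, neg_add]
  obtain ⟨K₁, hK₁, e1⟩ := so hd h hh oh hT
  obtain ⟨K₂, hK₂, e2⟩ := so hd k hk ok kT
  obtain ⟨K₃, hK₃, e3⟩ := so hd _ hhk ohk hkT
  have hK₁₂ := so_fld_lin K₁ K₂ hK₁ hK₂ 1 1
  refine ⟨_, so_fld_lin K₃ _ hK₃ hK₁₂ (1 / 2) (-(1 / 2)), fun X W hXW => ?_⟩
  rw [so_phi_lin K₃ _ hK₃ hK₁₂ _ _ X W hXW, so_phi_lin K₁ K₂ hK₁ hK₂ _ _ X W hXW, ← e1 X W hXW,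
    ← e2 X W hXW, ← e3 X W hXW]
  have h1 : ∫ s in (0 : ℝ)..(2 * Real.pi),
      Eul (fun x i j => h x i j + k x i j) (gc X W s) (gd X W s) ⬝ᵥ
        Yf (fun x i j => h x i j + k x i j) X W s =
      ((∫ s in (0 : ℝ)..(2 * Real.pi), Eul h (gc X W s) (gd X W s) ⬝ᵥ Yf h X W s) +
        ∫ s in (0 : ℝ)..(2 * Real.pi), Eul h (gc X W s) (gd X W s) ⬝ᵥ Yf k X W s) +
      ((∫ s in (0 : ℝ)..(2 * Real.pi), Eul k (gc X W s) (gd X W s) ⬝ᵥ Yf h X W s) +
        ∫ s in (0 : ℝ)..(2 * Real.pi), Eul k (gc X W s) (gd X W s) ⬝ᵥ Yf k X W s) := by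
    rw [← intervalIntegral.integral_add (so_int h h hh hh oh X W hXW) (so_int h k hh hk ok X W hXW),
      ← intervalIntegral.integral_add (so_int k h hk hh oh X W hXW) (so_int k k hk hk ok X W hXW),
      ← intervalIntegral.integral_add
        ((so_int h h hh hh oh X W hXW).add (so_int h k hh hk ok X W hXW))
        ((so_int k h hk hh oh X W hXW).add (so_int k k hk hk ok X W hXW))]
    refine intervalIntegral.integral_congr fun s _ => ?_
    show Eul (fun x i j => h x i j + k x i j) (gc X W s) (gd X W s) ⬝ᵥ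
        Yf (fun x i j => h x i j + k x i j) X W s = _
    rw [Eul_add h k hh hk _ (so_gc_ne X W hXW s), Yf_add h k hh hk X W hXW s, add_dotProduct,
      dotProduct_add, dotProduct_add]
  rw [h1, ← sym h k hh hk oh ok X W hXW]
  ring

end Pool.Agent.Work.MP_659252_gt.QR
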